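import Pool.Agent.H371.SA.Defs

/-! TASK P: finite subgroups of `GL_m(ℤ)` of order `p^K K!`. -/

set_option autoImplicit false

namespace Pool.Agent.H371.SA

namespace Px

section wreath
variable (K : ℕ) {C : Type} [Group C] {V : Type} [AddCommGroup V]

/-- permutation action on functions -/
def act : Equiv.Perm (Fin K) →* MulAut (Fin K → C) where
  toFun σ := 
    { toFun := fun c i => c (σ⁻¹ i)
      invFun := fun c i => c (σ i)
      left_inv := by intro c; funext i; simp
      right_inv := by intro c; funext i; simp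
      map_mul' := by intro c d; rfl }
  map_one' := by ext c i; simp
  map_mul' σ τ := by ext c i; simp

/-- the action of the base group -/
def f1 (ρ : C →* (V ≃ₗ[ℤ] V)) : (Fin K → C) →* ((Fin K → V) ≃ₗ[ℤ] (Fin K → V)) where
  toFun c := 
    { toFun := fun v i => ρ (c i) (v i)
      invFun := fun v i => ρ (c i)⁻¹ (v i)
      left_inv := by
        intro v; funext i
        change (ρ (c i)⁻¹ * ρ (c i)) (v i) = v i
        rw [← map_mul]; simp
      right_inv := by
        intro v; funext i
        change (ρ (c i) * ρ (c i)⁻¹) (v i) = v i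
        rw [← map_mul]; simp
      map_add' := by intro v w; funext i; simp
      map_smul' := by intro z v; funext i; simp }
  map_one' := by ext v i; simp
  map_mul' c d := by ext v i; simp

/-- the action of the permutations -/
def f2 (V : Type) [AddCommGroup V] : Equiv.Perm (Fin K) →* ((Fin K → V) ≃ₗ[ℤ] (Fin K → V)) where
  toFun σ := 
    { toFun := fun c i => c (σ⁻¹ i)
      invFun := fun c i => c (σ i)
      left_inv := by intro c; funext i; simp
      right_inv := by intro c; funext i; simp
      map_add' := by intro v w; funext i; simp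
      map_smul' := by intro z v; funext i; simp }
  map_one' := by ext c i; simp
  map_mul' σ τ := by ext c i; simp

/-- the action of the wreath product -/
def wr (ρ : C →* (V ≃ₗ[ℤ] V)) :
    SemidirectProduct (Fin K → C) (Equiv.Perm (Fin K)) (act K) →*
      ((Fin K → V) ≃ₗ[ℤ] (Fin K → V)) :=
  SemidirectProduct.lift (f1 K ρ) (f2 K V) (by
    intro σ
    ext c v i
    simp [f1, f2, act])

theorem wr_apply (ρ : C →* (V ≃ₗ[ℤ] V)) 
    (x : SemidirectProduct (Fin K → C) (Equiv.Perm (Fin K)) (act K)) (v : Fin K → V) (i : Fin K) :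
    wr K ρ x v i = ρ (x.left i) (v (x.right⁻¹ i)) := rfl

theorem wr_inj (ρ : C →* (V ≃ₗ[ℤ] V)) (hρ : Function.Injective ρ) [Nontrivial V] :
    Function.Injective (wr K ρ) := by
  classical
  rw [injective_iff_map_eq_one]
  intro x hx
  have h1 : ∀ (v : Fin K → V) (i : Fin K), ρ (x.left i) (v (x.right⁻¹ i)) = v i := by
    intro v i
    rw [← wr_apply, hx]; rfl
  have h2 : x.right = 1 := by
    ext j
    obtain ⟨w, hw⟩ := exists_ne (0 : V)
    by_contra hne
    have h3 := h1 (Pi.single j w) (x.right j)
    rw [show x.right⁻¹ (x.right j) = j from by simp, Pi.single_eq_same, Pi.single_eq_of_ne] at h3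
    · exact hw (by simpa using h3)
    · intro h4
      apply hne
      simp [h4]
  have h3 : x.left = 1 := by
    funext i
    apply hρ
    ext w
    have h4 := h1 (fun _ => w) i
    rw [h4]; simp
  exact SemidirectProduct.ext h3 h2

theorem card_wr : Nat.card (SemidirectProduct (Fin K → C) (Equiv.Perm (Fin K)) (act K)) =
    Nat.card C ^ K * K.factorial := by
  rw [Nat.card_congr SemidirectProduct.equivProd, Nat.card_prod, Nat.card_fun, Nat.card_perm]
  simp

end wreath

section lattice
variable (p : ℕ) [NeZero p]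

/-- the sum of the coordinates -/
def sm : (ZMod p → ℤ) →ₗ[ℤ] ℤ where
  toFun f := ∑ i, f i
  map_add' f g := by simp [Finset.sum_add_distrib]
  map_smul' z f := by simp [Finset.mul_sum]

/-- the sum-zero lattice -/
abbrev V : Submodule ℤ (ZMod p → ℤ) := LinearMap.ker (sm p)

theorem finrank_V : Module.finrank ℤ (V p) = p - 1 := by
  have h1 := Submodule.finrank_quotient_add_finrank (LinearMap.ker (sm p))
  have h2 : Function.Surjective (sm p) := by
    intro z
    refine ⟨Pi.single 0 z, ?_⟩
    simp [sm]
  rw [((sm p).quotKerEquivOfSurjective h2).finrank_eq, Module.finrank_self,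
    Module.finrank_pi, ZMod.card] at h1
  change 1 + Module.finrank ℤ (V p) = p at h1
  omega

/-- the cyclic shift -/
def sh : Multiplicative (ZMod p) →* (V p ≃ₗ[ℤ] V p) where
  toFun c := 
    { toFun := fun f => ⟨fun x => f.1 (x + c.toAdd), by
        have := f.2
        rw [LinearMap.mem_ker] at this ⊢
        rw [← this]
        exact Equiv.sum_comp (Equiv.addRight c.toAdd) f.1⟩
      invFun := fun f => ⟨fun x => f.1 (x - c.toAdd), by
        have := f.2
        rw [LinearMap.mem_ker] at this ⊢
        rw [← this]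
        exact Equiv.sum_comp (Equiv.subRight c.toAdd) f.1⟩
      left_inv := by intro f; ext x; simp
      right_inv := by intro f; ext x; simp
      map_add' := by intro f g; rfl
      map_smul' := by intro z f; rfl }
  map_one' := by ext f x; simp
  map_mul' c d := by
    ext f x
    change f.1 (x + (c * d).toAdd) = f.1 (x + c.toAdd + d.toAdd)
    rw [toAdd_mul, add_assoc]

variable (hp : 2 ≤ p)
include hp

/-- a test vector -/
theorem exists_test : ∃ f : V p, f.1 0 = 1 ∧ ∀ x, f.1 x = 1 → x = 0 := by
  have : Fact (1 < p) := ⟨hp⟩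
  refine ⟨⟨Pi.single 0 1 - Pi.single 1 1, ?_⟩, ?_, ?_⟩
  · rw [LinearMap.mem_ker, map_sub]
    simp [sm]
  · simp
  · intro x hx
    by_contra hne
    change (Pi.single 0 1 : ZMod p → ℤ) x - (Pi.single 1 1 : ZMod p → ℤ) x = 1 at hx
    rw [Pi.single_eq_of_ne hne] at hx
    by_cases h1 : x = 1
    · subst h1; simp at hx
    · rw [Pi.single_eq_of_ne h1] at hx
      simp at hx

theorem nontrivial_V : Nontrivial (V p) := by
  obtain ⟨f, hf, -⟩ := exists_test p hp
  refine ⟨f, 0, ?_⟩
  rintro rfl
  simp at hf

theorem sh_inj : Function.Injective (sh p) := by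
  rw [injective_iff_map_eq_one]
  intro c hc
  obtain ⟨f, hf, hf2⟩ := exists_test p hp
  have h1 : f.1 (0 + c.toAdd) = f.1 0 := by
    change (sh p c f).1 0 = f.1 0
    rw [hc]; rfl
  rw [hf] at h1
  have h2 := hf2 _ h1
  rw [zero_add] at h2
  exact toAdd_eq_zero.1 h2

end lattice

end Px

theorem exists_finite_subgroup (p m K : ℕ) (hp : 2 ≤ p) (h : K * (p - 1) ≤ m) :
    ∃ H : Subgroup (Matrix.GeneralLinearGroup (Fin m) ℤ), Finite H ∧
      Nat.card H = p ^ K * K.factorial := by
  have : NeZero p := ⟨by omega⟩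
  have := Px.nontrivial_V p hp
  obtain ⟨r, rfl⟩ := Nat.exists_eq_add_of_le h
  -- the big lattice
  have hfin : Module.finrank ℤ ((Fin K → Px.V p) × (Fin r → ℤ)) =
      Module.finrank ℤ (Fin (K * (p - 1) + r) → ℤ) := by
    rw [Module.finrank_prod, Module.finrank_pi, Module.finrank_pi, Module.finrank_pi_fintype]
    simp [Px.finrank_V]
  obtain ⟨e⟩ := FiniteDimensional.nonempty_linearEquiv_of_finrank_eq hfin
  let W := SemidirectProduct (Fin K → Multiplicative (ZMod p)) (Equiv.Perm (Fin K)) (Px.act K)
  let w : W →* ((Fin K → Px.V p) ≃ₗ[ℤ] (Fin K → Px.V p)) := Px.wr K (Px.sh p)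
  have hw : Function.Injective w := Px.wr_inj K _ (Px.sh_inj p hp)
  let L := (Fin K → Px.V p) × (Fin r → ℤ)
  -- extension by the identity
  let g : ((Fin K → Px.V p) ≃ₗ[ℤ] (Fin K → Px.V p)) →* (L ≃ₗ[ℤ] L) :=
    { toFun := fun a => LinearEquiv.prodCongr a (LinearEquiv.refl ℤ _)
      map_one' := rfl
      map_mul' := fun a b => rfl }
  have hg : Function.Injective g := by
    intro a b hab
    ext v : 1
    have h1 : (g a (v, 0)).1 = (g b (v, 0)).1 := by rw [hab]
    exact h1
  let k : (L ≃ₗ[ℤ] L) ≃* Matrix.GeneralLinearGroup (Fin (K * (p - 1) + r)) ℤ :=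
    ((LinearMap.GeneralLinearGroup.generalLinearEquiv ℤ L).symm.trans
      (LinearMap.GeneralLinearGroup.congrLinearEquiv e)).trans
      (Matrix.GeneralLinearGroup.toLin).symm
  let F : W →* Matrix.GeneralLinearGroup (Fin (K * (p - 1) + r)) ℤ :=
    (k : (L ≃ₗ[ℤ] L) →* _).comp (g.comp w)
  have hF : Function.Injective F := k.injective.comp (hg.comp hw)
  have : Finite W := Finite.of_equiv _ (SemidirectProduct.equivProd).symm
  refine ⟨F.range, Finite.of_surjective F.rangeRestrict F.rangeRestrict_surjective, ?_⟩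
  rw [← Nat.card_congr (Equiv.ofBijective F.rangeRestrict
    ⟨F.rangeRestrict_injective_iff.2 hF, F.rangeRestrict_surjective⟩), Px.card_wr]
  rw [Nat.card_congr Multiplicative.toAdd, Nat.card_zmod]

end Pool.Agent.H371.SA
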