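import Pool.Agent.H371.SA.Defs

set_option autoImplicit false

namespace Pool.Agent.H371.SA

namespace Ox

open Polynomial

variable {p : ℕ} [hp : Fact p.Prime]

theorem eis (n : ℕ) :
    ((cyclotomic (p ^ (n + 1)) ℤ_[p]).comp (X + 1)).IsEisensteinAt
      (Ideal.span {(p : ℤ_[p])}) := by
  have h := cyclotomic_prime_pow_comp_X_add_one_isEisensteinAt p n
  have e : (cyclotomic (p ^ (n + 1)) ℤ_[p]).comp (X + 1) =
      ((cyclotomic (p ^ (n + 1)) ℤ).comp (X + 1)).map (Int.castRingHom ℤ_[p]) := by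
    rw [Polynomial.map_comp, map_cyclotomic]; simp
  have hm : ((cyclotomic (p ^ (n + 1)) ℤ).comp (X + 1)).Monic := by
    rw [show (X + 1 : ℤ[X]) = X + C 1 by simp]
    refine (cyclotomic.monic _ ℤ).comp (monic_X_add_C 1) fun h => ?_
    rw [natDegree_X_add_C] at h
    exact zero_ne_one h.symm
  have hm' : ((cyclotomic (p ^ (n + 1)) ℤ_[p]).comp (X + 1)).Monic := by
    rw [e]; exact hm.map _
  have hpp : Prime (p : ℤ_[p]) := PadicInt.prime_p
  have hne : (Ideal.span {(p : ℤ_[p])}) ≠ ⊤ := by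
    rw [Ne, Ideal.span_singleton_eq_top]; exact hpp.not_isUnit
  refine ⟨?_, ?_, ?_⟩
  · rw [hm'.leadingCoeff]
    intro h1
    exact hne ((Ideal.eq_top_iff_one _).2 h1)
  · intro k hk
    rw [e, hm.natDegree_map] at hk
    have := h.mem hk
    rw [e, coeff_map, Ideal.mem_span_singleton]
    obtain ⟨c, hc⟩ := Ideal.mem_span_singleton.1 (show _ ∈ Ideal.span {(p : ℤ)} from this)
    rw [hc]
    exact ⟨(c : ℤ_[p]), by simp⟩
  · rw [coeff_zero_eq_eval_zero, eval_comp]
    simp only [eval_add, eval_X, eval_one, zero_add]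
    rw [eval_one_cyclotomic_prime_pow]
    rw [Ideal.span_singleton_pow, Ideal.mem_span_singleton]
    intro h2
    have h3 : (p : ℤ_[p]) * 1 = p := mul_one _
    obtain ⟨c, hc⟩ := h2
    have h4 : (p : ℤ_[p]) * 1 = p * (p * c) := by rw [h3]; linear_combination hc
    have h5 := mul_left_cancel₀ hpp.ne_zero h4
    exact hpp.not_isUnit (IsUnit.of_mul_eq_one c h5.symm)

/-- the cyclotomic polynomials of `p`-power order are irreducible over `ℚ_[p]` -/
theorem irr (n : ℕ) : Irreducible (cyclotomic (p ^ n) ℚ_[p]) := by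
  rcases n with _ | n
  · rw [pow_zero, cyclotomic_one, ← C_1]
    exact irreducible_X_sub_C 1
  have hpp : Prime (p : ℤ_[p]) := PadicInt.prime_p
  have hprime : (Ideal.span {(p : ℤ_[p])}).IsPrime :=
    (Ideal.span_singleton_prime hpp.ne_zero).2 hpp
  have hm : ((cyclotomic (p ^ (n + 1)) ℤ_[p]).comp (X + 1)).Monic := by
    rw [show (X + 1 : ℤ_[p][X]) = X + C 1 by simp]
    refine (cyclotomic.monic _ _).comp (monic_X_add_C 1) fun h => ?_
    rw [natDegree_X_add_C] at h
    exact zero_ne_one h.symm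
  have hd : 0 < ((cyclotomic (p ^ (n + 1)) ℤ_[p]).comp (X + 1)).natDegree := by
    rw [natDegree_comp, natDegree_cyclotomic, show (X + 1 : ℤ_[p][X]) = X + C 1 by simp,
      natDegree_X_add_C, mul_one]
    exact Nat.totient_pos.2 (pow_pos hp.out.pos _)
  have h1 := (eis (p := p) n).irreducible hprime hm.isPrimitive hd
  have h2 : Irreducible (cyclotomic (p ^ (n + 1)) ℤ_[p]) := by
    have e2 : (cyclotomic (p ^ (n + 1)) ℤ_[p]).comp (X + 1) =
        algEquivAevalXAddC (1 : ℤ_[p]) (cyclotomic (p ^ (n + 1)) ℤ_[p]) := by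
      simp [comp, aeval_def, algebraMap_eq]
    rw [e2] at h1
    exact (MulEquiv.irreducible_iff (algEquivAevalXAddC (1 : ℤ_[p]))).1 h1
  have h3 := ((cyclotomic.monic (p ^ (n + 1)) ℤ_[p]).irreducible_iff_irreducible_map_fraction_map
    (K := ℚ_[p])).1 h2
  rwa [map_cyclotomic] at h3

theorem coeff_cyc (F : Type) [Field F] (n k : ℕ) :
    (cyclotomic (p ^ (n + 1)) F).coeff k = ∑ i ∈ Finset.range p, if k = p ^ n * i then 1 else 0 := by
  rw [cyclotomic_prime_pow_eq_geom_sum hp.out, finsetSum_coeff]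
  refine Finset.sum_congr rfl fun i _ => ?_
  rw [← pow_mul, coeff_X_pow]

/-- the numbers attached to the cyclotomic polynomials -/
theorem cyc_data (F : Type) [Field F] [CharZero F] (n : ℕ) :
    ∃ κ : ℕ, ((cyclotomic (p ^ n) F).natDegree : F) + (cyclotomic (p ^ n) F).nextCoeff = p * κ ∧
      κ * (p - 1) ≤ (cyclotomic (p ^ n) F).natDegree ∧ (κ = 0 → cyclotomic (p ^ n) F = X - 1) := by
  have h2 := hp.out.two_le
  rcases n with _ | _ | n
  · refine ⟨0, ?_, by simp, fun _ => by simp⟩
    rw [pow_zero, cyclotomic_one, ← C_1, natDegree_X_sub_C, nextCoeff_X_sub_C]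
    simp
  · refine ⟨1, ?_, ?_, by simp⟩
    · have hd : (cyclotomic (p ^ (0 + 1)) F).natDegree = p - 1 := by
        rw [natDegree_cyclotomic, zero_add, pow_one, Nat.totient_prime hp.out]
      rw [nextCoeff_of_natDegree_pos (by rw [hd]; omega), hd, coeff_cyc,
        Finset.sum_eq_single (p - 1 - 1)]
      · simp only [pow_zero, one_mul, if_true]
        rw [Nat.cast_sub (by omega)]
        simp
      · intro b _ hb
        rw [if_neg (by simpa using fun h => hb h.symm)]
      · intro h
        exact absurd (Finset.mem_range.2 (by omega)) h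
    · rw [natDegree_cyclotomic, zero_add, pow_one, Nat.totient_prime hp.out, one_mul]
  · have hpn : 0 < p ^ n := pow_pos hp.out.pos n
    have hd : (cyclotomic (p ^ (n + 1 + 1)) F).natDegree = p ^ (n + 1) * (p - 1) := by
      rw [natDegree_cyclotomic, Nat.totient_prime_pow_succ hp.out]
    refine ⟨p ^ n * (p - 1), ?_, ?_, ?_⟩
    · have hpos : 0 < p ^ (n + 1) * (p - 1) :=
        Nat.mul_pos (pow_pos hp.out.pos _) (by omega)
      rw [nextCoeff_of_natDegree_pos (by rw [hd]; exact hpos), hd, coeff_cyc,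
        Finset.sum_eq_zero]
      · rw [add_zero, pow_succ]; push_cast; ring
      · intro i _
        rw [if_neg]
        intro h
        have h3 : p ^ (n + 1) ∣ p ^ (n + 1) * (p - 1) - 1 := ⟨i, h⟩
        have h4 : p ^ (n + 1) ∣ 1 := by
          have := (Nat.dvd_sub_iff_right (by omega) (Dvd.intro (p - 1) rfl)).1 h3
          exact this
        have h5 : p ^ (n + 1) = 1 := Nat.dvd_one.1 h4
        have h6 : 1 < p ^ (n + 1) := Nat.one_lt_pow (by omega) (by omega)
        omega
    · rw [hd, pow_succ]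
      have : p ^ n * (p - 1) * (p - 1) ≤ p ^ n * p * (p - 1) := by
        apply Nat.mul_le_mul_right
        apply Nat.mul_le_mul_left
        omega
      exact this
    · intro h
      have : 0 < p ^ n * (p - 1) := Nat.mul_pos hpn (by omega)
      omega

omit hp in
/-- products -/
theorem multi (F : Type) [Field F] [CharZero F] (s : Multiset F[X]) (hm : ∀ q ∈ s, q.Monic)
    (hs : ∀ q ∈ s, ∃ κ : ℕ, (q.natDegree : F) + q.nextCoeff = p * κ ∧ κ * (p - 1) ≤ q.natDegree ∧
      (κ = 0 → q = X - 1)) :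
    s.prod.Monic ∧ ∃ k : ℕ, (s.prod.natDegree : F) + s.prod.nextCoeff = p * k ∧
      k * (p - 1) ≤ s.prod.natDegree ∧ (k = 0 → s.prod = (X - 1) ^ Multiset.card s) := by
  induction s using Multiset.induction with
  | empty => exact ⟨by simp [monic_one], 0, by simp [nextCoeff], by simp, by simp⟩
  | cons q s ih =>
    obtain ⟨h1, k, h2, h3, h4⟩ := ih (fun r hr => hm r (Multiset.mem_cons_of_mem hr))
      (fun r hr => hs r (Multiset.mem_cons_of_mem hr))
    obtain ⟨κ, h5, h6, h7⟩ := hs q (Multiset.mem_cons_self q s)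
    have hq := hm q (Multiset.mem_cons_self q s)
    rw [Multiset.prod_cons]
    refine ⟨hq.mul h1, κ + k, ?_, ?_, ?_⟩
    · rw [hq.natDegree_mul h1, hq.nextCoeff_mul h1]
      push_cast
      linear_combination h2 + h5
    · rw [hq.natDegree_mul h1, add_mul]
      omega
    · intro h0
      have : κ = 0 := by omega
      have : k = 0 := by omega
      rw [h7 ‹_›, h4 ‹_›, Multiset.card_cons]
      ring

theorem eig {F : Type} [Field F] {m : ℕ} (T : Matrix (Fin m) (Fin m) F) (N : ℕ) (hT : T ^ N = 1)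
    (q : F[X]) (hq : Irreducible q) (hqm : q.Monic) (hd : q ∣ T.charpoly) : q ∣ X ^ N - 1 := by
  classical
  let K := AlgebraicClosure F
  obtain ⟨l, hl⟩ := IsAlgClosed.exists_aeval_eq_zero K q (degree_pos_of_irreducible hq).ne'
  have h1 : IsRoot (T.map (algebraMap F K)).charpoly l := by
    rw [Matrix.charpoly_map, IsRoot.def, eval_map_algebraMap]
    obtain ⟨r, hr⟩ := hd
    rw [hr, map_mul, hl, zero_mul]
  have h2 := Matrix.mem_spectrum_of_isRoot_charpoly h1
  have hm : 0 < m := by
    rcases Nat.eq_zero_or_pos m with h | h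
    · subst h
      exfalso
      have : T.charpoly = 1 := by simp [Matrix.charpoly]
      rw [this] at hd
      exact hq.not_isUnit (isUnit_of_dvd_one hd)
    · exact h
  have : Nonempty (Fin m) := ⟨⟨0, hm⟩⟩
  have h3 := spectrum.pow_mem_pow (T.map (algebraMap F K)) N h2
  have h4 : (T.map (algebraMap F K)) ^ N = 1 := by
    have := congrArg (fun M : Matrix (Fin m) (Fin m) F => M.map (algebraMap F K)) hT
    rw [Matrix.map_pow] at this
    rw [this]
    exact Matrix.map_one _ (map_zero _) (map_one _)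
  rw [h4, spectrum.one_eq, Set.mem_singleton_iff] at h3
  rw [minpoly.eq_of_irreducible_of_monic hq hl hqm]
  apply minpoly.dvd
  simp [h3]

end Ox

open Polynomial Ox in
theorem trace_torsion (p : ℕ) [Fact p.Prime] (m : ℕ) (t : Matrix (Fin m) (Fin m) ℤ_[p]) (a : ℕ)
    (ht : t ^ (p ^ a) = 1) (h1 : t ≠ 1) :
    ∃ k : ℕ, 1 ≤ k ∧ k * (p - 1) ≤ m ∧ t.trace = (m : ℤ_[p]) - p * k := by
  classical
  have hp : p.Prime := Fact.out
  set φ : ℤ_[p] →+* ℚ_[p] := PadicInt.Coe.ringHom with hφ
  have hφi : Function.Injective φ := Subtype.coe_injective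
  set T := t.map φ with hT
  have hTN : T ^ (p ^ a) = 1 := by
    have := congrArg (fun M : Matrix (Fin m) (Fin m) ℤ_[p] => M.map φ) ht
    rw [Matrix.map_pow] at this
    rw [hT, this]
    exact Matrix.map_one _ (map_zero _) (map_one _)
  have hT1 : T ≠ 1 := by
    intro h
    apply h1
    apply Matrix.map_injective hφi
    change t.map φ = (1 : Matrix (Fin m) (Fin m) ℤ_[p]).map φ
    rw [← hT, h]
    exact (Matrix.map_one _ (map_zero _) (map_one _)).symm
  set f := T.charpoly with hf
  have hfm : f.Monic := T.charpoly_monic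
  set s := UniqueFactorizationMonoid.normalizedFactors f with hs
  have hprod : s.prod = f := by
    have h2 := UniqueFactorizationMonoid.prod_normalizedFactors_eq hfm.ne_zero
    rw [← hs, hfm.normalize_eq_self] at h2
    exact h2
  have hsm : ∀ q ∈ s, q.Monic := fun q hq => by
    have h3 := UniqueFactorizationMonoid.normalize_normalized_factor q hq
    have h4 := (UniqueFactorizationMonoid.irreducible_of_normalized_factor q hq).ne_zero
    rw [← h3]
    exact monic_normalize h4
  have hsX : ∀ q ∈ s, q ∣ X ^ (p ^ a) - 1 := fun q hq =>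
    eig T (p ^ a) hTN q (UniqueFactorizationMonoid.irreducible_of_normalized_factor q hq)
      (hsm q hq) (UniqueFactorizationMonoid.dvd_of_mem_normalizedFactors hq)
  have hcyc : ∀ q ∈ s, ∃ n, q = cyclotomic (p ^ n) ℚ_[p] := by
    intro q hq
    have hqi := UniqueFactorizationMonoid.irreducible_of_normalized_factor q hq
    have h5 := hsX q hq
    rw [← prod_cyclotomic_eq_X_pow_sub_one (pow_pos hp.pos a)] at h5
    obtain ⟨d, hd, h6⟩ := (Prime.dvd_finsetProd_iff hqi.prime _).1 h5
    rw [Nat.mem_divisors, Nat.dvd_prime_pow hp] at hd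
    obtain ⟨⟨n, _, rfl⟩, _⟩ := hd
    refine ⟨n, ?_⟩
    exact eq_of_monic_of_associated (hsm q hq) (cyclotomic.monic _ _)
      (hqi.associated_of_dvd (irr n) h6)
  obtain ⟨_, k, hk1, hk2, hk3⟩ := multi (p := p) ℚ_[p] s hsm (fun q hq => by
    obtain ⟨n, rfl⟩ := hcyc q hq
    exact cyc_data ℚ_[p] n)
  rw [hprod] at hk1 hk2 hk3
  have hdeg : f.natDegree = m := by rw [hf, Matrix.charpoly_natDegree_eq_dim, Fintype.card_fin]
  rw [hdeg] at hk1 hk2
  refine ⟨k, ?_, hk2, ?_⟩
  · by_contra hk
    have hk0 : k = 0 := by omega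
    have h7 := hk3 hk0
    -- `T - 1` is nilpotent and `T` is annihilated by a separable polynomial
    apply hT1
    have h8 : minpoly ℚ_[p] T ∣ (X - 1) ^ Multiset.card s := by
      rw [← h7]; exact Matrix.minpoly_dvd_charpoly T
    have h9 : minpoly ℚ_[p] T ∣ X ^ (p ^ a) - 1 := by
      apply minpoly.dvd
      simp [hTN]
    have h10 : (X ^ (p ^ a) - 1 : ℚ_[p][X]).Separable := by
      have : ((p ^ a : ℕ) : ℚ_[p]) ≠ 0 := by
        exact_mod_cast pow_ne_zero a hp.ne_zero
      have h := separable_X_pow_sub_C (n := p ^ a) (1 : ℚ_[p]) this one_ne_zero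
      simpa using h
    have h11 : Squarefree (minpoly ℚ_[p] T) := h10.squarefree.squarefree_of_dvd h9
    have hX1 : (X - 1 : ℚ_[p][X]) = X - C 1 := by simp
    have h12 : minpoly ℚ_[p] T ∣ X - 1 :=
      (h11.dvd_pow_iff_dvd (Nat.succ_ne_zero (Multiset.card s))).1
        (h8.trans (pow_dvd_pow _ (Nat.le_succ _)))
    obtain ⟨r, hr⟩ := h12
    have h13 := congrArg (aeval T) hr
    rw [map_mul, minpoly.aeval, zero_mul] at h13
    simpa [sub_eq_zero] using h13
  · apply hφi
    rw [map_sub, map_mul]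
    simp only [map_natCast]
    have h7 : φ t.trace = T.trace := by
      rw [hT, Matrix.trace, Matrix.trace, map_sum]; rfl
    rw [h7, Matrix.trace_eq_neg_charpoly_nextCoeff, ← hf]
    linear_combination -hk1

end Pool.Agent.H371.SA
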