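import Mathlib

/-!
Definitions for the strong Atiyah conjecture for `GL_m(ℤ)`:
towers of finite quotients, completed group algebras, finite free resolutions, continuous
characters.
-/

set_option autoImplicit false

namespace Pool.Agent.H371.SA

/-! ### stably free modules and finite free resolutions (left modules over any ring) -/

/-- stably free of finite rank -/
def SF (R : Type) [Ring R] (M : Type) [AddCommGroup M] [Module R M] : Prop :=
  ∃ a b : ℕ, Nonempty ((M × (Fin a → R)) ≃ₗ[R] (Fin b → R))

/-- `M` has a finite free resolution of length `n` with a stably free last term -/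
def FFR (R : Type) [Ring R] : ℕ → (M : Type) → [AddCommGroup M] → [Module R M] → Prop
  | 0, M, _, _ => SF R M
  | n + 1, M, _, _ => ∃ (b : ℕ) (f : (Fin b → R) →ₗ[R] M), Function.Surjective f ∧
      FFR R n (LinearMap.ker f)

/-! ### deformations of power series rings -/

/-- the multiplication of `R` agrees with the one of the power series ring up to terms of higher
order -/
def Deform {k σ R : Type} [Field k] [Ring R] (e : R ≃+ MvPowerSeries σ k) : Prop :=
  ∀ (s t : ℕ) (a b : R), (s : ℕ∞) ≤ (e a).order → (t : ℕ∞) ≤ (e b).order →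
    ((s + t + 1 : ℕ) : ℕ∞) ≤ (e (a * b) - e a * e b).order

/-! ### towers -/

/-- a decreasing sequence of normal subgroups of finite index -/
structure Tower (G : Type) [Group G] where
  /-- the subgroups -/
  U : ℕ → Subgroup G
  nor : ∀ n, (U n).Normal
  anti : ∀ n, U (n + 1) ≤ U n
  fin : ∀ n, Finite (G ⧸ U n)

attribute [instance] Tower.nor Tower.fin

variable {G : Type} [Group G]

/-- the finite quotients of a tower -/
abbrev Tower.Q (T : Tower G) (n : ℕ) : Type := G ⧸ T.U n

noncomputable instance Tower.instFintype (T : Tower G) (n : ℕ) : Fintype (G ⧸ T.U n) :=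
  Fintype.ofFinite _

/-- the transition maps -/
def Tower.tr (T : Tower G) (n : ℕ) : T.Q (n + 1) →* T.Q n :=
  QuotientGroup.map _ _ (MonoidHom.id G) (T.anti n)

/-- the image of `U 0` in the `n`-th quotient -/
def Tower.N (T : Tower G) (n : ℕ) : Subgroup (T.Q n) := (T.U 0).map (QuotientGroup.mk' (T.U n))

noncomputable instance Tower.instFintypeN (T : Tower G) (n : ℕ) : Fintype (T.N n) :=
  Fintype.ofFinite _

/-- the completed group algebra `lim k[G / U n]` as a subalgebra of the product -/
noncomputable def Iw (k : Type) [CommRing k] (T : Tower G) :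
    Subalgebra k ((n : ℕ) → MonoidAlgebra k (T.Q n)) where
  carrier := {a | ∀ n, MonoidAlgebra.mapDomainAlgHom k k (T.tr n) (a (n + 1)) = a n}
  mul_mem' := by
    intro a b ha hb n
    rw [Pi.mul_apply, map_mul, ha n, hb n]; rfl
  add_mem' := by
    intro a b ha hb n
    rw [Pi.add_apply, map_add, ha n, hb n]; rfl
  algebraMap_mem' := by
    intro r n
    exact AlgHom.commutes _ r

/-- the completed group algebra `lim k[G / U n]` -/
def Lam (k : Type) [CommRing k] (T : Tower G) : Type := Iw k T

noncomputable instance (k : Type) [CommRing k] (T : Tower G) : Ring (Lam k T) :=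
  inferInstanceAs (Ring (Iw k T))

noncomputable instance (k : Type) [CommRing k] (T : Tower G) : Algebra k (Lam k T) :=
  inferInstanceAs (Algebra k (Iw k T))

/-- the projection to the group algebra of a finite quotient -/
noncomputable def Lam.proj (k : Type) [CommRing k] (T : Tower G) (n : ℕ) :
    Lam k T →ₐ[k] MonoidAlgebra k (T.Q n) :=
  (Pi.evalAlgHom k (fun n => MonoidAlgebra k (T.Q n)) n).comp (Iw k T).val

/-- group elements in the completed group algebra -/
noncomputable def Lam.of (k : Type) [CommRing k] (T : Tower G) : G →* Lam k T where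
  toFun g := ⟨fun n => MonoidAlgebra.of k (T.Q n) (g : T.Q n), by
    intro n
    change MonoidAlgebra.mapDomain (T.tr n) (MonoidAlgebra.single ((g : G) : T.Q (n + 1)) (1 : k)) =
      MonoidAlgebra.single ((g : G) : T.Q n) (1 : k)
    rw [MonoidAlgebra.mapDomain_single]
    rfl⟩
  map_one' := rfl
  map_mul' g h := by
    apply Subtype.ext
    funext n
    exact map_mul (MonoidAlgebra.of k (T.Q n)) (g : T.Q n) (h : T.Q n)

/-- the completed group algebra of the first group `U 0` of the tower, inside the one of `G` -/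
noncomputable def LamW (k : Type) [CommRing k] (T : Tower G) : Subalgebra k (Lam k T) where
  carrier := {a | ∀ n, ∀ q : T.Q n, (Lam.proj k T n a).coeff q ≠ 0 → q ∈ T.N n}
  mul_mem' := by
    classical
    intro a b ha hb n q hq
    rw [map_mul] at hq
    have h1 := MonoidAlgebra.support_coeff_mul_subset _ _ (Finsupp.mem_support_iff.2 hq)
    obtain ⟨y, hy, z, hz, rfl⟩ := Finset.mem_mul.1 h1
    exact mul_mem (ha n y (Finsupp.mem_support_iff.1 hy)) (hb n z (Finsupp.mem_support_iff.1 hz))
  add_mem' := by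
    intro a b ha hb n q hq
    by_contra hcon
    apply hq
    have h1 : (Lam.proj k T n a).coeff q = 0 := by
      by_contra h; exact hcon (ha n q h)
    have h2 : (Lam.proj k T n b).coeff q = 0 := by
      by_contra h; exact hcon (hb n q h)
    rw [map_add, MonoidAlgebra.coeff_add, Finsupp.add_apply, h1, h2, add_zero]
  algebraMap_mem' := by
    classical
    intro r n q hq
    rw [AlgHom.commutes, MonoidAlgebra.coe_algebraMap, Function.comp_apply,
      MonoidAlgebra.coeff_single, Finsupp.single_apply] at hq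
    by_cases h : (1 : T.Q n) = q
    · rw [← h]; exact one_mem _
    · rw [if_neg h] at hq; exact absurd rfl hq

/-- the completed group algebra of `U 0` -/
def Om (k : Type) [CommRing k] (T : Tower G) : Type := LamW k T

noncomputable instance (k : Type) [CommRing k] (T : Tower G) : Ring (Om k T) :=
  inferInstanceAs (Ring (LamW k T))

noncomputable instance (k : Type) [CommRing k] (T : Tower G) : Algebra k (Om k T) :=
  inferInstanceAs (Algebra k (LamW k T))

/-- the inclusion -/
noncomputable def Om.incl (k : Type) [CommRing k] (T : Tower G) : Om k T →ₐ[k] Lam k T :=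
  (LamW k T).val

/-- every module over the completed group algebra of `G` is a module over the one of `U 0` -/
noncomputable instance Om.instModule (k : Type) [CommRing k] (T : Tower G) (E : Type)
    [AddCommGroup E] [Module (Lam k T) E] : Module (Om k T) E :=
  Module.compHom E (Om.incl k T : Om k T →+* Lam k T)

theorem Om.smul_def (k : Type) [CommRing k] (T : Tower G) {E : Type}
    [AddCommGroup E] [Module (Lam k T) E] (a : Om k T) (x : E) : a • x = Om.incl k T a • x := rfl

/-- the projections -/
noncomputable def Om.proj (k : Type) [CommRing k] (T : Tower G) (n : ℕ) :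
    Om k T →ₐ[k] MonoidAlgebra k (T.Q n) := (Lam.proj k T n).comp (Om.incl k T)

/-- the two-sided ideal of the elements of `Om` which vanish in the `n`-th quotient -/
noncomputable def Om.I (k : Type) [CommRing k] (T : Tower G) (n : ℕ) : Ideal (Om k T) :=
  RingHom.ker (Om.proj k T n : Om k T →+* MonoidAlgebra k (T.Q n))

instance (k : Type) [CommRing k] (T : Tower G) (n : ℕ) : (Om.I k T n).IsTwoSided := by
  unfold Om.I; infer_instance

/-! ### coordinates -/

/-- products of binomial coefficients modulo `p` -/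
noncomputable def bin (p : ℕ) [Fact p.Prime] {d : ℕ} (β : Fin d →₀ ℕ) (y : Fin d → ℤ_[p]) :
    ZMod p :=
  ∏ i, PadicInt.toZMod (Ring.choose (y i) (β i))

/-- coordinates on `U 0` for which the group law is a deformation of the addition -/
structure Coord (p : ℕ) [Fact p.Prime] (T : Tower G) (d : ℕ) where
  x : T.U 0 ≃ (Fin d → ℤ_[p])
  cong : ∀ (n : ℕ) (w w' : T.U 0), ((w⁻¹ * w' : T.U 0) : G) ∈ T.U n ↔
    ∀ i, (p : ℤ_[p]) ^ n ∣ x w i - x w' i
  law : ∀ α : Fin d →₀ ℕ,
    (fun y : (Fin d → ℤ_[p]) × (Fin d → ℤ_[p]) =>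
      bin p α (x (x.symm y.1 * x.symm y.2)) -
        ∑ q ∈ Finset.HasAntidiagonal.antidiagonal α, bin p q.1 y.1 * bin p q.2 y.2) ∈
    Submodule.span (ZMod p) {f | ∃ β γ : Fin d →₀ ℕ, β.degree + γ.degree < α.degree ∧
      f = fun y : (Fin d → ℤ_[p]) × (Fin d → ℤ_[p]) => bin p β y.1 * bin p γ y.2}

/-! ### the regularity properties of `Om ℤ_[p] T` -/

/-- the three properties of the ring `Om ℤ_[p] T` which are used -/
structure Reg (p : ℕ) [Fact p.Prime] (T : Tower G) : Prop where
  dom : NoZeroDivisors (Om ℤ_[p] T)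
  ffr : ∃ D : ℕ, ∀ (m : ℕ) (K : Submodule (Om ℤ_[p] T) (Fin m → Om ℤ_[p] T)),
    FFR (Om ℤ_[p] T) D K
  grow : ∀ a : Om ℤ_[p] T, a ≠ 0 → ∀ ε : ℝ, 0 < ε → ∀ᶠ n in Filter.atTop,
    (Module.finrank ℤ_[p] (Om ℤ_[p] T ⧸ (Ideal.span {a} ⊔ Om.I ℤ_[p] T n)) : ℝ) ≤
      ε * Nat.card (T.N n)

/-! ### continuous characters -/

/-- virtual continuous `p`-adic characters -/
noncomputable def VC (p : ℕ) [Fact p.Prime] (T : Tower G) : AddSubgroup (G → ℤ_[p]) :=
  AddSubgroup.closure {χ | ∃ (v : ℕ) (ρ : G →* Matrix (Fin v) (Fin v) ℤ_[p]),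
    (∀ n, ∀ g ∈ T.U n, ∀ i j, (p : ℤ_[p]) ^ n ∣ (ρ g - 1) i j) ∧ χ = fun g => (ρ g).trace}

/-- virtual continuous `p`-adic characters of groups of units of `p`-adic orders -/
noncomputable def AC (p : ℕ) [Fact p.Prime] {A : Type} [Ring A] (P : Subgroup Aˣ) :
    AddSubgroup (P → ℤ_[p]) :=
  AddSubgroup.closure {χ | ∃ (v : ℕ) (ρ : P →* Matrix (Fin v) (Fin v) ℤ_[p]),
    (∀ n, ∀ g : P, (∃ a : A, ((g : Aˣ) : A) = 1 + (p : A) ^ n * a) →
      ∀ i j, (p : ℤ_[p]) ^ n ∣ (ρ g - 1) i j) ∧ χ = fun g => (ρ g).trace}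

/-- `G` embeds in a group `P` of units of a `p`-adic order which contains a congruence subgroup,
and on `P` there is a virtual continuous character `f` which vanishes at all nontrivial elements
of `p`-power order, such that the `p`-part of `f 1` divides all common multiples of the orders of
the finite subgroups of `G`. -/
def Good (p : ℕ) [Fact p.Prime] (G : Type) [Group G] : Prop :=
  ∃ (A : Type) (_ : Ring A) (_ : Algebra ℤ_[p] A) (_ : Module.Free ℤ_[p] A)
    (_ : Module.Finite ℤ_[p] A) (P : Subgroup Aˣ) (k : ℕ) (φ : G →* P) (f : P → ℤ_[p]) (c : ℕ),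
    2 < p ^ k ∧ (∀ u : Aˣ, (∃ a : A, (u : A) = 1 + (p : A) ^ k * a) → u ∈ P) ∧
    Function.Injective φ ∧ f ∈ AC p P ∧ f 1 = c ∧
    (∀ t : P, t ≠ 1 → ∀ a : ℕ, t ^ (p ^ a) = 1 → f t = 0) ∧
    ∀ d : ℕ, (∀ H : Subgroup G, Finite H → Nat.card H ∣ d) → ∃ q : ℕ, ¬ p ∣ q ∧ c ∣ q * d

/-! ### the local trace function of a module -/

section
variable {p : ℕ} [Fact p.Prime] {T : Tower G} {E : Type} [AddCommGroup E]
  [Module (Lam ℤ_[p] T) E] {s : ℕ}

/-- the sum of the coefficients at the identity of the diagonal entries of the matrix of `g` -/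
noncomputable def tG (b : Module.Basis (Fin s) (Om ℤ_[p] T) E) (n : ℕ) (g : G) : ℤ_[p] :=
  ∑ j, (Om.proj ℤ_[p] T n (b.repr (Lam.of ℤ_[p] T g • b j) j)).coeff 1

/-- the same on the quotient group -/
noncomputable def tQ (b : Module.Basis (Fin s) (Om ℤ_[p] T) E) (n : ℕ) (q : T.Q n) : ℤ_[p] :=
  tG b n q.out

end

end Pool.Agent.H371.SA
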