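import Pool.Agent.H371.SA.Defs

/-! TASK A of the strong Atiyah project of helper371: finite free resolutions. -/

set_option autoImplicit false

namespace Pool.Agent.H371.SA

namespace Ax

section
variable {R : Type} [Ring R]

/-- `R^a × R^b = R^(a+b)` -/
noncomputable def finProd (R : Type) [Ring R] (a b : ℕ) :
    ((Fin a → R) × (Fin b → R)) ≃ₗ[R] (Fin (a + b) → R) :=
  (LinearEquiv.sumArrowLequivProdArrow (Fin a) (Fin b) R R).symm.trans
    (LinearEquiv.funCongrLeft R R (finSumFinEquiv (m := a) (n := b)).symm)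

theorem SF_congr {M N : Type} [AddCommGroup M] [Module R M] [AddCommGroup N] [Module R N]
    (e : M ≃ₗ[R] N) (h : SF R M) : SF R N := by
  obtain ⟨a, b, ⟨f⟩⟩ := h
  exact ⟨a, b, ⟨(e.symm.prodCongr (LinearEquiv.refl R _)).trans f⟩⟩

theorem congr_aux (n : ℕ) : ∀ (M N : Type) [AddCommGroup M] [Module R M] [AddCommGroup N]
    [Module R N], (M ≃ₗ[R] N) → FFR R n M → FFR R n N := by
  induction n with
  | zero =>
    intro M N _ _ _ _ e h
    exact SF_congr e h
  | succ n ih =>
    intro M N _ _ _ _ e h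
    obtain ⟨b, f, hf, hk⟩ := h
    refine ⟨b, e.toLinearMap.comp f, e.surjective.comp hf, ?_⟩
    have h1 : LinearMap.ker f = LinearMap.ker (e.toLinearMap.comp f) := by
      ext x; simp
    exact ih _ _ (LinearEquiv.ofEq _ _ h1) hk

/-- Schanuel -/
noncomputable def schanuel {M F₁ F₂ : Type} [AddCommGroup M] [Module R M] [AddCommGroup F₁]
    [Module R F₁] [AddCommGroup F₂] [Module R F₂] (f : F₁ →ₗ[R] M) (g : F₂ →ₗ[R] M)
    (s : F₂ →ₗ[R] F₁) (t : F₁ →ₗ[R] F₂) (hs : f ∘ₗ s = g) (ht : g ∘ₗ t = f) :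
    (LinearMap.ker f × F₂) ≃ₗ[R] (LinearMap.ker g × F₁) where
  toFun x := (⟨x.2 - t (x.1.1 + s x.2), by
    have h1 : ∀ y, f (s y) = g y := fun y => by rw [← hs]; rfl
    have h2 : ∀ y, g (t y) = f y := fun y => by rw [← ht]; rfl
    have h3 : f x.1.1 = 0 := x.1.2
    rw [LinearMap.mem_ker, map_sub, h2, map_add, h1, h3, zero_add, sub_self]⟩, x.1.1 + s x.2)
  map_add' x y := by
    refine Prod.ext (Subtype.ext ?_) ?_
    · simp only [Prod.snd_add, Prod.fst_add, Submodule.coe_add, map_add]; abel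
    · simp only [Prod.snd_add, Prod.fst_add, Submodule.coe_add, map_add]; abel
  map_smul' c x := by
    refine Prod.ext (Subtype.ext ?_) ?_
    · simp only [Prod.smul_snd, Prod.smul_fst, Submodule.coe_smul, map_smul, map_add,
        RingHom.id_apply, smul_add, smul_sub]
    · simp only [Prod.smul_snd, Prod.smul_fst, Submodule.coe_smul, map_smul,
        RingHom.id_apply, smul_add]
  invFun x := (⟨x.2 - s (x.1.1 + t x.2), by
    have h1 : ∀ y, f (s y) = g y := fun y => by rw [← hs]; rfl
    have h2 : ∀ y, g (t y) = f y := fun y => by rw [← ht]; rfl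
    have h3 : g x.1.1 = 0 := x.1.2
    rw [LinearMap.mem_ker, map_sub, h1, map_add, h2, h3, zero_add, sub_self]⟩, x.1.1 + t x.2)
  left_inv x := by
    refine Prod.ext (Subtype.ext ?_) ?_
    · change (x.1.1 + s x.2) - s (x.2 - t (x.1.1 + s x.2) + t (x.1.1 + s x.2)) = x.1.1
      rw [sub_add_cancel, add_sub_cancel_right]
    · change x.2 - t (x.1.1 + s x.2) + t (x.1.1 + s x.2) = x.2
      rw [sub_add_cancel]
  right_inv x := by
    refine Prod.ext (Subtype.ext ?_) ?_
    · change (x.1.1 + t x.2) - t (x.2 - s (x.1.1 + t x.2) + s (x.1.1 + t x.2)) = x.1.1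
      rw [sub_add_cancel, add_sub_cancel_right]
    · change x.2 - s (x.1.1 + t x.2) + s (x.1.1 + t x.2) = x.2
      rw [sub_add_cancel]

theorem exists_schanuel {M : Type} [AddCommGroup M] [Module R M] {b c : ℕ}
    (f : (Fin b → R) →ₗ[R] M) (g : (Fin c → R) →ₗ[R] M) (hf : Function.Surjective f)
    (hg : Function.Surjective g) :
    Nonempty ((LinearMap.ker f × (Fin c → R)) ≃ₗ[R] (LinearMap.ker g × (Fin b → R))) := by
  obtain ⟨s, hs⟩ := Module.projective_lifting_property f g hf
  obtain ⟨t, ht⟩ := Module.projective_lifting_property g f hg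
  exact ⟨schanuel f g s t hs ht⟩

/-- the kernel of `f × id` -/
noncomputable def kerProd {F M A : Type} [AddCommGroup M] [Module R M] [AddCommGroup F] [Module R F]
    [AddCommGroup A] [Module R A] (f : F →ₗ[R] M) :
    LinearMap.ker f ≃ₗ[R] LinearMap.ker (f.prodMap (LinearMap.id : A →ₗ[R] A)) where
  toFun x := ⟨(x.1, 0), by
    have h3 : f x.1 = 0 := x.2
    rw [LinearMap.mem_ker, LinearMap.prodMap_apply, h3]; rfl⟩
  map_add' x y := by
    apply Subtype.ext
    simp
  map_smul' c x := by
    apply Subtype.ext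
    simp
  invFun x := ⟨x.1.1, by
    have h3 := x.2
    rw [LinearMap.mem_ker, LinearMap.prodMap_apply] at h3
    exact congrArg Prod.fst h3⟩
  left_inv x := rfl
  right_inv x := by
    apply Subtype.ext
    have h3 := x.2
    rw [LinearMap.mem_ker, LinearMap.prodMap_apply] at h3
    exact Prod.ext rfl (congrArg Prod.snd h3).symm

theorem kerComp {F F' M : Type} [AddCommGroup M] [Module R M] [AddCommGroup F] [Module R F]
    [AddCommGroup F'] [Module R F'] (f : F →ₗ[R] M) (e : F' ≃ₗ[R] F) :
    Nonempty (LinearMap.ker f ≃ₗ[R] LinearMap.ker (f.comp e.toLinearMap)) := by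
  rw [LinearMap.ker_comp]
  exact ⟨(e.submoduleMap (Submodule.comap e.toLinearMap (LinearMap.ker f))).trans
    (LinearEquiv.ofEq _ _ (by
      rw [Submodule.map_comap_eq_of_surjective e.surjective])) |>.symm⟩

theorem prod_free (n : ℕ) : ∀ (M : Type) [AddCommGroup M] [Module R M] (a : ℕ), FFR R n M →
    FFR R n (M × (Fin a → R)) := by
  induction n with
  | zero =>
    intro M _ _ a h
    obtain ⟨a', b, ⟨f⟩⟩ := h
    refine ⟨a', b + a, ⟨?_⟩⟩
    exact (((LinearEquiv.prodAssoc R M (Fin a → R) (Fin a' → R)).trans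
      ((LinearEquiv.refl R M).prodCongr (LinearEquiv.prodComm R _ _))).trans
      (LinearEquiv.prodAssoc R M (Fin a' → R) (Fin a → R)).symm).trans
      ((f.prodCongr (LinearEquiv.refl R _)).trans (finProd R b a))
  | succ n ih =>
    intro M _ _ a h
    obtain ⟨b, f, hf, hk⟩ := h
    have h1 : FFR R n (LinearMap.ker (f.prodMap (LinearMap.id : (Fin a → R) →ₗ[R] (Fin a → R)))) :=
      congr_aux n _ _ (kerProd f) hk
    obtain ⟨e2⟩ := kerComp (f.prodMap (LinearMap.id : (Fin a → R) →ₗ[R] (Fin a → R)))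
      (finProd R b a).symm
    refine ⟨b + a, (f.prodMap (LinearMap.id : (Fin a → R) →ₗ[R] (Fin a → R))).comp
      (finProd R b a).symm.toLinearMap, ?_, congr_aux n _ _ e2 h1⟩
    intro x
    obtain ⟨y, hy⟩ := hf x.1
    refine ⟨finProd R b a (y, x.2), ?_⟩
    simp [hy]

/-- the kernel of the first component of a surjection onto `M × A`, `A` free -/
noncomputable def kerFst {F M A : Type} [AddCommGroup M] [Module R M] [AddCommGroup F] [Module R F]
    [AddCommGroup A] [Module R A] (h : F →ₗ[R] M × A) (s : A →ₗ[R] F)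
    (hs : h ∘ₗ s = LinearMap.inr R M A) :
    (LinearMap.ker h × A) ≃ₗ[R] LinearMap.ker ((LinearMap.fst R M A).comp h) where
  toFun x := ⟨x.1.1 + s x.2, by
    have h1 : ∀ y, h (s y) = (0, y) := fun y => by
      rw [← LinearMap.comp_apply, hs]; rfl
    have h3 : h x.1.1 = 0 := x.1.2
    rw [LinearMap.mem_ker, LinearMap.comp_apply, map_add, h1, h3, zero_add]; rfl⟩
  map_add' x y := by
    apply Subtype.ext
    simp only [Prod.snd_add, Prod.fst_add, Submodule.coe_add, map_add]; abel
  map_smul' c x := by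
    apply Subtype.ext
    simp only [Prod.smul_snd, Prod.smul_fst, Submodule.coe_smul, map_smul,
        RingHom.id_apply, smul_add]
  invFun x := (⟨x.1 - s (h x.1).2, by
    have h1 : ∀ y, h (s y) = (0, y) := fun y => by
      rw [← LinearMap.comp_apply, hs]; rfl
    have h3 : (h x.1).1 = 0 := x.2
    rw [LinearMap.mem_ker, map_sub, h1]
    exact Prod.ext (by simp [h3]) (by simp)⟩, (h x.1).2)
  left_inv x := by
    have h1 : ∀ y, h (s y) = (0, y) := fun y => by
      rw [← LinearMap.comp_apply, hs]; rfl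
    have h3 : h x.1.1 = 0 := x.1.2
    refine Prod.ext (Subtype.ext ?_) ?_
    · change (x.1.1 + s x.2) - s (h (x.1.1 + s x.2)).2 = x.1.1
      rw [map_add, h1, h3, zero_add, add_sub_cancel_right]
    · change (h (x.1.1 + s x.2)).2 = x.2
      rw [map_add, h1, h3, zero_add]
  right_inv x := by
    apply Subtype.ext
    change x.1 - s (h x.1).2 + s (h x.1).2 = x.1
    rw [sub_add_cancel]

theorem of_prod_free (n : ℕ) (M : Type) [AddCommGroup M] [Module R M] (a : ℕ)
    (h : FFR R n (M × (Fin a → R))) : FFR R n M := by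
  cases n with
  | zero =>
    obtain ⟨a', b, ⟨f⟩⟩ := h
    refine ⟨a + a', b, ⟨?_⟩⟩
    exact (((LinearEquiv.refl R M).prodCongr (finProd R a a').symm).trans
      (LinearEquiv.prodAssoc R M (Fin a → R) (Fin a' → R)).symm).trans f
  | succ n =>
    obtain ⟨c, g, hg, hk⟩ := h
    obtain ⟨s, hs⟩ := Module.projective_lifting_property g (LinearMap.inr R M (Fin a → R)) hg
    refine ⟨c, (LinearMap.fst R M (Fin a → R)).comp g, ?_, ?_⟩
    · exact Prod.fst_surjective.comp hg
    · exact congr_aux n _ _ (kerFst g s hs) (prod_free n _ a hk)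

theorem ker_aux {n : ℕ} {M : Type} [AddCommGroup M] [Module R M] (h : FFR R (n + 1) M) {b : ℕ}
    (f : (Fin b → R) →ₗ[R] M) (hf : Function.Surjective f) : FFR R n (LinearMap.ker f) := by
  obtain ⟨c, g, hg, hk⟩ := h
  obtain ⟨e⟩ := exists_schanuel g f hg hf
  exact of_prod_free n _ c (congr_aux n _ _ e (prod_free n _ b hk))

theorem step (n : ℕ) : ∀ (M : Type) [AddCommGroup M] [Module R M], FFR R n M →
    FFR R (n + 1) M := by
  induction n with
  | zero =>
    intro M _ _ h
    obtain ⟨a, b, ⟨e⟩⟩ := h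
    refine ⟨b, (LinearMap.fst R M (Fin a → R)).comp e.symm.toLinearMap,
      Prod.fst_surjective.comp e.symm.surjective, ?_⟩
    obtain ⟨e2⟩ := kerComp (LinearMap.fst R M (Fin a → R)) e.symm
    have h1 : FFR R 0 (LinearMap.ker (LinearMap.fst R M (Fin a → R))) := by
      refine ⟨0, a, ⟨?_⟩⟩
      let e3 : LinearMap.ker (LinearMap.fst R M (Fin a → R)) ≃ₗ[R] (Fin a → R) := {
        toFun := fun x => x.1.2
        map_add' := fun x y => rfl
        map_smul' := fun c x => rfl
        invFun := fun y => ⟨(0, y), rfl⟩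
        left_inv := fun x => Subtype.ext (Prod.ext (show (0 : M) = x.1.1 from x.2.symm) rfl)
        right_inv := fun y => rfl }
      let e4 : (LinearMap.ker (LinearMap.fst R M (Fin a → R)) × (Fin 0 → R)) ≃ₗ[R]
        LinearMap.ker (LinearMap.fst R M (Fin a → R)) := LinearEquiv.prodUnique
      exact e4.trans e3
    exact congr_aux 0 _ _ e2 h1
  | succ n ih =>
    intro M _ _ h
    obtain ⟨b, f, hf, hk⟩ := h
    exact ⟨b, f, hf, ih _ hk⟩

end

end Ax

section A
variable {R : Type} [Ring R] {M N : Type} [AddCommGroup M] [Module R M] [AddCommGroup N] [Module R N]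

theorem FFR.congr (n : ℕ) (e : M ≃ₗ[R] N) (h : FFR R n M) : FFR R n N :=
  Ax.congr_aux n M N e h

theorem FFR.mono {m n : ℕ} (hmn : m ≤ n) (h : FFR R m M) : FFR R n M := by
  induction hmn with
  | refl => exact h
  | step _ ih => exact Ax.step _ M ih

/-- the kernel of an arbitrary surjection from a free module -/
theorem FFR.ker {n : ℕ} (h : FFR R (n + 1) M) {b : ℕ} (f : (Fin b → R) →ₗ[R] M)
    (hf : Function.Surjective f) : FFR R n (LinearMap.ker f) :=
  Ax.ker_aux h f hf

theorem FFR.finite {n : ℕ} (h : FFR R n M) : Module.Finite R M := by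
  cases n with
  | zero =>
    obtain ⟨a, b, ⟨e⟩⟩ := h
    exact Module.Finite.of_surjective ((LinearMap.fst R M (Fin a → R)).comp e.symm.toLinearMap)
      (Prod.fst_surjective.comp e.symm.surjective)
  | succ n =>
    obtain ⟨b, f, hf, hk⟩ := h
    exact Module.Finite.of_surjective f hf

theorem isNoetherianRing_of_ffr (D : ℕ) (h : ∀ K : Submodule R (Fin 1 → R), FFR R D K) :
    IsNoetherianRing R := by
  rw [isNoetherianRing_iff_ideal_fg]
  intro I
  let e : (Fin 1 → R) ≃ₗ[R] R := LinearEquiv.funUnique (Fin 1) R R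
  have h1 : Module.Finite R (Submodule.comap e.toLinearMap I) := FFR.finite (h _)
  have h2 : (Submodule.comap e.toLinearMap I).FG := Module.Finite.iff_fg.1 h1
  have h3 := h2.map e.toLinearMap
  rwa [Submodule.map_comap_eq_of_surjective e.surjective] at h3

end A

end Pool.Agent.H371.SA
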