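import Pool.Agent.H371.SA.Defs

set_option autoImplicit false

namespace Pool.Agent.H371.SA.Bx

/-! ### the order on exponents -/
section Order
variable {d : ℕ}

/-- the number of smaller exponents -/
noncomputable def rk (γ : Fin d →₀ ℕ) : ℕ := Set.ncard {δ : Fin d →₀ ℕ | toDegLex δ < toDegLex γ}

theorem fin_lt (γ : Fin d →₀ ℕ) : Set.Finite {δ : Fin d →₀ ℕ | toDegLex δ < toDegLex γ} := by
  refine (Finsupp.finite_of_degree_le (σ := Fin d) γ.degree).subset ?_
  intro δ hδ
  have h1 := Finsupp.DegLex.monotone_degree (le_of_lt (show toDegLex δ < toDegLex γ from hδ))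
  exact h1

theorem rk_mono_lt {α β : Fin d →₀ ℕ} (h : toDegLex α < toDegLex β) : rk α < rk β := by
  apply Set.ncard_lt_ncard _ (fin_lt β)
  constructor
  · intro δ hδ
    exact lt_trans (show toDegLex δ < toDegLex α from hδ) h
  · intro hcon
    exact lt_irrefl _ (show toDegLex α < toDegLex α from hcon h)

theorem rk_lt {α β : Fin d →₀ ℕ} : rk α < rk β ↔ toDegLex α < toDegLex β := by
  constructor
  · intro h
    rcases lt_trichotomy (toDegLex α) (toDegLex β) with h1 | h1 | h1
    · exact h1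
    · rw [toDegLex_inj.1 h1] at h; exact absurd h (lt_irrefl _)
    · exact absurd (rk_mono_lt h1) (not_lt_of_gt h)
  · exact rk_mono_lt

theorem rk_inj {α β : Fin d →₀ ℕ} (h : rk α = rk β) : α = β := by
  rcases lt_trichotomy (toDegLex α) (toDegLex β) with h1 | h1 | h1
  · have := rk_mono_lt h1; omega
  · exact toDegLex_inj.1 h1
  · have := rk_mono_lt h1; omega

theorem rk_add_lt (α β δ : Fin d →₀ ℕ) : rk (δ + α) < rk (δ + β) ↔ rk α < rk β := by
  rw [rk_lt, rk_lt, toDegLex_add, toDegLex_add, add_lt_add_iff_left]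

theorem rk_add_le (α β δ : Fin d →₀ ℕ) : rk (δ + α) ≤ rk (δ + β) ↔ rk α ≤ rk β := by
  rw [← not_lt, ← not_lt, rk_add_lt]

theorem rk_add_lt' (α β δ : Fin d →₀ ℕ) : rk (α + δ) < rk (β + δ) ↔ rk α < rk β := by
  rw [add_comm α, add_comm β, rk_add_lt]

theorem rk_add_le' (α β δ : Fin d →₀ ℕ) : rk (α + δ) ≤ rk (β + δ) ↔ rk α ≤ rk β := by
  rw [add_comm α, add_comm β, rk_add_le]

theorem rk_deg {α β : Fin d →₀ ℕ} (h : α.degree < β.degree) : rk α < rk β := by
  rw [rk_lt, Finsupp.DegLex.lt_iff]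
  left; exact h

theorem deg_le {α β : Fin d →₀ ℕ} (h : rk α ≤ rk β) : α.degree ≤ β.degree := by
  by_contra hcon
  have := rk_deg (not_le.1 hcon); omega

end Order

/-! ### multiplication -/
section Mult
variable {k R : Type} [Field k] [Ring R] {d : ℕ} (e : R ≃+ MvPowerSeries (Fin d) k)

/-- coefficients -/
noncomputable def cf (γ : Fin d →₀ ℕ) : R →+ k :=
  ((MvPowerSeries.coeff γ : MvPowerSeries (Fin d) k →ₗ[k] k).toAddMonoidHom).comp e.toAddMonoidHom

theorem cf_apply (γ : Fin d →₀ ℕ) (a : R) : cf e γ a = MvPowerSeries.coeff γ (e a) := rfl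

theorem cf_ext {a b : R} (h : ∀ γ, cf e γ a = cf e γ b) : a = b := by
  apply e.injective
  apply MvPowerSeries.ext
  exact h

theorem cf_symm (γ : Fin d →₀ ℕ) (f : MvPowerSeries (Fin d) k) :
    cf e γ (e.symm f) = MvPowerSeries.coeff γ f := by
  rw [cf_apply, AddEquiv.apply_symm_apply]

/-- monomial elements -/
noncomputable def mon (γ : Fin d →₀ ℕ) (c : k) : R := e.symm (MvPowerSeries.monomial γ c)

theorem cf_mon_self (γ : Fin d →₀ ℕ) (c : k) : cf e γ (mon e γ c) = c := by
  classical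
  rw [mon, cf_symm, MvPowerSeries.coeff_monomial, if_pos rfl]

theorem cf_mon_ne {γ δ : Fin d →₀ ℕ} (c : k) (h : δ ≠ γ) : cf e δ (mon e γ c) = 0 := by
  classical
  rw [mon, cf_symm, MvPowerSeries.coeff_monomial, if_neg h]

variable {e}

theorem cf_mul_low (he : Deform e) {a b : R} {α β : Fin d →₀ ℕ}
    (ha : ∀ γ, rk γ < rk α → cf e γ a = 0) (hb : ∀ γ, rk γ < rk β → cf e γ b = 0) :
    (∀ γ, rk γ < rk (α + β) → cf e γ (a * b) = 0) ∧
      cf e (α + β) (a * b) = cf e α a * cf e β b := by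
  have h1 : (α.degree : ℕ∞) ≤ (e a).order := by
    apply MvPowerSeries.le_order
    intro γ hγ
    exact ha γ (rk_deg (by exact_mod_cast hγ))
  have h2 : (β.degree : ℕ∞) ≤ (e b).order := by
    apply MvPowerSeries.le_order
    intro γ hγ
    exact hb γ (rk_deg (by exact_mod_cast hγ))
  have h3 := he _ _ a b h1 h2
  have h4 : ∀ γ, rk γ ≤ rk (α + β) →
      cf e γ (a * b) = MvPowerSeries.coeff γ (e a * e b) := by
    intro γ hγ
    have h5 := deg_le hγ
    rw [map_add] at h5
    have h6 : MvPowerSeries.coeff γ (e (a * b) - e a * e b) = 0 := by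
      apply MvPowerSeries.coeff_of_lt_order
      refine lt_of_lt_of_le ?_ h3
      exact_mod_cast Nat.lt_succ_of_le h5
    rw [map_sub, sub_eq_zero] at h6
    exact h6
  have h7 : ∀ p q : Fin d →₀ ℕ, rk (p + q) ≤ rk (α + β) → (p ≠ α ∨ q ≠ β) →
      cf e p a * cf e q b = 0 := by
    intro p q hpq hne
    by_cases h8 : rk p < rk α
    · rw [ha p h8, zero_mul]
    by_cases h9 : rk q < rk β
    · rw [hb q h9, mul_zero]
    exfalso
    have h10 : rk (α + β) ≤ rk (α + q) := by rw [rk_add_le]; omega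
    have h11 : rk (α + q) ≤ rk (p + q) := by rw [rk_add_le']; omega
    have h12 : rk α = rk p := by
      have : ¬ rk α < rk p := by
        rw [← rk_add_lt' α p q]; omega
      omega
    have h13 : rk β = rk q := by
      have : ¬ rk β < rk q := by
        rw [← rk_add_lt β q α]; omega
      omega
    rcases hne with h | h
    · exact h (rk_inj h12).symm
    · exact h (rk_inj h13).symm
  constructor
  · intro γ hγ
    rw [h4 γ hγ.le, MvPowerSeries.coeff_mul]
    apply Finset.sum_eq_zero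
    intro p hp
    rw [Finset.HasAntidiagonal.mem_antidiagonal] at hp
    apply h7
    · rw [hp]; exact hγ.le
    · by_contra hcon
      push Not at hcon
      rw [← hp, hcon.1, hcon.2] at hγ
      exact lt_irrefl _ hγ
  · rw [h4 _ le_rfl, MvPowerSeries.coeff_mul, Finset.sum_eq_single (α, β)]
    · rfl
    · intro p hp hne
      rw [Finset.HasAntidiagonal.mem_antidiagonal] at hp
      apply h7
      · rw [hp]
      · by_contra hcon
        push Not at hcon
        exact hne (Prod.ext hcon.1 hcon.2)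
    · intro h
      exfalso
      apply h
      rw [Finset.HasAntidiagonal.mem_antidiagonal]

theorem exists_lead {a : R} (ha : a ≠ 0) : ∃ α : Fin d →₀ ℕ, cf e α a ≠ 0 ∧
    ∀ γ, rk γ < rk α → cf e γ a = 0 := by
  have h1 : ∃ γ : Fin d →₀ ℕ, cf e γ a ≠ 0 := by
    by_contra hcon
    push Not at hcon
    apply ha
    apply cf_ext e
    intro γ
    rw [hcon γ, map_zero]
  obtain ⟨α, h2, h3⟩ := (measure (rk : (Fin d →₀ ℕ) → ℕ)).wf.has_min {γ | cf e γ a ≠ 0} h1
  refine ⟨α, h2, ?_⟩
  intro γ hγ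
  by_contra hcon
  exact h3 γ hcon hγ

theorem cf_mul_ne (he : Deform e) {a b : R} {γ : Fin d →₀ ℕ} (h : cf e γ (a * b) ≠ 0) :
    ∃ α β : Fin d →₀ ℕ, cf e α a ≠ 0 ∧ cf e β b ≠ 0 ∧ rk (α + β) ≤ rk γ := by
  have ha : a ≠ 0 := by
    rintro rfl
    rw [zero_mul, map_zero] at h; exact h rfl
  have hb : b ≠ 0 := by
    rintro rfl
    rw [mul_zero, map_zero] at h; exact h rfl
  obtain ⟨α, h1, h2⟩ := exists_lead (e := e) ha
  obtain ⟨β, h3, h4⟩ := exists_lead (e := e) hb
  refine ⟨α, β, h1, h3, ?_⟩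
  by_contra hcon
  exact h ((cf_mul_low he h2 h4).1 γ (not_le.1 hcon))

theorem noZeroDivisors (he : Deform e) : NoZeroDivisors R := by
  constructor
  intro a b hab
  by_contra hcon
  push Not at hcon
  obtain ⟨α, h1, h2⟩ := exists_lead (e := e) hcon.1
  obtain ⟨β, h3, h4⟩ := exists_lead (e := e) hcon.2
  have h5 := (cf_mul_low he h2 h4).2
  rw [hab, map_zero] at h5
  exact mul_ne_zero h1 h3 h5.symm

end Mult

/-! ### filtrations and limits -/

theorem lim {A B : Type} [AddCommGroup A] [AddCommGroup B] (F : ℕ → AddSubgroup A)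
    (P : ℕ → AddSubgroup B) (hF : ∀ n n', n ≤ n' → F n' ≤ F n) (hP : ∀ n n', n ≤ n' → P n' ≤ P n)
    (φ : A →+ B) (hφ : ∀ n, ∀ a ∈ F n, φ a ∈ P n) (K : AddSubgroup B) (hK : ∀ a, φ a ∈ K)
    (hstep : ∀ n, ∀ x ∈ K, x ∈ P n → ∃ a ∈ F n, x - φ a ∈ P (n + 1))
    (hcomp : ∀ b : ℕ → A, (∀ i, b i ∈ F i) →
      ∃ S, ∀ N, S - ∑ i ∈ Finset.range N, b i ∈ F N)
    (n0 : ℕ) (x : B) (hx : x ∈ K) (hx0 : x ∈ P n0) : ∃ a ∈ F n0, ∀ N, x - φ a ∈ P N := by
  choose g hg1 hg2 using hstep
  let X : (i : ℕ) → {y : B // y ∈ K ∧ y ∈ P (n0 + i)} := fun i =>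
    Nat.rec (motive := fun i => {y : B // y ∈ K ∧ y ∈ P (n0 + i)}) ⟨x, hx, hx0⟩
      (fun i y => ⟨y.1 - φ (g (n0 + i) y.1 y.2.1 y.2.2), K.sub_mem y.2.1 (hK _),
        hg2 (n0 + i) y.1 y.2.1 y.2.2⟩) i
  let b : ℕ → A := fun i => g (n0 + i) (X i).1 (X i).2.1 (X i).2.2
  have hX : ∀ i, (X (i + 1)).1 = (X i).1 - φ (b i) := fun i => rfl
  have hb : ∀ i, b i ∈ F (n0 + i) := fun i => hg1 _ _ _ _
  obtain ⟨S, hS⟩ := hcomp b (fun i => hF _ _ (Nat.le_add_left _ _) (hb i))
  have hsum : ∀ N, x - φ (∑ i ∈ Finset.range N, b i) = (X N).1 := by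
    intro N
    induction N with
    | zero => rw [Finset.sum_range_zero, map_zero, sub_zero]; rfl
    | succ N ih => rw [Finset.sum_range_succ, map_add, ← sub_sub, ih, hX]
  refine ⟨S, ?_, ?_⟩
  · have h1 := hS n0
    have h2 : ∑ i ∈ Finset.range n0, b i ∈ F n0 :=
      AddSubgroup.sum_mem _ fun i _ => hF _ _ (Nat.le_add_right _ _) (hb i)
    have h3 := (F n0).add_mem h1 h2
    rwa [sub_add_cancel] at h3
  · intro N
    have h1 : x - φ S = (X N).1 - φ (S - ∑ i ∈ Finset.range N, b i) := by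
      rw [← hsum N, map_sub]; abel
    rw [h1]
    exact (P N).sub_mem (hP _ _ (Nat.le_add_left _ _) (X N).2.2) (hφ _ _ (hS N))

section Filt
variable {k R : Type} [Field k] [Ring R] {d : ℕ} (e : R ≃+ MvPowerSeries (Fin d) k)

/-- families of elements without terms of small weight -/
def Fl {m : ℕ} (ρ : Fin m → (Fin d →₀ ℕ) → ℕ) (n : ℕ) : AddSubgroup (Fin m → R) where
  carrier := {a | ∀ j α, ρ j α < n → cf e α (a j) = 0}
  zero_mem' := by
    intro j α _
    rw [Pi.zero_apply, map_zero]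
  add_mem' := by
    intro a b ha hb j α h
    rw [Pi.add_apply, map_add, ha j α h, hb j α h, add_zero]
  neg_mem' := by
    intro a ha j α h
    rw [Pi.neg_apply, map_neg, ha j α h, neg_zero]

theorem mem_Fl {m : ℕ} {ρ : Fin m → (Fin d →₀ ℕ) → ℕ} {n : ℕ} {a : Fin m → R} :
    a ∈ Fl e ρ n ↔ ∀ j α, cf e α (a j) ≠ 0 → n ≤ ρ j α := by
  constructor
  · intro h j α h1
    by_contra hcon
    exact h1 (h j α (not_le.1 hcon))
  · intro h j α h1
    by_contra hcon
    exact absurd (h j α hcon) (not_le.2 h1)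

theorem Fl_anti {m : ℕ} (ρ : Fin m → (Fin d →₀ ℕ) → ℕ) (n n' : ℕ) (h : n ≤ n') :
    Fl e ρ n' ≤ Fl e ρ n := by
  intro a ha j α h1
  exact ha j α (lt_of_lt_of_le h1 h)

theorem Fl_complete {m : ℕ} (ρ : Fin m → (Fin d →₀ ℕ) → ℕ) (b : ℕ → Fin m → R)
    (hb : ∀ i, b i ∈ Fl e ρ i) :
    ∃ S, ∀ N, S - ∑ i ∈ Finset.range N, b i ∈ Fl e ρ N := by
  refine ⟨fun j => e.symm (show MvPowerSeries (Fin d) k from
    fun α => ∑ i ∈ Finset.range (ρ j α + 1), cf e α (b i j)), ?_⟩
  intro N j α hα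
  rw [Pi.sub_apply, map_sub, cf_symm, Finset.sum_apply, map_sum, sub_eq_zero]
  change ∑ i ∈ Finset.range (ρ j α + 1), cf e α (b i j) = _
  apply Finset.sum_subset
  · intro i hi
    rw [Finset.mem_range] at hi ⊢
    omega
  · intro i _ hi
    rw [Finset.mem_range, not_lt] at hi
    exact hb i j α (by omega)

theorem Fl_sep {m : ℕ} (ρ : Fin m → (Fin d →₀ ℕ) → ℕ) (a : Fin m → R) (h : ∀ N, a ∈ Fl e ρ N) :
    a = 0 := by
  funext j
  apply cf_ext e
  intro γ
  rw [h (ρ j γ + 1) j γ (Nat.lt_succ_self _), Pi.zero_apply, map_zero]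

/-- the weights given by shifts -/
noncomputable def rr (m : ℕ) (s : Fin m → (Fin d →₀ ℕ)) (i : Fin m) (γ : Fin d →₀ ℕ) : ℕ :=
  rk (γ + s i) * m + i

variable {e}

theorem lex_lt {m A B : ℕ} {i j : ℕ} (hi : i < m) (hj : j < m) :
    A * m + i < B * m + j ↔ A < B ∨ (A = B ∧ i < j) := by
  rcases lt_trichotomy A B with h | h | h
  · have h1 : (A + 1) * m ≤ B * m := Nat.mul_le_mul_right _ h
    rw [add_mul, one_mul] at h1
    constructor
    · intro _; left; exact h
    · intro _; omega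
  · subst h
    constructor
    · intro h; right; exact ⟨rfl, by omega⟩
    · rintro (h | ⟨_, h⟩)
      · exact absurd h (lt_irrefl _)
      · omega
  · have h1 : (B + 1) * m ≤ A * m := Nat.mul_le_mul_right _ h
    rw [add_mul, one_mul] at h1
    constructor
    · intro _; omega
    · rintro (h | ⟨h, _⟩)
      · omega
      · omega

theorem rr_lt {m : ℕ} {s : Fin m → (Fin d →₀ ℕ)} {i i' : Fin m} {γ γ' : Fin d →₀ ℕ} :
    rr m s i γ < rr m s i' γ' ↔ rk (γ + s i) < rk (γ' + s i') ∨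
      (rk (γ + s i) = rk (γ' + s i') ∧ i < i') :=
  lex_lt i.2 i'.2

theorem rr_le {m : ℕ} {s : Fin m → (Fin d →₀ ℕ)} {i i' : Fin m} {γ γ' : Fin d →₀ ℕ} :
    rr m s i γ ≤ rr m s i' γ' ↔ rk (γ + s i) < rk (γ' + s i') ∨
      (rk (γ + s i) = rk (γ' + s i') ∧ i ≤ i') := by
  rw [← not_lt, rr_lt]
  rcases lt_trichotomy (rk (γ + s i)) (rk (γ' + s i')) with h | h | h
  · simp only [h, true_or, iff_true]; omega
  · simp only [h, lt_irrefl, true_and, false_or]; omega
  · constructor
    · intro h1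
      exact absurd (Or.inl h) h1
    · rintro (h1 | ⟨h1, _⟩)
      · exact absurd h (not_lt_of_gt h1)
      · rw [h1] at h; exact absurd h (lt_irrefl _)

theorem rr_inj {m : ℕ} {s : Fin m → (Fin d →₀ ℕ)} {i i' : Fin m} {γ γ' : Fin d →₀ ℕ}
    (h : rr m s i γ = rr m s i' γ') : i = i' ∧ γ = γ' := by
  have h1 := rr_le.1 h.le
  have h2 := rr_le.1 h.ge
  have h3 : i = i' := by omega
  have h4 : rk (γ + s i) = rk (γ' + s i') := by omega
  subst h3
  exact ⟨rfl, add_right_cancel (rk_inj h4)⟩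

theorem rr_add_le {m : ℕ} {s : Fin m → (Fin d →₀ ℕ)} {i i' : Fin m} {γ γ' : Fin d →₀ ℕ}
    (h : rr m s i γ ≤ rr m s i' γ') (α : Fin d →₀ ℕ) : rr m s i (α + γ) ≤ rr m s i' (α + γ') := by
  rw [rr_le] at h ⊢
  rw [add_assoc, add_assoc, rk_add_lt]
  rcases h with h | ⟨h1, h2⟩
  · left; exact h
  · right
    exact ⟨by rw [rk_inj h1], h2⟩

theorem rr_mono {m : ℕ} {s : Fin m → (Fin d →₀ ℕ)} {i : Fin m} {γ γ' : Fin d →₀ ℕ} :
    rr m s i γ ≤ rr m s i γ' ↔ rk γ ≤ rk γ' := by
  rw [rr_le, rk_add_lt']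
  constructor
  · rintro (h | ⟨h, _⟩)
    · exact h.le
    · exact ((rk_add_le' _ _ _).1 h.le)
  · intro h
    rcases lt_or_eq_of_le h with h | h
    · left; exact h
    · right; exact ⟨by rw [rk_inj h], le_rfl⟩

end Filt

/-! ### standard bases -/
section SBsec
variable {k R : Type} [Field k] [Ring R] {d : ℕ} (e : R ≃+ MvPowerSeries (Fin d) k)

/-- standard bases of submodules -/
structure SB {m r : ℕ} (K : Submodule R (Fin m → R)) (s : Fin m → (Fin d →₀ ℕ))
    (κ : Fin r → Fin m → R) (idx : Fin r → Fin m) (ep : Fin r → (Fin d →₀ ℕ)) : Prop where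
  mem : ∀ j, κ j ∈ K
  ne : ∀ j, cf e (ep j) (κ j (idx j)) ≠ 0
  low : ∀ j i γ, cf e γ (κ j i) ≠ 0 → rr m s (idx j) (ep j) ≤ rr m s i γ
  span : ∀ x ∈ K, ∀ i γ, cf e γ (x i) ≠ 0 →
    (∀ i' γ', cf e γ' (x i') ≠ 0 → rr m s i γ ≤ rr m s i' γ') → ∃ j, idx j = i ∧ ep j ≤ γ

variable {e} {m r : ℕ} {K : Submodule R (Fin m → R)} {s : Fin m → (Fin d →₀ ℕ)}
    {κ : Fin r → Fin m → R} {idx : Fin r → Fin m} {ep : Fin r → (Fin d →₀ ℕ)}

theorem SB.low' (h : SB e K s κ idx ep) (j : Fin r) (γ : Fin d →₀ ℕ) (hγ : rk γ < rk (ep j)) :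
    cf e γ (κ j (idx j)) = 0 := by
  by_contra hcon
  exact absurd (rr_mono.1 (h.low j _ _ hcon)) (not_le_of_gt hγ)

theorem SB.comb_mem (he : Deform e) (h : SB e K s κ idx ep) {n : ℕ} {a : Fin r → R}
    (ha : a ∈ Fl e (fun j α => rr m s (idx j) (α + ep j)) n) :
    Fintype.linearCombination R κ a ∈ Fl e (rr m s) n := by
  rw [mem_Fl] at ha ⊢
  intro i γ hγ
  rw [Fintype.linearCombination_apply, Finset.sum_apply, map_sum] at hγ
  obtain ⟨j, _, hj⟩ := Finset.exists_ne_zero_of_sum_ne_zero hγ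
  rw [Pi.smul_apply, smul_eq_mul] at hj
  obtain ⟨α, β, h1, h2, h3⟩ := cf_mul_ne he hj
  have h4 := ha j α h1
  have h5 := rr_add_le (h.low j i β h2) α
  have h6 : rr m s i (α + β) ≤ rr m s i γ := rr_mono.2 h3
  omega

theorem SB.div (he : Deform e) (h : SB e K s κ idx ep) (n : ℕ) (x : Fin m → R) (hx : x ∈ K)
    (hn : x ∈ Fl e (rr m s) n) : ∃ a ∈ Fl e (fun j α => rr m s (idx j) (α + ep j)) n,
      Fintype.linearCombination R κ a = x := by
  classical
  obtain ⟨a, ha, hlim⟩ := lim (Fl e (fun j α => rr m s (idx j) (α + ep j))) (Fl e (rr m s))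
    (Fl_anti e _) (Fl_anti e _) (Fintype.linearCombination R κ).toAddMonoidHom
    (fun n a ha => h.comb_mem he ha) K.toAddSubgroup
    (by
      intro a
      change Fintype.linearCombination R κ a ∈ K
      rw [Fintype.linearCombination_apply]
      exact Submodule.sum_mem _ fun j _ => K.smul_mem _ (h.mem j))
    (by
      intro n x hx hxn
      by_cases h1 : x ∈ Fl e (rr m s) (n + 1)
      · exact ⟨0, AddSubgroup.zero_mem _, by rw [map_zero, sub_zero]; exact h1⟩
      rw [mem_Fl] at h1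
      push Not at h1
      obtain ⟨i, γ, h2, h3⟩ := h1
      have hxn' := (mem_Fl e).1 hxn
      have h4 : rr m s i γ = n := by
        have := hxn' i γ h2; omega
      obtain ⟨j, rfl, h5⟩ := h.span x hx i γ h2 (fun i' γ' h' => by
        rw [h4]; exact hxn' i' γ' h')
      have h6 : γ - ep j + ep j = γ := tsub_add_cancel_of_le h5
      let c : k := cf e γ (x (idx j)) / cf e (ep j) (κ j (idx j))
      have ha' : Pi.single j (mon e (γ - ep j) c) ∈
          Fl e (fun j α => rr m s (idx j) (α + ep j)) n := by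
        rw [mem_Fl]
        intro j' α hα
        by_cases h7 : j' = j
        · subst h7
          rw [Pi.single_eq_same] at hα
          have h8 : α = γ - ep j' := by
            by_contra hcon
            exact hα (cf_mon_ne e c hcon)
          rw [h8, h6, h4]
        · rw [Pi.single_eq_of_ne h7, map_zero] at hα
          exact absurd rfl hα
      refine ⟨Pi.single j (mon e (γ - ep j) c), ha', ?_⟩
      have h9 := h.comb_mem he ha'
      intro i' γ' h'
      change cf e γ' ((x - Fintype.linearCombination R κ (Pi.single j (mon e (γ - ep j) c))) i') = 0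
      rw [Pi.sub_apply, map_sub]
      rcases Nat.lt_succ_iff_lt_or_eq.1 h' with h10 | h10
      · rw [hxn i' γ' h10, h9 i' γ' h10, sub_zero]
      · obtain ⟨rfl, rfl⟩ := rr_inj (h10.trans h4.symm)
        rw [Fintype.linearCombination_apply_single, Pi.smul_apply, smul_eq_mul]
        have h11 := (cf_mul_low he (a := mon e (γ' - ep j) c) (b := κ j (idx j))
          (α := γ' - ep j) (β := ep j)
          (fun δ hδ => cf_mon_ne e c (by rintro rfl; exact lt_irrefl _ hδ))
          (fun δ hδ => h.low' j δ hδ)).2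
        rw [h6, cf_mon_self] at h11
        rw [h11, div_mul_cancel₀ _ (h.ne j), sub_self])
    (fun b hb => Fl_complete e _ b hb) n x hx hn
  refine ⟨a, ha, ?_⟩
  have h1 := Fl_sep e (rr m s) _ hlim
  rw [sub_eq_zero] at h1
  exact h1.symm

theorem SB.ker_lead (he : Deform e) (h : SB e K s κ idx ep) (hmono : Monotone idx)
    (a : Fin r → R) (ha : Fintype.linearCombination R κ a = 0) (j : Fin r) (α : Fin d →₀ ℕ)
    (hne : cf e α (a j) ≠ 0)
    (hlow : ∀ j' α', cf e α' (a j') ≠ 0 →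
      rr r (fun j => ep j + s (idx j)) j α ≤ rr r (fun j => ep j + s (idx j)) j' α') :
    ∃ l, j < l ∧ idx j = idx l ∧ ep l ≤ α + ep j := by
  by_contra hcon
  push Not at hcon
  have h1 : ∀ l, l ≠ j → cf e (α + ep j) (a l * κ l (idx j)) = 0 := by
    intro l hl
    by_contra h2
    obtain ⟨β, β', h3, h4, h5⟩ := cf_mul_ne he h2
    have h6 := rr_le.1 (hlow l β h3)
    have h7 := rr_le.1 (h.low l _ _ h4)
    have e1 : rk (β + β' + s (idx j)) ≤ rk (α + ep j + s (idx j)) := by
      rw [rk_add_le']; exact h5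
    have e2 : rk (β + (ep l + s (idx l))) ≤ rk (β + (β' + s (idx j))) := by
      rw [rk_add_le]; omega
    rw [add_assoc, add_assoc] at e1
    have h8 : rk (α + (ep j + s (idx j))) = rk (β + (ep l + s (idx l))) := by omega
    have h9 : j ≤ l := by omega
    have h10 : rk (β + (ep l + s (idx l))) = rk (β + (β' + s (idx j))) := by omega
    have h11 : ep l + s (idx l) = β' + s (idx j) := add_left_cancel (rk_inj h10)
    have h12 : idx l ≤ idx j := by
      rw [h11] at h7; omega
    have h13 : idx j = idx l := le_antisymm (hmono h9) h12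
    have h14 : rk (β + (β' + s (idx j))) = rk (α + (ep j + s (idx j))) := by omega
    rw [← h13] at h11
    have h15 : ep l = β' := add_right_cancel h11
    have h16 : β + β' = α + ep j := by
      have := rk_inj h14
      rw [← add_assoc, ← add_assoc] at this
      exact add_right_cancel this
    apply hcon l (lt_of_le_of_ne h9 (Ne.symm hl)) h13
    rw [h15, ← h16]
    exact le_add_self
  have h2 : cf e (α + ep j) ((Fintype.linearCombination R κ a) (idx j)) =
      cf e α (a j) * cf e (ep j) (κ j (idx j)) := by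
    rw [Fintype.linearCombination_apply, Finset.sum_apply, map_sum, Finset.sum_eq_single j]
    · rw [Pi.smul_apply, smul_eq_mul]
      apply (cf_mul_low he _ _).2
      · intro γ hγ
        by_contra hcon2
        exact absurd (rr_mono.1 (hlow j γ hcon2)) (not_le_of_gt hγ)
      · exact fun γ hγ => h.low' j γ hγ
    · intro l _ hl
      exact h1 l hl
    · intro h3
      exact absurd (Finset.mem_univ _) h3
  rw [ha, Pi.zero_apply, map_zero] at h2
  exact mul_ne_zero hne (h.ne j) h2.symm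

theorem SB.pair (he : Deform e) (h : SB e K s κ idx ep) (hmono : Monotone idx) (j l : Fin r)
    (hjl : j < l) (hidx : idx j = idx l) : ∃ σ : Fin r → R,
      Fintype.linearCombination R κ σ = 0 ∧ cf e (ep l - ep j) (σ j) ≠ 0 ∧
      ∀ i γ, cf e γ (σ i) ≠ 0 → rr r (fun j => ep j + s (idx j)) j (ep l - ep j) ≤
        rr r (fun j => ep j + s (idx j)) i γ := by
  classical
  have e0 : ep l - ep j + ep j = ep j - ep l + ep l := by
    ext t
    simp only [Finsupp.add_apply, Finsupp.tsub_apply]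
    omega
  set δ₁ := ep l - ep j with hδ₁
  set δ₂ := ep j - ep l with hδ₂
  let c₁ : R := mon e δ₁ (1 / cf e (ep j) (κ j (idx j)))
  let c₂ : R := mon e δ₂ (1 / cf e (ep l) (κ l (idx l)))
  have a1 : Pi.single j c₁ ∈ Fl e (fun j α => rr m s (idx j) (α + ep j))
      (rr m s (idx j) (δ₁ + ep j)) := by
    rw [mem_Fl]
    intro j' α hα
    by_cases h7 : j' = j
    · subst h7
      rw [Pi.single_eq_same] at hα
      have h8 : α = δ₁ := by
        by_contra hcon
        exact hα (cf_mon_ne e _ hcon)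
      rw [h8]
    · rw [Pi.single_eq_of_ne h7, map_zero] at hα
      exact absurd rfl hα
  have a2 : Pi.single l c₂ ∈ Fl e (fun j α => rr m s (idx j) (α + ep j))
      (rr m s (idx j) (δ₁ + ep j)) := by
    rw [mem_Fl]
    intro j' α hα
    by_cases h7 : j' = l
    · subst h7
      rw [Pi.single_eq_same] at hα
      have h8 : α = δ₂ := by
        by_contra hcon
        exact hα (cf_mon_ne e _ hcon)
      rw [h8, ← e0, hidx]
    · rw [Pi.single_eq_of_ne h7, map_zero] at hα
      exact absurd rfl hα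
  have b1 := h.comb_mem he a1
  have b2 := h.comb_mem he a2
  rw [Fintype.linearCombination_apply_single] at b1 b2
  have hx : c₁ • κ j - c₂ • κ l ∈ K :=
    K.sub_mem (K.smul_mem _ (h.mem j)) (K.smul_mem _ (h.mem l))
  have hxn : c₁ • κ j - c₂ • κ l ∈ Fl e (rr m s) (rr m s (idx j) (δ₁ + ep j) + 1) := by
    intro i' γ' h'
    rw [Pi.sub_apply, map_sub]
    rcases Nat.lt_succ_iff_lt_or_eq.1 h' with h10 | h10
    · rw [b1 i' γ' h10, b2 i' γ' h10, sub_zero]
    · obtain ⟨rfl, rfl⟩ := rr_inj h10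
      have h11 := (cf_mul_low he (a := c₁) (b := κ j (idx j)) (α := δ₁) (β := ep j)
        (fun δ hδ => cf_mon_ne e _ (by rintro rfl; exact lt_irrefl _ hδ))
        (fun δ hδ => h.low' j δ hδ)).2
      have h12 := (cf_mul_low he (a := c₂) (b := κ l (idx l)) (α := δ₂) (β := ep l)
        (fun δ hδ => cf_mon_ne e _ (by rintro rfl; exact lt_irrefl _ hδ))
        (fun δ hδ => h.low' l δ hδ)).2
      rw [cf_mon_self, div_mul_cancel₀ _ (h.ne _)] at h11 h12
      rw [← e0, ← hidx] at h12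
      rw [Pi.smul_apply, Pi.smul_apply, smul_eq_mul, smul_eq_mul, h11, h12, sub_self]
  obtain ⟨a, ha, ha2⟩ := h.div he _ _ hx hxn
  refine ⟨Pi.single j c₁ - Pi.single l c₂ - a, ?_, ?_, ?_⟩
  · rw [map_sub, map_sub, Fintype.linearCombination_apply_single,
      Fintype.linearCombination_apply_single, ha2, sub_self]
  · have h1 : cf e δ₁ (a j) = 0 := ha j δ₁ (Nat.lt_succ_self _)
    rw [Pi.sub_apply, Pi.sub_apply, map_sub, map_sub, h1, sub_zero, Pi.single_eq_same,
      Pi.single_eq_of_ne hjl.ne, map_zero, sub_zero, cf_mon_self]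
    exact one_div_ne_zero (h.ne j)
  · intro i γ hγ
    rw [Pi.sub_apply, Pi.sub_apply, map_sub, map_sub] at hγ
    by_cases h1 : cf e γ (a i) = 0
    · by_cases h2 : i = j
      · subst h2
        rw [h1, sub_zero, Pi.single_eq_same, Pi.single_eq_of_ne hjl.ne, map_zero, sub_zero] at hγ
        have h8 : γ = δ₁ := by
          by_contra hcon
          exact hγ (cf_mon_ne e _ hcon)
        rw [h8]
      · by_cases h3 : i = l
        · subst h3
          rw [h1, sub_zero, Pi.single_eq_same, Pi.single_eq_of_ne h2, map_zero, zero_sub,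
            neg_ne_zero] at hγ
          have h8 : γ = δ₂ := by
            by_contra hcon
            exact hγ (cf_mon_ne e _ hcon)
          rw [h8, rr_le]
          right
          refine ⟨?_, hjl.le⟩
          rw [← add_assoc, ← add_assoc, e0, hidx]
        · rw [h1, Pi.single_eq_of_ne h2, Pi.single_eq_of_ne h3, map_zero, sub_zero,
            sub_zero] at hγ
          exact absurd rfl hγ
    · have h2 := (mem_Fl e).1 ha i γ h1
      have h3 := rr_lt.1 (Nat.lt_of_succ_le h2)
      rw [rr_le]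
      rw [← add_assoc, ← add_assoc]
      rcases h3 with h3 | ⟨h3, h4⟩
      · left; exact h3
      · right
        refine ⟨h3, ?_⟩
        by_contra hcon
        exact absurd (hmono (not_le.1 hcon).le) (not_le_of_gt h4)

theorem SB.syz (he : Deform e) (h : SB e K s κ idx ep) (hmono : Monotone idx) :
    ∃ (r₁ : ℕ) (κ₁ : Fin r₁ → Fin r → R) (idx₁ : Fin r₁ → Fin r)
      (ep₁ : Fin r₁ → (Fin d →₀ ℕ)),
      SB e (LinearMap.ker (Fintype.linearCombination R κ)) (fun j => ep j + s (idx j))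
        κ₁ idx₁ ep₁ ∧
      ∀ t, ∃ j l, j < l ∧ idx j = idx l ∧ ep₁ t = ep l - ep j := by
  classical
  choose! σ h1 h2 h3 using fun j l => h.pair he hmono j l
  let P : Type := {p : Fin r × Fin r // p.1 < p.2 ∧ idx p.1 = idx p.2}
  let q : Fin (Fintype.card P) ≃ P := (Fintype.equivFin P).symm
  refine ⟨Fintype.card P, fun t => σ (q t).1.1 (q t).1.2, fun t => (q t).1.1,
    fun t => ep (q t).1.2 - ep (q t).1.1, ⟨?_, ?_, ?_, ?_⟩, ?_⟩
  · intro t
    rw [LinearMap.mem_ker]
    exact h1 _ _ (q t).2.1 (q t).2.2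
  · intro t
    exact h2 _ _ (q t).2.1 (q t).2.2
  · intro t i γ hγ
    exact h3 _ _ (q t).2.1 (q t).2.2 i γ hγ
  · intro x hx i γ hne hlow
    obtain ⟨l, h4, h5, h6⟩ := h.ker_lead he hmono x (LinearMap.mem_ker.1 hx) i γ hne hlow
    refine ⟨q.symm ⟨(i, l), h4, h5⟩, ?_, ?_⟩
    · rw [Equiv.apply_symm_apply]
    · rw [Equiv.apply_symm_apply]
      exact tsub_le_iff_right.2 h6
  · intro t
    exact ⟨_, _, (q t).2.1, (q t).2.2, rfl⟩

theorem SB.reindex (h : SB e K s κ idx ep) {r' : ℕ} (f : Fin r' → Fin r)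
    (hf : ∀ j, ∃ t, idx (f t) = idx j ∧ ep (f t) ≤ ep j) :
    SB e K s (fun t => κ (f t)) (fun t => idx (f t)) (fun t => ep (f t)) where
  mem t := h.mem _
  ne t := h.ne _
  low t := h.low _
  span x hx i γ h1 h2 := by
    obtain ⟨j, rfl, h3⟩ := h.span x hx i γ h1 h2
    obtain ⟨t, h4, h5⟩ := hf j
    exact ⟨t, h4, h5.trans h3⟩

theorem exists_SB (K : Submodule R (Fin m → R)) (s : Fin m → (Fin d →₀ ℕ)) :
    ∃ (r : ℕ) (κ : Fin r → Fin m → R) (idx : Fin r → Fin m) (ep : Fin r → (Fin d →₀ ℕ)),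
      SB e K s κ idx ep := by
  classical
  let Ld : Fin m → Set (Fin d →₀ ℕ) := fun i => {γ | ∃ x ∈ K, cf e γ (x i) ≠ 0 ∧
    ∀ i' γ', cf e γ' (x i') ≠ 0 → rr m s i γ ≤ rr m s i' γ'}
  have hfin : ∀ i, {γ | Minimal (· ∈ Ld i) γ}.Finite := by
    intro i
    apply WellQuasiOrderedLE.finite_of_isAntichain
    exact setOfPred_minimal_antichain _
  let P : Type := {p : Fin m × (Fin d →₀ ℕ) // Minimal (· ∈ Ld p.1) p.2}
  have hP : Finite P := by
    have h1 : {p : Fin m × (Fin d →₀ ℕ) | Minimal (· ∈ Ld p.1) p.2}.Finite := by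
      refine (Set.finite_iUnion (fun i : Fin m => (hfin i).image (fun γ => (i, γ)))).subset ?_
      intro p hp
      rw [Set.mem_iUnion]
      exact ⟨p.1, p.2, hp, rfl⟩
    exact h1.to_subtype
  obtain ⟨r, ⟨q⟩⟩ := Finite.exists_equiv_fin P
  have h2 : ∀ p : P, ∃ x ∈ K, cf e p.1.2 (x p.1.1) ≠ 0 ∧
    ∀ i' γ', cf e γ' (x i') ≠ 0 → rr m s p.1.1 p.1.2 ≤ rr m s i' γ' := fun p => p.2.1
  choose x hx1 hx2 hx3 using h2
  refine ⟨r, fun t => x (q.symm t), fun t => (q.symm t).1.1, fun t => (q.symm t).1.2,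
    ⟨fun t => hx1 _, fun t => hx2 _, fun t => hx3 _, ?_⟩⟩
  intro y hy i γ h1 h3
  obtain ⟨γ₀, h4, h5⟩ := exists_minimal_le_of_wellFoundedLT (· ∈ Ld i) γ ⟨y, hy, h1, h3⟩
  refine ⟨q ⟨(i, γ₀), h5⟩, ?_, ?_⟩
  · rw [Equiv.symm_apply_apply]
  · rw [Equiv.symm_apply_apply]
    exact h4

/-- the presentation given by a standard basis -/
noncomputable def SB.map (h : SB e K s κ idx ep) : (Fin r → R) →ₗ[R] K :=
  LinearMap.codRestrict K (Fintype.linearCombination R κ) (by
    intro a
    rw [Fintype.linearCombination_apply]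
    exact Submodule.sum_mem _ fun j _ => K.smul_mem _ (h.mem j))

theorem SB.map_surjective (he : Deform e) (h : SB e K s κ idx ep) :
    Function.Surjective h.map := by
  rintro ⟨x, hx⟩
  obtain ⟨a, -, ha⟩ := h.div he 0 x hx (fun i γ h => absurd h (Nat.not_lt_zero _))
  exact ⟨a, Subtype.ext ha⟩

theorem SB.ker_map (h : SB e K s κ idx ep) :
    LinearMap.ker h.map = LinearMap.ker (Fintype.linearCombination R κ) :=
  LinearMap.ker_codRestrict _ _ _

theorem SB.base (he : Deform e) (h : SB e K s κ idx ep) (h0 : ∀ j, ep j = 0) : FFR R 0 K := by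
  classical
  let I : Finset (Fin m) := Finset.univ.image idx
  have h1 : ∀ t : Fin I.card, ∃ j, idx j = I.orderEmbOfFin rfl t := by
    intro t
    have h2 := I.orderEmbOfFin_mem rfl t
    obtain ⟨j, _, hj⟩ := Finset.mem_image.1 h2
    exact ⟨j, hj⟩
  choose f hf using h1
  have h3 : SB e K s (fun t => κ (f t)) (fun t => idx (f t)) (fun t => ep (f t)) := by
    apply h.reindex f
    intro j
    have h4 : idx j ∈ Set.range (I.orderEmbOfFin rfl) := by
      rw [Finset.range_orderEmbOfFin]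
      exact Finset.mem_coe.2 (Finset.mem_image_of_mem _ (Finset.mem_univ _))
    obtain ⟨t, ht⟩ := h4
    exact ⟨t, by rw [hf, ht], by rw [h0, h0]⟩
  have hmono : StrictMono (fun t => idx (f t)) := by
    intro t t' htt
    simp only [hf]
    exact (I.orderEmbOfFin rfl).strictMono htt
  have hinj : Function.Injective h3.map := by
    rw [← LinearMap.ker_eq_bot, h3.ker_map, Submodule.eq_bot_iff]
    intro a ha
    by_contra hne
    have h5 : ∃ p : Fin I.card × (Fin d →₀ ℕ), cf e p.2 (a p.1) ≠ 0 := by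
      by_contra hcon
      push Not at hcon
      apply hne
      funext j
      apply cf_ext e
      intro γ
      rw [hcon (j, γ), Pi.zero_apply, map_zero]
    obtain ⟨p, hp1, hp2⟩ := (measure (fun p : Fin I.card × (Fin d →₀ ℕ) =>
      rr I.card (fun j => ep (f j) + s (idx (f j))) p.1 p.2)).wf.has_min
        {p | cf e p.2 (a p.1) ≠ 0} h5
    obtain ⟨l, h6, h7, _⟩ := h3.ker_lead he hmono.monotone a (LinearMap.mem_ker.1 ha) p.1 p.2 hp1
      (fun j' α' h' => not_lt.1 (hp2 (j', α') h'))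
    refine absurd (hmono h6) ?_
    change ¬ (idx (f p.1) < idx (f l))
    rw [h7]; exact lt_irrefl _
  have eq1 : (Fin I.card → R) ≃ₗ[R] K :=
    LinearEquiv.ofBijective h3.map ⟨hinj, h3.map_surjective he⟩
  exact ⟨0, I.card, ⟨LinearEquiv.prodUnique.trans eq1.symm⟩⟩

theorem SB.ffr (he : Deform e) (t : ℕ) : ∀ (m r : ℕ) (K : Submodule R (Fin m → R))
    (s : Fin m → (Fin d →₀ ℕ)) (κ : Fin r → Fin m → R) (idx : Fin r → Fin m)
    (ep : Fin r → (Fin d →₀ ℕ)), SB e K s κ idx ep →
    (∀ j, ∀ i : Fin d, i.val + t < d → ep j i = 0) → FFR R t K := by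
  classical
  induction t with
  | zero =>
    intro m r K s κ idx ep h h0
    apply h.base he
    intro j
    ext i
    exact h0 j i (by simp)
  | succ t ih =>
    intro m r K s κ idx ep h h0
    let key : Fin r → Fin m ×ₗ ℕᵒᵈ := fun j => toLex (idx j,
      OrderDual.toDual (if hd : d - (t + 1) < d then ep j ⟨d - (t + 1), hd⟩ else 0))
    have h1 : SB e K s (fun j => κ (Tuple.sort key j)) (fun j => idx (Tuple.sort key j))
        (fun j => ep (Tuple.sort key j)) := by
      apply h.reindex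
      intro j
      exact ⟨(Tuple.sort key).symm j, by rw [Equiv.apply_symm_apply],
        by rw [Equiv.apply_symm_apply]⟩
    have hkey : Monotone (fun j => key (Tuple.sort key j)) := Tuple.monotone_sort key
    have hmono : Monotone (fun j => idx (Tuple.sort key j)) := by
      intro j l hjl
      have h2 := (Prod.Lex.le_iff).1 (hkey hjl)
      rcases h2 with h2 | ⟨h2, _⟩
      · exact le_of_lt h2
      · exact le_of_eq h2
    obtain ⟨r₁, κ₁, idx₁, ep₁, h2, h3⟩ := h1.syz he hmono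
    have h4 := ih r r₁ _ _ κ₁ idx₁ ep₁ h2 (by
      intro u i hi
      obtain ⟨j, l, h5, h6, h7⟩ := h3 u
      rw [h7, Finsupp.tsub_apply]
      by_cases h8 : i.val + (t + 1) < d
      · rw [h0 _ i h8, h0 _ i h8]
      · have hd : d - (t + 1) < d := by have := i.2; omega
        have h9 : i = ⟨d - (t + 1), hd⟩ := by
          apply Fin.ext
          simp only
          omega
        have h10 := (Prod.Lex.le_iff).1 (hkey h5.le)
        rcases h10 with h10 | ⟨_, h10⟩
        · exfalso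
          change idx (Tuple.sort key j) < idx (Tuple.sort key l) at h10
          rw [h6] at h10
          exact lt_irrefl _ h10
        · have hk : ∀ j, (ofLex (key j)).2 = OrderDual.toDual (ep j ⟨d - (t + 1), hd⟩) := by
            intro j
            change OrderDual.toDual (if hd : d - (t + 1) < d then ep j ⟨d - (t + 1), hd⟩ else 0) = _
            rw [dif_pos hd]
          change (ofLex (key (Tuple.sort key j))).2 ≤ (ofLex (key (Tuple.sort key l))).2 at h10
          rw [hk, hk, OrderDual.toDual_le_toDual] at h10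
          rw [h9]
          exact tsub_eq_zero_of_le h10)
    refine ⟨r, h1.map, h1.map_surjective he, ?_⟩
    rw [h1.ker_map]
    exact h4

end SBsec

/-! ### division by one element -/
section Rem
variable {k R : Type} [Field k] [Ring R] {d : ℕ} {e : R ≃+ MvPowerSeries (Fin d) k}

variable (e) in
/-- no terms of small rank in the ideal generated by a monomial -/
def Pl (β : Fin d →₀ ℕ) (n : ℕ) : AddSubgroup R where
  carrier := {x | ∀ γ, β ≤ γ → rk γ < n → cf e γ x = 0}
  zero_mem' := by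
    intro γ _ _
    rw [map_zero]
  add_mem' := by
    intro a b ha hb γ h1 h2
    rw [map_add, ha γ h1 h2, hb γ h1 h2, add_zero]
  neg_mem' := by
    intro a ha γ h1 h2
    rw [map_neg, ha γ h1 h2, neg_zero]

theorem rem (he : Deform e) (a : R) (ha : a ≠ 0) : ∃ β : Fin d →₀ ℕ, ∀ x : R, ∃ y : R,
    ∀ γ : Fin d →₀ ℕ, β ≤ γ → MvPowerSeries.coeff γ (e (x - y * a)) = 0 := by
  classical
  obtain ⟨β, hβ1, hβ2⟩ := exists_lead (e := e) ha
  refine ⟨β, fun x => ?_⟩
  have key : ∀ n (c : Fin 1 → R), c ∈ Fl e (fun _ α => rk (α + β)) n → c 0 * a ∈ Pl e β n := by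
    intro n c hc γ h1 h2
    by_contra hcon
    obtain ⟨α, α', h3, h4, h5⟩ := cf_mul_ne he hcon
    have h6 := (mem_Fl e).1 hc 0 α h3
    have h7 : rk β ≤ rk α' := by
      by_contra h8
      exact h4 (hβ2 α' (not_le.1 h8))
    have h8 : rk (α + β) ≤ rk (α + α') := (rk_add_le _ _ _).2 h7
    omega
  let φ : (Fin 1 → R) →+ R :=
    { toFun := fun c => c 0 * a
      map_zero' := by rw [Pi.zero_apply, zero_mul]
      map_add' := by intro c c'; rw [Pi.add_apply, add_mul] }
  obtain ⟨c, -, hc⟩ := lim (Fl e (fun (_ : Fin 1) α => rk (α + β))) (Pl e β)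
    (Fl_anti e _)
    (by
      intro n n' h x hx γ h1 h2
      exact hx γ h1 (lt_of_lt_of_le h2 h))
    φ key ⊤ (fun _ => AddSubgroup.mem_top _)
    (by
      intro n x _ hx
      by_cases h1 : x ∈ Pl e β (n + 1)
      · exact ⟨0, AddSubgroup.zero_mem _, by rw [map_zero, sub_zero]; exact h1⟩
      have h2 : ∃ γ, β ≤ γ ∧ rk γ < n + 1 ∧ cf e γ x ≠ 0 := by
        by_contra hcon
        push Not at hcon
        exact h1 (fun γ h3 h4 => hcon γ h3 h4)
      obtain ⟨γ, h3, h4, h5⟩ := h2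
      have h6 : rk γ = n := by
        by_contra h7
        exact h5 (hx γ h3 (by omega))
      have h8 : γ - β + β = γ := tsub_add_cancel_of_le h3
      let c : Fin 1 → R := fun _ => mon e (γ - β) (cf e γ x / cf e β a)
      have hc : c ∈ Fl e (fun (_ : Fin 1) α => rk (α + β)) n := by
        rw [mem_Fl]
        intro j α hα
        have h9 : α = γ - β := by
          by_contra hcon
          exact hα (cf_mon_ne e _ hcon)
        rw [h9, h8, h6]
      refine ⟨c, hc, ?_⟩
      intro δ h9 h10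
      rw [map_sub]
      change cf e δ x - cf e δ (c 0 * a) = 0
      rcases Nat.lt_succ_iff_lt_or_eq.1 h10 with h11 | h11
      · rw [hx δ h9 h11, key n c hc δ h9 h11, sub_zero]
      · have h12 : δ = γ := rk_inj (h11.trans h6.symm)
        rw [h12]
        have h13 := (cf_mul_low he (a := c 0) (b := a) (α := γ - β) (β := β)
          (fun δ hδ => cf_mon_ne e _ (by rintro rfl; exact lt_irrefl _ hδ)) hβ2).2
        rw [h8] at h13
        rw [h13]
        change cf e γ x - cf e (γ - β) (mon e (γ - β) (cf e γ x / cf e β a)) * cf e β a = 0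
        rw [cf_mon_self, div_mul_cancel₀ _ hβ1, sub_self])
    (fun b hb => Fl_complete e _ b hb) 0 x (AddSubgroup.mem_top _)
    (fun γ _ h => absurd h (Nat.not_lt_zero _))
  exact ⟨c 0, fun γ hγ => hc (rk γ + 1) γ hγ (Nat.lt_succ_self _)⟩

end Rem

end Pool.Agent.H371.SA.Bx

namespace Pool.Agent.H371.SA

variable {k R : Type} [Field k] [Ring R] {d : ℕ} (e : R ≃+ MvPowerSeries (Fin d) k)

theorem Deform.noZeroDivisors (he : Deform e) : NoZeroDivisors R := Bx.noZeroDivisors he

theorem Deform.ffr (he : Deform e) (m : ℕ) (K : Submodule R (Fin m → R)) : FFR R d K := by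
  obtain ⟨r, κ, idx, ep, h⟩ := Bx.exists_SB (e := e) K (fun _ => 0)
  exact Bx.SB.ffr he d m r K _ κ idx ep h (fun j i hi => by omega)

/-- division by one element -/
theorem Deform.rem (he : Deform e) (a : R) (ha : a ≠ 0) : ∃ β : Fin d →₀ ℕ, ∀ x : R, ∃ y : R,
    ∀ γ : Fin d →₀ ℕ, β ≤ γ → MvPowerSeries.coeff γ (e (x - y * a)) = 0 := Bx.rem he a ha

end Pool.Agent.H371.SA
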