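import Pool.Agent.H371.SA.TA

/-! TASK C of the strong Atiyah project of helper371: lifting from characteristic `p`. -/

set_option autoImplicit false

namespace Pool.Agent.H371.SA

namespace Cx

/-- `M` is a `p`-adically separated torsion-free lift of `Mb` -/
structure Red {L R : Type} [Ring L] [Ring R] (p : ℕ) (q : L →+* R) {M Mb : Type} [AddCommGroup M]
    [Module L M] [AddCommGroup Mb] [Module R Mb] (π : M →ₛₗ[q] Mb) : Prop where
  surj : Function.Surjective π
  ker : ∀ x, π x = 0 → ∃ y : M, x = p • y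
  tf : ∀ x : M, p • x = 0 → x = 0
  sep : ∀ x : M, (∀ n : ℕ, ∃ z : M, x = (p ^ n) • z) → x = 0

section
variable {L R : Type} [Ring L] [Ring R] {p : ℕ} {q : L →+* R}

/-- the coordinatewise reduction -/
def Qm (q : L →+* R) (b : ℕ) : (Fin b → L) →ₛₗ[q] (Fin b → R) where
  toFun x := fun i => q (x i)
  map_add' x y := by funext i; simp
  map_smul' c x := by funext i; simp

theorem Qm_apply (b : ℕ) (x : Fin b → L) (i : Fin b) : Qm q b x i = q (x i) := rfl

theorem red_free (hq : Function.Surjective q)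
    (hker : ∀ a : L, q a = 0 ↔ ∃ b : L, a = p * b)
    (htf : ∀ a : L, (p : L) * a = 0 → a = 0)
    (hsep : ∀ y : L, (∀ n : ℕ, ∃ z : L, y = (p : L) ^ n * z) → y = 0) (b : ℕ) :
    Red p q (Qm q b) where
  surj y := by
    choose f hf using hq
    exact ⟨fun i => f (y i), by funext i; exact hf _⟩
  ker x hx := by
    have h1 : ∀ i, ∃ c : L, x i = p * c := fun i => (hker _).1 (congrFun hx i)
    choose c hc using h1
    exact ⟨c, by funext i; rw [hc i]; simp [nsmul_eq_mul]⟩
  tf x hx := by
    funext i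
    have := congrFun hx i
    apply htf
    simpa [nsmul_eq_mul] using this
  sep x hx := by
    funext i
    apply hsep
    intro n
    obtain ⟨z, hz⟩ := hx n
    refine ⟨z i, ?_⟩
    rw [hz]; simp [nsmul_eq_mul]

/-- product of semilinear maps -/
def prodMap {M Mb M' Mb' : Type} [AddCommGroup M]
    [Module L M] [AddCommGroup Mb] [Module R Mb] (π : M →ₛₗ[q] Mb) [AddCommGroup M']
    [Module L M'] [AddCommGroup Mb'] [Module R Mb'] (π' : M' →ₛₗ[q] Mb') :
    (M × M') →ₛₗ[q] (Mb × Mb') where
  toFun x := (π x.1, π' x.2)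
  map_add' x y := by simp
  map_smul' c x := by simp

theorem Red.prod {M Mb M' Mb' : Type} [AddCommGroup M]
    [Module L M] [AddCommGroup Mb] [Module R Mb] {π : M →ₛₗ[q] Mb} [AddCommGroup M']
    [Module L M'] [AddCommGroup Mb'] [Module R Mb'] {π' : M' →ₛₗ[q] Mb'} (h : Red p q π)
    (h' : Red p q π') : Red p q (prodMap π π') where
  surj y := by
    obtain ⟨a, ha⟩ := h.surj y.1
    obtain ⟨b, hb⟩ := h'.surj y.2
    exact ⟨(a, b), Prod.ext ha hb⟩
  ker x hx := by
    obtain ⟨a, ha⟩ := h.ker x.1 (congrArg Prod.fst hx)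
    obtain ⟨b, hb⟩ := h'.ker x.2 (congrArg Prod.snd hx)
    exact ⟨(a, b), Prod.ext ha hb⟩
  tf x hx := Prod.ext (h.tf _ (congrArg Prod.fst hx)) (h'.tf _ (congrArg Prod.snd hx))
  sep x hx := by
    refine Prod.ext (h.sep _ fun n => ?_) (h'.sep _ fun n => ?_)
    · obtain ⟨z, hz⟩ := hx n
      exact ⟨z.1, congrArg Prod.fst hz⟩
    · obtain ⟨z, hz⟩ := hx n
      exact ⟨z.2, congrArg Prod.snd hz⟩

/-- completeness of `L^b` -/
def Complete (L : Type) [Ring L] (p : ℕ) : Prop :=
  ∀ x : ℕ → L, ∃ y : L, ∀ n : ℕ, ∃ z : L,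
      y - ∑ i ∈ Finset.range n, (p : L) ^ i * x i = (p : L) ^ n * z

theorem complete_free (hcomp : Complete L p) (b : ℕ) (x : ℕ → (Fin b → L)) :
    ∃ y : Fin b → L, ∀ n : ℕ, ∃ z : Fin b → L,
      y = ∑ i ∈ Finset.range n, (p ^ i) • x i + (p ^ n) • z := by
  choose y hy using fun j : Fin b => hcomp (fun n => x n j)
  refine ⟨y, fun n => ?_⟩
  choose z hz using fun j => hy j n
  refine ⟨z, ?_⟩
  funext j
  have h1 := hz j
  rw [sub_eq_iff_eq_add] at h1
  rw [h1, Pi.add_apply, Finset.sum_apply, add_comm]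
  simp [nsmul_eq_mul]

/-- successive approximation -/
theorem approx_range {M Mb : Type} [AddCommGroup M]
    [Module L M] [AddCommGroup Mb] [Module R Mb] {π : M →ₛₗ[q] Mb} (h : Red p q π)
    (hcomp : Complete L p) {b : ℕ} (g : (Fin b → L) →ₗ[L] M) (S : ℕ → Set M)
    (hS : ∀ n, ∀ y ∈ S n, ∃ x, ∃ y1 ∈ S (n + 1), y = g x + p • y1) (y : M) (hy : y ∈ S 0) :
    ∃ x, g x = y := by
  choose! X Y hY1 hY2 using hS
  let s : ℕ → M := fun n => Nat.rec y (fun n z => Y n z) n
  have hs0 : s 0 = y := rfl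
  have hs1 : ∀ n, s (n + 1) = Y n (s n) := fun n => rfl
  have hsS : ∀ n, s n ∈ S n := by
    intro n
    induction n with
    | zero => exact hy
    | succ n ih => rw [hs1]; exact hY1 n _ ih
  obtain ⟨x, hx⟩ := complete_free hcomp b (fun n => X n (s n))
  refine ⟨x, ?_⟩
  have hsum : ∀ n, y = g (∑ i ∈ Finset.range n, (p ^ i) • X i (s i)) + (p ^ n) • s n := by
    intro n
    induction n with
    | zero => simp [hs0]
    | succ n ih =>
      have h2 := hY2 n (s n) (hsS n)
      rw [← hs1] at h2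
      rw [Finset.sum_range_succ, map_add, map_nsmul, add_assoc, pow_succ, mul_nsmul',
        ← nsmul_add, ← h2]
      exact ih
  have h3 : y - g x = 0 := by
    apply h.sep
    intro n
    obtain ⟨z, hz⟩ := hx n
    refine ⟨s n - g z, ?_⟩
    rw [nsmul_sub]
    nth_rewrite 1 [hsum n]
    nth_rewrite 1 [hz]
    rw [map_add, map_nsmul g]
    abel
  exact (sub_eq_zero.1 h3).symm

/-- lifting maps from free modules -/
theorem exists_lift {M Mb : Type} [AddCommGroup M]
    [Module L M] [AddCommGroup Mb] [Module R Mb] {π : M →ₛₗ[q] Mb} (hπ : Function.Surjective π)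
    {b : ℕ} (f : (Fin b → R) →ₗ[R] Mb) : ∃ g : (Fin b → L) →ₗ[L] M, ∀ x, π (g x) = f (Qm q b x) := by
  choose m hm using fun i : Fin b => hπ (f (Pi.single i 1))
  refine ⟨Fintype.linearCombination L m, fun x => ?_⟩
  rw [Fintype.linearCombination_apply, map_sum]
  have h1 : Qm q b x = ∑ i, q (x i) • (Pi.single i (1 : R) : Fin b → R) := by
    funext j
    rw [Finset.sum_apply, Finset.sum_eq_single j]
    · simp [Qm_apply]
    · intro i _ hij
      simp [Pi.single_eq_of_ne hij.symm]
    · simp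
  rw [h1, map_sum]
  refine Finset.sum_congr rfl fun i _ => ?_
  rw [LinearMap.map_smulₛₗ, map_smul, hm]

theorem lift_surjective {M Mb : Type} [AddCommGroup M]
    [Module L M] [AddCommGroup Mb] [Module R Mb] {π : M →ₛₗ[q] Mb} (h : Red p q π)
    (hq : Function.Surjective q)
    (hcomp : Complete L p) {b : ℕ} (f : (Fin b → R) →ₗ[R] Mb) (hf : Function.Surjective f)
    (g : (Fin b → L) →ₗ[L] M) (hg : ∀ x, π (g x) = f (Qm q b x)) : Function.Surjective g := by
  intro y
  refine approx_range h hcomp g (fun _ => Set.univ) ?_ y (Set.mem_univ _)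
  intro n y _
  obtain ⟨r, hr⟩ := hf (π y)
  choose w hw using hq
  have h1 : π (y - g (fun i => w (r i))) = 0 := by
    rw [map_sub, hg]
    have : Qm q b (fun i => w (r i)) = r := by funext i; exact hw _
    rw [this, hr, sub_self]
  obtain ⟨y1, hy1⟩ := h.ker _ h1
  exact ⟨_, y1, Set.mem_univ _, by rw [← hy1]; abel⟩

theorem lift_injective {M Mb : Type} [AddCommGroup M]
    [Module L M] [AddCommGroup Mb] [Module R Mb] {π : M →ₛₗ[q] Mb} (h : Red p q π) {b : ℕ}
    (hb : Red p q (Qm q b)) (f : (Fin b → R) →ₗ[R] Mb) (hf : Function.Injective f)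
    (g : (Fin b → L) →ₗ[L] M) (hg : ∀ x, π (g x) = f (Qm q b x)) : Function.Injective g := by
  rw [injective_iff_map_eq_zero]
  intro x hx
  apply hb.sep
  have hstep : ∀ y, g y = 0 → ∃ z, y = p • z ∧ g z = 0 := by
    intro y hy
    have h1 : f (Qm q b y) = 0 := by rw [← hg, hy, map_zero]
    have h2 : Qm q b y = 0 := by
      apply hf; rw [h1, map_zero]
    obtain ⟨z, hz⟩ := hb.ker y h2
    refine ⟨z, hz, h.tf _ ?_⟩
    rw [← map_nsmul, ← hz, hy]
  intro n
  have : ∃ z, x = (p ^ n) • z ∧ g z = 0 := by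
    induction n with
    | zero => exact ⟨x, by simp, hx⟩
    | succ n ih =>
      obtain ⟨z, hz, hgz⟩ := ih
      obtain ⟨w, hw, hgw⟩ := hstep z hgz
      exact ⟨w, by rw [pow_succ, mul_nsmul', ← hw, hz], hgw⟩
  obtain ⟨z, hz, _⟩ := this
  exact ⟨z, hz⟩

/-- restriction to submodules -/
theorem Red.sub {M Mb : Type} [AddCommGroup M]
    [Module L M] [AddCommGroup Mb] [Module R Mb] {π : M →ₛₗ[q] Mb} (h : Red p q π)
    (N : Submodule L M) (Nb : Submodule R Mb) (h1 : ∀ x ∈ N, π x ∈ Nb)
    (h2 : ∀ y ∈ Nb, ∃ x ∈ N, π x = y) (h3 : ∀ x : M, p • x ∈ N → x ∈ N) :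
    Red p q ((π.domRestrict N).codRestrict Nb (fun x => h1 x x.2)) where
  surj y := by
    obtain ⟨x, hx, hxy⟩ := h2 y.1 y.2
    exact ⟨⟨x, hx⟩, Subtype.ext hxy⟩
  ker x hx := by
    obtain ⟨y, hy⟩ := h.ker x.1 (congrArg Subtype.val hx)
    refine ⟨⟨y, h3 y (by rw [← hy]; exact x.2)⟩, Subtype.ext hy⟩
  tf x hx := Subtype.ext (h.tf _ (congrArg Subtype.val hx))
  sep x hx := by
    apply Subtype.ext
    apply h.sep
    intro n
    obtain ⟨z, hz⟩ := hx n
    exact ⟨z.1, congrArg Subtype.val hz⟩

theorem ffr_lift (hq : Function.Surjective q) (hp0 : (p : R) = 0)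
    (hfree : ∀ b, Red p q (Qm q b)) (hcomp : Complete L p) (j : ℕ) :
    ∀ (M Mb : Type) [AddCommGroup M] [Module L M] [AddCommGroup Mb] [Module R Mb]
      (π : M →ₛₗ[q] Mb), Red p q π → FFR R j Mb → FFR L j M := by
  induction j with
  | zero =>
    intro M Mb _ _ _ _ π h hF
    obtain ⟨a, b, ⟨e⟩⟩ := hF
    have h1 := h.prod (hfree a)
    obtain ⟨g, hg⟩ := exists_lift h1.surj e.symm.toLinearMap
    have hs := lift_surjective h1 hq hcomp e.symm.toLinearMap e.symm.surjective g hg
    have hi := lift_injective h1 (hfree b) e.symm.toLinearMap e.symm.injective g hg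
    exact ⟨a, b, ⟨(LinearEquiv.ofBijective g ⟨hi, hs⟩).symm⟩⟩
  | succ j ih =>
    intro M Mb _ _ _ _ π h hF
    obtain ⟨b, f, hf, hk⟩ := hF
    obtain ⟨g, hg⟩ := exists_lift h.surj f
    have hs := lift_surjective h hq hcomp f hf g hg
    refine ⟨b, g, hs, ?_⟩
    have h30 : ∀ x ∈ LinearMap.ker g, Qm q b x ∈ LinearMap.ker f := by
      intro x hx
      have h3 : g x = 0 := hx
      change f (Qm q b x) = 0
      rw [← hg, h3, map_zero]
    have h2 : Red p q (((Qm q b).domRestrict (LinearMap.ker g)).codRestrict (LinearMap.ker f)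
        (fun x => h30 x x.2)) := by
      refine (hfree b).sub (LinearMap.ker g) (LinearMap.ker f) h30 ?_ ?_
      · intro y hy
        obtain ⟨x, hx⟩ := (hfree b).surj y
        have h4 : π (g x) = 0 := by rw [hg, hx]; exact hy
        obtain ⟨m, hm⟩ := h.ker _ h4
        obtain ⟨x', hx'⟩ := hs m
        refine ⟨x - p • x', ?_, ?_⟩
        · change g (x - p • x') = 0
          rw [map_sub, map_nsmul, hx', hm, sub_self]
        · have h5 : π m = f (Qm q b x') := by rw [← hx', hg]
          rw [map_sub, map_nsmul, hx]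
          have h6 : p • Qm q b x' = 0 := by
            rw [← Nat.cast_smul_eq_nsmul R, hp0, zero_smul]
          rw [h6, sub_zero]
      · intro x hx
        have h3 : g (p • x) = 0 := hx
        rw [map_nsmul] at h3
        exact h.tf _ h3
    exact ih _ _ _ h2 hk

/-- noetherianity: finitely generated steps -/
theorem fg_step {M : Type} [AddCommGroup M] [Module L M] {Mb : Type} [AddCommGroup Mb] [Module R Mb]
    {π : M →ₛₗ[q] Mb} (h : Red p q π) (hq : Function.Surjective q)
    (K K' : Submodule L M) (hK : ∀ x, x ∈ K' ↔ p • x ∈ K) (hKK : K ≤ K')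
    (hN : IsNoetherian R Mb) (hfg : K'.FG) : K.FG := by
  haveI : RingHomSurjective q := ⟨hq⟩
  -- generators of the image
  have h1 : (K.map π).FG := hN.noetherian _
  obtain ⟨s, hs⟩ := h1
  have h2 : ∀ y ∈ s, ∃ x ∈ K, π x = y := by
    intro y hy
    have : y ∈ K.map π := by rw [← hs]; exact Submodule.subset_span hy
    exact this
  choose! c hcK hc using h2
  classical
  obtain ⟨s', hs'⟩ := hfg
  refine ⟨s.image c ∪ s'.image (fun x => p • x), ?_⟩
  apply le_antisymm
  · rw [Submodule.span_le]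
    intro x hx
    rw [Finset.mem_coe, Finset.mem_union, Finset.mem_image, Finset.mem_image] at hx
    rcases hx with ⟨y, hy, rfl⟩ | ⟨y, hy, rfl⟩
    · exact hcK y hy
    · have : y ∈ K' := by rw [← hs']; exact Submodule.subset_span hy
      exact (hK y).1 this
  · intro x hx
    set N := Submodule.span L (↑(s.image c ∪ s'.image (fun x => p • x)) : Set M) with hNdef
    have h3 : K.map π ≤ N.map π := by
      rw [← hs, Submodule.span_le]
      intro y hy
      refine ⟨c y, ?_, hc y hy⟩
      apply Submodule.subset_span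
      rw [Finset.mem_coe, Finset.mem_union, Finset.mem_image]
      exact Or.inl ⟨y, hy, rfl⟩
    obtain ⟨z, hzN, hz⟩ := h3 ⟨x, hx, rfl⟩
    have hNK : N ≤ K := by
      rw [hNdef, Submodule.span_le]
      intro x hx
      rw [Finset.mem_coe, Finset.mem_union, Finset.mem_image, Finset.mem_image] at hx
      rcases hx with ⟨y, hy, rfl⟩ | ⟨y, hy, rfl⟩
      · exact hcK y hy
      · have : y ∈ K' := by rw [← hs']; exact Submodule.subset_span hy
        exact (hK y).1 this
    obtain ⟨w, hw⟩ := h.ker (x - z) (by rw [map_sub, hz, sub_self])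
    have hwK' : w ∈ K' := by
      rw [hK, ← hw]
      exact sub_mem hx (hNK hzN)
    have hpK' : ∀ w ∈ K', p • w ∈ N := by
      intro w hw
      rw [← hs'] at hw
      induction hw using Submodule.span_induction with
      | mem x hx =>
        apply Submodule.subset_span
        rw [Finset.mem_coe, Finset.mem_union, Finset.mem_image, Finset.mem_image]
        exact Or.inr ⟨x, hx, rfl⟩
      | zero => rw [smul_zero]; exact zero_mem _
      | add x y _ _ hx hy => rw [smul_add]; exact add_mem hx hy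
      | smul a x _ hx =>
        rw [smul_comm]
        exact Submodule.smul_mem _ _ hx
    have : x = z + p • w := by rw [← hw]; abel
    rw [this]
    exact add_mem hzN (hpK' w hwK')

/-- the submodules `{x | p^j x ∈ K}` -/
def colon {M : Type} [AddCommGroup M] [Module L M] (p : ℕ) (K : Submodule L M) (j : ℕ) :
    Submodule L M where
  carrier := {x | (p ^ j) • x ∈ K}
  add_mem' := by
    intro a b ha hb
    change (p ^ j) • (a + b) ∈ K
    rw [smul_add]; exact add_mem ha hb
  zero_mem' := by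
    change (p ^ j) • (0 : M) ∈ K
    rw [smul_zero]; exact zero_mem _
  smul_mem' := by
    intro c x hx
    change (p ^ j) • (c • x) ∈ K
    rw [smul_comm]; exact Submodule.smul_mem _ _ hx

theorem mem_colon {M : Type} [AddCommGroup M] [Module L M] (p : ℕ) (K : Submodule L M) (j : ℕ)
    (x : M) : x ∈ colon p K j ↔ (p ^ j) • x ∈ K := Iff.rfl

theorem colon_succ {M : Type} [AddCommGroup M] [Module L M] (p : ℕ) (K : Submodule L M) (j : ℕ)
    (x : M) : x ∈ colon p K (j + 1) ↔ p • x ∈ colon p K j := by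
  rw [mem_colon, mem_colon, pow_succ, mul_nsmul']

theorem colon_mono {M : Type} [AddCommGroup M] [Module L M] (p : ℕ) (K : Submodule L M) :
    Monotone (colon p K) := by
  apply monotone_nat_of_le_succ
  intro j x hx
  rw [colon_succ]
  exact (colon p K j).smul_of_tower_mem p hx

theorem fg_all {M : Type} [AddCommGroup M] [Module L M] {Mb : Type} [AddCommGroup Mb] [Module R Mb]
    {π : M →ₛₗ[q] Mb} (h : Red p q π) (hq : Function.Surjective q) (hcomp : Complete L p)
    (hN : IsNoetherian R Mb) (K : Submodule L M) : K.FG := by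
  haveI : RingHomSurjective q := ⟨hq⟩
  -- stabilisation
  have hmono : Monotone (fun j => (colon p K j).map π) := fun i j hij =>
    Submodule.map_mono (colon_mono p K hij)
  obtain ⟨j0, hj0⟩ := (monotone_stabilizes_iff_noetherian (R := R) (M := Mb)).2 hN
    ⟨fun j => (colon p K j).map π, hmono⟩
  have hstab : ∀ n, (colon p K (j0 + n)).map π = (colon p K j0).map π := fun n =>
    (hj0 (j0 + n) (Nat.le_add_right _ _)).symm
  have hj0fg : (colon p K j0).FG := by
    obtain ⟨s, hs⟩ : ((colon p K j0).map π).FG := hN.noetherian _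
    obtain ⟨b, v, hv⟩ : ∃ (b : ℕ) (v : Fin b → Mb),
        Submodule.span R (Set.range v) = (colon p K j0).map π := by
      refine ⟨s.card, fun i => (s.equivFin.symm i : Mb), ?_⟩
      rw [← hs]
      congr 1
      ext y
      constructor
      · rintro ⟨i, rfl⟩
        exact (s.equivFin.symm i).2
      · intro hy
        exact ⟨s.equivFin ⟨y, hy⟩, by simp⟩
    have h2 : ∀ i, ∃ x ∈ colon p K j0, π x = v i := by
      intro i
      have : v i ∈ (colon p K j0).map π := by
        rw [← hv]; exact Submodule.subset_span ⟨i, rfl⟩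
      exact this
    choose c hcK hc using h2
    let g : (Fin b → L) →ₗ[L] M := Fintype.linearCombination L c
    have hgr : ∀ y ∈ (colon p K j0).map π, ∃ x, π (g x) = y := by
      intro y hy
      rw [← hv, Submodule.mem_span_range_iff_exists_fun] at hy
      obtain ⟨r, hr⟩ := hy
      choose w hw using hq
      refine ⟨fun i => w (r i), ?_⟩
      change π (Fintype.linearCombination L c _) = y
      rw [Fintype.linearCombination_apply, map_sum, ← hr]
      refine Finset.sum_congr rfl fun i _ => ?_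
      rw [LinearMap.map_smulₛₗ, hc, hw]
    have hgK : ∀ x, g x ∈ colon p K j0 := by
      intro x
      change Fintype.linearCombination L c _ ∈ _
      rw [Fintype.linearCombination_apply]
      exact sum_mem fun i _ => Submodule.smul_mem _ _ (hcK i)
    have h4 : ∀ y ∈ colon p K j0, ∃ x, g x = y := by
      intro y hy
      refine approx_range h hcomp g (fun n => (colon p K (j0 + n) : Set M)) ?_ y hy
      intro n y hy
      have h5 : π y ∈ (colon p K j0).map π := by
        rw [← hstab n]; exact ⟨y, hy, rfl⟩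
      obtain ⟨x, hx⟩ := hgr _ h5
      obtain ⟨y1, hy1⟩ := h.ker (y - g x) (by rw [map_sub, hx, sub_self])
      refine ⟨x, y1, ?_, by rw [← hy1]; abel⟩
      change y1 ∈ colon p K (j0 + n + 1)
      rw [colon_succ, ← hy1]
      exact sub_mem hy (colon_mono p K (Nat.le_add_right _ _) (hgK x))
    have h5 : colon p K j0 = LinearMap.range g := by
      apply le_antisymm
      · intro y hy
        exact h4 y hy
      · rintro _ ⟨x, rfl⟩
        exact hgK x
    rw [h5, LinearMap.range_eq_map]
    exact Submodule.FG.map _ Module.Finite.fg_top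
  have hall : ∀ i j, i + j = j0 → (colon p K j).FG := by
    intro i
    induction i with
    | zero =>
      intro j hj
      rw [zero_add] at hj
      rw [hj]; exact hj0fg
    | succ i ih =>
      intro j hj
      exact fg_step h hq (colon p K j) (colon p K (j + 1)) (colon_succ p K j)
        (colon_mono p K (Nat.le_succ _)) hN (ih (j + 1) (by omega))
  have h6 : colon p K 0 = K := by
    ext x
    rw [mem_colon, pow_zero, one_nsmul]
  rw [← h6]
  exact hall j0 0 rfl

end

end Cx

section C
variable {L R : Type} [Ring L] [Ring R] (p : ℕ) (q : L →+* R)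

theorem lift_noZeroDivisors (hq : Function.Surjective q)
    (hker : ∀ a : L, q a = 0 ↔ ∃ b : L, a = p * b)
    (htf : ∀ a : L, (p : L) * a = 0 → a = 0)
    (hsep : ∀ y : L, (∀ n : ℕ, ∃ z : L, y = (p : L) ^ n * z) → y = 0)
    (h : NoZeroDivisors R) : NoZeroDivisors L := by
  have hpow : ∀ (n : ℕ) (a : L), (p : L) ^ n * a = 0 → a = 0 := by
    intro n
    induction n with
    | zero => intro a ha; simpa using ha
    | succ n ih =>
      intro a ha
      rw [pow_succ, mul_assoc] at ha
      exact htf _ (ih _ ha)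
  have hfac : ∀ a : L, a ≠ 0 → ∃ (n : ℕ) (b : L), a = (p : L) ^ n * b ∧ q b ≠ 0 := by
    intro a ha
    by_contra hcon
    push Not at hcon
    apply ha
    apply hsep
    intro n
    induction n with
    | zero => exact ⟨a, by simp⟩
    | succ n ih =>
      obtain ⟨z, hz⟩ := ih
      obtain ⟨w, hw⟩ := (hker z).1 (hcon n z hz)
      exact ⟨w, by rw [hz, hw, pow_succ, mul_assoc]⟩
  refine ⟨fun {a b} hab => ?_⟩
  by_contra hcon
  push Not at hcon
  obtain ⟨ha, hb⟩ := hcon
  obtain ⟨n, a', rfl, ha'⟩ := hfac a ha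
  obtain ⟨m, b', rfl, hb'⟩ := hfac b hb
  have h1 : (p : L) ^ n * a' * ((p : L) ^ m * b') = (p : L) ^ (n + m) * (a' * b') := by
    have h2 : a' * (p : L) ^ m = (p : L) ^ m * a' := by
      have := (Nat.cast_commute (p ^ m) a').symm
      rw [Nat.cast_pow] at this
      exact this.eq
    rw [mul_assoc, ← mul_assoc a', h2, pow_add]
    simp only [mul_assoc]
  rw [h1] at hab
  have h3 : a' * b' = 0 := hpow _ _ hab
  have h4 : q a' * q b' = 0 := by rw [← map_mul, h3, map_zero]
  rcases mul_eq_zero.1 h4 with h5 | h5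
  · exact ha' h5
  · exact hb' h5

theorem lift_ffr (hq : Function.Surjective q)
    (hker : ∀ a : L, q a = 0 ↔ ∃ b : L, a = p * b)
    (htf : ∀ a : L, (p : L) * a = 0 → a = 0)
    (hsep : ∀ y : L, (∀ n : ℕ, ∃ z : L, y = (p : L) ^ n * z) → y = 0)
    (hcomp : ∀ x : ℕ → L, ∃ y : L, ∀ n : ℕ, ∃ z : L,
      y - ∑ i ∈ Finset.range n, (p : L) ^ i * x i = (p : L) ^ n * z)
    (D : ℕ) (h : ∀ (m : ℕ) (K : Submodule R (Fin m → R)), FFR R D K) :
    ∃ D' : ℕ, ∀ (m : ℕ) (K : Submodule L (Fin m → L)), FFR L D' K := by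
  haveI : RingHomSurjective q := ⟨hq⟩
  have hfree : ∀ b, Cx.Red p q (Cx.Qm q b) := Cx.red_free hq hker htf hsep
  have hp0 : (p : R) = 0 := by
    have : q (p : L) = 0 := (hker _).2 ⟨1, by simp⟩
    rwa [map_natCast] at this
  haveI hRN : IsNoetherianRing R := isNoetherianRing_of_ffr D (h 1)
  refine ⟨D + 1, fun m K => ?_⟩
  have hK : K.FG := Cx.fg_all (hfree m) hq hcomp inferInstance K
  haveI : Module.Finite L K := Module.Finite.iff_fg.2 hK
  obtain ⟨r, f, hf⟩ := Module.Finite.exists_fin' L K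
  refine ⟨r, f, hf, ?_⟩
  set K1 := LinearMap.ker f with hK1
  have hsat : ∀ x : Fin r → L, p • x ∈ K1 → x ∈ K1 := by
    intro x hx
    have h1 : f (p • x) = 0 := hx
    rw [map_nsmul] at h1
    have h2 : (f x : Fin m → L) = 0 := by
      apply (hfree m).tf
      have := congrArg Subtype.val h1
      simpa using this
    exact Subtype.ext h2
  have h30 : ∀ x ∈ K1, Cx.Qm q r x ∈ K1.map (Cx.Qm q r) := fun x hx => ⟨x, hx, rfl⟩
  have h2 := (hfree r).sub K1 (K1.map (Cx.Qm q r)) h30 (fun y hy => hy) hsat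
  exact Cx.ffr_lift hq hp0 hfree hcomp D _ _ _ h2 (h r _)

end C

end Pool.Agent.H371.SA
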