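import Pool.Agent.H371.SA.Defs

/-!
# From coordinates to a deformation of the power series ring (TASK D of the plan for `S01283`)
-/

set_option autoImplicit false

namespace Pool.Agent.H371.SA.Dx

open Finset

/-! ### the functional given by a function -/
section L
variable {k Q Q' : Type} [CommRing k]

/-- the linear functional on the group algebra given by a function -/
noncomputable def L (φ : Q → k) (a : MonoidAlgebra k Q) : k := a.coeff.sum fun q c => c * φ q

lemma L_zero (φ : Q → k) : L φ (0 : MonoidAlgebra k Q) = 0 := by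
  simp [L]

lemma L_add (φ : Q → k) (a b : MonoidAlgebra k Q) : L φ (a + b) = L φ a + L φ b := by
  classical
  unfold L
  rw [MonoidAlgebra.coeff_add, Finsupp.sum_add_index']
  · intro q; rw [zero_mul]
  · intro q c c'; rw [add_mul]

lemma L_single (φ : Q → k) (q : Q) (c : k) : L φ (MonoidAlgebra.single q c) = c * φ q := by
  unfold L
  rw [MonoidAlgebra.coeff_single, Finsupp.sum_single_index (zero_mul _)]

lemma L_neg (φ : Q → k) (a : MonoidAlgebra k Q) : L φ (-a) = -L φ a := by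
  have h := L_add φ a (-a)
  rw [add_neg_cancel, L_zero] at h
  exact (neg_eq_of_add_eq_zero_right h.symm).symm

lemma L_sub (φ : Q → k) (a b : MonoidAlgebra k Q) : L φ (a - b) = L φ a - L φ b := by
  rw [sub_eq_add_neg, L_add, L_neg, sub_eq_add_neg]

lemma L_sum (φ : Q → k) {ι : Type} (s : Finset ι) (f : ι → MonoidAlgebra k Q) :
    L φ (∑ i ∈ s, f i) = ∑ i ∈ s, L φ (f i) := by
  classical
  induction s using Finset.induction_on with
  | empty => simp [L_zero]
  | insert i s hi ih => rw [Finset.sum_insert hi, Finset.sum_insert hi, L_add, ih]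

lemma L_mapDomain (f : Q → Q') (φ : Q' → k) (a : MonoidAlgebra k Q) :
    L φ (MonoidAlgebra.mapDomain f a) = L (φ ∘ f) a := by
  induction a using MonoidAlgebra.induction_linear with
  | zero => simp [L_zero]
  | add a b ha hb => rw [MonoidAlgebra.mapDomain_add, L_add, L_add, ha, hb]
  | single q c => rw [MonoidAlgebra.mapDomain_single, L_single, L_single]; rfl

lemma L_congr (φ ψ : Q → k) (a : MonoidAlgebra k Q) (h : ∀ q, a.coeff q ≠ 0 → φ q = ψ q) :
    L φ a = L ψ a := by
  unfold L Finsupp.sum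
  refine Finset.sum_congr rfl fun q hq => ?_
  change a.coeff q * φ q = a.coeff q * ψ q
  rw [h q (Finsupp.mem_support_iff.1 hq)]

/-- the bilinear functional given by a function of two variables -/
noncomputable def L2 (ψ : Q → Q → k) (a b : MonoidAlgebra k Q) : k :=
  L (fun q => L (fun q' => ψ q q') b) a

lemma L_mul [Monoid Q] (φ : Q → k) (a b : MonoidAlgebra k Q) :
    L φ (a * b) = L2 (fun q q' => φ (q * q')) a b := by
  unfold L2
  induction a using MonoidAlgebra.induction_linear with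
  | zero => rw [zero_mul, L_zero, L_zero]
  | add a a' ha ha' => rw [add_mul, L_add, L_add, ha, ha']
  | single q c =>
    rw [L_single]
    induction b using MonoidAlgebra.induction_linear with
    | zero => rw [mul_zero, L_zero, L_zero, mul_zero]
    | add b b' hb hb' => rw [mul_add, L_add, L_add, hb, hb', mul_add]
    | single q' c' =>
      rw [MonoidAlgebra.single_mul_single, L_single, L_single, mul_assoc]

lemma L_fun_add (φ ψ : Q → k) (a : MonoidAlgebra k Q) :
    L (fun q => φ q + ψ q) a = L φ a + L ψ a := by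
  unfold L Finsupp.sum
  rw [← Finset.sum_add_distrib]
  refine Finset.sum_congr rfl fun q _ => ?_
  exact mul_add _ _ _

lemma L_fun_smul (r : k) (φ : Q → k) (a : MonoidAlgebra k Q) :
    L (fun q => r * φ q) a = r * L φ a := by
  unfold L Finsupp.sum
  rw [Finset.mul_sum]
  refine Finset.sum_congr rfl fun q _ => ?_
  ring

lemma L_fun_zero (a : MonoidAlgebra k Q) : L (fun _ => (0 : k)) a = 0 := by
  unfold L Finsupp.sum
  simp

lemma L2_add (φ ψ : Q → Q → k) (a b : MonoidAlgebra k Q) :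
    L2 (fun q q' => φ q q' + ψ q q') a b = L2 φ a b + L2 ψ a b := by
  unfold L2
  rw [← L_fun_add]
  congr 1
  funext q
  rw [L_fun_add]

lemma L2_smul (r : k) (φ : Q → Q → k) (a b : MonoidAlgebra k Q) :
    L2 (fun q q' => r * φ q q') a b = r * L2 φ a b := by
  unfold L2
  rw [← L_fun_smul]
  congr 1
  funext q
  rw [L_fun_smul]

lemma L2_zero (a b : MonoidAlgebra k Q) : L2 (fun _ _ => (0 : k)) a b = 0 := by
  unfold L2
  simp only [L_fun_zero]

lemma L2_sub (φ ψ : Q → Q → k) (a b : MonoidAlgebra k Q) :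
    L2 (fun q q' => φ q q' - ψ q q') a b = L2 φ a b - L2 ψ a b := by
  have h := L2_add (fun q q' => φ q q' - ψ q q') ψ a b
  simp only [sub_add_cancel] at h
  rw [h, add_sub_cancel_right]

lemma L2_sum {ι : Type} (s : Finset ι) (φ : ι → Q → Q → k) (a b : MonoidAlgebra k Q) :
    L2 (fun q q' => ∑ i ∈ s, φ i q q') a b = ∑ i ∈ s, L2 (φ i) a b := by
  classical
  induction s using Finset.induction_on with
  | empty => simp [L2_zero]
  | insert i s hi ih =>
    rw [Finset.sum_insert hi, ← ih, ← L2_add]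
    congr 1
    funext q q'
    rw [Finset.sum_insert hi]

lemma L2_mul (φ ψ : Q → k) (a b : MonoidAlgebra k Q) :
    L2 (fun q q' => φ q * ψ q') a b = L φ a * L ψ b := by
  unfold L2
  have h : (fun q => L (fun q' => φ q * ψ q') b) = fun q => L ψ b * φ q := by
    funext q
    rw [L_fun_smul, mul_comm]
  rw [h, L_fun_smul, mul_comm]

lemma L2_congr (φ ψ : Q → Q → k) (a b : MonoidAlgebra k Q)
    (h : ∀ q, a.coeff q ≠ 0 → ∀ q', b.coeff q' ≠ 0 → φ q q' = ψ q q') :
    L2 φ a b = L2 ψ a b := by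
  unfold L2
  exact L_congr _ _ _ fun q hq => L_congr _ _ _ fun q' hq' => h q hq q' hq'

end L

/-! ### binomial coefficients modulo `p` -/
section choose
variable (p : ℕ) [hp : Fact p.Prime]

lemma choose_add_pow (n k : ℕ) (hk : k < p ^ n) (y : ℤ_[p]) :
    PadicInt.toZMod (Ring.choose (y + (p : ℤ_[p]) ^ n) k) = PadicInt.toZMod (Ring.choose y k) := by
  have h1 : ((p : ℤ_[p]) ^ n) = ((p ^ n : ℕ) : ℤ_[p]) := by push_cast; rfl
  rw [h1, Ring.add_choose_eq k (Nat.cast_commute _ _).symm, map_sum]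
  rw [Finset.sum_eq_single (k, 0)]
  · simp
  · rintro ⟨i, j⟩ hij hne
    have hij' := Finset.HasAntidiagonal.mem_antidiagonal.1 hij
    simp only at hij'
    have hj0 : j ≠ 0 := by
      rintro rfl
      apply hne
      simp only [add_zero] at hij'
      rw [hij']
    have hjn : j ≠ p ^ n := by omega
    rw [map_mul, Ring.choose_natCast, map_natCast]
    have h2 : p ∣ (p ^ n).choose j := hp.out.dvd_choose_pow hj0 hjn
    rw [(CharP.cast_eq_zero_iff (ZMod p) p _).2 h2, mul_zero]
  · intro h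
    exact absurd (Finset.HasAntidiagonal.mem_antidiagonal.2 (by rfl)) h

lemma toZMod_eq_iff (a b : ℤ_[p]) : PadicInt.toZMod a = PadicInt.toZMod b ↔ ‖a - b‖ ≤ (p : ℝ) ^ (-(1 : ℕ) : ℤ) := by
  rw [← sub_eq_zero, ← map_sub, ← RingHom.mem_ker, PadicInt.ker_toZMod,
    PadicInt.maximalIdeal_eq_span_p, PadicInt.norm_le_pow_iff_mem_span_pow, pow_one]

lemma choose_congr (n k : ℕ) (hk : k < p ^ n) (y y' : ℤ_[p]) (h : (p : ℤ_[p]) ^ n ∣ y - y') :
    PadicInt.toZMod (Ring.choose y k) = PadicInt.toZMod (Ring.choose y' k) := by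
  obtain ⟨z, hz⟩ := h
  have hy : y = y' + (p : ℤ_[p]) ^ n * z := by rw [← hz]; ring
  subst hy
  have hcl : IsClosed {z : ℤ_[p] | PadicInt.toZMod (Ring.choose (y' + (p : ℤ_[p]) ^ n * z) k) =
      PadicInt.toZMod (Ring.choose y' k)} := by
    simp only [toZMod_eq_iff]
    refine isClosed_le ?_ continuous_const
    refine Continuous.norm (Continuous.sub ?_ continuous_const)
    exact (PadicInt.continuous_choose k).comp (by fun_prop)
  have hnat : ∀ m : ℕ, (m : ℤ_[p]) ∈ {z : ℤ_[p] |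
      PadicInt.toZMod (Ring.choose (y' + (p : ℤ_[p]) ^ n * z) k) =
      PadicInt.toZMod (Ring.choose y' k)} := by
    intro m
    induction m with
    | zero => simp
    | succ m ih =>
      simp only [Set.mem_ofPred_eq] at ih ⊢
      rw [← ih, ← choose_add_pow p n k hk (y' + (p : ℤ_[p]) ^ n * m)]
      congr 2
      push_cast
      ring
  have hd : DenseRange (Nat.cast : ℕ → ℤ_[p]) := PadicInt.denseRange_natCast
  have huniv : {z : ℤ_[p] | PadicInt.toZMod (Ring.choose (y' + (p : ℤ_[p]) ^ n * z) k) =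
      PadicInt.toZMod (Ring.choose y' k)} = Set.univ := by
    apply Set.eq_univ_of_univ_subset
    rw [← hd.closure_range]
    apply hcl.closure_subset_iff.2
    rintro _ ⟨m, rfl⟩
    exact hnat m
  have : z ∈ {z : ℤ_[p] | PadicInt.toZMod (Ring.choose (y' + (p : ℤ_[p]) ^ n * z) k) =
      PadicInt.toZMod (Ring.choose y' k)} := by
    rw [huniv]; trivial
  exact this

lemma bin_congr {d : ℕ} (n : ℕ) (β : Fin d →₀ ℕ) (hβ : ∀ i, β i < p ^ n)
    (y y' : Fin d → ℤ_[p]) (h : ∀ i, (p : ℤ_[p]) ^ n ∣ y i - y' i) : bin p β y = bin p β y' := by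
  unfold bin
  exact Finset.prod_congr rfl fun i _ => choose_congr p n _ (hβ i) _ _ (h i)

lemma bin_nat {d : ℕ} (β : Fin d →₀ ℕ) (v : Fin d → ℕ) :
    bin p β (fun i => (v i : ℤ_[p])) = ∏ i, (((v i).choose (β i) : ℕ) : ZMod p) := by
  unfold bin
  refine Finset.prod_congr rfl fun i _ => ?_
  rw [Ring.choose_natCast, map_natCast]

end choose

/-! ### the functions on the finite quotients -/
section tower
variable {G : Type} [Group G] {p : ℕ} [hp : Fact p.Prime] {T : Tower G} {d : ℕ}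

lemma U_le (T : Tower G) {m n : ℕ} (h : m ≤ n) : T.U n ≤ T.U m :=
  antitone_nat_of_succ_le T.anti h

lemma mem_N (T : Tower G) (n : ℕ) (q : T.Q n) : q ∈ T.N n ↔ ∃ w : T.U 0, ((w : G) : T.Q n) = q := by
  unfold Tower.N
  rw [Subgroup.mem_map]
  constructor
  · rintro ⟨w, hw, h⟩
    exact ⟨⟨w, hw⟩, h⟩
  · rintro ⟨w, h⟩
    exact ⟨w, w.2, h⟩

lemma mk_mem_N (T : Tower G) (n : ℕ) (g : G) : (g : T.Q n) ∈ T.N n ↔ g ∈ T.U 0 := by
  rw [mem_N]
  constructor
  · rintro ⟨w, hw⟩
    have h := QuotientGroup.eq.1 hw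
    have h1 := U_le T (Nat.zero_le n) h
    have h2 := mul_mem w.2 h1
    rwa [mul_inv_cancel_left] at h2
  · intro h
    exact ⟨⟨g, h⟩, rfl⟩

lemma mk_eq (C : Coord p T d) (n : ℕ) (w w' : T.U 0) :
    ((w : G) : T.Q n) = ((w' : G) : T.Q n) ↔ ∀ i, (p : ℤ_[p]) ^ n ∣ C.x w i - C.x w' i := by
  rw [QuotientGroup.eq, ← C.cong n w w']
  rfl

open Classical in
/-- the function on the quotient group -/
noncomputable def Phi (C : Coord p T d) (n : ℕ) (β : Fin d →₀ ℕ) (q : T.Q n) : ZMod p :=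
  if h : ∃ w : T.U 0, ((w : G) : T.Q n) = q then bin p β (C.x h.choose) else 0

lemma Phi_mk (C : Coord p T d) (n : ℕ) (β : Fin d →₀ ℕ) (hβ : ∀ i, β i < p ^ n) (w : T.U 0) :
    Phi C n β ((w : G) : T.Q n) = bin p β (C.x w) := by
  have h : ∃ w' : T.U 0, ((w' : G) : T.Q n) = ((w : G) : T.Q n) := ⟨w, rfl⟩
  unfold Phi
  rw [dif_pos h]
  exact bin_congr p n β hβ _ _ ((mk_eq C n _ _).1 h.choose_spec)

lemma Phi_not (C : Coord p T d) (n : ℕ) (β : Fin d →₀ ℕ) (q : T.Q n) (hq : q ∉ T.N n) :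
    Phi C n β q = 0 := by
  unfold Phi
  rw [dif_neg]
  rwa [← mem_N]

lemma Phi_tr (C : Coord p T d) (n : ℕ) (β : Fin d →₀ ℕ) (hβ : ∀ i, β i < p ^ n)
    (q : T.Q (n + 1)) : Phi C (n + 1) β q = Phi C n β (T.tr n q) := by
  obtain ⟨g, rfl⟩ := QuotientGroup.mk_surjective q
  have htr : T.tr n (g : T.Q (n + 1)) = (g : T.Q n) := rfl
  rw [htr]
  by_cases hg : g ∈ T.U 0
  · rw [Phi_mk C n β hβ ⟨g, hg⟩, Phi_mk C (n + 1) β (fun i => (hβ i).trans_le
      (Nat.pow_le_pow_right hp.out.pos (Nat.le_succ n))) ⟨g, hg⟩]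
  · rw [Phi_not, Phi_not]
    · rwa [mk_mem_N]
    · rwa [mk_mem_N]

/-- the coefficient, computed in the `n`-th quotient -/
noncomputable def cc (C : Coord p T d) (n : ℕ) (β : Fin d →₀ ℕ) (a : Om (ZMod p) T) : ZMod p :=
  L (Phi C n β) (Om.proj (ZMod p) T n a)

omit hp in
lemma tr_proj (n : ℕ) (a : Om (ZMod p) T) :
    MonoidAlgebra.mapDomain (T.tr n) (Om.proj (ZMod p) T (n + 1) a) = Om.proj (ZMod p) T n a :=
  a.1.2 n

lemma cc_succ (C : Coord p T d) (n : ℕ) (β : Fin d →₀ ℕ) (hβ : ∀ i, β i < p ^ n)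
    (a : Om (ZMod p) T) : cc C (n + 1) β a = cc C n β a := by
  unfold cc
  rw [← tr_proj n a, L_mapDomain]
  congr 1
  funext q
  exact Phi_tr C n β hβ q

lemma cc_add_nat (C : Coord p T d) (n m : ℕ) (β : Fin d →₀ ℕ) (hβ : ∀ i, β i < p ^ n)
    (a : Om (ZMod p) T) : cc C (n + m) β a = cc C n β a := by
  induction m with
  | zero => rfl
  | succ m ih =>
    rw [← ih]
    exact cc_succ C (n + m) β (fun i => (hβ i).trans_le
      (Nat.pow_le_pow_right hp.out.pos (Nat.le_add_right n m))) a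

lemma cc_eq (C : Coord p T d) (n m : ℕ) (β : Fin d →₀ ℕ) (hβ : ∀ i, β i < p ^ n)
    (hβ' : ∀ i, β i < p ^ m) (a : Om (ZMod p) T) : cc C n β a = cc C m β a := by
  rcases le_total n m with h | h
  · obtain ⟨j, rfl⟩ := Nat.exists_eq_add_of_le h
    exact (cc_add_nat C n j β hβ a).symm
  · obtain ⟨j, rfl⟩ := Nat.exists_eq_add_of_le h
    exact cc_add_nat C m j β hβ' a

lemma lt_of_degree_le (β : Fin d →₀ ℕ) (n : ℕ) (h : β.degree ≤ n) (i : Fin d) : β i < p ^ n := by
  have h1 : β i ≤ β.degree := Finsupp.le_degree i β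
  exact (h1.trans h).trans_lt (Nat.lt_pow_self hp.out.one_lt)

/-- the power series of an element -/
noncomputable def ec (C : Coord p T d) (a : Om (ZMod p) T) : MvPowerSeries (Fin d) (ZMod p) :=
  fun β => cc C β.degree β a

lemma coeff_ec (C : Coord p T d) (n : ℕ) (β : Fin d →₀ ℕ) (hβ : ∀ i, β i < p ^ n)
    (a : Om (ZMod p) T) : MvPowerSeries.coeff β (ec C a) = cc C n β a :=
  cc_eq C _ _ β (lt_of_degree_le β _ le_rfl) hβ a

lemma coeff_proj_mem (n : ℕ) (a : Om (ZMod p) T) (q : T.Q n)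
    (hq : (Om.proj (ZMod p) T n a).coeff q ≠ 0) : q ∈ T.N n := a.2 n q hq

/-- a representative in `U 0` -/
noncomputable def rep (n : ℕ) (q : T.Q n) (hq : q ∈ T.N n) : T.U 0 := ((mem_N T n q).1 hq).choose

lemma rep_spec (n : ℕ) (q : T.Q n) (hq : q ∈ T.N n) : ((rep n q hq : G) : T.Q n) = q :=
  ((mem_N T n q).1 hq).choose_spec

open Classical in
/-- the digits -/
noncomputable def dig (C : Coord p T d) (n : ℕ) (q : T.Q n) : Fin d → ℕ :=
  if hq : q ∈ T.N n then fun i => (C.x (rep n q hq) i).appr n else 0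

lemma dig_lt (C : Coord p T d) (n : ℕ) (q : T.Q n) (i : Fin d) : dig C n q i < p ^ n := by
  unfold dig
  split_ifs with h
  · exact PadicInt.appr_lt _ _
  · exact pow_pos hp.out.pos n

lemma dig_spec (C : Coord p T d) (n : ℕ) (q : T.Q n) (hq : q ∈ T.N n) (i : Fin d) :
    (p : ℤ_[p]) ^ n ∣ C.x (rep n q hq) i - (dig C n q i : ℤ_[p]) := by
  unfold dig
  rw [dif_pos hq]
  exact Ideal.mem_span_singleton.1 (PadicInt.appr_spec n _)

lemma Phi_dig (C : Coord p T d) (n : ℕ) (β : Fin d →₀ ℕ) (hβ : ∀ i, β i < p ^ n) (q : T.Q n)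
    (hq : q ∈ T.N n) : Phi C n β q = ∏ i, (((dig C n q i).choose (β i) : ℕ) : ZMod p) := by
  rw [← bin_nat, ← bin_congr p n β hβ _ _ (dig_spec C n q hq), ← Phi_mk C n β hβ, rep_spec]

lemma dig_inj (C : Coord p T d) (n : ℕ) (q q' : T.Q n) (hq : q ∈ T.N n) (hq' : q' ∈ T.N n)
    (h : dig C n q = dig C n q') : q = q' := by
  rw [← rep_spec n q hq, ← rep_spec n q' hq', mk_eq C]
  intro i
  have h1 := dig_spec C n q hq i
  have h2 := dig_spec C n q' hq' i
  rw [← h] at h2
  have h3 := dvd_sub h1 h2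
  have h4 : C.x (rep n q hq) i - (dig C n q i : ℤ_[p]) -
    (C.x (rep n q' hq') i - (dig C n q i : ℤ_[p])) = C.x (rep n q hq) i - C.x (rep n q' hq') i := by
    ring
  rwa [h4] at h3

/-- the functionals separate the elements with support in `N n` -/
lemma sep (C : Coord p T d) (n : ℕ) (y : MonoidAlgebra (ZMod p) (T.Q n))
    (hy : ∀ q, y.coeff q ≠ 0 → q ∈ T.N n)
    (h : ∀ β : Fin d →₀ ℕ, (∀ i, β i < p ^ n) → L (Phi C n β) y = 0) : y = 0 := by
  classical
  by_contra hne
  have hs : y.coeff.support.Nonempty := by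
    rw [Finsupp.support_nonempty_iff]
    intro h0
    exact hne (MonoidAlgebra.coeff_eq_zero.1 h0)
  obtain ⟨q₀, hq₀, hmax⟩ := Finset.exists_max_image y.coeff.support (fun q => ∑ i, dig C n q i) hs
  have hq₀' := Finsupp.mem_support_iff.1 hq₀
  set β : Fin d →₀ ℕ := Finsupp.equivFunOnFinite.symm (dig C n q₀) with hβdef
  have hβ : ∀ i, β i = dig C n q₀ i := fun i => rfl
  have hβ' : ∀ i, β i < p ^ n := fun i => by rw [hβ]; exact dig_lt C n q₀ i
  have h1 := h β hβ'
  have h2 : L (Phi C n β) y = y.coeff q₀ := by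
    unfold L Finsupp.sum
    rw [Finset.sum_eq_single q₀]
    · change y.coeff q₀ * Phi C n β q₀ = y.coeff q₀
      rw [Phi_dig C n β hβ' q₀ (hy q₀ hq₀')]
      have : ∏ i, (((dig C n q₀ i).choose (β i) : ℕ) : ZMod p) = 1 := by
        refine Finset.prod_eq_one fun i _ => ?_
        rw [hβ, Nat.choose_self, Nat.cast_one]
      rw [this, mul_one]
    · intro q hq hne'
      change y.coeff q * Phi C n β q = 0
      have hqN := hy q (Finsupp.mem_support_iff.1 hq)
      rw [Phi_dig C n β hβ' q hqN]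
      have hex : ∃ i, dig C n q i < dig C n q₀ i := by
        by_contra hcon
        push Not at hcon
        have h3 : dig C n q₀ ≠ dig C n q := fun h4 =>
          hne' (dig_inj C n q q₀ hqN (hy q₀ hq₀') h4.symm)
        have h5 : ∑ i, dig C n q₀ i < ∑ i, dig C n q i := by
          obtain ⟨j, hj⟩ := Function.ne_iff.1 h3
          exact Finset.sum_lt_sum (fun i _ => hcon i) ⟨j, Finset.mem_univ j,
            lt_of_le_of_ne (hcon j) hj⟩
        exact absurd (hmax q hq) (not_le.2 h5)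
      obtain ⟨i, hi⟩ := hex
      rw [Finset.prod_eq_zero (Finset.mem_univ i), mul_zero]
      rw [hβ, Nat.choose_eq_zero_of_lt hi, Nat.cast_zero]
    · intro h3
      exact absurd hq₀ h3
  rw [h2] at h1
  exact hq₀' h1

/-- the group element with given digits -/
noncomputable def el (C : Coord p T d) (n : ℕ) (v : Fin d → Fin (p ^ n)) : T.Q n :=
  ((C.x.symm fun i => ((v i : ℕ) : ℤ_[p]) : T.U 0) : G)

lemma el_mem (C : Coord p T d) (n : ℕ) (v : Fin d → Fin (p ^ n)) : el C n v ∈ T.N n :=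
  (mem_N T n _).2 ⟨_, rfl⟩

lemma el_inj (C : Coord p T d) (n : ℕ) : Function.Injective (el C n) := by
  intro v v' h
  unfold el at h
  rw [mk_eq C] at h
  funext i
  have h1 := h i
  rw [Equiv.apply_symm_apply, Equiv.apply_symm_apply] at h1
  have h2 : ((p ^ n : ℕ) : ℤ) ∣ ((v i : ℕ) : ℤ) - ((v' i : ℕ) : ℤ) := by
    have h3 : (p : ℤ_[p]) ^ n ∣ ((((v i : ℕ) : ℤ) - ((v' i : ℕ) : ℤ) : ℤ) : ℤ_[p]) := by
      push_cast
      exact h1
    have h4 := PadicInt.norm_int_le_pow_iff_dvd.1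
      ((PadicInt.norm_le_pow_iff_mem_span_pow _ n).2 (Ideal.mem_span_singleton.2 h3))
    exact_mod_cast h4
  have h5 := (v i).2
  have h6 := (v' i).2
  apply Fin.ext
  have h7 : ((v i : ℕ) : ℤ) ≡ ((v' i : ℕ) : ℤ) [ZMOD ((p ^ n : ℕ) : ℤ)] := (Int.modEq_iff_dvd.2 h2).symm
  have h8 := Int.natCast_modEq_iff.1 h7
  exact Nat.ModEq.eq_of_lt_of_lt h8 h5 h6

lemma el_surj (C : Coord p T d) (n : ℕ) (q : T.Q n) (hq : q ∈ T.N n) : ∃ v, el C n v = q := by
  refine ⟨fun i => ⟨dig C n q i, dig_lt C n q i⟩, ?_⟩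
  rw [← rep_spec n q hq]
  unfold el
  rw [mk_eq C]
  intro i
  rw [Equiv.apply_symm_apply, rep_spec]
  have h := dig_spec C n q hq i
  rw [← neg_sub]
  exact (dvd_neg).2 h

/-- the equivalence with the tuples of digits -/
noncomputable def elEquiv (C : Coord p T d) (n : ℕ) : (Fin d → Fin (p ^ n)) ≃ T.N n :=
  Equiv.ofBijective (fun v => ⟨el C n v, el_mem C n v⟩)
    ⟨fun v v' h => el_inj C n (congrArg Subtype.val h), fun q => by
      obtain ⟨v, hv⟩ := el_surj C n q.1 q.2
      exact ⟨v, Subtype.ext hv⟩⟩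

/-- multi-indices below `p ^ n` -/
noncomputable def idx (n : ℕ) (v : Fin d → Fin (p ^ n)) : Fin d →₀ ℕ :=
  Finsupp.equivFunOnFinite.symm fun i => (v i : ℕ)

lemma solve (C : Coord p T d) (n : ℕ) (F : (Fin d →₀ ℕ) → ZMod p) :
    ∃ y : MonoidAlgebra (ZMod p) (T.Q n), (∀ q, y.coeff q ≠ 0 → q ∈ T.N n) ∧
      ∀ β : Fin d →₀ ℕ, (∀ i, β i < p ^ n) → L (Phi C n β) y = F β := by
  classical
  let Y : ((Fin d → Fin (p ^ n)) → ZMod p) → MonoidAlgebra (ZMod p) (T.Q n) := fun f =>
    ∑ v, MonoidAlgebra.single (el C n v) (f v)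
  have hYN : ∀ f q, (Y f).coeff q ≠ 0 → q ∈ T.N n := by
    intro f q hq
    by_contra hcon
    apply hq
    simp only [Y, MonoidAlgebra.coeff_sum, MonoidAlgebra.coeff_single, Finsupp.finsetSum_apply]
    refine Finset.sum_eq_zero fun v _ => ?_
    rw [Finsupp.single_apply, if_neg]
    rintro rfl
    exact hcon (el_mem C n v)
  have hYel : ∀ f v, (Y f).coeff (el C n v) = f v := by
    intro f v
    simp only [Y, MonoidAlgebra.coeff_sum, MonoidAlgebra.coeff_single, Finsupp.finsetSum_apply]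
    rw [Finset.sum_eq_single v]
    · rw [Finsupp.single_eq_same]
    · intro v' _ hv'
      rw [Finsupp.single_apply, if_neg]
      exact fun h => hv' (el_inj C n h)
    · intro h
      exact absurd (Finset.mem_univ v) h
  let M : ((Fin d → Fin (p ^ n)) → ZMod p) →ₗ[ZMod p] ((Fin d → Fin (p ^ n)) → ZMod p) :=
    { toFun := fun f β => L (Phi C n (idx n β)) (Y f)
      map_add' := by
        intro f g
        funext β
        simp only [Pi.add_apply]
        rw [← L_add]
        congr 1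
        simp only [Y, Pi.add_apply, MonoidAlgebra.single_add, Finset.sum_add_distrib]
      map_smul' := by
        intro r f
        funext β
        simp only [Y, L_sum, L_single, Pi.smul_apply, smul_eq_mul, RingHom.id_apply,
          Finset.mul_sum, mul_assoc] }
  have hinj : Function.Injective M := by
    rw [← LinearMap.ker_eq_bot, LinearMap.ker_eq_bot']
    intro f hf
    have h0 : Y f = 0 := by
      refine sep C n _ (hYN f) fun β hβ => ?_
      have h1 := congrFun hf (fun i => ⟨β i, hβ i⟩)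
      have h2 : idx n (fun i => (⟨β i, hβ i⟩ : Fin (p ^ n))) = β := by
        ext i; rfl
      change L (Phi C n (idx n fun i => (⟨β i, hβ i⟩ : Fin (p ^ n)))) (Y f) = 0 at h1
      rwa [h2] at h1
    funext v
    rw [← hYel f v, h0]
    rfl
  have hsurj := LinearMap.injective_iff_surjective.1 hinj
  obtain ⟨f, hf⟩ := hsurj fun β => F (idx n β)
  refine ⟨Y f, hYN f, fun β hβ => ?_⟩
  have h1 := congrFun hf (fun i => ⟨β i, hβ i⟩)
  have h2 : idx n (fun i => (⟨β i, hβ i⟩ : Fin (p ^ n))) = β := by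
    ext i; rfl
  change L (Phi C n (idx n fun i => (⟨β i, hβ i⟩ : Fin (p ^ n)))) (Y f) = F (idx n _) at h1
  rwa [h2] at h1

lemma proj_eq_zero_iff (C : Coord p T d) (n : ℕ) (a : Om (ZMod p) T) :
    Om.proj (ZMod p) T n a = 0 ↔
      ∀ β : Fin d →₀ ℕ, (∀ i, β i < p ^ n) → MvPowerSeries.coeff β (ec C a) = 0 := by
  constructor
  · intro h β hβ
    rw [coeff_ec C n β hβ]
    unfold cc
    rw [h, L_zero]
  · intro h
    refine sep C n _ (coeff_proj_mem n a) fun β hβ => ?_
    have h1 := h β hβ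
    rwa [coeff_ec C n β hβ] at h1

omit hp in
lemma om_ext {a b : Om (ZMod p) T} (h : ∀ n, Om.proj (ZMod p) T n a = Om.proj (ZMod p) T n b) :
    a = b := by
  apply Subtype.ext
  apply Subtype.ext
  funext n
  exact h n

lemma ec_add (C : Coord p T d) (a b : Om (ZMod p) T) : ec C (a + b) = ec C a + ec C b := by
  funext β
  change cc C β.degree β (a + b) = cc C β.degree β a + cc C β.degree β b
  unfold cc
  rw [map_add, L_add]

lemma ec_inj (C : Coord p T d) : Function.Injective (ec C) := by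
  intro a b h
  have h0 : ec C (a - b) = 0 := by
    have h1 := ec_add C (a - b) b
    rw [sub_add_cancel, h] at h1
    exact right_eq_add.1 h1
  have h1 : a - b = 0 := by
    apply om_ext
    intro n
    rw [map_zero, proj_eq_zero_iff C]
    intro β _
    rw [h0]
    rfl
  exact sub_eq_zero.1 h1

lemma ec_surj (C : Coord p T d) : Function.Surjective (ec C) := by
  classical
  intro F
  choose y hyN hy using fun n => solve C n F
  have hcompat : ∀ n, MonoidAlgebra.mapDomain (T.tr n) (y (n + 1)) = y n := by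
    intro n
    rw [← sub_eq_zero]
    refine sep C n _ ?_ ?_
    · intro q hq
      rw [MonoidAlgebra.coeff_sub, Finsupp.sub_apply] at hq
      by_cases h1 : (y n).coeff q = 0
      · rw [h1, sub_zero] at hq
        have h2 := Finsupp.mapDomain_support (Finsupp.mem_support_iff.2 hq)
        obtain ⟨q', hq', rfl⟩ := Finset.mem_image.1 h2
        have h3 := hyN (n + 1) q' (Finsupp.mem_support_iff.1 hq')
        obtain ⟨w, rfl⟩ := (mem_N T (n + 1) q').1 h3
        exact (mem_N T n _).2 ⟨w, rfl⟩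
      · exact hyN n q h1
    · intro β hβ
      rw [L_sub, L_mapDomain, hy n β hβ]
      have h1 : Phi C n β ∘ T.tr n = Phi C (n + 1) β := by
        funext q
        exact (Phi_tr C n β hβ q).symm
      rw [h1, hy (n + 1) β (fun i => (hβ i).trans_le
        (Nat.pow_le_pow_right hp.out.pos (Nat.le_succ n))), sub_self]
  let a : Om (ZMod p) T := ⟨⟨y, hcompat⟩, fun n q hq => hyN n q hq⟩
  refine ⟨a, ?_⟩
  funext β
  change L (Phi C β.degree β) (y β.degree) = F β
  exact hy β.degree β (lt_of_degree_le β _ le_rfl)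

/-- the isomorphism of additive groups -/
noncomputable def eq (C : Coord p T d) : Om (ZMod p) T ≃+ MvPowerSeries (Fin d) (ZMod p) :=
  { Equiv.ofBijective (ec C) ⟨ec_inj C, ec_surj C⟩ with
    map_add' := ec_add C }

lemma eq_apply (C : Coord p T d) (a : Om (ZMod p) T) : eq C a = ec C a := rfl

lemma deform (C : Coord p T d) : Deform (eq C) := by
  classical
  intro s t a b ha hb
  rw [eq_apply] at ha hb
  rw [eq_apply, eq_apply, eq_apply]
  refine MvPowerSeries.nat_le_order fun α hα => ?_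
  set n := α.degree with hn
  have hαn : ∀ i, α i < p ^ n := lt_of_degree_le α n le_rfl
  set A := Om.proj (ZMod p) T n a with hA
  set B := Om.proj (ZMod p) T n b with hB
  -- coefficients of small degree
  have hca : ∀ β : Fin d →₀ ℕ, β.degree ≤ n → L (Phi C n β) A = MvPowerSeries.coeff β (ec C a) :=
    fun β hβ => (coeff_ec C n β (lt_of_degree_le β n hβ) a).symm
  have hcb : ∀ β : Fin d →₀ ℕ, β.degree ≤ n → L (Phi C n β) B = MvPowerSeries.coeff β (ec C b) :=
    fun β hβ => (coeff_ec C n β (lt_of_degree_le β n hβ) b).symm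
  -- the evaluation of functions of two variables
  let J : ((Fin d → ℤ_[p]) × (Fin d → ℤ_[p]) → ZMod p) → ZMod p := fun h =>
    L2 (fun q q' : T.Q n => if hq : q ∈ T.N n ∧ q' ∈ T.N n then
      h (C.x (rep n q hq.1), C.x (rep n q' hq.2)) else 0) A B
  have hJbin : ∀ β γ : Fin d →₀ ℕ, β.degree ≤ n → γ.degree ≤ n →
      J (fun y => bin p β y.1 * bin p γ y.2) =
        MvPowerSeries.coeff β (ec C a) * MvPowerSeries.coeff γ (ec C b) := by
    intro β γ hβ hγ
    rw [← hca β hβ, ← hcb γ hγ, ← L2_mul]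
    refine L2_congr _ _ _ _ fun q hq q' hq' => ?_
    have hqN := coeff_proj_mem n a q hq
    have hqN' := coeff_proj_mem n b q' hq'
    rw [dif_pos ⟨hqN, hqN'⟩]
    change bin p β (C.x (rep n q hqN)) * bin p γ (C.x (rep n q' hqN')) = _
    rw [← Phi_mk C n β (lt_of_degree_le β n hβ), ← Phi_mk C n γ (lt_of_degree_le γ n hγ),
      rep_spec, rep_spec]
  have hJadd : ∀ f g, J (f + g) = J f + J g := by
    intro f g
    simp only [J]
    rw [← L2_add]
    refine L2_congr _ _ _ _ fun q hq q' hq' => ?_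
    rw [dif_pos ⟨coeff_proj_mem n a q hq, coeff_proj_mem n b q' hq'⟩,
      dif_pos ⟨coeff_proj_mem n a q hq, coeff_proj_mem n b q' hq'⟩,
      dif_pos ⟨coeff_proj_mem n a q hq, coeff_proj_mem n b q' hq'⟩]
    rfl
  have hJsmul : ∀ (r : ZMod p) f, J (r • f) = r * J f := by
    intro r f
    simp only [J]
    rw [← L2_smul]
    refine L2_congr _ _ _ _ fun q hq q' hq' => ?_
    rw [dif_pos ⟨coeff_proj_mem n a q hq, coeff_proj_mem n b q' hq'⟩,
      dif_pos ⟨coeff_proj_mem n a q hq, coeff_proj_mem n b q' hq'⟩]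
    rfl
  have hJzero : J 0 = 0 := by
    have h := hJsmul 0 0
    rwa [zero_smul, zero_mul] at h
  have hJsum : ∀ (S : Finset ((Fin d →₀ ℕ) × (Fin d →₀ ℕ)))
      (f : (Fin d →₀ ℕ) × (Fin d →₀ ℕ) → (Fin d → ℤ_[p]) × (Fin d → ℤ_[p]) → ZMod p),
      J (∑ q ∈ S, f q) = ∑ q ∈ S, J (f q) := by
    intro S f
    induction S using Finset.induction_on with
    | empty => simpa using hJzero
    | insert i S hi ih => rw [Finset.sum_insert hi, Finset.sum_insert hi, hJadd, ih]
  -- the elements of the span vanish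
  have hspan : ∀ f ∈ Submodule.span (ZMod p)
      {f : (Fin d → ℤ_[p]) × (Fin d → ℤ_[p]) → ZMod p | ∃ β γ : Fin d →₀ ℕ,
        β.degree + γ.degree < α.degree ∧ f = fun y => bin p β y.1 * bin p γ y.2}, J f = 0 := by
    intro f hf
    induction hf using Submodule.span_induction with
    | mem f hf =>
      obtain ⟨β, γ, hβγ, rfl⟩ := hf
      rw [hJbin β γ (by omega) (by omega)]
      by_cases hβ : β.degree < s
      · rw [MvPowerSeries.coeff_of_lt_order (lt_of_lt_of_le (by exact_mod_cast hβ) ha), zero_mul]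
      · have hγ : γ.degree < t := by omega
        rw [MvPowerSeries.coeff_of_lt_order (lt_of_lt_of_le (by exact_mod_cast hγ) hb), mul_zero]
    | zero => exact hJzero
    | add f g _ _ hf hg => rw [hJadd, hf, hg, add_zero]
    | smul r f _ hf => rw [hJsmul, hf, mul_zero]
  have hlaw := hspan _ (C.law α)
  -- the two parts
  have h1 : J (fun y => bin p α (C.x (C.x.symm y.1 * C.x.symm y.2))) =
      MvPowerSeries.coeff α (ec C (a * b)) := by
    rw [coeff_ec C n α hαn]
    unfold cc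
    rw [map_mul, L_mul]
    refine L2_congr _ _ _ _ fun q hq q' hq' => ?_
    have hqN := coeff_proj_mem n a q hq
    have hqN' := coeff_proj_mem n b q' hq'
    rw [dif_pos ⟨hqN, hqN'⟩]
    change bin p α (C.x (C.x.symm (C.x (rep n q hqN)) * C.x.symm (C.x (rep n q' hqN')))) = _
    rw [Equiv.symm_apply_apply, Equiv.symm_apply_apply, ← Phi_mk C n α hαn]
    congr 1
    have h3 : ((rep n q hqN * rep n q' hqN' : T.U 0) : G) = (rep n q hqN : G) * rep n q' hqN' := rfl
    rw [h3, QuotientGroup.mk_mul, rep_spec, rep_spec]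
  have h2 : J (fun y => ∑ q ∈ Finset.HasAntidiagonal.antidiagonal α, bin p q.1 y.1 * bin p q.2 y.2) =
      MvPowerSeries.coeff α (ec C a * ec C b) := by
    have h3 : (fun y : (Fin d → ℤ_[p]) × (Fin d → ℤ_[p]) =>
        ∑ q ∈ Finset.HasAntidiagonal.antidiagonal α, bin p q.1 y.1 * bin p q.2 y.2) =
        ∑ q ∈ Finset.HasAntidiagonal.antidiagonal α,
          fun y : (Fin d → ℤ_[p]) × (Fin d → ℤ_[p]) => bin p q.1 y.1 * bin p q.2 y.2 := by
      funext y
      rw [Finset.sum_apply]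
    rw [h3, hJsum, MvPowerSeries.coeff_mul]
    refine Finset.sum_congr rfl fun q hq => ?_
    have h4 := Finset.HasAntidiagonal.mem_antidiagonal.1 hq
    have h5 : q.1.degree + q.2.degree = n := by rw [hn, ← h4, map_add]
    exact hJbin q.1 q.2 (by omega) (by omega)
  have h3 : (fun y : (Fin d → ℤ_[p]) × (Fin d → ℤ_[p]) =>
      bin p α (C.x (C.x.symm y.1 * C.x.symm y.2)) -
        ∑ q ∈ Finset.HasAntidiagonal.antidiagonal α, bin p q.1 y.1 * bin p q.2 y.2) =
      (fun y => bin p α (C.x (C.x.symm y.1 * C.x.symm y.2))) +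
      (-1 : ZMod p) • (fun y : (Fin d → ℤ_[p]) × (Fin d → ℤ_[p]) =>
        ∑ q ∈ Finset.HasAntidiagonal.antidiagonal α, bin p q.1 y.1 * bin p q.2 y.2) := by
    funext y
    simp only [Pi.add_apply, Pi.smul_apply, smul_eq_mul]
    ring
  rw [h3, hJadd, hJsmul, h1, h2] at hlaw
  rw [map_sub]
  linear_combination hlaw

end tower

end Pool.Agent.H371.SA.Dx

namespace Pool.Agent.H371.SA

variable {G : Type} [Group G] (p : ℕ) [Fact p.Prime] (T : Tower G) {d : ℕ}

theorem exists_deform (C : Coord p T d) :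
    ∃ e : Om (ZMod p) T ≃+ MvPowerSeries (Fin d) (ZMod p), Deform e ∧
      ∀ (n : ℕ) (a : Om (ZMod p) T), Om.proj (ZMod p) T n a = 0 ↔
        ∀ β : Fin d →₀ ℕ, (∀ i, β i < p ^ n) → MvPowerSeries.coeff β (e a) = 0 :=
  ⟨Dx.eq C, Dx.deform C, Dx.proj_eq_zero_iff C⟩

theorem Coord.card_N (C : Coord p T d) (n : ℕ) : Nat.card (T.N n) = p ^ (n * d) := by
  rw [← Nat.card_congr (Dx.elEquiv C n), Nat.card_eq_fintype_card, Fintype.card_fun,
    Fintype.card_fin, Fintype.card_fin, pow_mul]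

end Pool.Agent.H371.SA
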