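import Pool.Agent.H371.SA.Defs

set_option autoImplicit false
set_option linter.unusedSectionVars false


namespace Pool.Agent.H371.SA.Ex

open Finset Polynomial

variable {p : ℕ} [hp : Fact p.Prime]

/-- Newton expansion of a polynomial function on `ℤ_[p]` -/
theorem newton (g : ℤ_[p] → ℤ_[p]) (hg : Continuous g) (N : ℤ_[p]) (hN : N ≠ 0)
    (P : Polynomial ℤ_[p]) (n : ℕ) (hP : P.natDegree ≤ n) (h : ∀ y, N * g y = P.eval y)
    (y : ℤ_[p]) :
    g y = ∑ c ∈ range (n + 1), Ring.choose y c * ((fwdDiff (1 : ℤ_[p]))^[c] g 0) := by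
  have hz : ∀ c, c ∉ range (n + 1) → (fwdDiff (1 : ℤ_[p]))^[c] g 0 = 0 := by
    intro c hc
    have hc' : n < c := by simpa using hc
    have h1 : (fwdDiff (1 : ℤ_[p]))^[c] (fun y => P.eval y) 0 = 0 := by
      have := Polynomial.fwdDiff_iter_eq_zero_of_degree_lt (P := P) (n := c) (by omega)
      exact congrFun this 0
    have h2 : (fun y => P.eval y) = N • g := by
      funext y; simp [← h y]
    rw [h2, fwdDiff_iter_const_smul] at h1
    simpa [hN] using h1
  let G : C(ℤ_[p], ℤ_[p]) := ⟨g, hg⟩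
  have h3 := PadicInt.hasSum_mahler G
  have h4 : HasSum (fun n ↦ PadicInt.mahlerTerm (p := p) ((fwdDiff (1 : ℤ_[p]))^[n] G 0) n)
      (∑ c ∈ range (n + 1), PadicInt.mahlerTerm (p := p) ((fwdDiff (1 : ℤ_[p]))^[c] G 0) c) := by
    apply hasSum_sum_of_ne_finset_zero
    intro c hc
    have : (fwdDiff (1 : ℤ_[p]))^[c] G 0 = 0 := hz c hc
    rw [this]
    ext x
    simp [PadicInt.mahlerTerm_apply]
  have h5 := h3.unique h4
  have h6 := congrArg (fun f : C(ℤ_[p], ℤ_[p]) => f y) h5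
  simp only [ContinuousMap.coe_sum, Finset.sum_apply, PadicInt.mahlerTerm_apply, mahler_apply,
    smul_eq_mul] at h6
  exact h6

/-- the polynomial `t! binom(X, t)` -/
noncomputable def dp (p : ℕ) [Fact p.Prime] (t : ℕ) : Polynomial ℤ_[p] :=
  (ascPochhammer ℤ_[p] t).comp (X - C (t : ℤ_[p]) + C 1)

theorem dp_eval (t : ℕ) (y : ℤ_[p]) : (dp p t).eval y = (t.factorial : ℤ_[p]) * Ring.choose y t := by
  have h := Ring.factorial_nsmul_multichoose_eq_ascPochhammer (y - t + 1) t
  rw [Polynomial.ascPochhammer_smeval_eq_eval, nsmul_eq_mul] at h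
  rw [dp, Polynomial.eval_comp]
  simp only [eval_add, eval_sub, eval_X, eval_C]
  rw [← h]
  rfl

theorem dp_natDegree (t : ℕ) : (dp p t).natDegree ≤ t := by
  unfold dp
  refine natDegree_comp_le.trans ?_
  rw [ascPochhammer_natDegree]
  have : (X - C (t : ℤ_[p]) + C 1 : Polynomial ℤ_[p]).natDegree ≤ 1 := by
    compute_degree
  calc t * _ ≤ t * 1 := Nat.mul_le_mul_left _ this
    _ = t := mul_one t

theorem fact_ne (t : ℕ) : (t.factorial : ℤ_[p]) ≠ 0 := by
  exact_mod_cast t.factorial_ne_zero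

/-- products of binomial coefficients -/
theorem choose_mul (a b : ℕ) : ∃ c : ℕ → ℤ_[p], ∀ y : ℤ_[p], Ring.choose y a * Ring.choose y b =
    ∑ i ∈ range (a + b + 1), Ring.choose y i * c i := by
  refine ⟨fun i => (fwdDiff (1 : ℤ_[p]))^[i] (fun y : ℤ_[p] => Ring.choose y a * Ring.choose y b) 0,
    newton (fun y => Ring.choose y a * Ring.choose y b) (by fun_prop)
    ((a.factorial : ℤ_[p]) * (b.factorial : ℤ_[p])) (mul_ne_zero (fact_ne a) (fact_ne b))
    (dp p a * dp p b) (a + b) ?_ ?_⟩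
  · exact natDegree_mul_le.trans (add_le_add (dp_natDegree a) (dp_natDegree b))
  · intro y
    rw [eval_mul, dp_eval, dp_eval]; ring

/-- `binom(m y, t)` as a combination of the `binom(y, i)`, `i ≤ t` -/
theorem choose_smul (m : ℤ_[p]) (t : ℕ) (y : ℤ_[p]) : Ring.choose (m * y) t =
    ∑ i ∈ range (t + 1), Ring.choose y i *
      ∑ j ∈ range (i + 1), ((-1 : ℤ) ^ (i - j) * (i.choose j)) • Ring.choose (m * (j : ℤ_[p])) t := by
  have h := newton (fun y => Ring.choose (m * y) t) (by fun_prop) (t.factorial : ℤ_[p]) (fact_ne t)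
    ((dp p t).comp (C m * X)) t ?_ ?_ y
  · rw [h]
    refine Finset.sum_congr rfl fun i _ => ?_
    rw [fwdDiff_iter_eq_sum_shift]
    simp
  · refine natDegree_comp_le.trans ?_
    calc (dp p t).natDegree * _ ≤ t * 1 := Nat.mul_le_mul (dp_natDegree t) ((natDegree_C_mul_le m X).trans natDegree_X_le)
      _ = t := mul_one t
  · intro y
    rw [eval_comp, dp_eval]; simp

theorem choose_mul_mul (m : ℤ_[p]) (t : ℕ) : ∃ c : ℕ → ℕ → ℤ_[p], ∀ y z : ℤ_[p],
    Ring.choose (m * y * z) t = ∑ i ∈ range (t + 1), ∑ j ∈ range (t + 1),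
      c i j * (Ring.choose y i * Ring.choose z j) := by
  refine ⟨fun i l => ∑ j ∈ range (i + 1), ((-1 : ℤ) ^ (i - j) * (i.choose j)) •
    ∑ r ∈ range (l + 1), ((-1 : ℤ) ^ (l - r) * (l.choose r)) •
      Ring.choose ((m * (j : ℤ_[p])) * (r : ℤ_[p])) t, fun y z => ?_⟩
  have h1 : m * y * z = (m * z) * y := by ring
  rw [h1, choose_smul]
  refine Finset.sum_congr rfl fun i _ => ?_
  have h2 : ∀ j : ℕ, Ring.choose (m * z * (j : ℤ_[p])) t = ∑ l ∈ range (t + 1), Ring.choose z l *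
      ∑ r ∈ range (l + 1), ((-1 : ℤ) ^ (l - r) * (l.choose r)) •
        Ring.choose ((m * (j : ℤ_[p])) * (r : ℤ_[p])) t := by
    intro j
    rw [show m * z * (j : ℤ_[p]) = (m * (j : ℤ_[p])) * z by ring]
    exact choose_smul (m * (j : ℤ_[p])) t z
  simp_rw [h2]
  generalize (fun (j l : ℕ) => ∑ r ∈ range (l + 1), ((-1 : ℤ) ^ (l - r) * (l.choose r)) •
        Ring.choose ((m * (j : ℤ_[p])) * (r : ℤ_[p])) t) = F
  simp only [zsmul_eq_mul, Finset.mul_sum, Finset.sum_mul]
  rw [Finset.sum_comm]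
  refine Finset.sum_congr rfl fun l _ => ?_
  refine Finset.sum_congr rfl fun j _ => ?_
  refine Finset.sum_congr rfl fun r _ => ?_
  ring

end Pool.Agent.H371.SA.Ex


namespace Pool.Agent.H371.SA.Ex

open Finset

variable {p : ℕ} [hp : Fact p.Prime] {d : ℕ}

/-- pairs of vectors -/
abbrev YY (p : ℕ) [Fact p.Prime] (d : ℕ) : Type := (Fin d → ℤ_[p]) × (Fin d → ℤ_[p])

/-- functions of degree `< n` -/
noncomputable def Fil (p : ℕ) [Fact p.Prime] (d n : ℕ) : Submodule (ZMod p) (YY p d → ZMod p) :=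
  Submodule.span (ZMod p) {f | ∃ β γ : Fin d →₀ ℕ, β.degree + γ.degree < n ∧
      f = fun y : (Fin d → ℤ_[p]) × (Fin d → ℤ_[p]) => bin p β y.1 * bin p γ y.2}

theorem Fil_mono {m n : ℕ} (h : m ≤ n) : Fil p d m ≤ Fil p d n := by
  apply Submodule.span_mono
  rintro f ⟨β, γ, h1, h2⟩
  exact ⟨β, γ, by omega, h2⟩

/-- functions of one vector of degree `≤ n` -/
noncomputable def Fl (p : ℕ) [Fact p.Prime] (d n : ℕ) : Submodule (ZMod p) ((Fin d → ℤ_[p]) → ZMod p) :=
  Submodule.span (ZMod p) {f | ∃ β : Fin d →₀ ℕ, β.degree ≤ n ∧ f = bin p β}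

theorem tensor_mem {a b n : ℕ} (h : a + b < n) {u v : (Fin d → ℤ_[p]) → ZMod p}
    (hu : u ∈ Fl p d a) (hv : v ∈ Fl p d b) : (fun y : YY p d => u y.1 * v y.2) ∈ Fil p d n := by
  refine Submodule.span_induction (p := fun u _ => (fun y : YY p d => u y.1 * v y.2) ∈ Fil p d n)
    ?_ ?_ ?_ ?_ hu
  · rintro u ⟨β, hβ, rfl⟩
    refine Submodule.span_induction
      (p := fun v _ => (fun y : YY p d => bin p β y.1 * v y.2) ∈ Fil p d n) ?_ ?_ ?_ ?_ hv
    · rintro v ⟨γ, hγ, rfl⟩
      exact Submodule.subset_span ⟨β, γ, by omega, rfl⟩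
    · convert (Fil p d n).zero_mem using 1
      funext y; simp
    · intro x y _ _ hx hy
      convert (Fil p d n).add_mem hx hy using 1
      funext y; simp [mul_add]
    · intro c x _ hx
      convert (Fil p d n).smul_mem c hx using 1
      funext y; simp; ring
  · convert (Fil p d n).zero_mem using 1
    funext y; simp
  · intro x y _ _ hx hy
    convert (Fil p d n).add_mem hx hy using 1
    funext y; simp [add_mul]
  · intro c x _ hx
    convert (Fil p d n).smul_mem c hx using 1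
    funext y; simp; ring

theorem bin_mul_mem (β γ : Fin d →₀ ℕ) :
    (fun y => bin p β y * bin p γ y) ∈ Fl p d (β.degree + γ.degree) := by
  choose c hc using fun a b => choose_mul (p := p) a b
  have h : (fun y => bin p β y * bin p γ y) = ∑ x ∈ Fintype.piFinset (fun i => range (β i + γ i + 1)),
      (∏ i, PadicInt.toZMod (c (β i) (γ i) (x i))) • bin p (Finsupp.equivFunOnFinite.symm x) := by
    funext y
    unfold bin
    rw [← Finset.prod_mul_distrib]
    simp_rw [← map_mul, hc, map_sum, map_mul]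
    rw [Finset.prod_univ_sum, Finset.sum_apply]
    refine Finset.sum_congr rfl fun x _ => ?_
    rw [Finset.prod_mul_distrib]
    simp [mul_comm]
  rw [h]
  refine Submodule.sum_mem _ fun x hx => Submodule.smul_mem _ _ (Submodule.subset_span ⟨_, ?_, rfl⟩)
  rw [Fintype.mem_piFinset] at hx
  rw [Finsupp.degree_eq_sum, Finsupp.degree_eq_sum, Finsupp.degree_eq_sum, ← Finset.sum_add_distrib]
  refine Finset.sum_le_sum fun i _ => ?_
  have := hx i
  simp at this
  simpa using (by omega : x i ≤ β i + γ i)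

theorem mul_mem {m n : ℕ} {f g : YY p d → ZMod p} (hf : f ∈ Fil p d (m + 1)) (hg : g ∈ Fil p d n) :
    f * g ∈ Fil p d (m + n) := by
  refine Submodule.span_induction (p := fun f _ => f * g ∈ Fil p d (m + n)) ?_ ?_ ?_ ?_ hf
  · rintro f ⟨β, γ, hβ, rfl⟩
    refine Submodule.span_induction
      (p := fun g _ => (fun y : YY p d => bin p β y.1 * bin p γ y.2) * g ∈ Fil p d (m + n)) ?_ ?_ ?_ ?_ hg
    · rintro g ⟨β', γ', hγ, rfl⟩
      have := tensor_mem (n := m + n) (a := β.degree + β'.degree) (b := γ.degree + γ'.degree)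
        (by omega) (bin_mul_mem (p := p) β β') (bin_mul_mem (p := p) γ γ')
      convert this using 1
      funext y; simp; ring
    · rw [mul_zero]; exact Submodule.zero_mem _
    · intro x y _ _ hx hy
      rw [mul_add]; exact Submodule.add_mem _ hx hy
    · intro c x _ hx
      rw [mul_smul_comm]; exact Submodule.smul_mem _ c hx
  · rw [zero_mul]; exact Submodule.zero_mem _
  · intro x y _ _ hx hy
    rw [add_mul]; exact Submodule.add_mem _ hx hy
  · intro c x _ hx
    rw [smul_mul_assoc]; exact Submodule.smul_mem _ c hx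

theorem bin_zero (y : Fin d → ℤ_[p]) : bin p 0 y = 1 := by
  simp [bin]

theorem bin_single (i : Fin d) (t : ℕ) (y : Fin d → ℤ_[p]) :
    bin p (Finsupp.single i t) y = PadicInt.toZMod (Ring.choose (y i) t) := by
  unfold bin
  rw [Finset.prod_eq_single i]
  · simp
  · intro j _ hj
    rw [Finsupp.single_eq_of_ne hj]
    simp
  · simp

theorem one_mem (n : ℕ) : (1 : YY p d → ZMod p) ∈ Fil p d (n + 1) := by
  refine Submodule.subset_span ⟨0, 0, by simp, ?_⟩
  funext y
  simp [bin_zero]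

/-- functions whose binomial coefficients have small degree -/
def W (w : ℕ) (Z : YY p d → ℤ_[p]) : Prop :=
  ∀ t, (fun y => PadicInt.toZMod (Ring.choose (Z y) t)) ∈ Fil p d (w * t + 1)

theorem W_fst (i : Fin d) : W (p := p) 1 (fun y : YY p d => y.1 i) := by
  intro t
  refine Submodule.subset_span ⟨Finsupp.single i t, 0, by simp, ?_⟩
  funext y
  simp [bin_zero, bin_single]

theorem W_snd (i : Fin d) : W (p := p) 1 (fun y : YY p d => y.2 i) := by
  intro t
  refine Submodule.subset_span ⟨0, Finsupp.single i t, by simp, ?_⟩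
  funext y
  simp [bin_zero, bin_single]

theorem W_add {w : ℕ} {Z Z' : YY p d → ℤ_[p]} (h : W w Z) (h' : W w Z') :
    W w (fun y => Z y + Z' y) := by
  intro t
  have h1 : (fun y => PadicInt.toZMod (Ring.choose (Z y + Z' y) t)) =
      ∑ ij ∈ antidiagonal t, (fun y => PadicInt.toZMod (Ring.choose (Z y) ij.1)) *
        (fun y => PadicInt.toZMod (Ring.choose (Z' y) ij.2)) := by
    funext y
    rw [Ring.add_choose_eq t (Commute.all _ _), map_sum, Finset.sum_apply]
    simp
  rw [h1]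
  refine Submodule.sum_mem _ fun ij hij => ?_
  have h2 := mul_mem (h ij.1) (h' ij.2)
  rw [Finset.HasAntidiagonal.mem_antidiagonal] at hij
  rw [← hij]
  refine Fil_mono ?_ h2
  rw [mul_add]; omega

theorem W_zero (w : ℕ) : W w (fun _ : YY p d => (0 : ℤ_[p])) := by
  intro t
  rw [show (fun _ : YY p d => PadicInt.toZMod (Ring.choose (0 : ℤ_[p]) t)) =
    (if t = 0 then (1 : ZMod p) else 0) • 1 by
      funext y
      rw [Ring.choose_zero_ite]
      split_ifs <;> simp]
  exact Submodule.smul_mem _ _ (one_mem _)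

theorem W_sum {w : ℕ} {ι : Type} (s : Finset ι) (Z : ι → YY p d → ℤ_[p]) (h : ∀ i ∈ s, W w (Z i)) :
    W w (fun y => ∑ i ∈ s, Z i y) := by
  classical
  induction s using Finset.induction_on with
  | empty => simpa using W_zero w
  | insert a s ha ih =>
    simp only [Finset.sum_insert ha]
    exact W_add (h a (by simp)) (ih fun i hi => h i (by simp [hi]))

theorem W_mul (m : ℤ_[p]) (i j : Fin d) : W (p := p) 2 (fun y : YY p d => m * y.1 i * y.2 j) := by
  intro t
  obtain ⟨c, hc⟩ := choose_mul_mul m t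
  have h1 : (fun y : YY p d => PadicInt.toZMod (Ring.choose (m * y.1 i * y.2 j) t)) =
      ∑ a ∈ range (t + 1), ∑ b ∈ range (t + 1), PadicInt.toZMod (c a b) •
        ((fun y : YY p d => PadicInt.toZMod (Ring.choose (y.1 i) a)) *
        (fun y => PadicInt.toZMod (Ring.choose (y.2 j) b))) := by
    funext y
    rw [hc]
    simp [Finset.sum_apply]
  rw [h1]
  refine Submodule.sum_mem _ fun a ha => Submodule.sum_mem _ fun b hb => Submodule.smul_mem _ _ ?_
  have h2 := mul_mem (W_fst i a) (W_snd (p := p) j b)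
  refine Fil_mono ?_ h2
  simp at ha hb
  omega

theorem toZMod_eq_zero_iff (x : ℤ_[p]) : PadicInt.toZMod x = 0 ↔ ‖x‖ < 1 := by
  rw [← RingHom.mem_ker, PadicInt.ker_toZMod, PadicInt.maximalIdeal_eq_span_p,
    PadicInt.norm_lt_one_iff_dvd, Ideal.mem_span_singleton]

theorem choose_p_mul (z : ℤ_[p]) (l : ℕ) : PadicInt.toZMod (Ring.choose ((p : ℤ_[p]) * z) l) =
    if p ∣ l then PadicInt.toZMod (Ring.choose z (l / p)) else 0 := by
  have hnat : ∀ N : ℕ, PadicInt.toZMod (Ring.choose ((p : ℤ_[p]) * (N : ℤ_[p])) l) =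
      if p ∣ l then PadicInt.toZMod (Ring.choose (N : ℤ_[p]) (l / p)) else 0 := by
    intro N
    rw [← Nat.cast_mul, Ring.choose_natCast, Ring.choose_natCast, map_natCast, map_natCast]
    have h := Choose.choose_modEq_choose_mod_mul_choose_div_nat (n := p * N) (k := l) (p := p)
    rw [← ZMod.natCast_eq_natCast_iff] at h
    rw [h, Nat.mul_mod_right, Nat.mul_div_cancel_left _ hp.out.pos]
    split_ifs with hl
    · rw [Nat.mod_eq_zero_of_dvd hl]; simp
    · have : 0 < l % p := Nat.pos_of_ne_zero fun h0 => hl (Nat.dvd_of_mod_eq_zero h0)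
      rw [Nat.choose_eq_zero_of_lt this]; simp
  let F : ℤ_[p] → ℤ_[p] := fun z => Ring.choose ((p : ℤ_[p]) * z) l -
    if p ∣ l then Ring.choose z (l / p) else 0
  have hF : Continuous F := by
    unfold F
    split_ifs
    · fun_prop
    · fun_prop
  have hN : ∀ N : ℕ, ‖F N‖ < 1 := by
    intro N
    rw [← toZMod_eq_zero_iff, map_sub, hnat N]
    split_ifs <;> simp
  have hz : ‖F z‖ < 1 := by
    obtain ⟨δ, hδp, hδ⟩ := Metric.continuousAt_iff.mp (hF.continuousAt (x := z)) 1 one_pos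
    obtain ⟨n, hn'⟩ := PadicInt.denseRange_natCast.exists_dist_lt z hδp
    have h1 := hδ (dist_comm z (n : ℤ_[p]) ▸ hn')
    rw [dist_eq_norm] at h1
    have h2 : F z = F n - (F n - F z) := by ring
    rw [h2, sub_eq_add_neg]
    refine lt_of_le_of_lt (PadicInt.nonarchimedean _ _) ?_
    rw [norm_neg]
    exact max_lt (hN n) h1
  rw [← toZMod_eq_zero_iff, map_sub, sub_eq_zero] at hz
  rw [hz]
  split_ifs <;> simp

theorem choose_pow_mul (k : ℕ) (z : ℤ_[p]) (l : ℕ) :
    PadicInt.toZMod (Ring.choose ((p : ℤ_[p]) ^ k * z) l) =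
    if p ^ k ∣ l then PadicInt.toZMod (Ring.choose z (l / p ^ k)) else 0 := by
  induction k generalizing l with
  | zero => simp
  | succ k ih =>
    rw [pow_succ', mul_assoc, choose_p_mul]
    by_cases h : p ∣ l
    · rw [if_pos h, ih]
      obtain ⟨m, rfl⟩ := h
      rw [Nat.mul_div_cancel_left _ hp.out.pos, pow_succ']
      have : p * p ^ k ∣ p * m ↔ p ^ k ∣ m := Nat.mul_dvd_mul_iff_left hp.out.pos
      simp only [this]
      rw [Nat.mul_div_mul_left _ _ hp.out.pos]
    · rw [if_neg h, if_neg]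
      intro h'
      exact h ((Dvd.intro _ (pow_succ' p k).symm).trans h')

end Pool.Agent.H371.SA.Ex


namespace Pool.Agent.H371.SA.Ex

open Finset

variable {p : ℕ} [hp : Fact p.Prime] {d : ℕ}

theorem one_var (k : ℕ) (hk : 2 < p ^ k) (i : Fin d) (Z : YY p d → ℤ_[p]) (hZ : W 2 Z) (a : ℕ) :
    (fun y : YY p d => PadicInt.toZMod (Ring.choose (y.1 i + y.2 i + (p : ℤ_[p]) ^ k * Z y) a)) -
      (fun y => PadicInt.toZMod (Ring.choose (y.1 i + y.2 i) a)) ∈ Fil p d a := by
  classical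
  have h1 : (fun y : YY p d =>
      PadicInt.toZMod (Ring.choose (y.1 i + y.2 i + (p : ℤ_[p]) ^ k * Z y) a)) -
      (fun y => PadicInt.toZMod (Ring.choose (y.1 i + y.2 i) a)) =
      ∑ ij ∈ (HasAntidiagonal.antidiagonal a).erase (a, 0),
        (fun y : YY p d => PadicInt.toZMod (Ring.choose (y.1 i + y.2 i) ij.1)) *
        (fun y => PadicInt.toZMod (Ring.choose ((p : ℤ_[p]) ^ k * Z y) ij.2)) := by
    funext y
    rw [Pi.sub_apply, Ring.add_choose_eq a (Commute.all _ _), map_sum, Finset.sum_apply,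
      ← Finset.add_sum_erase (HasAntidiagonal.antidiagonal a) _
        (HasAntidiagonal.mem_antidiagonal.2 (by simp : (a, 0).1 + (a, 0).2 = a))]
    simp
  rw [h1]
  refine Submodule.sum_mem _ fun ij hij => ?_
  obtain ⟨b, l⟩ := ij
  rw [Finset.mem_erase, HasAntidiagonal.mem_antidiagonal] at hij
  obtain ⟨hne, hs⟩ := hij
  have hl : l ≠ 0 := by
    rintro rfl
    apply hne
    simp at hs
    rw [hs]
  dsimp only at hs ⊢
  simp_rw [choose_pow_mul]
  by_cases hd : p ^ k ∣ l
  · simp only [if_pos hd]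
    obtain ⟨j, rfl⟩ := hd
    rw [Nat.mul_div_cancel_left _ (by positivity)]
    have hj : 0 < j := Nat.pos_of_ne_zero (by rintro rfl; simp at hl)
    have h2 := mul_mem (W_add (W_fst i) (W_snd (p := p) i) b) (hZ j)
    refine Fil_mono ?_ h2
    have h3 : 3 * j ≤ p ^ k * j := Nat.mul_le_mul_right j hk
    omega
  · simp only [if_neg hd]
    rw [show (fun _ : YY p d => (0 : ZMod p)) = 0 from rfl, mul_zero]
    exact Submodule.zero_mem _

theorem prod_sub (s : Finset (Fin d)) (F A : Fin d → YY p d → ZMod p) (α : Fin d → ℕ)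
    (hA : ∀ i, A i ∈ Fil p d (α i + 1)) (hFA : ∀ i, F i - A i ∈ Fil p d (α i)) :
    (∏ i ∈ s, F i) - ∏ i ∈ s, A i ∈ Fil p d (∑ i ∈ s, α i) ∧
      ∏ i ∈ s, A i ∈ Fil p d (∑ i ∈ s, α i + 1) := by
  classical
  induction s using Finset.induction_on with
  | empty =>
    simp only [Finset.prod_empty, Finset.sum_empty, sub_self]
    exact ⟨Submodule.zero_mem _, one_mem _⟩
  | insert a s ha ih =>
    rw [Finset.prod_insert ha, Finset.prod_insert ha, Finset.sum_insert ha]
    obtain ⟨h1, h2⟩ := ih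
    have hF : F a ∈ Fil p d (α a + 1) := by
      have := Submodule.add_mem _ (hA a) (Fil_mono (Nat.le_succ _) (hFA a))
      simpa using this
    constructor
    · have h3 := mul_mem hF h1
      have h4 := mul_mem h2 (hFA a)
      have h5 : F a * ∏ i ∈ s, F i - A a * ∏ i ∈ s, A i =
          F a * (∏ i ∈ s, F i - ∏ i ∈ s, A i) + (∏ i ∈ s, A i) * (F a - A a) := by ring
      rw [h5]
      refine Submodule.add_mem _ h3 ?_
      rw [add_comm]
      exact h4
    · have := mul_mem (hA a) h2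
      rw [add_assoc]
      exact this

theorem vdm (x y : ℤ_[p]) (t : ℕ) : Ring.choose (x + y) t =
    ∑ ij ∈ HasAntidiagonal.antidiagonal t, Ring.choose x ij.1 * Ring.choose y ij.2 :=
  Ring.add_choose_eq t (Commute.all _ _)

theorem prod_choose_add (α : Fin d →₀ ℕ) (y : YY p d) :
    ∏ i, PadicInt.toZMod (Ring.choose (y.1 i + y.2 i) (α i)) =
      ∑ q ∈ HasAntidiagonal.antidiagonal α, bin p q.1 y.1 * bin p q.2 y.2 := by
  classical
  simp_rw [vdm, map_sum, map_mul]
  rw [Finset.prod_univ_sum]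
  refine Finset.sum_bij' (fun x _ => (Finsupp.equivFunOnFinite.symm fun i => (x i).1,
      Finsupp.equivFunOnFinite.symm fun i => (x i).2)) (fun q _ => fun i => (q.1 i, q.2 i))
      ?_ ?_ ?_ ?_ ?_
  · intro x hx
    rw [Fintype.mem_piFinset] at hx
    rw [HasAntidiagonal.mem_antidiagonal]
    ext i
    have := HasAntidiagonal.mem_antidiagonal.1 (hx i)
    simpa using this
  · intro q hq
    rw [HasAntidiagonal.mem_antidiagonal] at hq
    rw [Fintype.mem_piFinset]
    intro i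
    rw [HasAntidiagonal.mem_antidiagonal, ← hq]
    rfl
  · intro x hx; rfl
  · intro q hq
    ext i <;> rfl
  · intro x hx
    rw [Finset.prod_mul_distrib]
    rfl

theorem law_poly (k : ℕ) (hk : 2 < p ^ k) (Z : Fin d → YY p d → ℤ_[p]) (hZ : ∀ i, W 2 (Z i))
    (α : Fin d →₀ ℕ) :
    (fun y : YY p d => bin p α (fun i => y.1 i + y.2 i + (p : ℤ_[p]) ^ k * Z i y) -
      ∑ q ∈ HasAntidiagonal.antidiagonal α, bin p q.1 y.1 * bin p q.2 y.2) ∈
      Fil p d α.degree := by
  have h := (prod_sub (p := p) (d := d) univ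
    (fun i y => PadicInt.toZMod (Ring.choose (y.1 i + y.2 i + (p : ℤ_[p]) ^ k * Z i y) (α i)))
    (fun i y => PadicInt.toZMod (Ring.choose (y.1 i + y.2 i) (α i))) α
    (fun i => by
      have := W_add (W_fst i) (W_snd (p := p) i) (α i)
      rwa [one_mul] at this) (fun i => one_var k hk i (Z i) (hZ i) (α i))).1
  rw [← Finsupp.degree_eq_sum] at h
  convert h using 1
  funext y
  rw [← prod_choose_add, Pi.sub_apply, Finset.prod_apply, Finset.prod_apply]
  rfl

end Pool.Agent.H371.SA.Ex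


namespace Pool.Agent.H371.SA.Ex

open Finset

section
variable {p : ℕ} [hp : Fact p.Prime] {A : Type} [Ring A] [Algebra ℤ_[p] A]

omit hp [Algebra ℤ_[p] A] in
theorem pc (m : ℕ) (x : A) : (p : A) ^ m * x = x * (p : A) ^ m :=
  ((Nat.cast_commute p x).pow_left m).eq

theorem pow_smul' (m : ℕ) (x : A) : ((p : ℤ_[p]) ^ m) • x = (p : A) ^ m * x := by
  rw [Algebra.smul_def, map_pow, map_natCast]

theorem dvd_iff {ι : Type} [Fintype ι] (b : Module.Basis ι ℤ_[p] A) (m : ℕ) (x : A) :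
    (∀ i, (p : ℤ_[p]) ^ m ∣ b.repr x i) ↔ ∃ c : A, x = (p : A) ^ m * c := by
  constructor
  · intro h
    choose c hc using h
    refine ⟨b.equivFun.symm c, ?_⟩
    rw [← pow_smul', ← map_smul]
    apply b.equivFun.injective
    rw [LinearEquiv.apply_symm_apply]
    funext i
    simp [hc i]
  · rintro ⟨c, rfl⟩ i
    rw [← pow_smul', map_smul]
    simp

theorem p_inj [Module.Free ℤ_[p] A] (m : ℕ) {x y : A} (h : (p : A) ^ m * x = (p : A) ^ m * y) :
    x = y := by
  rw [← pow_smul', ← pow_smul'] at h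
  have hp0 : ((p : ℤ_[p]) ^ m) ≠ 0 := pow_ne_zero _ (by exact_mod_cast hp.out.ne_zero)
  exact smul_right_injective A hp0 h

theorem p_mem_jac : Ideal.span {(p : ℤ_[p])} ≤ Ideal.jacobson ⊥ := by
  rw [IsLocalRing.jacobson_eq_maximalIdeal ⊥ bot_ne_top, PadicInt.maximalIdeal_eq_span_p]

theorem range_top [Module.Finite ℤ_[p] A] (f : A →ₗ[ℤ_[p]] A)
    (h : ∀ x, ∃ y z : A, x = f y + (p : A) * z) : Function.Surjective f := by
  rw [← LinearMap.range_eq_top, ← top_le_iff]
  apply Submodule.le_of_le_smul_of_le_jacobson_bot (I := Ideal.span {(p : ℤ_[p])})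
    Module.Finite.fg_top p_mem_jac
  intro x _
  obtain ⟨y, z, rfl⟩ := h x
  refine Submodule.add_mem_sup ⟨y, rfl⟩ ?_
  have : (p : A) * z = (p : ℤ_[p]) • z := by
    rw [Algebra.smul_def, map_natCast]
  rw [this]
  exact Submodule.smul_mem_smul (Ideal.mem_span_singleton_self _) trivial

theorem isUnit_one_add [Module.Finite ℤ_[p] A] (k : ℕ) (hk : k ≠ 0) (a : A) :
    IsUnit (1 + (p : A) ^ k * a) := by
  obtain ⟨j, rfl⟩ := Nat.exists_eq_succ_of_ne_zero hk
  have h1 : Function.Surjective (LinearMap.mulLeft ℤ_[p] (1 + (p : A) ^ (j + 1) * a)) := by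
    apply range_top
    intro x
    refine ⟨x, -((p : A) ^ j * a * x), ?_⟩
    simp only [LinearMap.mulLeft_apply, pow_succ', add_mul, one_mul, mul_neg, mul_assoc]
    abel
  have h2 : Function.Surjective (LinearMap.mulRight ℤ_[p] (1 + (p : A) ^ (j + 1) * a)) := by
    apply range_top
    intro x
    refine ⟨x, -((p : A) ^ j * (x * a)), ?_⟩
    simp only [LinearMap.mulRight_apply, mul_add, mul_one, mul_neg]
    rw [← mul_assoc x, ← pc, pow_succ']
    simp only [mul_assoc]
    abel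
  obtain ⟨b, hb⟩ := h1 1
  obtain ⟨c, hc⟩ := h2 1
  rw [LinearMap.mulLeft_apply] at hb
  rw [LinearMap.mulRight_apply] at hc
  have hbc : b = c := by
    calc b = 1 * b := (one_mul b).symm
      _ = (c * (1 + (p : A) ^ (j + 1) * a)) * b := by rw [hc]
      _ = c := by rw [mul_assoc, hb, mul_one]
  exact ⟨⟨_, b, hb, hbc ▸ hc⟩, rfl⟩

variable (p) in
/-- congruence subgroups -/
def cU (P : Subgroup Aˣ) (m : ℕ) : Subgroup P where
  carrier := {u | ∃ a : A, ((u : Aˣ) : A) = 1 + (p : A) ^ m * a}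
  one_mem' := ⟨0, by simp⟩
  mul_mem' := by
    rintro u v ⟨a, ha⟩ ⟨b, hb⟩
    refine ⟨a + b + a * (p : A) ^ m * b, ?_⟩
    rw [Subgroup.coe_mul, Units.val_mul, ha, hb]
    simp only [mul_add, add_mul, one_mul, mul_one, mul_assoc]
    abel
  inv_mem' := by
    rintro u ⟨a, ha⟩
    refine ⟨-((((u : Aˣ)⁻¹ : Aˣ) : A) * a), ?_⟩
    rw [Subgroup.coe_inv, mul_neg, ← mul_assoc, pc, mul_assoc]
    have h : (p : A) ^ m * a = ((u : Aˣ) : A) - 1 := by rw [ha]; abel
    rw [h, mul_sub, Units.inv_mul]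
    simp

theorem mem_cU (P : Subgroup Aˣ) (m : ℕ) (u : P) : u ∈ cU p P m ↔
    ∃ a : A, ((u : Aˣ) : A) = 1 + (p : A) ^ m * a := Iff.rfl

instance (P : Subgroup Aˣ) (m : ℕ) : (cU p P m).Normal := by
  constructor
  rintro u ⟨a, ha⟩ g
  refine ⟨((g : Aˣ) : A) * a * (((g : Aˣ)⁻¹ : Aˣ) : A), ?_⟩
  have h : ((g : Aˣ) : A) * ((p : A) ^ m * a) = (p : A) ^ m * (((g : Aˣ) : A) * a) := by
    rw [← mul_assoc, ← pc, mul_assoc]
  rw [Subgroup.coe_mul, Subgroup.coe_mul, Subgroup.coe_inv, Units.val_mul, Units.val_mul, ha,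
    mul_add, h, add_mul, mul_one, Units.mul_inv, mul_assoc]

theorem cU_anti (P : Subgroup Aˣ) {m n : ℕ} (h : m ≤ n) : cU p P n ≤ cU p P m := by
  rintro u ⟨a, ha⟩
  obtain ⟨j, rfl⟩ := Nat.exists_eq_add_of_le h
  exact ⟨(p : A) ^ j * a, by rw [ha, pow_add, mul_assoc]⟩

/-- congruence modulo the subgroup -/
theorem inv_mul_mem (P : Subgroup Aˣ) (m : ℕ) (u v : P) : u⁻¹ * v ∈ cU p P m ↔
    ∃ c : A, ((v : Aˣ) : A) - ((u : Aˣ) : A) = (p : A) ^ m * c := by
  rw [mem_cU]
  constructor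
  · rintro ⟨a, ha⟩
    refine ⟨((u : Aˣ) : A) * a, ?_⟩
    rw [Subgroup.coe_mul, Subgroup.coe_inv, Units.val_mul] at ha
    have h1 : ((v : Aˣ) : A) = ((u : Aˣ) : A) * ((((u : Aˣ)⁻¹ : Aˣ) : A) * ((v : Aˣ) : A)) := by
      rw [← mul_assoc, Units.mul_inv, one_mul]
    rw [h1, ha, mul_add, mul_one, ← mul_assoc, ← pc, mul_assoc]
    abel
  · rintro ⟨c, hc⟩
    refine ⟨(((u : Aˣ)⁻¹ : Aˣ) : A) * c, ?_⟩
    rw [Subgroup.coe_mul, Subgroup.coe_inv, Units.val_mul]
    have h1 : ((v : Aˣ) : A) = ((u : Aˣ) : A) + (p : A) ^ m * c := by rw [← hc]; abel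
    rw [h1, mul_add, Units.inv_mul, ← mul_assoc, ← pc, mul_assoc]

theorem cU_finite [Module.Free ℤ_[p] A] [Module.Finite ℤ_[p] A] (P : Subgroup Aˣ) (m : ℕ) :
    Finite (P ⧸ cU p P m) := by
  let b := Module.finBasis ℤ_[p] A
  let f : (P ⧸ cU p P m) → (Fin (Module.finrank ℤ_[p] A) → ZMod (p ^ m)) :=
    fun q i => PadicInt.toZModPow m (b.repr ((q.out : Aˣ) : A) i)
  have hf : Function.Injective f := by
    intro q q' h
    rw [← q.out_eq', ← q'.out_eq']
    apply QuotientGroup.eq.2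
    rw [inv_mul_mem, ← dvd_iff b]
    intro i
    rw [map_sub, Finsupp.sub_apply, ← Ideal.mem_span_singleton, ← PadicInt.ker_toZModPow,
      RingHom.mem_ker, map_sub, sub_eq_zero]
    exact (congrFun h i).symm
  have : NeZero (p ^ m) := ⟨pow_ne_zero _ hp.out.ne_zero⟩
  exact Finite.of_injective f hf

/-- the tower of congruence subgroups -/
def tow [Module.Free ℤ_[p] A] [Module.Finite ℤ_[p] A] (P : Subgroup Aˣ) (k : ℕ) : Tower P where
  U n := cU p P (k + n)
  nor _ := inferInstance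
  anti _ := cU_anti P (by omega)
  fin _ := cU_finite P _

end

section
variable (p : ℕ) [hp : Fact p.Prime] (A : Type) [Ring A] [Algebra ℤ_[p] A]
  [Module.Free ℤ_[p] A] [Module.Finite ℤ_[p] A] (P : Subgroup Aˣ)

/-- the parametrisation of the first group of the tower -/
noncomputable def par (k : ℕ) (hk : k ≠ 0)
    (hP : ∀ u : Aˣ, (∃ a : A, (u : A) = 1 + (p : A) ^ k * a) → u ∈ P)
    (y : Fin (Module.finrank ℤ_[p] A) → ℤ_[p]) : (tow (p := p) P k).U 0 :=
  ⟨⟨(isUnit_one_add (p := p) k hk ((Module.finBasis ℤ_[p] A).equivFun.symm y)).unit,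
    hP _ ⟨_, rfl⟩⟩, ⟨_, rfl⟩⟩

theorem par_val (k : ℕ) (hk : k ≠ 0)
    (hP : ∀ u : Aˣ, (∃ a : A, (u : A) = 1 + (p : A) ^ k * a) → u ∈ P)
    (y : Fin (Module.finrank ℤ_[p] A) → ℤ_[p]) :
    ((((par p A P k hk hP y : (tow (p := p) P k).U 0) : P) : Aˣ) : A) =
      1 + (p : A) ^ k * (Module.finBasis ℤ_[p] A).equivFun.symm y := rfl

theorem par_bij (k : ℕ) (hk : k ≠ 0)
    (hP : ∀ u : Aˣ, (∃ a : A, (u : A) = 1 + (p : A) ^ k * a) → u ∈ P) :
    Function.Bijective (par p A P k hk hP) := by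
  constructor
  · intro y y' h
    have h1 := congrArg (fun u : (tow (p := p) P k).U 0 => (((u : P) : Aˣ) : A)) h
    simp only [par_val] at h1
    exact (Module.finBasis ℤ_[p] A).equivFun.symm.injective (p_inj k (add_left_cancel h1))
  · rintro ⟨u, ⟨a, ha⟩⟩
    refine ⟨(Module.finBasis ℤ_[p] A).equivFun a, ?_⟩
    apply Subtype.ext
    apply Subtype.ext
    apply Units.ext
    rw [par_val, LinearEquiv.symm_apply_apply]
    exact ha.symm

end

end Pool.Agent.H371.SA.Ex

namespace Pool.Agent.H371.SA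

open Ex

variable (p : ℕ) [Fact p.Prime] (A : Type) [Ring A] [Algebra ℤ_[p] A] [Module.Free ℤ_[p] A]
  [Module.Finite ℤ_[p] A] (P : Subgroup Aˣ)

theorem exists_tower (k : ℕ) (hk : 2 < p ^ k)
    (hP : ∀ u : Aˣ, (∃ a : A, (u : A) = 1 + (p : A) ^ k * a) → u ∈ P) :
    ∃ T : Tower P, (∀ (n : ℕ) (u : P), u ∈ T.U n ↔
      ∃ a : A, ((u : Aˣ) : A) = 1 + (p : A) ^ (k + n) * a) ∧
      ∃ d : ℕ, Nonempty (Coord p T d) := by
  have hk0 : k ≠ 0 := by rintro rfl; simp at hk
  refine ⟨tow (p := p) P k, fun n u => Iff.rfl, Module.finrank ℤ_[p] A, ⟨?_⟩⟩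
  let b := Module.finBasis ℤ_[p] A
  let e := Equiv.ofBijective _ (par_bij p A P k hk0 hP)
  refine { x := e.symm, cong := ?_, law := ?_ }
  · intro n w w'
    obtain ⟨y, rfl⟩ := e.surjective w
    obtain ⟨y', rfl⟩ := e.surjective w'
    rw [Equiv.symm_apply_apply, Equiv.symm_apply_apply]
    change ((e y : (tow (p := p) P k).U 0) : P)⁻¹ * ((e y' : (tow (p := p) P k).U 0) : P) ∈
      cU p P (k + n) ↔ _
    rw [inv_mul_mem]
    change (∃ c : A, (((par p A P k hk0 hP y' : (tow (p := p) P k).U 0) : P) : Aˣ).val -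
      (((par p A P k hk0 hP y : (tow (p := p) P k).U 0) : P) : Aˣ).val = _) ↔ _
    rw [par_val, par_val]
    have h1 : ∀ c : A, (1 + (p : A) ^ k * b.equivFun.symm y' -
        (1 + (p : A) ^ k * b.equivFun.symm y) = (p : A) ^ (k + n) * c) ↔
        b.equivFun.symm (y' - y) = (p : A) ^ n * c := by
      intro c
      rw [add_sub_add_left_eq_sub, ← mul_sub, ← map_sub, pow_add, mul_assoc]
      exact ⟨fun h => p_inj k h, fun h => by rw [h]⟩
    refine (exists_congr h1).trans ?_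
    rw [← dvd_iff b]
    have h2 : ∀ i, b.repr (b.equivFun.symm (y' - y)) i = y' i - y i := by
      intro i
      rw [← b.equivFun_apply, LinearEquiv.apply_symm_apply]
      rfl
    simp_rw [h2]
    refine forall_congr' fun i => ?_
    rw [← neg_sub, dvd_neg]
  · intro α
    let c : Fin (Module.finrank ℤ_[p] A) → Fin (Module.finrank ℤ_[p] A) →
      Fin (Module.finrank ℤ_[p] A) → ℤ_[p] := fun i j l => b.repr (b j * b l) i
    let Z : Fin (Module.finrank ℤ_[p] A) → YY p (Module.finrank ℤ_[p] A) → ℤ_[p] :=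
      fun i y => ∑ j, ∑ l, c i j l * y.1 j * y.2 l
    have hZ : ∀ i, W 2 (Z i) := fun i =>
      W_sum _ _ fun j _ => W_sum _ _ fun l _ => W_mul _ _ _
    have hmain : ∀ y : YY p (Module.finrank ℤ_[p] A),
        e.symm (e y.1 * e y.2) = fun i => y.1 i + y.2 i + (p : ℤ_[p]) ^ k * Z i y := by
      intro y
      rw [Equiv.symm_apply_eq]
      apply Subtype.ext
      apply Subtype.ext
      apply Units.ext
      change (((par p A P k hk0 hP y.1 : (tow (p := p) P k).U 0) : P) : Aˣ).val *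
        (((par p A P k hk0 hP y.2 : (tow (p := p) P k).U 0) : P) : Aˣ).val =
        (((par p A P k hk0 hP (fun i => y.1 i + y.2 i + (p : ℤ_[p]) ^ k * Z i y) :
          (tow (p := p) P k).U 0) : P) : Aˣ).val
      rw [par_val, par_val, par_val]
      have hz : b.equivFun.symm (fun i => Z i y) = b.equivFun.symm y.1 * b.equivFun.symm y.2 := by
        rw [LinearEquiv.symm_apply_eq]
        funext i
        rw [b.equivFun_apply, b.equivFun_symm_apply, b.equivFun_symm_apply, Finset.sum_mul_sum]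
        simp only [map_sum, Finsupp.coe_finsetSum, Finset.sum_apply, smul_mul_smul_comm, map_smul,
          Finsupp.smul_apply, smul_eq_mul]
        refine Finset.sum_congr rfl fun j _ => Finset.sum_congr rfl fun l _ => ?_
        change b.repr (b j * b l) i * y.1 j * y.2 l = _
        ring
      have hs : (fun i => y.1 i + y.2 i + (p : ℤ_[p]) ^ k * Z i y) =
          y.1 + y.2 + ((p : ℤ_[p]) ^ k) • (fun i => Z i y) := by
        funext i; simp
      rw [hs, map_add, map_add, map_smul, hz, pow_smul']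
      simp only [mul_add, add_mul, one_mul, mul_one]
      rw [show (p : A) ^ k * b.equivFun.symm y.1 * ((p : A) ^ k * b.equivFun.symm y.2) =
        (p : A) ^ k * ((p : A) ^ k * (b.equivFun.symm y.1 * b.equivFun.symm y.2)) by
          rw [mul_assoc, ← mul_assoc (b.equivFun.symm y.1), ← pc, mul_assoc]]
      abel
    have h := law_poly k hk Z hZ α
    change (fun y : YY p (Module.finrank ℤ_[p] A) => bin p α (e.symm (e y.1 * e y.2)) -
      ∑ q ∈ Finset.HasAntidiagonal.antidiagonal α, bin p q.1 y.1 * bin p q.2 y.2) ∈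
      Fil p (Module.finrank ℤ_[p] A) α.degree
    simp_rw [hmain]
    exact h

end Pool.Agent.H371.SA
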