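import Pool.Agent.H371.SA.Defs

set_option autoImplicit false

namespace Pool.Agent.H371.SA

open Filter Topology

namespace Fx

section gen
variable {G : Type} [Group G] (k : Type) [CommRing k] (T : Tower G)

theorem proj_succ (n : ℕ) (x : Lam k T) :
    MonoidAlgebra.mapDomain (T.tr n) (Lam.proj k T (n + 1) x) = Lam.proj k T n x := x.2 n

theorem tr_mk (n : ℕ) (g : G) : T.tr n (g : T.Q (n + 1)) = (g : T.Q n) := rfl

theorem anti0 (n : ℕ) : T.U n ≤ T.U 0 := by
  induction n with
  | zero => exact le_rfl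
  | succ n ih => exact (T.anti n).trans ih

theorem mk_mem_N (n : ℕ) (g : G) : (g : T.Q n) ∈ T.N n ↔ g ∈ T.U 0 := by
  constructor
  · rintro ⟨u, hu, h⟩
    have h1 : (u : T.Q n) = (g : T.Q n) := h
    rw [QuotientGroup.eq] at h1
    have := (T.U 0).mul_mem hu (anti0 T n h1)
    simpa using this
  · intro h
    exact ⟨g, h, rfl⟩

theorem tr_mem_N (n : ℕ) (q : T.Q (n + 1)) : T.tr n q ∈ T.N n ↔ q ∈ T.N (n + 1) := by
  induction q using QuotientGroup.induction_on with
  | H g => rw [tr_mk, mk_mem_N, mk_mem_N]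

theorem tr_surj (n : ℕ) : Function.Surjective (T.tr n) := by
  intro q
  induction q using QuotientGroup.induction_on with
  | H g => exact ⟨(g : T.Q (n + 1)), rfl⟩

instance (n : ℕ) : (T.N n).Normal :=
  Subgroup.Normal.map (T.nor 0) _ (QuotientGroup.mk'_surjective _)

theorem proj_of (n : ℕ) (g : G) :
    Lam.proj k T n (Lam.of k T g) = MonoidAlgebra.single (g : T.Q n) 1 := rfl

end gen

end Fx

section F
variable {G : Type} [Group G] (k : Type) [CommRing k] (T : Tower G)

theorem Lam.ext {a b : Lam k T} (h : ∀ n, Lam.proj k T n a = Lam.proj k T n b) : a = b :=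
  Subtype.ext (funext h)

theorem Lam.proj_surjective (n : ℕ) : Function.Surjective (Lam.proj k T n) := by
  intro y
  refine ⟨∑ q : T.Q n, y.coeff q • Lam.of k T q.out, ?_⟩
  rw [map_sum]
  simp only [map_smul, Fx.proj_of, QuotientGroup.out_eq', MonoidAlgebra.smul_single, smul_eq_mul,
    mul_one]
  ext q
  simp

/-- compatible families give elements -/
theorem Lam.exists_of_compat (a : (n : ℕ) → MonoidAlgebra k (T.Q n))
    (h : ∀ n, MonoidAlgebra.mapDomain (T.tr n) (a (n + 1)) = a n) :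
    ∃ x : Lam k T, ∀ n, Lam.proj k T n x = a n :=
  ⟨⟨a, h⟩, fun _ => rfl⟩

theorem Om.ext {a b : Om k T} (h : ∀ n, Om.proj k T n a = Om.proj k T n b) : a = b :=
  Subtype.ext (Lam.ext k T h)

/-- elements of `U 0` are in `Om` -/
theorem Lam.of_mem (g : G) (hg : g ∈ T.U 0) : ∃ a : Om k T, Om.incl k T a = Lam.of k T g := by
  refine ⟨⟨Lam.of k T g, ?_⟩, rfl⟩
  intro n q hq
  rw [Fx.proj_of] at hq
  classical
  rw [MonoidAlgebra.coeff_single, Finsupp.single_apply] at hq
  by_cases h : (g : T.Q n) = q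
  · rw [← h, Fx.mk_mem_N]; exact hg
  · rw [if_neg h] at hq; exact absurd rfl hq

theorem Om.proj_mem_iff (n : ℕ) (y : MonoidAlgebra k (T.Q n)) :
    (∃ a : Om k T, Om.proj k T n a = y) ↔ ∀ q : T.Q n, y.coeff q ≠ 0 → q ∈ T.N n := by
  constructor
  · rintro ⟨a, rfl⟩ q hq
    exact a.2 n q hq
  · intro h
    have key : ∀ q : T.Q n, ∃ a : Om k T, Om.proj k T n a = MonoidAlgebra.single q (y.coeff q) := by
      intro q
      by_cases hq : y.coeff q = 0
      · exact ⟨0, by rw [hq, map_zero]; simp⟩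
      · obtain ⟨g, hg, rfl⟩ := h q hq
        obtain ⟨a, ha⟩ := Lam.of_mem k T g hg
        refine ⟨y.coeff (QuotientGroup.mk' (T.U n) g) • a, ?_⟩
        rw [map_smul]
        have : Om.proj k T n a = MonoidAlgebra.single (g : T.Q n) 1 := by
          change Lam.proj k T n (Om.incl k T a) = _
          rw [ha]; rfl
        rw [this, MonoidAlgebra.smul_single, smul_eq_mul, mul_one]
        rfl
    choose a ha using key
    refine ⟨∑ q, a q, ?_⟩
    rw [map_sum]
    simp only [ha]
    classical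
    ext q
    simp

/-- conjugation preserves `Om` -/
theorem Lam.conj_mem (g : G) (a : Om k T) : ∃ a' : Om k T,
    Lam.of k T g * Om.incl k T a = Om.incl k T a' * Lam.of k T g := by
  refine ⟨⟨Lam.of k T g * Om.incl k T a * Lam.of k T g⁻¹, ?_⟩, ?_⟩
  · intro n q hq
    rw [map_mul, map_mul, Fx.proj_of, Fx.proj_of, MonoidAlgebra.coeff_mul_single_apply,
      MonoidAlgebra.coeff_single_mul_apply] at hq
    simp only [one_mul, mul_one] at hq
    have h1 := a.2 n _ hq
    have h2 := (inferInstance : (T.N n).Normal).conj_mem _ h1 (g : T.Q n)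
    convert h2 using 1
    simp [mul_assoc]
  · change _ = (Lam.of k T g * Om.incl k T a * Lam.of k T g⁻¹) * Lam.of k T g
    rw [mul_assoc, ← map_mul]
    simp


end F

namespace Fx

section gen
variable {G : Type} [Group G] (k : Type) [CommRing k] (T : Tower G)

theorem mapDomain_filter {M N : Type} (f : M → N) (p : M → Prop) (p' : N → Prop)
    [DecidablePred p] [DecidablePred p'] (h : ∀ m, p' (f m) ↔ p m) (x : M →₀ k) :
    Finsupp.mapDomain f (x.filter p) = (Finsupp.mapDomain f x).filter p' := by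
  induction x using Finsupp.induction_linear with
  | zero => rw [Finsupp.filter_zero, Finsupp.mapDomain_zero, Finsupp.filter_zero]
  | add x y hx hy => rw [Finsupp.filter_add, Finsupp.mapDomain_add, hx, hy, Finsupp.mapDomain_add,
      Finsupp.filter_add]
  | single a b =>
    by_cases hp : p a
    · rw [Finsupp.filter_single_of_pos _ hp, Finsupp.mapDomain_single,
        Finsupp.filter_single_of_pos _ ((h a).2 hp)]
    · rw [Finsupp.filter_single_of_neg _ hp, Finsupp.mapDomain_single,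
        Finsupp.filter_single_of_neg _ (fun h' => hp ((h a).1 h')), Finsupp.mapDomain_zero]

open Classical in
/-- the part of an element supported on `U 0` -/
theorem exists_filt (x : Lam k T) : ∃ a : Om k T, ∀ (n : ℕ) (w : T.Q n),
    (Om.proj k T n a).coeff w = if w ∈ T.N n then (Lam.proj k T n x).coeff w else 0 := by
  obtain ⟨y, hy⟩ := Lam.exists_of_compat k T
    (fun n => MonoidAlgebra.ofCoeff ((Lam.proj k T n x).coeff.filter (· ∈ T.N n))) (by
      intro n
      have h1 := mapDomain_filter k (T.tr n) (· ∈ T.N (n + 1)) (· ∈ T.N n)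
        (fun m => tr_mem_N T n m) (Lam.proj k T (n + 1) x).coeff
      change MonoidAlgebra.ofCoeff (Finsupp.mapDomain (T.tr n) _) = _
      rw [h1]
      have h2 := congrArg MonoidAlgebra.coeff (proj_succ k T n x)
      change Finsupp.mapDomain (T.tr n) _ = _ at h2
      rw [h2])
  refine ⟨⟨y, ?_⟩, ?_⟩
  · intro n q hq
    rw [hy] at hq
    by_contra hcon
    apply hq
    rw [MonoidAlgebra.coeff_ofCoeff, Finsupp.filter_apply_neg _ _ hcon]
  · intro n w
    change (Lam.proj k T n y).coeff w = _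
    rw [hy, MonoidAlgebra.coeff_ofCoeff, Finsupp.filter_apply]

/-- the composite projection to the first quotient -/
def pi (n : ℕ) : T.Q n →* T.Q 0 := QuotientGroup.map _ _ (MonoidHom.id G) (anti0 T n)

theorem pi_mk (n : ℕ) (g : G) : pi T n (g : T.Q n) = (g : T.Q 0) := rfl

theorem mem_N_iff (n : ℕ) (w : T.Q n) : w ∈ T.N n ↔ pi T n w = 1 := by
  induction w using QuotientGroup.induction_on with
  | H g => rw [mk_mem_N, pi_mk, QuotientGroup.eq_one_iff]

theorem mul_inv_mem_N (n : ℕ) (h : T.Q n) (q : T.Q 0) :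
    h * ((q.out : G) : T.Q n)⁻¹ ∈ T.N n ↔ q = pi T n h := by
  rw [mem_N_iff, map_mul, map_inv, pi_mk, QuotientGroup.out_eq', mul_inv_eq_one]
  exact eq_comm

theorem coeff_sum_of (n : ℕ) (a : T.Q 0 → Om k T) (h : T.Q n) :
    (Lam.proj k T n (∑ q, Om.incl k T (a q) * Lam.of k T q.out)).coeff h =
      (Om.proj k T n (a (pi T n h))).coeff (h * (((pi T n h).out : G) : T.Q n)⁻¹) := by
  classical
  rw [map_sum, MonoidAlgebra.coeff_sum, Finsupp.finsetSum_apply,
    Finset.sum_eq_single (pi T n h)]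
  · rw [map_mul, proj_of, MonoidAlgebra.coeff_mul_single_apply, mul_one]
    rfl
  · intro q _ hq
    rw [map_mul, proj_of, MonoidAlgebra.coeff_mul_single_apply, mul_one]
    by_contra hcon
    exact hq ((mul_inv_mem_N T n h q).1 ((a q).2 n _ hcon))
  · intro h; exact absurd (Finset.mem_univ _) h

/-- the map which will be an isomorphism -/
noncomputable def sumMap : (T.Q 0 → Om k T) →ₗ[Om k T] Lam k T where
  toFun a := ∑ q, Om.incl k T (a q) * Lam.of k T q.out
  map_add' a b := by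
    simp only [Pi.add_apply, map_add, add_mul, Finset.sum_add_distrib]
  map_smul' c a := by
    rw [RingHom.id_apply, Finset.smul_sum]
    refine Finset.sum_congr rfl fun q _ => ?_
    rw [Om.smul_def, Pi.smul_apply, smul_eq_mul, map_mul, smul_eq_mul, mul_assoc]

theorem sumMap_inj : Function.Injective (sumMap k T) := by
  rw [injective_iff_map_eq_zero]
  intro a ha
  funext q
  apply Om.ext
  intro n
  rw [Pi.zero_apply, map_zero]
  ext w
  by_cases hw : w ∈ T.N n
  · have h1 := coeff_sum_of k T n a (w * ((q.out : G) : T.Q n))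
    have h2 : pi T n (w * ((q.out : G) : T.Q n)) = q := by
      rw [map_mul, (mem_N_iff T n w).1 hw, pi_mk, QuotientGroup.out_eq', one_mul]
    rw [h2, mul_inv_cancel_right] at h1
    rw [← h1]
    change (Lam.proj k T n (sumMap k T a)).coeff _ = _
    rw [ha, map_zero]
    rfl
  · by_contra hcon
    exact hw ((a q).2 n w hcon)

theorem sumMap_surj : Function.Surjective (sumMap k T) := by
  classical
  intro x
  choose a ha using fun q : T.Q 0 => exists_filt k T (x * Lam.of k T (q.out : G)⁻¹)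
  refine ⟨a, ?_⟩
  apply Lam.ext
  intro n
  ext h
  change (Lam.proj k T n (∑ q, Om.incl k T (a q) * Lam.of k T q.out)).coeff h = _
  rw [coeff_sum_of, ha, if_pos ((mul_inv_mem_N T n h _).2 rfl), map_mul (Lam.proj k T n), proj_of,
    MonoidAlgebra.coeff_mul_single_apply, mul_one]
  congr 1
  simp

end gen

end Fx

section F
variable {G : Type} [Group G] (k : Type) [CommRing k] (T : Tower G)

/-- coset representatives of `U 0` are a basis over `Om` -/
theorem Lam.exists_basis : ∃ b : Module.Basis (T.Q 0) (Om k T) (Lam k T),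
    ∀ q, b q = Lam.of k T q.out := by
  refine ⟨Module.Basis.ofEquivFun (LinearEquiv.ofBijective (Fx.sumMap k T)
    ⟨Fx.sumMap_inj k T, Fx.sumMap_surj k T⟩).symm, ?_⟩
  classical
  intro q
  rw [Module.Basis.coe_ofEquivFun, LinearEquiv.symm_symm]
  change ∑ q', Om.incl k T ((Pi.single q 1 : T.Q 0 → Om k T) q') * Lam.of k T q'.out = _
  rw [Finset.sum_eq_single q]
  · rw [Pi.single_eq_same, map_one, one_mul]
  · intro q' _ hq'
    rw [Pi.single_eq_of_ne hq', map_zero, zero_mul]
  · intro h; exact absurd (Finset.mem_univ _) h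

end F

namespace Fx

section red
variable {G : Type} [Group G] {k k' : Type} [CommRing k] [CommRing k'] (φ : k →+* k') (T : Tower G)

theorem map_mapDomain {M N : Type} [Monoid M] [Monoid N] (f : M →* N) (y : MonoidAlgebra k M) :
    MonoidAlgebra.mapDomain f (MonoidAlgebra.mapRingHom M φ y) =
      MonoidAlgebra.mapRingHom N φ (MonoidAlgebra.mapDomain f y) := by
  ext q
  rw [MonoidAlgebra.coeff_mapRingHom]
  induction y using MonoidAlgebra.induction_linear with
  | zero => simp [MonoidAlgebra.mapDomain_zero]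
  | add x y hx hy =>
    rw [map_add, MonoidAlgebra.mapDomain_add, MonoidAlgebra.mapDomain_add, MonoidAlgebra.coeff_add,
      MonoidAlgebra.coeff_add, Finsupp.add_apply, Finsupp.add_apply, hx, hy, map_add]
  | single a b =>
    classical
    rw [MonoidAlgebra.mapRingHom_single, MonoidAlgebra.mapDomain_single,
      MonoidAlgebra.mapDomain_single, MonoidAlgebra.coeff_single, MonoidAlgebra.coeff_single,
      Finsupp.single_apply, Finsupp.single_apply]
    split_ifs <;> simp

/-- reduction on `Lam` as a function -/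
noncomputable def redL (x : Lam k T) : Lam k' T :=
  ⟨fun n => MonoidAlgebra.mapRingHom _ φ (Lam.proj k T n x), by
    intro n
    change MonoidAlgebra.mapDomain (T.tr n) _ = _
    rw [map_mapDomain, proj_succ]⟩

theorem proj_redL (n : ℕ) (x : Lam k T) :
    Lam.proj k' T n (redL φ T x) = MonoidAlgebra.mapRingHom _ φ (Lam.proj k T n x) := rfl

theorem redL_mem (a : Om k T) : redL φ T (Om.incl k T a) ∈ LamW k' T := by
  intro n q hq
  rw [proj_redL, MonoidAlgebra.coeff_mapRingHom] at hq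
  refine a.2 n q fun h => hq ?_
  change (Lam.proj k T n (Om.incl k T a)).coeff q = 0 at h
  rw [h, map_zero]

/-- reduction on `Om` -/
noncomputable def red : Om k T →+* Om k' T where
  toFun a := ⟨redL φ T (Om.incl k T a), redL_mem φ T a⟩
  map_one' := by
    apply Om.ext
    intro n
    change Lam.proj k' T n (redL φ T (Om.incl k T 1)) = _
    rw [proj_redL, map_one, map_one, map_one, map_one]
  map_mul' a b := by
    apply Om.ext
    intro n
    rw [map_mul (Om.proj k' T n)]
    change Lam.proj k' T n (redL φ T (Om.incl k T (a * b))) =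
      Lam.proj k' T n (redL φ T (Om.incl k T a)) * Lam.proj k' T n (redL φ T (Om.incl k T b))
    rw [proj_redL, map_mul, map_mul, map_mul]
    rfl
  map_zero' := by
    apply Om.ext
    intro n
    change Lam.proj k' T n (redL φ T (Om.incl k T 0)) = _
    rw [proj_redL, map_zero, map_zero, map_zero, map_zero]
  map_add' a b := by
    apply Om.ext
    intro n
    rw [map_add (Om.proj k' T n)]
    change Lam.proj k' T n (redL φ T (Om.incl k T (a + b))) =
      Lam.proj k' T n (redL φ T (Om.incl k T a)) + Lam.proj k' T n (redL φ T (Om.incl k T b))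
    rw [proj_redL, map_add, map_add, map_add]
    rfl

theorem proj_red (n : ℕ) (a : Om k T) :
    Om.proj k' T n (red φ T a) = MonoidAlgebra.mapRingHom _ φ (Om.proj k T n a) := rfl

theorem coeff_red (n : ℕ) (a : Om k T) (q : T.Q n) :
    (Om.proj k' T n (red φ T a)).coeff q = φ ((Om.proj k T n a).coeff q) := by
  rw [proj_red, MonoidAlgebra.coeff_mapRingHom]

/-- coefficientwise division -/
theorem exists_div {M : Type} [Finite M] (d : k) (y : MonoidAlgebra k M)
    (h : ∀ q, d ∣ y.coeff q) : ∃ z : MonoidAlgebra k M, y = d • z := by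
  choose c hc using h
  refine ⟨MonoidAlgebra.ofCoeff (Finsupp.equivFunOnFinite.symm c), ?_⟩
  ext q
  rw [MonoidAlgebra.coeff_smul, Finsupp.smul_apply, MonoidAlgebra.coeff_ofCoeff, hc,
    Finsupp.equivFunOnFinite_symm_apply_apply, smul_eq_mul]

theorem smul_cancel [IsDomain k] {M : Type} (d : k) (hd : d ≠ 0) (y z : MonoidAlgebra k M)
    (h : d • y = d • z) : y = z := by
  ext q
  have h1 := congrArg (fun t : MonoidAlgebra k M => t.coeff q) h
  simp only [MonoidAlgebra.coeff_smul, Finsupp.smul_apply, smul_eq_mul] at h1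
  exact mul_left_cancel₀ hd h1

theorem mapDomain_smul {M N : Type} [Monoid M] [Monoid N] (f : M →* N) (d : k)
    (y : MonoidAlgebra k M) :
    MonoidAlgebra.mapDomain f (d • y) = d • MonoidAlgebra.mapDomain f y := by
  apply MonoidAlgebra.coeff_injective
  exact Finsupp.mapDomain_smul _ _

/-- division in `Om` -/
theorem Om_div [IsDomain k] (d : k) (hd : d ≠ 0) (a : Om k T)
    (h : ∀ (n : ℕ) (q : T.Q n), d ∣ (Om.proj k T n a).coeff q) : ∃ b : Om k T, a = d • b := by
  choose z hz using fun n => exists_div d (Om.proj k T n a) (h n)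
  obtain ⟨y, hy⟩ := Lam.exists_of_compat k T z (by
    intro n
    apply smul_cancel d hd
    rw [← mapDomain_smul, ← hz, ← hz]
    exact proj_succ k T n (Om.incl k T a))
  refine ⟨⟨y, ?_⟩, ?_⟩
  · intro n q hq
    rw [hy] at hq
    refine a.2 n q ?_
    change (Om.proj k T n a).coeff q ≠ 0
    rw [hz n, MonoidAlgebra.coeff_smul, Finsupp.smul_apply, smul_eq_mul]
    exact mul_ne_zero hd hq
  · apply Om.ext
    intro n
    rw [map_smul]
    change _ = d • Lam.proj k T n y
    rw [hy, hz]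

end red

section padic
variable {G : Type} [Group G] (p : ℕ) [Fact p.Prime] (T : Tower G)

theorem toZMod_eq_zero (x : ℤ_[p]) : PadicInt.toZMod x = 0 ↔ (p : ℤ_[p]) ∣ x := by
  rw [← RingHom.mem_ker, PadicInt.ker_toZMod, PadicInt.maximalIdeal_eq_span_p,
    Ideal.mem_span_singleton]

theorem p_ne : (p : ℤ_[p]) ≠ 0 := by
  exact_mod_cast (Fact.out : p.Prime).ne_zero

theorem pow_ne (m : ℕ) : (p : ℤ_[p]) ^ m ≠ 0 := pow_ne_zero _ (p_ne p)

/-- the algebraic `p` and the scalar `p` -/
theorem natCast_mul' (m : ℕ) (a : Om ℤ_[p] T) :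
    (p : Om ℤ_[p] T) ^ m * a = ((p : ℤ_[p]) ^ m) • a := by
  rw [Algebra.smul_def, map_pow, map_natCast]

theorem lift_step (n : ℕ) (a : MonoidAlgebra ℤ_[p] (T.Q n)) (ha : ∀ q, q ∉ T.N n → a.coeff q = 0)
    (b : MonoidAlgebra (ZMod p) (T.Q (n + 1))) (hb : ∀ q, q ∉ T.N (n + 1) → b.coeff q = 0)
    (hab : MonoidAlgebra.mapDomain (T.tr n) b = MonoidAlgebra.mapRingHom _ PadicInt.toZMod a) :
    ∃ a' : MonoidAlgebra ℤ_[p] (T.Q (n + 1)), (∀ q, q ∉ T.N (n + 1) → a'.coeff q = 0) ∧
      MonoidAlgebra.mapRingHom _ PadicInt.toZMod a' = b ∧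
      MonoidAlgebra.mapDomain (T.tr n) a' = a := by
  classical
  -- a lift of `b`
  set c : MonoidAlgebra ℤ_[p] (T.Q (n + 1)) :=
    MonoidAlgebra.ofCoeff (b.coeff.mapRange (fun z : ZMod p => (z.val : ℤ_[p])) (by simp)) with hc
  have hc1 : ∀ q, c.coeff q = ((b.coeff q).val : ℤ_[p]) := fun q => rfl
  have hcN : ∀ q, q ∉ T.N (n + 1) → c.coeff q = 0 := by
    intro q hq
    rw [hc1, hb q hq, ZMod.val_zero, Nat.cast_zero]
  have hcb : MonoidAlgebra.mapRingHom _ PadicInt.toZMod c = b := by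
    ext q
    rw [MonoidAlgebra.coeff_mapRingHom, hc1, map_natCast, ZMod.natCast_zmod_val]
  -- the error
  have hdiv : ∀ q, (p : ℤ_[p]) ∣ (MonoidAlgebra.mapDomain (T.tr n) c - a).coeff q := by
    intro q
    rw [← toZMod_eq_zero, ← MonoidAlgebra.coeff_mapRingHom, map_sub, ← map_mapDomain, hcb, hab,
      sub_self]
    rfl
  obtain ⟨e, he⟩ := exists_div _ _ hdiv
  have hsuppD : ∀ (x : MonoidAlgebra ℤ_[p] (T.Q (n + 1))), (∀ q, q ∉ T.N (n + 1) → x.coeff q = 0) →
      ∀ q, q ∉ T.N n → (MonoidAlgebra.mapDomain (T.tr n) x).coeff q = 0 := by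
    intro x hx q hq
    change Finsupp.mapDomain (T.tr n) x.coeff q = 0
    rw [Finsupp.mapDomain, Finsupp.sum_apply]
    apply Finset.sum_eq_zero
    intro w _
    change (Finsupp.single (T.tr n w) (x.coeff w)) q = 0
    rw [Finsupp.single_apply]
    split_ifs with hw
    · exact hx w fun hwN => hq (hw ▸ (tr_mem_N T n w).2 hwN)
    · rfl
  have heN : ∀ q, q ∉ T.N n → e.coeff q = 0 := by
    intro q hq
    have h1 := congrArg (fun t : MonoidAlgebra ℤ_[p] (T.Q n) => t.coeff q) he
    simp only [MonoidAlgebra.coeff_sub, Finsupp.sub_apply, MonoidAlgebra.coeff_smul,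
      Finsupp.smul_apply, smul_eq_mul] at h1
    rw [hsuppD c hcN q hq, ha q hq, sub_zero] at h1
    exact (mul_eq_zero.1 h1.symm).resolve_left (p_ne p)
  -- lift the error
  obtain ⟨σ, hσ⟩ := (tr_surj T n).hasRightInverse
  set e' : MonoidAlgebra ℤ_[p] (T.Q (n + 1)) := MonoidAlgebra.mapDomain σ e with he'
  have he'1 : MonoidAlgebra.mapDomain (T.tr n) e' = e := by
    apply MonoidAlgebra.coeff_injective
    change Finsupp.mapDomain (T.tr n) (Finsupp.mapDomain σ e.coeff) = _
    rw [← Finsupp.mapDomain_comp]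
    have : (T.tr n : T.Q (n + 1) → T.Q n) ∘ σ = id := funext hσ
    rw [this, Finsupp.mapDomain_id]
  have he'N : ∀ q, q ∉ T.N (n + 1) → e'.coeff q = 0 := by
    intro q hq
    change Finsupp.mapDomain σ e.coeff q = 0
    rw [Finsupp.mapDomain, Finsupp.sum_apply]
    apply Finset.sum_eq_zero
    intro w _
    change (Finsupp.single (σ w) (e.coeff w)) q = 0
    rw [Finsupp.single_apply]
    split_ifs with hw
    · apply heN w
      intro hwN
      apply hq
      rw [← hw, ← tr_mem_N, hσ w]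
      exact hwN
    · rfl
  refine ⟨c - (p : ℤ_[p]) • e', ?_, ?_, ?_⟩
  · intro q hq
    rw [MonoidAlgebra.coeff_sub, Finsupp.sub_apply, MonoidAlgebra.coeff_smul, Finsupp.smul_apply,
      hcN q hq, he'N q hq, smul_zero, sub_zero]
  · ext q
    rw [MonoidAlgebra.coeff_mapRingHom, MonoidAlgebra.coeff_sub, Finsupp.sub_apply,
      MonoidAlgebra.coeff_smul, Finsupp.smul_apply, map_sub, smul_eq_mul, map_mul, map_natCast,
      CharP.cast_eq_zero, zero_mul, sub_zero, ← MonoidAlgebra.coeff_mapRingHom, hcb]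
  · have h1 : MonoidAlgebra.mapDomain (T.tr n) (c - (p : ℤ_[p]) • e') =
        MonoidAlgebra.mapDomain (T.tr n) c - (p : ℤ_[p]) • e := by
      have := map_sub (MonoidAlgebra.mapDomainAlgHom ℤ_[p] ℤ_[p] (T.tr n)) c ((p : ℤ_[p]) • e')
      rw [map_smul] at this
      change MonoidAlgebra.mapDomain (T.tr n) _ = MonoidAlgebra.mapDomain (T.tr n) c -
        (p : ℤ_[p]) • MonoidAlgebra.mapDomain (T.tr n) e' at this
      rw [this, he'1]
    rw [h1, ← he]
    abel

theorem red_surj : Function.Surjective (red (PadicInt.toZMod (p := p)) T) := by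
  classical
  intro b
  have hbN : ∀ n, ∀ q, q ∉ T.N n → (Om.proj (ZMod p) T n b).coeff q = 0 := by
    intro n q hq
    by_contra h
    exact hq (b.2 n q h)
  let S : ℕ → Type := fun n => {y : MonoidAlgebra ℤ_[p] (T.Q n) //
    (∀ q, q ∉ T.N n → y.coeff q = 0) ∧
      MonoidAlgebra.mapRingHom _ PadicInt.toZMod y = Om.proj (ZMod p) T n b}
  have s0 : S 0 := ⟨MonoidAlgebra.ofCoeff ((Om.proj (ZMod p) T 0 b).coeff.mapRange
      (fun z : ZMod p => (z.val : ℤ_[p])) (by simp)), by
    intro q hq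
    change ((((Om.proj (ZMod p) T 0 b).coeff q).val : ℕ) : ℤ_[p]) = 0
    rw [hbN 0 q hq, ZMod.val_zero, Nat.cast_zero], by
    ext q
    rw [MonoidAlgebra.coeff_mapRingHom]
    change PadicInt.toZMod ((((Om.proj (ZMod p) T 0 b).coeff q).val : ℕ) : ℤ_[p]) = _
    rw [map_natCast, ZMod.natCast_zmod_val]⟩
  have step : ∀ n (y : S n), ∃ y' : S (n + 1), MonoidAlgebra.mapDomain (T.tr n) y'.1 = y.1 := by
    intro n y
    obtain ⟨a', h1, h2, h3⟩ := lift_step p T n y.1 y.2.1 (Om.proj (ZMod p) T (n + 1) b)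
      (hbN (n + 1)) (by rw [y.2.2]; exact proj_succ (ZMod p) T n (Om.incl (ZMod p) T b))
    exact ⟨⟨a', h1, h2⟩, h3⟩
  choose f hf using step
  let y : ∀ n, S n := fun n => Nat.rec s0 f n
  obtain ⟨x, hx⟩ := Lam.exists_of_compat ℤ_[p] T (fun n => (y n).1) (fun n => hf n (y n))
  refine ⟨⟨x, ?_⟩, ?_⟩
  · intro n q hq
    rw [hx] at hq
    by_contra hcon
    exact hq ((y n).2.1 q hcon)
  · apply Om.ext
    intro n
    rw [proj_red]
    change MonoidAlgebra.mapRingHom _ PadicInt.toZMod (Lam.proj ℤ_[p] T n x) = _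
    rw [hx]
    exact (y n).2.2

/-- power series with arbitrary coefficients converge in `ℤ_p` -/
theorem exists_sum (c : ℕ → ℤ_[p]) : ∃ y : ℤ_[p], ∀ n : ℕ,
    (p : ℤ_[p]) ^ n ∣ y - ∑ i ∈ Finset.range n, (p : ℤ_[p]) ^ i * c i := by
  have hs : ∀ c : ℕ → ℤ_[p], Summable fun i => (p : ℤ_[p]) ^ i * c i := by
    intro c
    refine Summable.of_norm_bounded (g := fun i => ((p : ℝ)⁻¹) ^ i) ?_ ?_
    · apply summable_geometric_of_lt_one
      · positivity
      · exact inv_lt_one_of_one_lt₀ (by exact_mod_cast (Fact.out : p.Prime).one_lt)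
    · intro i
      rw [norm_mul, norm_pow, PadicInt.norm_p]
      calc _ ≤ ((p : ℝ)⁻¹) ^ i * 1 := by
            gcongr
            exact PadicInt.norm_le_one _
        _ = _ := mul_one _
  refine ⟨∑' i, (p : ℤ_[p]) ^ i * c i, fun n => ?_⟩
  refine ⟨∑' i, (p : ℤ_[p]) ^ i * c (i + n), ?_⟩
  rw [← (hs c).sum_add_tsum_nat_add n, add_sub_cancel_left,
    ← Summable.tsum_mul_left _ (hs fun i => c (i + n))]
  congr 1
  funext i
  ring

theorem eq_zero_of_dvd (y : ℤ_[p]) (h : ∀ n : ℕ, (p : ℤ_[p]) ^ n ∣ y) : y = 0 := by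
  by_contra hy
  have h1 := (PadicInt.norm_le_pow_iff_mem_span_pow y (y.valuation + 1)).2
    (Ideal.mem_span_singleton.2 (h _))
  rw [PadicInt.norm_eq_zpow_neg_valuation hy] at h1
  have h2 := (zpow_le_zpow_iff_right₀ (a := (p : ℝ))
    (by exact_mod_cast (Fact.out : p.Prime).one_lt)).1 h1
  omega

theorem Om_complete (x : ℕ → Om ℤ_[p] T) : ∃ y : Om ℤ_[p] T, ∀ n : ℕ, ∃ z : Om ℤ_[p] T,
    y - ∑ i ∈ Finset.range n, ((p : ℤ_[p]) ^ i) • x i = ((p : ℤ_[p]) ^ n) • z := by
  classical
  choose c hc using fun (n : ℕ) (q : T.Q n) =>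
    exists_sum p (fun i => (Om.proj ℤ_[p] T n (x i)).coeff q)
  have hdiff : ∀ (n m : ℕ) (q : T.Q n), (p : ℤ_[p]) ^ m ∣
      (MonoidAlgebra.ofCoeff (Finsupp.equivFunOnFinite.symm (c n)) -
        Om.proj ℤ_[p] T n (∑ i ∈ Finset.range m, ((p : ℤ_[p]) ^ i) • x i)).coeff q := by
    intro n m q
    have h := hc n q m
    convert h using 1
    rw [MonoidAlgebra.coeff_sub, Finsupp.sub_apply, MonoidAlgebra.coeff_ofCoeff,
      Finsupp.equivFunOnFinite_symm_apply_apply, map_sum, MonoidAlgebra.coeff_sum,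
      Finsupp.finsetSum_apply]
    rfl
  obtain ⟨y, hy⟩ := Lam.exists_of_compat ℤ_[p] T
    (fun n => MonoidAlgebra.ofCoeff (Finsupp.equivFunOnFinite.symm (c n))) (by
      intro n
      rw [← sub_eq_zero]
      ext q
      apply eq_zero_of_dvd
      intro m
      obtain ⟨u, hu⟩ := exists_div _ _ (hdiff (n + 1) m)
      obtain ⟨v, hv⟩ := exists_div _ _ (hdiff n m)
      have h1 : MonoidAlgebra.mapDomain (T.tr n)
          (MonoidAlgebra.ofCoeff (Finsupp.equivFunOnFinite.symm (c (n + 1)))) =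
          Om.proj ℤ_[p] T n (∑ i ∈ Finset.range m, ((p : ℤ_[p]) ^ i) • x i) +
            ((p : ℤ_[p]) ^ m) • MonoidAlgebra.mapDomain (T.tr n) u := by
        rw [sub_eq_iff_eq_add] at hu
        rw [hu, MonoidAlgebra.mapDomain_add, mapDomain_smul, add_comm]
        congr 1
        exact proj_succ ℤ_[p] T n (Om.incl ℤ_[p] T _)
      rw [sub_eq_iff_eq_add] at hv
      rw [h1, hv]
      refine ⟨(MonoidAlgebra.mapDomain (T.tr n) u - v).coeff q, ?_⟩
      simp only [MonoidAlgebra.coeff_sub, MonoidAlgebra.coeff_add, MonoidAlgebra.coeff_smul,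
        Finsupp.sub_apply, Finsupp.add_apply, Finsupp.smul_apply, smul_eq_mul]
      ring)
  have hyN : y ∈ LamW ℤ_[p] T := by
    intro n q hq
    by_contra hcon
    apply hq
    apply eq_zero_of_dvd
    intro m
    rw [hy]
    have h := hdiff n m q
    rw [MonoidAlgebra.coeff_sub, Finsupp.sub_apply] at h
    have h0 : (Om.proj ℤ_[p] T n (∑ i ∈ Finset.range m, ((p : ℤ_[p]) ^ i) • x i)).coeff q = 0 := by
      by_contra h'
      exact hcon ((∑ i ∈ Finset.range m, ((p : ℤ_[p]) ^ i) • x i : Om ℤ_[p] T).2 n q h')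
    rwa [h0, sub_zero] at h
  refine ⟨⟨y, hyN⟩, fun n => ?_⟩
  apply Om_div T _ (pow_ne p n)
  intro m q
  rw [map_sub]
  change _ ∣ (Lam.proj ℤ_[p] T m y - _).coeff q
  rw [hy]
  exact hdiff m n q

end padic

end Fx

section F
variable {G : Type} [Group G] (T : Tower G)

/-- reduction modulo `p` -/
theorem Om.exists_red (p : ℕ) [Fact p.Prime] : ∃ q : Om ℤ_[p] T →+* Om (ZMod p) T,
    Function.Surjective q ∧
    (∀ (n : ℕ) (a : Om ℤ_[p] T), Om.proj (ZMod p) T n (q a) =
      MonoidAlgebra.mapRingHom _ PadicInt.toZMod (Om.proj ℤ_[p] T n a)) ∧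
    (∀ a : Om ℤ_[p] T, q a = 0 ↔ ∃ b : Om ℤ_[p] T, a = p * b) ∧
    (∀ a : Om ℤ_[p] T, (p : Om ℤ_[p] T) * a = 0 → a = 0) ∧
    (∀ y : Om ℤ_[p] T, (∀ n : ℕ, ∃ z : Om ℤ_[p] T, y = (p : Om ℤ_[p] T) ^ n * z) → y = 0) ∧
    (∀ x : ℕ → Om ℤ_[p] T, ∃ y : Om ℤ_[p] T, ∀ n : ℕ, ∃ z : Om ℤ_[p] T,
      y - ∑ i ∈ Finset.range n, (p : Om ℤ_[p] T) ^ i * x i = (p : Om ℤ_[p] T) ^ n * z) := by
  have hp1 : ∀ a : Om ℤ_[p] T, (p : Om ℤ_[p] T) * a = (p : ℤ_[p]) • a := by
    intro a
    have := Fx.natCast_mul' p T 1 a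
    rwa [pow_one, pow_one] at this
  refine ⟨Fx.red PadicInt.toZMod T, Fx.red_surj p T, fun n a => rfl, ?_, ?_, ?_, ?_⟩
  · intro a
    constructor
    · intro h
      obtain ⟨b, hb⟩ := Fx.Om_div T (p : ℤ_[p]) (Fx.p_ne p) a (by
        intro n q
        rw [← Fx.toZMod_eq_zero, ← Fx.coeff_red, h, map_zero]
        rfl)
      exact ⟨b, by rw [hb, hp1]⟩
    · rintro ⟨b, rfl⟩
      rw [map_mul, map_natCast]
      apply Om.ext
      intro n
      rw [map_mul, map_natCast, map_zero]
      have : ((p : ℕ) : MonoidAlgebra (ZMod p) (T.Q n)) = 0 := by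
        rw [MonoidAlgebra.natCast_def, CharP.cast_eq_zero, MonoidAlgebra.single_zero]
      rw [this, zero_mul]
  · intro a ha
    rw [hp1] at ha
    apply Om.ext
    intro n
    apply Fx.smul_cancel (p : ℤ_[p]) (Fx.p_ne p)
    rw [← map_smul, ha, map_zero, smul_zero]
  · intro y hy
    apply Om.ext
    intro n
    rw [map_zero]
    ext q
    apply Fx.eq_zero_of_dvd
    intro m
    obtain ⟨z, hz⟩ := hy m
    rw [Fx.natCast_mul'] at hz
    rw [hz, map_smul, MonoidAlgebra.coeff_smul, Finsupp.smul_apply, smul_eq_mul]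
    exact dvd_mul_right _ _
  · intro x
    obtain ⟨y, hy⟩ := Fx.Om_complete p T x
    refine ⟨y, fun n => ?_⟩
    obtain ⟨z, hz⟩ := hy n
    refine ⟨z, ?_⟩
    rw [Fx.natCast_mul', ← hz]
    congr 1
    exact Finset.sum_congr rfl fun i _ => Fx.natCast_mul' p T i (x i)

end F

end Pool.Agent.H371.SA
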