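import Pool.Agent.H371.SA.Defs

set_option autoImplicit false

/-! TASK G of the strong Atiyah project (helper189): rank growth of finitely generated modules. -/

namespace Pool.Agent.H371.SA.Gx

open Filter Topology Module

section lin
variable {k : Type} [CommRing k] [IsDomain k] [IsPrincipalIdealRing k]

theorem finrank_eq_of_surj {V W : Type} [AddCommGroup V] [Module k V] [AddCommGroup W]
    [Module k W] [Module.Finite k V] (f : V →ₗ[k] W) (hf : Function.Surjective f) :
    finrank k V = finrank k W + finrank k (LinearMap.ker f) := by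
  have h := Submodule.finrank_quotient_add_finrank (LinearMap.ker f)
  rw [← h, LinearEquiv.finrank_eq (f.quotKerEquivOfSurjective hf)]

theorem finrank_le_of_surj {V W : Type} [AddCommGroup V] [Module k V] [AddCommGroup W]
    [Module k W] [Module.Finite k V] (f : V →ₗ[k] W) (hf : Function.Surjective f) :
    finrank k W ≤ finrank k V := by
  rw [finrank_eq_of_surj f hf]; exact Nat.le_add_right _ _

theorem finrank_prod' (V W : Type) [AddCommGroup V] [Module k V] [AddCommGroup W]
    [Module k W] [Module.Finite k V] [Module.Finite k W] :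
    finrank k (V × W) = finrank k V + finrank k W := by
  rw [finrank_eq_of_surj (LinearMap.fst k V W) LinearMap.fst_surjective]
  congr 1
  rw [LinearMap.ker_fst]
  exact (LinearEquiv.ofInjective (LinearMap.inr k V W) LinearMap.inr_injective).finrank_eq.symm

theorem finrank_pi' : ∀ {s : ℕ} (M : Fin s → Type) [∀ i, AddCommGroup (M i)]
    [∀ i, Module k (M i)] [∀ i, Module.Finite k (M i)],
    finrank k (∀ i, M i) = ∑ i, finrank k (M i) := by
  intro s
  induction s with
  | zero => intro M _ _ _; simpa using finrank_zero_of_subsingleton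
  | succ s ih =>
    intro M _ _ _
    rw [Fin.sum_univ_succ, ← ih (fun i => M i.succ), ← finrank_prod']
    exact (Fin.consLinearEquiv k M).finrank_eq.symm

end lin

section comb
variable {R : Type} [Ring R] {V : Type} [AddCommGroup V] [Module R V]

/-- the map `(y_i) ↦ ∑ y_i x_i` -/
noncomputable def comb {s : ℕ} (L : Fin s → Ideal R) (x : Fin s → V)
    (h : ∀ i, ∀ a ∈ L i, a • x i = 0) : (∀ i, R ⧸ L i) →ₗ[R] V :=
  ∑ i, (Submodule.liftQ (L i) (LinearMap.toSpanSingleton R V (x i)) (by
    intro a ha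
    rw [LinearMap.mem_ker, LinearMap.toSpanSingleton_apply]
    exact h i a ha)).comp (LinearMap.proj i)

theorem comb_mk {s : ℕ} (L : Fin s → Ideal R) (x : Fin s → V)
    (h : ∀ i, ∀ a ∈ L i, a • x i = 0) (y : Fin s → R) :
    comb L x h (fun i => Submodule.Quotient.mk (y i)) = ∑ i, y i • x i := by
  simp only [comb, LinearMap.sum_apply, LinearMap.comp_apply, LinearMap.proj_apply]
  refine Finset.sum_congr rfl fun i _ => ?_
  rw [Submodule.liftQ_apply, LinearMap.toSpanSingleton_apply]

theorem range_comb {s : ℕ} (L : Fin s → Ideal R) (x : Fin s → V)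
    (h : ∀ i, ∀ a ∈ L i, a • x i = 0) :
    LinearMap.range (comb L x h) = Submodule.span R (Set.range x) := by
  classical
  apply le_antisymm
  · rintro _ ⟨y, rfl⟩
    have : ∃ y' : Fin s → R, (fun i => (Submodule.Quotient.mk (y' i) : R ⧸ L i)) = y := by
      choose y' hy' using fun i => Submodule.Quotient.mk_surjective (L i) (y i)
      exact ⟨y', funext hy'⟩
    obtain ⟨y', rfl⟩ := this
    rw [comb_mk]
    exact Submodule.sum_mem _ fun i _ => Submodule.smul_mem _ _ (Submodule.subset_span ⟨i, rfl⟩)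
  · rw [Submodule.span_le]
    rintro _ ⟨i, rfl⟩
    refine ⟨fun j => Submodule.Quotient.mk ((Pi.single i 1 : Fin s → R) j), ?_⟩
    rw [comb_mk]
    rw [Finset.sum_eq_single i]
    · simp
    · intro j _ hj
      rw [Pi.single_eq_of_ne hj, zero_smul]
    · intro hi; exact absurd (Finset.mem_univ i) hi

end comb

/-- a maximal independent family -/
theorem exists_max {R : Type} [Ring R] [StrongRankCondition R] {M : Type} [AddCommGroup M]
    [Module R M] [Module.Finite R M] :
    ∃ r : ℕ, ∃ v : Fin r → M, LinearIndependent R v ∧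
      ∀ y : M, ∃ a : R, a ≠ 0 ∧ a • y ∈ Submodule.span R (Set.range v) := by
  classical
  obtain ⟨m, g, hg⟩ := Module.Finite.exists_fin' R M
  have hbd : ∀ r : ℕ, (∃ v : Fin r → M, LinearIndependent R v) → r ≤ m := by
    rintro r ⟨v, hv⟩
    choose u hu using fun i => hg (v i)
    have hui : LinearIndependent R u := by
      apply LinearIndependent.of_comp g
      have : (g ∘ u : Fin r → M) = v := funext hu
      rw [this]; exact hv
    have := hui.fintype_card_le_finrank
    simpa using this
  have h0 : ∃ v : Fin 0 → M, LinearIndependent R v := ⟨Fin.elim0, linearIndependent_empty_type⟩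
  have hP := Nat.findGreatest_spec (P := fun r => ∃ v : Fin r → M, LinearIndependent R v)
    (Nat.zero_le m) h0
  set r := Nat.findGreatest (fun r => ∃ v : Fin r → M, LinearIndependent R v) m with hr
  obtain ⟨v, hv⟩ := hP
  refine ⟨r, v, hv, fun y => ?_⟩
  by_contra hcon
  push Not at hcon
  have hind : LinearIndependent R (Fin.cons y v : Fin (r + 1) → M) := by
    refine LinearIndependent.finCons' y v hv ?_
    intro c z hz h
    by_contra hc
    apply hcon c hc
    have : c • y = -z := eq_neg_of_add_eq_zero_left h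
    rw [this]
    exact neg_mem hz
  have h1 : r + 1 ≤ m := hbd _ ⟨_, hind⟩
  have h2 := Nat.le_findGreatest (P := fun r => ∃ v : Fin r → M, LinearIndependent R v) h1
    ⟨_, hind⟩
  omega

variable {k : Type} [CommRing k] [IsDomain k] [IsPrincipalIdealRing k] {R : Type} [Ring R]
  [Algebra k R]

theorem kills (J : Ideal R) (M : Type) [AddCommGroup M] [Module R M] :
    ∀ b ∈ J, ∀ x : M ⧸ (J • (⊤ : Submodule R M)), b • x = 0 := by
  intro b hb x
  obtain ⟨x, rfl⟩ := Submodule.Quotient.mk_surjective _ x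
  rw [← Submodule.Quotient.mk_smul, Submodule.Quotient.mk_eq_zero]
  exact Submodule.smul_mem_smul hb trivial

theorem finite_of_span (J : Ideal R) [Module.Finite k (R ⧸ J)]
    (V : Type) [AddCommGroup V] [Module R V] [Module k V] [IsScalarTower k R V]
    (hJ : ∀ b ∈ J, ∀ x : V, b • x = 0) {m : ℕ} (g : Fin m → V)
    (hg : Submodule.span R (Set.range g) = ⊤) : Module.Finite k V := by
  let c0 := comb (fun _ : Fin m => J) g (fun j b hb => hJ b hb _)
  have hc0 : Function.Surjective c0 := by
    rw [← LinearMap.range_eq_top, range_comb, hg]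
  exact Module.Finite.of_surjective (c0.restrictScalars k) hc0

theorem span_mkQ {M : Type} [AddCommGroup M] [Module R M] (N : Submodule R M) {m : ℕ}
    (g : Fin m → M) (hg : Submodule.span R (Set.range g) = ⊤) :
    Submodule.span R (Set.range fun j => N.mkQ (g j)) = ⊤ := by
  have : (Set.range fun j => N.mkQ (g j)) = N.mkQ '' (Set.range g) := by
    rw [← Set.range_comp]; rfl
  rw [this, Submodule.span_image, hg, Submodule.map_top, Submodule.range_mkQ]

theorem bound_span (J : Ideal R) [Module.Finite k (R ⧸ J)]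
    (V : Type) [AddCommGroup V] [Module R V] [Module k V] [IsScalarTower k R V]
    (hJ : ∀ b ∈ J, ∀ x : V, b • x = 0) {r : ℕ} (v : Fin r → V) [Module.Finite k V] :
    finrank k V ≤ r * finrank k (R ⧸ J) +
      finrank k (V ⧸ Submodule.span R (Set.range v)) := by
  let c1 := comb (fun _ : Fin r => J) v (fun j b hb => hJ b hb _)
  set S := Submodule.span R (Set.range v) with hS
  have hr : LinearMap.range c1 = S := range_comb _ _ _
  let q : V →ₗ[k] (V ⧸ S) := S.mkQ.restrictScalars k
  have hq : Function.Surjective q := Submodule.mkQ_surjective S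
  have e1 := finrank_eq_of_surj q hq
  have e2 : finrank k (LinearMap.ker q) ≤ r * finrank k (R ⧸ J) := by
    have h1 : LinearMap.ker q ≤ LinearMap.range (c1.restrictScalars k) := by
      intro x hx
      have hx' : x ∈ LinearMap.ker S.mkQ := hx
      rw [Submodule.ker_mkQ, ← hr] at hx'
      exact hx'
    have e3 := finrank_pi' (k := k) (fun _ : Fin r => R ⧸ J)
    simp only [Finset.sum_const, Finset.card_univ, Fintype.card_fin, smul_eq_mul] at e3
    have e4 := LinearMap.finrank_range_le (c1.restrictScalars k)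
    rw [e3] at e4
    exact (Submodule.finrank_mono h1).trans e4
  omega

theorem bound_quot (J : Ideal R) [Module.Finite k (R ⧸ J)]
    (V : Type) [AddCommGroup V] [Module R V] [Module k V] [IsScalarTower k R V]
    (hJ : ∀ b ∈ J, ∀ x : V, b • x = 0) {m : ℕ} (g : Fin m → V)
    (hg : Submodule.span R (Set.range g) = ⊤) (a : Fin m → R) (ha : ∀ j, a j • g j = 0) :
    finrank k V ≤ ∑ j, finrank k (R ⧸ (Ideal.span {a j} ⊔ J)) := by
  have hkill : ∀ j : Fin m, ∀ b ∈ Ideal.span {a j} ⊔ J, b • g j = 0 := by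
    intro j b hb
    obtain ⟨b1, hb1, b2, hb2, rfl⟩ := Submodule.mem_sup.1 hb
    obtain ⟨c, rfl⟩ := Ideal.mem_span_singleton'.1 hb1
    rw [add_smul, hJ b2 hb2, add_zero, mul_smul, ha, smul_zero]
  let c2 := comb (fun j : Fin m => Ideal.span {a j} ⊔ J) g hkill
  have hc2 : Function.Surjective c2 := by
    rw [← LinearMap.range_eq_top]
    exact (range_comb _ _ _).trans hg
  have hfin2 : ∀ j, Module.Finite k (R ⧸ (Ideal.span {a j} ⊔ J)) := by
    intro j
    have hle : J ≤ Ideal.span {a j} ⊔ J := le_sup_right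
    exact Module.Finite.of_surjective ((Submodule.factor hle).restrictScalars k)
      (Submodule.factor_surjective hle)
  have e4 := finrank_pi' (k := k) (fun j : Fin m => R ⧸ (Ideal.span {a j} ⊔ J))
  rw [← e4]
  exact finrank_le_of_surj (c2.restrictScalars k) hc2

theorem bound_mid (J : Ideal R) [Module.Finite k (R ⧸ J)]
    (V : Type) [AddCommGroup V] [Module R V] [Module k V] [IsScalarTower k R V]
    (hJ : ∀ b ∈ J, ∀ x : V, b • x = 0)
    {r m : ℕ} (v : Fin r → V) (g : Fin m → V) (hg : Submodule.span R (Set.range g) = ⊤)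
    (a : Fin m → R) (ha : ∀ j, a j • g j ∈ Submodule.span R (Set.range v)) :
    finrank k V ≤ r * finrank k (R ⧸ J) + ∑ j, finrank k (R ⧸ (Ideal.span {a j} ⊔ J)) := by
  have hfinV : Module.Finite k V := finite_of_span J _ hJ _ hg
  have h1 := bound_span (k := k) J V hJ v
  set S := Submodule.span R (Set.range v) with hS
  have h2 : finrank k (V ⧸ S) ≤ ∑ j, finrank k (R ⧸ (Ideal.span {a j} ⊔ J)) := by
    have hk : ∀ b ∈ J, ∀ x : V ⧸ S, b • x = 0 := by
      intro b hb x
      obtain ⟨x, rfl⟩ := Submodule.Quotient.mk_surjective _ x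
      rw [← Submodule.Quotient.mk_smul, hJ b hb, Submodule.Quotient.mk_zero]
    have ha' : ∀ j, a j • S.mkQ (g j) = 0 := by
      intro j
      rw [← map_smul, Submodule.mkQ_apply, Submodule.Quotient.mk_eq_zero]
      exact ha j
    exact bound_quot (k := k) J (V ⧸ S) hk (fun j => S.mkQ (g j)) (span_mkQ S g hg) a ha'
  omega

/-- the bound for one ideal -/
theorem bound_one (J : Ideal R) [Module.Finite k (R ⧸ J)]
    (M : Type) [AddCommGroup M] [Module R M] [Module k M] [IsScalarTower k R M]
    {r m : ℕ} (v : Fin r → M) (g : Fin m → M) (hg : Submodule.span R (Set.range g) = ⊤)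
    (a : Fin m → R) (ha : ∀ j, a j • g j ∈ Submodule.span R (Set.range v)) :
    finrank k (M ⧸ (J • (⊤ : Submodule R M))) ≤
      r * finrank k (R ⧸ J) + ∑ j, finrank k (R ⧸ (Ideal.span {a j} ⊔ J)) := by
  have hJ := kills J M
  set N : Submodule R M := J • (⊤ : Submodule R M) with hN
  have ha' : ∀ j, a j • N.mkQ (g j) ∈ Submodule.span R (Set.range fun i => N.mkQ (v i)) := by
    intro j
    have h2 : (Set.range fun i => N.mkQ (v i)) = N.mkQ '' (Set.range v) := by
      rw [← Set.range_comp]; rfl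
    rw [← map_smul, h2, Submodule.span_image]
    exact Submodule.mem_map_of_mem (ha j)
  exact bound_mid (k := k) J (M ⧸ N) hJ (fun i => N.mkQ (v i)) (fun j => N.mkQ (g j))
    (span_mkQ N g hg) a ha'

/-- right exactness -/
theorem low_bound (J : Ideal R) [J.IsTwoSided] [Module.Finite k (R ⧸ J)]
    (M : Type) [AddCommGroup M] [Module R M] [Module k M] [IsScalarTower k R M]
    (b : ℕ) (f : (Fin b → R) →ₗ[R] M) (hf : Function.Surjective f)
    (hker : Module.Finite R (LinearMap.ker f)) :
    b * finrank k (R ⧸ J) ≤ finrank k (M ⧸ (J • (⊤ : Submodule R M))) +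
      finrank k (LinearMap.ker f ⧸ (J • (⊤ : Submodule R (LinearMap.ker f)))) := by
  classical
  have hJ := kills J M
  have hJ' := kills J (LinearMap.ker f)
  obtain ⟨m, g, hg⟩ := Module.Finite.exists_fin (R := R) (M := LinearMap.ker f)
  have hfinA : Module.Finite k (LinearMap.ker f ⧸ (J • (⊤ : Submodule R (LinearMap.ker f)))) :=
    finite_of_span J _ hJ' _ (span_mkQ _ g hg)
  -- the map `ψ`
  let e : Fin b → (Fin b → R) := fun i => Pi.single i 1
  let π := (J • (⊤ : Submodule R M)).mkQ
  let ψ := comb (fun _ : Fin b => J) (fun i => π (f (e i))) (fun j b hb => hJ b hb _)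
  have hψ : ∀ x : Fin b → R, ψ (fun i => Submodule.Quotient.mk (x i)) = π (f x) := by
    intro x
    rw [comb_mk]
    conv_rhs => rw [← Finset.univ_sum_single x]
    rw [map_sum, map_sum]
    refine Finset.sum_congr rfl fun i _ => ?_
    rw [← map_smul, ← map_smul]
    congr 2
    simp only [e]
    rw [← Pi.single_smul, smul_eq_mul, mul_one]
  have hψs : Function.Surjective ψ := by
    intro y
    obtain ⟨y, rfl⟩ := Submodule.Quotient.mk_surjective _ y
    obtain ⟨x, rfl⟩ := hf y
    exact ⟨_, hψ x⟩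
  -- the map `φ`
  let μ : (Fin b → R) →ₗ[R] (Fin b → R ⧸ J) :=
    LinearMap.pi fun i => J.mkQ.comp (LinearMap.proj i)
  have hμ : ∀ x i, μ x i = Submodule.Quotient.mk (x i) := fun _ _ => rfl
  have hμ' : ∀ x, (fun i => Submodule.Quotient.mk (x i) : Fin b → R ⧸ J) = μ x := fun _ => rfl
  let φ : (LinearMap.ker f ⧸ (J • (⊤ : Submodule R (LinearMap.ker f)))) →ₗ[R] (Fin b → R ⧸ J) :=
    Submodule.liftQ _ (μ.comp (LinearMap.ker f).subtype) (by
      rw [Submodule.smul_le]
      intro a ha x _
      rw [LinearMap.mem_ker]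
      funext i
      have : ((a • x : LinearMap.ker f) : Fin b → R) i = a * (x : Fin b → R) i := rfl
      rw [LinearMap.comp_apply, hμ, Submodule.subtype_apply, this, Pi.zero_apply,
        Submodule.Quotient.mk_eq_zero]
      exact J.mul_mem_right _ ha)
  have hlift : ∀ z ∈ J • (⊤ : Submodule R M), ∃ y : Fin b → R, μ y = 0 ∧ f y = z := by
    intro z hz
    refine Submodule.smul_induction_on (p := fun z => ∃ y : Fin b → R, μ y = 0 ∧ f y = z) hz ?_ ?_
    · intro a ha x _
      obtain ⟨u, rfl⟩ := hf x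
      refine ⟨a • u, ?_, by rw [map_smul]⟩
      funext i
      rw [hμ, Pi.zero_apply, Submodule.Quotient.mk_eq_zero, Pi.smul_apply, smul_eq_mul]
      exact J.mul_mem_right _ ha
    · rintro x y ⟨x', hx1, hx2⟩ ⟨y', hy1, hy2⟩
      exact ⟨x' + y', by rw [map_add, hx1, hy1, add_zero], by rw [map_add, hx2, hy2]⟩
  have hkle : LinearMap.ker (ψ.restrictScalars k) ≤ LinearMap.range (φ.restrictScalars k) := by
    intro y hy
    have hy' : ψ y = 0 := hy
    have : ∃ x : Fin b → R, μ x = y := by
      choose y' hy' using fun i => Submodule.Quotient.mk_surjective J (y i)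
      exact ⟨y', funext hy'⟩
    obtain ⟨x, rfl⟩ := this
    rw [← hμ' x, hψ, Submodule.mkQ_apply, Submodule.Quotient.mk_eq_zero] at hy'
    obtain ⟨z, hz1, hz2⟩ := hlift _ hy'
    have hxz : x - z ∈ LinearMap.ker f := by
      rw [LinearMap.mem_ker, map_sub, hz2, sub_self]
    have h5 : φ (Submodule.Quotient.mk ⟨x - z, hxz⟩) = μ x := by
      have h6 : φ (Submodule.Quotient.mk ⟨x - z, hxz⟩) = μ (x - z) := rfl
      rw [h6, map_sub, hz1, sub_zero]
    exact LinearMap.mem_range.2 ⟨_, h5⟩
  have e1 := finrank_eq_of_surj (ψ.restrictScalars k) hψs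
  have e2 := finrank_pi' (k := k) (fun _ : Fin b => R ⧸ J)
  have e3 : finrank k (LinearMap.ker (ψ.restrictScalars k)) ≤
      finrank k (LinearMap.ker f ⧸ (J • (⊤ : Submodule R (LinearMap.ker f)))) :=
    (Submodule.finrank_mono hkle).trans (LinearMap.finrank_range_le _)
  rw [e2] at e1
  simp only [Finset.sum_const, Finset.card_univ, Fintype.card_fin, smul_eq_mul] at e1
  rw [e1]
  omega

end Pool.Agent.H371.SA.Gx

namespace Pool.Agent.H371.SA

open Filter Topology Pool.Agent.H371.SA.Gx

section G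
variable {k : Type} [CommRing k] [IsDomain k] [IsPrincipalIdealRing k] {R : Type} [Ring R]
  [Algebra k R] [NoZeroDivisors R] [StrongRankCondition R]
  (I : ℕ → Ideal R) [∀ n, (I n).IsTwoSided] (c : ℕ → ℕ)

theorem rank_bound (hc0 : ∀ n, 0 < c n) (hfin : ∀ n, Module.Finite k (R ⧸ I n))
    (hc : ∀ n, Module.finrank k (R ⧸ I n) = c n)
    (hgrow : ∀ a : R, a ≠ 0 → ∀ ε : ℝ, 0 < ε → ∀ᶠ n in atTop,
      (Module.finrank k (R ⧸ (Ideal.span {a} ⊔ I n)) : ℝ) ≤ ε * c n)
    (M : Type) [AddCommGroup M] [Module R M] [Module k M] [IsScalarTower k R M]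
    [Module.Finite R M] :
    ∃ r : ℕ, (∃ v : Fin r → M, LinearIndependent R v) ∧ ∀ ε : ℝ, 0 < ε → ∀ᶠ n in atTop,
      (Module.finrank k (M ⧸ (I n • (⊤ : Submodule R M))) : ℝ) ≤ (r + ε) * c n := by
  obtain ⟨r, v, hv, hmax⟩ := exists_max (R := R) (M := M)
  obtain ⟨m, g, hg⟩ := Module.Finite.exists_fin (R := R) (M := M)
  choose a ha0 ha using fun j => hmax (g j)
  refine ⟨r, ⟨v, hv⟩, fun ε hε => ?_⟩
  have h1 : ∀ j : Fin m, ∀ᶠ n in atTop,
      (Module.finrank k (R ⧸ (Ideal.span {a j} ⊔ I n)) : ℝ) ≤ (ε / (m + 1)) * c n :=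
    fun j => hgrow (a j) (ha0 j) _ (by positivity)
  filter_upwards [Filter.eventually_all.2 h1] with n hn
  have hf := hfin n
  have h2 := bound_one (k := k) (I n) M v g hg a ha
  have h3 : (Module.finrank k (M ⧸ (I n • (⊤ : Submodule R M))) : ℝ) ≤
      r * c n + ∑ j, (Module.finrank k (R ⧸ (Ideal.span {a j} ⊔ I n)) : ℝ) := by
    rw [hc n] at h2
    exact_mod_cast h2
  have h4 : ∑ j : Fin m, (Module.finrank k (R ⧸ (Ideal.span {a j} ⊔ I n)) : ℝ) ≤
      ∑ j : Fin m, (ε / (m + 1)) * c n := Finset.sum_le_sum fun j _ => hn j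
  rw [Finset.sum_const, Finset.card_univ, Fintype.card_fin, nsmul_eq_mul] at h4
  have h5 : (m : ℝ) * (ε / (m + 1) * c n) ≤ ε * c n := by
    have h6 : (m : ℝ) / (m + 1) ≤ 1 := by
      rw [div_le_one (by positivity)]; linarith
    have h7 : (m : ℝ) * (ε / (m + 1) * c n) = (m : ℝ) / (m + 1) * (ε * c n) := by
      field_simp
    rw [h7]
    exact mul_le_of_le_one_left (by positivity) h6
  calc _ ≤ _ := h3
    _ ≤ r * c n + ε * c n := by linarith
    _ = _ := by ring

theorem rank_exact (hc0 : ∀ n, 0 < c n) (hfin : ∀ n, Module.Finite k (R ⧸ I n))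
    (hc : ∀ n, Module.finrank k (R ⧸ I n) = c n)
    (hgrow : ∀ a : R, a ≠ 0 → ∀ ε : ℝ, 0 < ε → ∀ᶠ n in atTop,
      (Module.finrank k (R ⧸ (Ideal.span {a} ⊔ I n)) : ℝ) ≤ ε * c n)
    (M : Type) [AddCommGroup M] [Module R M] [Module k M] [IsScalarTower k R M]
    (b : ℕ) (f : (Fin b → R) →ₗ[R] M) (hf : Function.Surjective f)
    (hker : Module.Finite R (LinearMap.ker f)) :
    Tendsto (fun n => ((Module.finrank k (M ⧸ (I n • (⊤ : Submodule R M))) : ℝ) +
      Module.finrank k (LinearMap.ker f ⧸ (I n • (⊤ : Submodule R (LinearMap.ker f))))) / c n)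
      atTop (𝓝 b) := by
  have hMf : Module.Finite R M := Module.Finite.of_surjective f hf
  obtain ⟨r1, ⟨v, hv⟩, h1⟩ := rank_bound I c hc0 hfin hc hgrow M
  obtain ⟨r2, ⟨w, hw⟩, h2⟩ := rank_bound I c hc0 hfin hc hgrow (LinearMap.ker f)
  have hr : r1 + r2 ≤ b := by
    choose u hu using fun i => hf (v i)
    have hind : LinearIndependent R (Sum.elim u (fun j => (w j : Fin b → R))) := by
      rw [Fintype.linearIndependent_iff] at hv hw ⊢
      intro g hg
      rw [Fintype.sum_sum_type] at hg
      simp only [Sum.elim_inl, Sum.elim_inr] at hg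
      have e1 : ∑ i, g (Sum.inl i) • v i = 0 := by
        have := congrArg f hg
        rw [map_add, map_sum, map_sum, map_zero] at this
        simp only [map_smul, hu, LinearMap.map_coe_ker, smul_zero, Finset.sum_const_zero,
          add_zero] at this
        exact this
      have g1 : ∀ i, g (Sum.inl i) = 0 := hv (fun i => g (Sum.inl i)) e1
      simp only [g1, zero_smul, Finset.sum_const_zero, zero_add] at hg
      have e2 : ∑ j, g (Sum.inr j) • w j = 0 := by
        apply Subtype.ext
        rw [Submodule.coe_sum]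
        simpa using hg
      have g2 : ∀ j, g (Sum.inr j) = 0 := hw (fun j => g (Sum.inr j)) e2
      rintro (i | j)
      · exact g1 i
      · exact g2 j
    have := hind.fintype_card_le_finrank
    simpa using this
  -- lower bound
  have hlow : ∀ n, b * c n ≤ Module.finrank k (M ⧸ (I n • (⊤ : Submodule R M))) +
      Module.finrank k (LinearMap.ker f ⧸ (I n • (⊤ : Submodule R (LinearMap.ker f)))) := by
    intro n
    have := hfin n
    rw [← hc n]
    exact low_bound (I n) M b f hf hker
  rw [Metric.tendsto_atTop]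
  intro ε hε
  have h3 := (h1 (ε / 4) (by positivity)).and (h2 (ε / 4) (by positivity))
  obtain ⟨n0, hn0⟩ := Filter.eventually_atTop.1 h3
  refine ⟨n0, fun n hn => ?_⟩
  obtain ⟨a1, a2⟩ := hn0 n hn
  have hcn : (0 : ℝ) < c n := by exact_mod_cast hc0 n
  have hl : (b : ℝ) * c n ≤ (Module.finrank k (M ⧸ (I n • (⊤ : Submodule R M))) : ℝ) +
      Module.finrank k (LinearMap.ker f ⧸ (I n • (⊤ : Submodule R (LinearMap.ker f)))) := by
    exact_mod_cast hlow n
  have hr' : (r1 : ℝ) + r2 ≤ b := by exact_mod_cast hr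
  rw [Real.dist_eq, abs_lt]
  constructor
  · have : (b : ℝ) ≤ ((Module.finrank k (M ⧸ (I n • (⊤ : Submodule R M))) : ℝ) +
      Module.finrank k (LinearMap.ker f ⧸ (I n • (⊤ : Submodule R (LinearMap.ker f))))) / c n := by
      rw [le_div_iff₀ hcn]; exact hl
    linarith
  · have : ((Module.finrank k (M ⧸ (I n • (⊤ : Submodule R M))) : ℝ) +
      Module.finrank k (LinearMap.ker f ⧸ (I n • (⊤ : Submodule R (LinearMap.ker f))))) / c n ≤
        b + ε / 2 := by
      rw [div_le_iff₀ hcn]
      nlinarith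
    linarith

end G

end Pool.Agent.H371.SA
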