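import Pool.Agent.H371.SA.Defs
import Pool.Agent.H371.SA.TB
import Pool.Agent.H371.SA.TC
import Pool.Agent.H371.SA.TD
import Pool.Agent.H371.SA.TF

/-!
TASK H : the completed group algebra of a group with coordinates is regular.
-/

set_option autoImplicit false

namespace Pool.Agent.H371.SA.Hx

open Filter Topology

/-- the points of a box which are not above a given point -/
theorem card_box {d : ℕ} (β : Fin d → ℕ) (m : ℕ) :
    (Finset.univ.filter (fun γ : Fin d → Fin m => ¬ ∀ i, β i ≤ (γ i : ℕ))).card ≤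
      (∑ i, β i) * m ^ (d - 1) := by
  classical
  have h1 : (Finset.univ.filter (fun γ : Fin d → Fin m => ¬ ∀ i, β i ≤ (γ i : ℕ))) ⊆
      Finset.univ.biUnion (fun i : Fin d => Fintype.piFinset (fun j : Fin d =>
        if j = i then Finset.univ.filter (fun c : Fin m => (c : ℕ) < β i) else Finset.univ)) := by
    intro γ hγ
    rw [Finset.mem_filter] at hγ
    obtain ⟨i, hi⟩ := not_forall.1 hγ.2
    rw [Finset.mem_biUnion]
    refine ⟨i, Finset.mem_univ _, ?_⟩
    rw [Fintype.mem_piFinset]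
    intro j
    by_cases hj : j = i
    · subst hj
      rw [if_pos rfl, Finset.mem_filter]
      exact ⟨Finset.mem_univ _, not_le.1 hi⟩
    · rw [if_neg hj]; exact Finset.mem_univ _
  refine (Finset.card_le_card h1).trans (Finset.card_biUnion_le.trans ?_)
  rw [Finset.sum_mul]
  refine Finset.sum_le_sum fun i _ => ?_
  rw [Fintype.card_piFinset, ← Finset.mul_prod_erase Finset.univ _ (Finset.mem_univ i), if_pos rfl]
  have h2 : (Finset.univ.filter (fun c : Fin m => (c : ℕ) < β i)).card ≤ β i := by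
    have h3 : ((Finset.univ.filter (fun c : Fin m => (c : ℕ) < β i)).image (fun c : Fin m => (c : ℕ))) ⊆
        Finset.range (β i) := by
      intro x hx
      obtain ⟨c, hc, rfl⟩ := Finset.mem_image.1 hx
      exact Finset.mem_range.2 (Finset.mem_filter.1 hc).2
    have h4 := Finset.card_le_card h3
    rw [Finset.card_range, Finset.card_image_of_injective _ Fin.val_injective] at h4
    exact h4
  refine Nat.mul_le_mul h2 ?_
  have h5 : ∀ j ∈ Finset.univ.erase i, (if j = i then Finset.univ.filter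
      (fun c : Fin m => (c : ℕ) < β i) else Finset.univ).card = m := by
    intro j hj
    rw [if_neg (Finset.ne_of_mem_erase hj), Finset.card_univ, Fintype.card_fin]
  rw [Finset.prod_congr rfl h5, Finset.prod_const, Finset.card_erase_of_mem (Finset.mem_univ i),
    Finset.card_univ, Fintype.card_fin]

section
variable {p : ℕ} [Fact p.Prime]

/-- generators modulo `p` bound the rank -/
theorem finrank_le_of_mod {M : Type} [AddCommGroup M] [Module ℤ_[p] M] [Module.Finite ℤ_[p] M]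
    {ι : Type} [Fintype ι] (v : ι → M)
    (h : ∀ x : M, ∃ y ∈ Submodule.span ℤ_[p] (Set.range v), ∃ z : M, x = y + (p : ℤ_[p]) • z) :
    Module.finrank ℤ_[p] M ≤ Fintype.card ι := by
  classical
  have h1 : (⊤ : Submodule ℤ_[p] M) ≤ Submodule.span ℤ_[p] (Set.range v) := by
    refine Submodule.le_of_le_smul_of_le_jacobson_bot (I := Ideal.span {(p : ℤ_[p])})
      Module.Finite.fg_top ?_ ?_
    · rw [IsLocalRing.jacobson_eq_maximalIdeal ⊥ bot_ne_top, PadicInt.maximalIdeal_eq_span_p]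
    · intro x _
      obtain ⟨y, hy, z, rfl⟩ := h x
      exact Submodule.add_mem_sup hy (Submodule.smul_mem_smul (Ideal.mem_span_singleton_self _)
        Submodule.mem_top)
  have h2 : (Finset.univ.image v : Set M) = Set.range v := by simp
  have h3 := finrank_le_of_span_eq_top (R := ℤ_[p]) (v := v) (top_le_iff.1 h1)
  exact h3

/-- linear maps with torsion kernel -/
theorem finrank_le_of_tors {M M' : Type} [AddCommGroup M] [Module ℤ_[p] M]
    [Module.Finite ℤ_[p] M] [AddCommGroup M'] [Module ℤ_[p] M'] [Module.Finite ℤ_[p] M']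
    (f : M →ₗ[ℤ_[p]] M') (j : ℕ) (h : ∀ x, f x = 0 → (p : ℤ_[p]) ^ j • x = 0) :
    Module.finrank ℤ_[p] M ≤ Module.finrank ℤ_[p] M' := by
  have h1 := (LinearMap.ker f).finrank_quotient_add_finrank
  rw [(LinearMap.quotKerEquivRange f).finrank_eq] at h1
  have h2 : Module.finrank ℤ_[p] (LinearMap.ker f) = 0 := by
    rw [Module.finrank_eq_zero_iff_isTorsion]
    intro x
    refine ⟨⟨(p : ℤ_[p]) ^ j, mem_nonZeroDivisors_of_ne_zero
      (pow_ne_zero _ (Nat.cast_ne_zero.2 (Fact.out : p.Prime).ne_zero))⟩, ?_⟩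
    apply Subtype.ext
    exact h x.1 x.2
  have h3 := Submodule.finrank_le (LinearMap.range f)
  omega

end

section
variable {G : Type} [Group G] (p : ℕ) [Fact p.Prime] (T : Tower G)

/-- finiteness of the quotients -/
theorem finite_quot (n : ℕ) (J : Ideal (Om ℤ_[p] T)) (hJ : Om.I ℤ_[p] T n ≤ J) :
    Module.Finite ℤ_[p] (Om ℤ_[p] T ⧸ J) := by
  let φ : Om ℤ_[p] T →ₗ[ℤ_[p]] MonoidAlgebra ℤ_[p] (T.Q n) := (Om.proj ℤ_[p] T n).toLinearMap
  have h0 : Module.Finite ℤ_[p] (MonoidAlgebra ℤ_[p] (T.Q n)) :=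
    Module.Finite.equiv (MonoidAlgebra.coeffLinearEquiv (S := ℤ_[p]) (R := ℤ_[p]) (M := T.Q n)).symm
  have h1 : Module.Finite ℤ_[p] (LinearMap.range φ) := inferInstance
  have h2 : Module.Finite ℤ_[p] (Om ℤ_[p] T ⧸ LinearMap.ker φ) :=
    Module.Finite.equiv (LinearMap.quotKerEquivRange φ).symm
  have hJ' : LinearMap.ker φ ≤ J.restrictScalars ℤ_[p] := by
    intro x hx
    exact hJ hx
  have h3 : Module.Finite ℤ_[p] (Om ℤ_[p] T ⧸ (J.restrictScalars ℤ_[p])) :=
    Module.Finite.of_surjective (Submodule.factor hJ') (Submodule.factor_surjective hJ')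
  exact h3

/-- every element of the completed group algebra modulo the ideals -/
theorem decomp {d : ℕ} (e : Om (ZMod p) T ≃+ MvPowerSeries (Fin d) (ZMod p))
    (he : ∀ (n : ℕ) (a : Om (ZMod p) T), Om.proj (ZMod p) T n a = 0 ↔
        ∀ β : Fin d →₀ ℕ, (∀ i, β i < p ^ n) → MvPowerSeries.coeff β (e a) = 0)
    (q : Om ℤ_[p] T →+* Om (ZMod p) T) (hq : Function.Surjective q)
    (hq2 : ∀ (n : ℕ) (a : Om ℤ_[p] T), Om.proj (ZMod p) T n (q a) =
      MonoidAlgebra.mapRingHom _ PadicInt.toZMod (Om.proj ℤ_[p] T n a))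
    (a : Om ℤ_[p] T) (β : Fin d →₀ ℕ)
    (hβ : ∀ x : Om (ZMod p) T, ∃ y : Om (ZMod p) T,
      ∀ γ : Fin d →₀ ℕ, β ≤ γ → MvPowerSeries.coeff γ (e (x - y * q a)) = 0) (n : ℕ) :
    ∃ w : {γ : Fin d → Fin (p ^ n) // ¬ ∀ i, β i ≤ (γ i : ℕ)} → Om ℤ_[p] T,
      ∀ x : Om ℤ_[p] T, ∃ (c : {γ : Fin d → Fin (p ^ n) // ¬ ∀ i, β i ≤ (γ i : ℕ)} → ℕ)
        (y z : Om ℤ_[p] T), x - y * a - ∑ γ, c γ • w γ - p * z ∈ Om.I ℤ_[p] T n := by
  classical
  let F : (Fin d → Fin (p ^ n)) → (Fin d →₀ ℕ) := fun γ =>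
    Finsupp.equivFunOnFinite.symm (fun i => (γ i : ℕ))
  have hF : ∀ γ i, F γ i = (γ i : ℕ) := fun γ i => rfl
  choose w hw using fun γ : {γ : Fin d → Fin (p ^ n) // ¬ ∀ i, β i ≤ (γ i : ℕ)} =>
    hq (e.symm (MvPowerSeries.monomial (F γ.1) (1 : ZMod p)))
  refine ⟨w, fun x => ?_⟩
  obtain ⟨y0, hy0⟩ := hβ (q x)
  obtain ⟨y, rfl⟩ := hq y0
  let c : {γ : Fin d → Fin (p ^ n) // ¬ ∀ i, β i ≤ (γ i : ℕ)} → ℕ := fun γ =>
    (MvPowerSeries.coeff (F γ.1) (e (q x - q y * q a))).val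
  set x' : Om ℤ_[p] T := x - y * a - ∑ γ, c γ • w γ with hx'
  have h1 : Om.proj (ZMod p) T n (q x') = 0 := by
    rw [he]
    intro γ' hγ'
    have h2 : e (q x') = e (q x - q y * q a) - ∑ γ, c γ • MvPowerSeries.monomial (F γ.1) (1 : ZMod p) := by
      rw [hx', map_sub q, map_sub q, map_mul q, map_sum q, map_sub e, map_sum e]
      congr 1
      refine Finset.sum_congr rfl fun γ _ => ?_
      rw [map_nsmul q, map_nsmul e, hw γ, AddEquiv.apply_symm_apply]
    rw [h2, map_sub, map_sum]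
    have h3 : ∀ γ : {γ : Fin d → Fin (p ^ n) // ¬ ∀ i, β i ≤ (γ i : ℕ)},
        MvPowerSeries.coeff γ' (c γ • MvPowerSeries.monomial (F γ.1) (1 : ZMod p)) =
          if γ' = F γ.1 then (c γ : ZMod p) else 0 := by
      intro γ
      rw [map_nsmul, MvPowerSeries.coeff_monomial, nsmul_eq_mul]
      split_ifs with h <;> simp
    rw [Finset.sum_congr rfl fun γ _ => h3 γ]
    by_cases hβγ : β ≤ γ'
    · rw [hy0 γ' hβγ, zero_sub, neg_eq_zero]
      refine Finset.sum_eq_zero fun γ _ => ?_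
      rw [if_neg]
      rintro rfl
      exact γ.2 fun i => hβγ i
    · have h4 : ¬ ∀ i, β i ≤ ((⟨γ' i, hγ' i⟩ : Fin (p ^ n)) : ℕ) := fun h => hβγ fun i => h i
      let γ0 : {γ : Fin d → Fin (p ^ n) // ¬ ∀ i, β i ≤ (γ i : ℕ)} :=
        ⟨fun i => ⟨γ' i, hγ' i⟩, h4⟩
      have h5 : F γ0.1 = γ' := by ext i; rfl
      rw [Finset.sum_eq_single γ0]
      · rw [if_pos h5.symm]
        change _ - ((MvPowerSeries.coeff (F γ0.1) (e (q x - q y * q a))).val : ZMod p) = 0
        rw [h5, ZMod.natCast_zmod_val, sub_self]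
      · intro γ _ hγ
        rw [if_neg]
        intro h6
        apply hγ
        apply Subtype.ext
        funext i
        apply Fin.ext
        change ((γ.1 i : Fin (p ^ n)) : ℕ) = γ' i
        rw [h6]; rfl
      · intro h; exact absurd (Finset.mem_univ _) h
  rw [hq2] at h1
  have h2 : ∀ g : T.Q n, (p : ℤ_[p]) ∣ (Om.proj ℤ_[p] T n x').coeff g := by
    intro g
    have h3 := congrArg (fun u : MonoidAlgebra (ZMod p) (T.Q n) => u.coeff g) h1
    simp only [MonoidAlgebra.coeff_mapRingHom] at h3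
    have h4 : (Om.proj ℤ_[p] T n x').coeff g ∈ RingHom.ker (PadicInt.toZMod (p := p)) := h3
    rw [PadicInt.ker_toZMod, PadicInt.maximalIdeal_eq_span_p, Ideal.mem_span_singleton] at h4
    exact h4
  choose b hb using h2
  obtain ⟨z, hz⟩ := (Om.proj_mem_iff ℤ_[p] T n
    (MonoidAlgebra.ofCoeff (Finsupp.equivFunOnFinite.symm b))).2 (by
      intro g hg
      refine (Om.proj_mem_iff ℤ_[p] T n (Om.proj ℤ_[p] T n x')).1 ⟨x', rfl⟩ g ?_
      rw [hb g]
      exact mul_ne_zero (Nat.cast_ne_zero.2 (Fact.out : p.Prime).ne_zero) hg)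
  refine ⟨c, y, z, ?_⟩
  change Om.proj ℤ_[p] T n (x' - p * z) = 0
  rw [map_sub, map_mul, hz, map_natCast, ← nsmul_eq_mul]
  apply MonoidAlgebra.coeff_injective
  ext g
  rw [MonoidAlgebra.coeff_sub, Finsupp.sub_apply, hb g, MonoidAlgebra.coeff_smul,
    Finsupp.smul_apply, nsmul_eq_mul]
  exact sub_self _

end

end Pool.Agent.H371.SA.Hx

namespace Pool.Agent.H371.SA

open Filter Topology Hx

/-! ## TASK H : the completed group algebra of a group with coordinates is regular -/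
section H
variable {G : Type} [Group G] (p : ℕ) [Fact p.Prime] (T : Tower G) {d : ℕ}

theorem reg_of_coord (C : Coord p T d) : Reg p T := by
  classical
  obtain ⟨e, he, he2⟩ := exists_deform p T C
  obtain ⟨q, hq, hq2, hker, htf, hsep, hcomp⟩ := Om.exists_red (T := T) p
  have hdomF : NoZeroDivisors (Om (ZMod p) T) := Deform.noZeroDivisors e he
  refine ⟨lift_noZeroDivisors p q hq hker htf hsep hdomF,
    lift_ffr p q hq hker htf hsep hcomp d (fun m K => Deform.ffr e he m K), ?_⟩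
  intro a ha ε hε
  -- divide by the largest power of `p`
  obtain ⟨j, a', hj, ha'⟩ : ∃ (j : ℕ) (a' : Om ℤ_[p] T), a = (p : Om ℤ_[p] T) ^ j * a' ∧
      q a' ≠ 0 := by
    by_contra hcon
    apply ha
    apply hsep
    intro n
    induction n with
    | zero => exact ⟨a, by rw [pow_zero, one_mul]⟩
    | succ n ih =>
      obtain ⟨z, hz⟩ := ih
      have h1 : q z = 0 := by
        by_contra h
        exact hcon ⟨n, z, hz, h⟩
      obtain ⟨b, hb⟩ := (hker z).1 h1
      exact ⟨b, by rw [hz, hb, pow_succ, mul_assoc]⟩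
  obtain ⟨β, hβ⟩ := Deform.rem e he (q a') ha'
  -- the bound
  have hbound : ∀ n : ℕ, Module.finrank ℤ_[p] (Om ℤ_[p] T ⧸ (Ideal.span {a} ⊔ Om.I ℤ_[p] T n)) ≤
      (∑ i, β i) * (p ^ n) ^ (d - 1) := by
    intro n
    have hle : (Ideal.span {a} ⊔ Om.I ℤ_[p] T n) ≤ (Ideal.span {a'} ⊔ Om.I ℤ_[p] T n) := by
      refine sup_le_sup_right ?_ _
      rw [Ideal.span_singleton_le_iff_mem, Ideal.mem_span_singleton']
      exact ⟨(p : Om ℤ_[p] T) ^ j, hj.symm⟩
    have hf1 : Module.Finite ℤ_[p] (Om ℤ_[p] T ⧸ (Ideal.span {a} ⊔ Om.I ℤ_[p] T n)) :=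
      finite_quot p T n _ le_sup_right
    have hf2 : Module.Finite ℤ_[p] (Om ℤ_[p] T ⧸ (Ideal.span {a'} ⊔ Om.I ℤ_[p] T n)) :=
      finite_quot p T n _ le_sup_right
    have h1 := finrank_le_of_tors ((Submodule.factor hle).restrictScalars ℤ_[p]) j (by
      intro x hx
      obtain ⟨x, rfl⟩ := Submodule.Quotient.mk_surjective _ x
      have hx2 : x ∈ (Ideal.span {a'} ⊔ Om.I ℤ_[p] T n) := by
        rw [← Submodule.Quotient.mk_eq_zero]
        exact hx
      rw [← Submodule.Quotient.mk_smul, Submodule.Quotient.mk_eq_zero]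
      obtain ⟨y, hy, z, hz, rfl⟩ := Submodule.mem_sup.1 hx2
      obtain ⟨r, rfl⟩ := Ideal.mem_span_singleton'.1 hy
      rw [smul_add]
      refine Submodule.add_mem_sup ?_ ?_
      · rw [Ideal.mem_span_singleton']
        refine ⟨r, ?_⟩
        rw [hj, Algebra.smul_def, map_pow, map_natCast, ← mul_assoc, ← mul_assoc,
          ((Nat.cast_commute p r).pow_left j).eq]
      · rw [Algebra.smul_def]
        exact Ideal.mul_mem_left _ _ hz)
    refine h1.trans ?_
    obtain ⟨w, hw⟩ := decomp p T e he2 q hq hq2 a' β hβ n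
    have h2 := finrank_le_of_mod (p := p) (M := Om ℤ_[p] T ⧸ (Ideal.span {a'} ⊔ Om.I ℤ_[p] T n))
      (fun γ => Submodule.Quotient.mk (w γ)) (by
      intro x
      obtain ⟨x, rfl⟩ := Submodule.Quotient.mk_surjective _ x
      obtain ⟨c, y, z, h⟩ := hw x
      refine ⟨∑ γ, c γ • Submodule.Quotient.mk (w γ), ?_, Submodule.Quotient.mk z, ?_⟩
      · refine Submodule.sum_mem _ fun γ _ => ?_
        exact Submodule.smul_of_tower_mem _ (c γ) (Submodule.subset_span ⟨γ, rfl⟩)
      · have h3 : ((Submodule.Quotient.mk x : Om ℤ_[p] T ⧸ (Ideal.span {a'} ⊔ Om.I ℤ_[p] T n))) =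
            Submodule.Quotient.mk (∑ γ, c γ • w γ + (p : ℤ_[p]) • z) := by
          rw [Submodule.Quotient.eq, Algebra.smul_def, map_natCast]
          have h4 : x - (∑ γ, c γ • w γ + (p : Om ℤ_[p] T) * z) = y * a' +
            (x - y * a' - ∑ γ, c γ • w γ - p * z) := by abel
          rw [h4]
          exact Submodule.add_mem_sup (Ideal.mem_span_singleton'.2 ⟨y, rfl⟩) h
        rw [h3, Submodule.Quotient.mk_add, Submodule.Quotient.mk_smul]
        congr 1
        rw [← Submodule.mkQ_apply, map_sum]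
        refine Finset.sum_congr rfl fun γ _ => ?_
        rw [map_nsmul]; rfl)
    refine h2.trans ?_
    rw [Fintype.card_subtype]
    exact card_box (fun i => β i) (p ^ n)
  -- the limit
  have hp1 : 1 < p := (Fact.out : p.Prime).one_lt
  have hlim : Tendsto (fun n : ℕ => (p : ℝ) ^ n) atTop atTop :=
    tendsto_pow_atTop_atTop_of_one_lt (by exact_mod_cast hp1)
  filter_upwards [hlim.eventually_ge_atTop (((∑ i, β i : ℕ) : ℝ) / ε)] with n hn
  have h1 : ((∑ i, β i : ℕ) : ℝ) ≤ ε * (p : ℝ) ^ n := by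
    rw [div_le_iff₀ hε] at hn
    linarith
  rw [Coord.card_N p T C n]
  have h2 : (Module.finrank ℤ_[p] (Om ℤ_[p] T ⧸ (Ideal.span {a} ⊔ Om.I ℤ_[p] T n)) : ℝ) ≤
      ((∑ i, β i : ℕ) : ℝ) * ((p : ℝ) ^ n) ^ (d - 1) := by
    exact_mod_cast hbound n
  refine h2.trans ?_
  rcases Nat.eq_zero_or_pos d with rfl | hd
  · simp only [Finset.univ_eq_empty, Finset.sum_empty, Nat.cast_zero, zero_mul]
    positivity
  · rw [Nat.cast_pow, pow_mul]
    calc ((∑ i, β i : ℕ) : ℝ) * ((p : ℝ) ^ n) ^ (d - 1)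
        ≤ (ε * (p : ℝ) ^ n) * ((p : ℝ) ^ n) ^ (d - 1) :=
          mul_le_mul_of_nonneg_right h1 (by positivity)
      _ = ε * ((p : ℝ) ^ n) ^ d := by
          rw [mul_assoc, ← pow_succ', Nat.sub_add_cancel hd]

end H

end Pool.Agent.H371.SA
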