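import Pool.Agent.H371.SA.TA
import Pool.Agent.H371.SA.TF
import Pool.Agent.H371.SA.TG

set_option autoImplicit false

namespace Pool.Agent.H371.SA.Jx

open Filter Topology

variable {G : Type} [Group G] {p : ℕ} [Fact p.Prime] {T : Tower G}

/-! ### towers of scalars -/

instance instTowerLam (E : Type) [AddCommGroup E] [Module (Lam ℤ_[p] T) E] :
    IsScalarTower (Om ℤ_[p] T) (Lam ℤ_[p] T) E :=
  ⟨fun a l x => by
    rw [Om.smul_def, Om.smul_def, smul_eq_mul, mul_smul]⟩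

instance instTowerZ (E : Type) [AddCommGroup E] [Module (Lam ℤ_[p] T) E] [Module ℤ_[p] E]
    [IsScalarTower ℤ_[p] (Lam ℤ_[p] T) E] : IsScalarTower ℤ_[p] (Om ℤ_[p] T) E :=
  ⟨fun c a x => by
    rw [Om.smul_def, Om.smul_def, map_smul, smul_assoc]⟩

instance : Nontrivial (Om ℤ_[p] T) := by
  have : Nontrivial (MonoidAlgebra ℤ_[p] (T.Q 0)) := inferInstance
  exact RingHom.domain_nontrivial (Om.proj ℤ_[p] T 0 : Om ℤ_[p] T →+* MonoidAlgebra ℤ_[p] (T.Q 0))

theorem noeth (hR : Reg p T) : IsNoetherianRing (Om ℤ_[p] T) := by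
  obtain ⟨D, hD⟩ := hR.ffr
  exact isNoetherianRing_of_ffr D (hD 1)

/-! ### the ranks -/

section
variable {k R M N : Type} [CommRing k] [Ring R] [Algebra k R] [AddCommGroup M] [Module R M]
  [AddCommGroup N] [Module R N] [Module k M] [IsScalarTower k R M] [Module k N]
  [IsScalarTower k R N]

theorem finrank_congr (e : M ≃ₗ[R] N) (J : Ideal R) [J.IsTwoSided] :
    Module.finrank k (M ⧸ (J • (⊤ : Submodule R M))) =
      Module.finrank k (N ⧸ (J • (⊤ : Submodule R N))) := by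
  have h : Submodule.map (e : M →ₗ[R] N) (J • (⊤ : Submodule R M)) = J • (⊤ : Submodule R N) := by
    rw [Submodule.map_smul'', Submodule.map_top, LinearEquiv.range]
  exact ((Submodule.Quotient.equiv _ _ e h).restrictScalars k).finrank_eq

end

/-! ### free modules over the big ring are free over the small ring -/

variable (p T) in
/-- the index of `U 0` -/
noncomputable def ix : ℕ := Nat.card (T.Q 0)

variable (p T) in
theorem exists_equiv (b : ℕ) :
    Nonempty ((Fin b → Lam ℤ_[p] T) ≃ₗ[Om ℤ_[p] T] (Fin (ix T * b) → Om ℤ_[p] T)) := by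
  obtain ⟨β, -⟩ := Lam.exists_basis (k := ℤ_[p]) T
  have c := β.smulTower (Pi.basisFun (Lam ℤ_[p] T) (Fin b))
  have hcard : Fintype.card (T.Q 0 × Fin b) = ix T * b := by
    rw [Fintype.card_prod, Fintype.card_fin, ix, Nat.card_eq_fintype_card]
  exact ⟨(c.reindex (Fintype.equivFinOfCardEq hcard)).equivFun⟩

/-! ### the quotients of the small ring -/

variable (p T) in
theorem exists_quot (n : ℕ) : Nonempty ((Om ℤ_[p] T ⧸ Om.I ℤ_[p] T n) ≃ₗ[ℤ_[p]]
    ((T.N n : Set (T.Q n)) →₀ ℤ_[p])) := by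
  classical
  let ψ : Om ℤ_[p] T →ₗ[ℤ_[p]] ((T.N n : Set (T.Q n)) →₀ ℤ_[p]) :=
    (Finsupp.lsubtypeDomain (T.N n : Set (T.Q n)) : (T.Q n →₀ ℤ_[p]) →ₗ[ℤ_[p]] _) ∘ₗ
      (MonoidAlgebra.coeffLinearEquiv ℤ_[p]).toLinearMap ∘ₗ (Om.proj ℤ_[p] T n).toLinearMap
  have hψ : ∀ a q, ψ a q = (Om.proj ℤ_[p] T n a).coeff (q : T.Q n) := fun a q => rfl
  have hsurj : Function.Surjective ψ := by
    intro y
    obtain ⟨a, ha⟩ := (Om.proj_mem_iff ℤ_[p] T n
      (MonoidAlgebra.ofCoeff (y.mapDomain Subtype.val))).2 (by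
        intro q hq
        have h1 := Finsupp.mapDomain_support (Finsupp.mem_support_iff.2 hq)
        obtain ⟨w, -, rfl⟩ := Finset.mem_image.1 h1
        exact w.2)
    refine ⟨a, ?_⟩
    ext q
    rw [hψ, ha]
    exact Finsupp.mapDomain_apply Subtype.val_injective y q
  have hker : (Om.I ℤ_[p] T n).restrictScalars ℤ_[p] = LinearMap.ker ψ := by
    ext a
    rw [Submodule.restrictScalars_mem, LinearMap.mem_ker]
    constructor
    · intro h
      have h0 : Om.proj ℤ_[p] T n a = 0 := h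
      ext q
      rw [hψ, h0]; rfl
    · intro h
      change Om.proj ℤ_[p] T n a = 0
      ext q
      by_cases hq : q ∈ T.N n
      · exact DFunLike.congr_fun h ⟨q, hq⟩
      · by_contra hne
        exact hq ((Om.proj_mem_iff ℤ_[p] T n _).1 ⟨a, rfl⟩ q hne)
  exact ⟨(Submodule.Quotient.restrictScalarsEquiv ℤ_[p] (Om.I ℤ_[p] T n)).symm ≪≫ₗ
    Submodule.quotEquivOfEq _ _ hker ≪≫ₗ ψ.quotKerEquivOfSurjective hsurj⟩

theorem fin_quot (n : ℕ) : Module.Finite ℤ_[p] (Om ℤ_[p] T ⧸ Om.I ℤ_[p] T n) := by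
  obtain ⟨e⟩ := exists_quot p T n
  exact Module.Finite.equiv e.symm

theorem finrank_quot (n : ℕ) :
    Module.finrank ℤ_[p] (Om ℤ_[p] T ⧸ Om.I ℤ_[p] T n) = Nat.card (T.N n) := by
  obtain ⟨e⟩ := exists_quot p T n
  letI : Fintype (T.N n : Set (T.Q n)) := Fintype.ofFinite _
  rw [e.finrank_eq, Module.finrank_finsupp_self, ← Nat.card_eq_fintype_card]
  rfl

/-! ### the rank function -/

variable (p T) in
/-- the rank of the `n`-th quotient of a module -/
noncomputable def rk (n : ℕ) (K : Type) [AddCommGroup K] [Module (Om ℤ_[p] T) K] [Module ℤ_[p] K]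
    [IsScalarTower ℤ_[p] (Om ℤ_[p] T) K] : ℕ :=
  Module.finrank ℤ_[p] (K ⧸ ((Om.I ℤ_[p] T n) • (⊤ : Submodule (Om ℤ_[p] T) K)))

theorem rk_congr (n : ℕ) {K K' : Type} [AddCommGroup K] [Module (Om ℤ_[p] T) K] [Module ℤ_[p] K]
    [IsScalarTower ℤ_[p] (Om ℤ_[p] T) K] [AddCommGroup K'] [Module (Om ℤ_[p] T) K']
    [Module ℤ_[p] K'] [IsScalarTower ℤ_[p] (Om ℤ_[p] T) K'] (e : K ≃ₗ[Om ℤ_[p] T] K') :
    rk p T n K = rk p T n K' := finrank_congr e _

/-- `rank_exact` for the tower -/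
theorem rk_exact (hR : Reg p T) {K : Type} [AddCommGroup K] [Module (Om ℤ_[p] T) K]
    [Module ℤ_[p] K] [IsScalarTower ℤ_[p] (Om ℤ_[p] T) K] {b : ℕ}
    (f : (Fin b → Om ℤ_[p] T) →ₗ[Om ℤ_[p] T] K) (hf : Function.Surjective f) :
    Tendsto (fun n => ((rk p T n K : ℝ) + rk p T n (LinearMap.ker f)) / Nat.card (T.N n)) atTop
      (𝓝 (b : ℝ)) := by
  have := hR.dom
  have := noeth hR
  have h := rank_exact (k := ℤ_[p]) (R := Om ℤ_[p] T) (fun n => Om.I ℤ_[p] T n)
    (fun n => Nat.card (T.N n)) (fun n => Nat.card_pos) (fun n => fin_quot n)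
    (fun n => finrank_quot n) hR.grow K b f hf inferInstance
  exact h

theorem rk_free (hR : Reg p T) (b : ℕ) :
    Tendsto (fun n => (rk p T n (Fin b → Om ℤ_[p] T) : ℝ) / Nat.card (T.N n)) atTop
      (𝓝 (b : ℝ)) := by
  have h := rk_exact hR (LinearMap.id : (Fin b → Om ℤ_[p] T) →ₗ[Om ℤ_[p] T] _)
    Function.surjective_id
  refine h.congr fun n => ?_
  have h0 : rk p T n (LinearMap.ker
      (LinearMap.id : (Fin b → Om ℤ_[p] T) →ₗ[Om ℤ_[p] T] (Fin b → Om ℤ_[p] T))) = 0 := by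
    have : Subsingleton (LinearMap.ker
      (LinearMap.id : (Fin b → Om ℤ_[p] T) →ₗ[Om ℤ_[p] T] (Fin b → Om ℤ_[p] T))) := by
      rw [LinearMap.ker_id]; infer_instance
    unfold rk
    have : Subsingleton ((LinearMap.ker
      (LinearMap.id : (Fin b → Om ℤ_[p] T) →ₗ[Om ℤ_[p] T] (Fin b → Om ℤ_[p] T))) ⧸
        ((Om.I ℤ_[p] T n) • (⊤ : Submodule (Om ℤ_[p] T) (LinearMap.ker
      (LinearMap.id : (Fin b → Om ℤ_[p] T) →ₗ[Om ℤ_[p] T] (Fin b → Om ℤ_[p] T)))))) :=
      Function.Surjective.subsingleton (Submodule.Quotient.mk_surjective _)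
    exact Module.finrank_zero_of_subsingleton
  rw [h0, Nat.cast_zero, add_zero]

theorem ix_pos : 0 < ix T := Nat.card_pos

variable (p T) in
/-- the conclusion of the induction -/
def Concl (K : Type) [AddCommGroup K] [Module (Om ℤ_[p] T) K] [Module ℤ_[p] K]
    [IsScalarTower ℤ_[p] (Om ℤ_[p] T) K] : Prop :=
  ∃ (E : Type) (_ : AddCommGroup E) (_ : Module (Lam ℤ_[p] T) E) (s : ℕ)
      (_ : Module.Basis (Fin s) (Om ℤ_[p] T) E) (z σ : ℤ), (σ = 1 ∨ σ = -1) ∧
      Tendsto (fun n => (rk p T n K : ℝ) / Nat.card (T.N n)) atTop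
        (𝓝 ((z : ℝ) * ix T + σ * s))

theorem sf_limit (hR : Reg p T) {K : Type} [AddCommGroup K] [Module (Om ℤ_[p] T) K]
    [Module ℤ_[p] K] [IsScalarTower ℤ_[p] (Om ℤ_[p] T) K] {a b : ℕ}
    (e : (K × (Fin a → Om ℤ_[p] T)) ≃ₗ[Om ℤ_[p] T] (Fin b → Om ℤ_[p] T)) :
    Tendsto (fun n => (rk p T n K : ℝ) / Nat.card (T.N n)) atTop (𝓝 ((b : ℝ) - a)) := by
  let f : (Fin b → Om ℤ_[p] T) →ₗ[Om ℤ_[p] T] K :=
    (LinearMap.fst (Om ℤ_[p] T) K (Fin a → Om ℤ_[p] T)) ∘ₗ e.symm.toLinearMap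
  have hf : Function.Surjective f := fun x => ⟨e (x, 0), by
    simp only [f, LinearMap.comp_apply, LinearEquiv.coe_coe, LinearEquiv.symm_apply_apply,
      LinearMap.fst_apply]⟩
  have hfe : ∀ x, f x = (e.symm x).1 := fun x => rfl
  let g : LinearMap.ker f ≃ₗ[Om ℤ_[p] T] (Fin a → Om ℤ_[p] T) :=
    { toFun := fun x => (e.symm x.1).2
      invFun := fun y => ⟨e (0, y), by
        rw [LinearMap.mem_ker, hfe, LinearEquiv.symm_apply_apply]⟩
      left_inv := fun x => by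
        apply Subtype.ext
        change e (0, (e.symm x.1).2) = x.1
        have h0 : (e.symm x.1).1 = 0 := x.2
        rw [← h0]
        exact e.apply_symm_apply x.1
      right_inv := fun y => by
        change (e.symm (e (0, y))).2 = y
        rw [LinearEquiv.symm_apply_apply]
      map_add' := fun x y => by
        rw [Submodule.coe_add, map_add]; rfl
      map_smul' := fun c x => by
        rw [Submodule.coe_smul, map_smul]; rfl }
  have h1 := rk_exact hR f hf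
  have h2 := rk_free hR a
  refine (h1.sub h2).congr fun n => ?_
  rw [rk_congr n g, add_div, add_sub_cancel_right]

theorem concl_sf (hR : Reg p T) (K : Type) [AddCommGroup K] [Module (Lam ℤ_[p] T) K]
    [Module ℤ_[p] K] [IsScalarTower ℤ_[p] (Lam ℤ_[p] T) K] (h : SF (Om ℤ_[p] T) K) :
    Concl p T K := by
  obtain ⟨a, b, ⟨e⟩⟩ := h
  obtain ⟨e1⟩ := exists_equiv p T a
  obtain ⟨c, hc⟩ : ∃ c, ix T * a = a + c := Nat.exists_eq_add_of_le
    (Nat.le_mul_of_pos_left a ix_pos)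
  let e2 : (Fin (ix T * a) → Om ℤ_[p] T) ≃ₗ[Om ℤ_[p] T]
      ((Fin a → Om ℤ_[p] T) × (Fin c → Om ℤ_[p] T)) :=
    (LinearEquiv.funCongrLeft (Om ℤ_[p] T) (Om ℤ_[p] T)
      (finSumFinEquiv.trans (finCongr hc.symm))) ≪≫ₗ
      LinearEquiv.sumArrowLequivProdArrow (Fin a) (Fin c) (Om ℤ_[p] T) (Om ℤ_[p] T)
  let e3 : (Fin (b + c) → Om ℤ_[p] T) ≃ₗ[Om ℤ_[p] T]
      ((Fin b → Om ℤ_[p] T) × (Fin c → Om ℤ_[p] T)) :=
    (LinearEquiv.funCongrLeft (Om ℤ_[p] T) (Om ℤ_[p] T) finSumFinEquiv) ≪≫ₗ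
      LinearEquiv.sumArrowLequivProdArrow (Fin b) (Fin c) (Om ℤ_[p] T) (Om ℤ_[p] T)
  let e4 : (K × (Fin a → Lam ℤ_[p] T)) ≃ₗ[Om ℤ_[p] T]
      (K × (Fin (ix T * a) → Om ℤ_[p] T)) :=
    { toFun := fun x => (x.1, e1 x.2)
      invFun := fun x => (x.1, e1.symm x.2)
      left_inv := fun x => by simp
      right_inv := fun x => by simp
      map_add' := fun x y => by
        rw [Prod.snd_add, map_add]; rfl
      map_smul' := fun c x => by
        have : (c • x).2 = c • x.2 := rfl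
        rw [this, map_smul]; rfl }
  let e5 := e4 ≪≫ₗ (LinearEquiv.prodCongr (LinearEquiv.refl _ K) e2) ≪≫ₗ
    (LinearEquiv.prodAssoc (Om ℤ_[p] T) K (Fin a → Om ℤ_[p] T) (Fin c → Om ℤ_[p] T)).symm ≪≫ₗ
    (LinearEquiv.prodCongr e (LinearEquiv.refl _ _)) ≪≫ₗ e3.symm
  refine ⟨K × (Fin a → Lam ℤ_[p] T), inferInstance, inferInstance, b + c,
    Module.Basis.ofEquivFun e5, -a, 1, Or.inl rfl, ?_⟩
  have hl := sf_limit hR e
  have hcc : (ix T : ℝ) * a = a + c := by exact_mod_cast hc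
  have : (((-a : ℤ) : ℝ) * (ix T : ℝ) + ((1 : ℤ) : ℝ) * ((b + c : ℕ) : ℝ)) = (b : ℝ) - a := by
    push_cast
    linarith
  rw [this]
  exact hl

/-- the kernel of a map over the big ring, compared with the one over the small ring -/
theorem ker_equiv {K : Type} [AddCommGroup K] [Module (Lam ℤ_[p] T) K] {b m : ℕ}
    (g : (Fin b → Lam ℤ_[p] T) →ₗ[Lam ℤ_[p] T] K)
    (e : (Fin b → Lam ℤ_[p] T) ≃ₗ[Om ℤ_[p] T] (Fin m → Om ℤ_[p] T)) :
    ∃ f : (Fin m → Om ℤ_[p] T) →ₗ[Om ℤ_[p] T] K,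
      (Function.Surjective g → Function.Surjective f) ∧
      Nonempty (LinearMap.ker f ≃ₗ[Om ℤ_[p] T] LinearMap.ker g) := by
  let f : (Fin m → Om ℤ_[p] T) →ₗ[Om ℤ_[p] T] K :=
    { toFun := fun x => g (e.symm x)
      map_add' := fun x y => by rw [map_add, map_add]
      map_smul' := fun c x => by
        rw [map_smul, Om.smul_def, map_smul, RingHom.id_apply, Om.smul_def] }
  have hfe : ∀ x, f x = g (e.symm x) := fun x => rfl
  refine ⟨f, fun hg x => ?_, ⟨?_⟩⟩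
  · obtain ⟨y, hy⟩ := hg x
    exact ⟨e y, by rw [hfe, LinearEquiv.symm_apply_apply, hy]⟩
  · exact
    { toFun := fun x => ⟨e.symm x.1, x.2⟩
      invFun := fun y => ⟨e y.1, by
        rw [LinearMap.mem_ker, hfe, LinearEquiv.symm_apply_apply]; exact y.2⟩
      left_inv := fun x => by
        apply Subtype.ext
        exact e.apply_symm_apply x.1
      right_inv := fun y => by
        apply Subtype.ext
        exact e.symm_apply_apply y.1
      map_add' := fun x y => by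
        apply Subtype.ext
        change e.symm (x.1 + y.1) = e.symm x.1 + e.symm y.1
        rw [map_add]
      map_smul' := fun c x => by
        apply Subtype.ext
        change e.symm (c • x.1) = c • e.symm x.1
        rw [map_smul] }

theorem concl_ffr (hR : Reg p T) (D : ℕ) : ∀ (K : Type) [AddCommGroup K]
    [Module (Lam ℤ_[p] T) K] [Module ℤ_[p] K] [IsScalarTower ℤ_[p] (Lam ℤ_[p] T) K],
    FFR (Om ℤ_[p] T) D K → Concl p T K := by
  induction D with
  | zero => intro K _ _ _ _ h; exact concl_sf hR K h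
  | succ D ih =>
    intro K _ _ _ _ h
    have hfin : Module.Finite (Om ℤ_[p] T) K := h.finite
    have hfin' : Module.Finite (Lam ℤ_[p] T) K :=
      Module.Finite.of_restrictScalars_finite (Om ℤ_[p] T) (Lam ℤ_[p] T) K
    obtain ⟨b, g, hg⟩ := Module.Finite.exists_fin' (Lam ℤ_[p] T) K
    obtain ⟨e⟩ := exists_equiv p T b
    obtain ⟨f, hf, ⟨e'⟩⟩ := ker_equiv g e
    have h1 : FFR (Om ℤ_[p] T) D (LinearMap.ker g) := (h.ker f (hf hg)).congr D e'
    obtain ⟨E, _, _, s, β, z, σ, hσ, hlim⟩ := ih (LinearMap.ker g) h1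
    refine ⟨E, inferInstance, inferInstance, s, β, b - z, -σ, ?_, ?_⟩
    · rcases hσ with rfl | rfl
      · right; rfl
      · left; rfl
    · have h2 := rk_exact hR f (hf hg)
      have h3 : ((((b : ℤ) - z : ℤ) : ℝ) * (ix T : ℝ) + (((-σ : ℤ) : ℝ)) * (s : ℝ)) =
          ((ix T * b : ℕ) : ℝ) - ((z : ℝ) * ix T + σ * s) := by
        push_cast; ring
      rw [h3]
      refine (h2.sub hlim).congr fun n => ?_
      rw [rk_congr n e', add_div, add_sub_cancel_right]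

/-! ### the kernel of the projections of the big ring -/

theorem U_le (n : ℕ) : T.U n ≤ T.U 0 := by
  induction n with
  | zero => exact le_rfl
  | succ n ih => exact (T.anti n).trans ih

/-- in terms of a basis given by coset representatives, the kernel of the `n`-th projection is
`I n` times everything -/
theorem lam_ker (b : Module.Basis (T.Q 0) (Om ℤ_[p] T) (Lam ℤ_[p] T))
    (hb : ∀ q, b q = Lam.of ℤ_[p] T q.out) (n : ℕ) (l : Lam ℤ_[p] T)
    (hl : Lam.proj ℤ_[p] T n l = 0) (q : T.Q 0) : b.repr l q ∈ Om.I ℤ_[p] T n := by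
  classical
  have hsum : ∑ q' : T.Q 0, Om.incl ℤ_[p] T (b.repr l q') * Lam.of ℤ_[p] T q'.out = l := by
    conv_rhs => rw [← b.sum_repr l]
    refine Finset.sum_congr rfl fun q' _ => ?_
    rw [hb, Om.smul_def, smul_eq_mul]
  have hproj : ∑ q' : T.Q 0, Om.proj ℤ_[p] T n (b.repr l q') *
      MonoidAlgebra.single ((q'.out : G) : T.Q n) (1 : ℤ_[p]) = 0 := by
    rw [← hl]
    conv_rhs => rw [← hsum]
    rw [map_sum]
    refine Finset.sum_congr rfl fun q' _ => ?_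
    rw [map_mul]
    rfl
  change Om.proj ℤ_[p] T n (b.repr l q) = 0
  ext w
  change (Om.proj ℤ_[p] T n (b.repr l q)).coeff w = 0
  by_contra hne
  have hw : w ∈ T.N n := (Om.proj_mem_iff ℤ_[p] T n _).1 ⟨_, rfl⟩ w hne
  apply hne
  have h1 := congrArg (fun x : MonoidAlgebra ℤ_[p] (T.Q n) =>
    x.coeff (w * ((q.out : G) : T.Q n))) hproj
  simp only [MonoidAlgebra.coeff_sum, Finsupp.finsetSum_apply,
    MonoidAlgebra.coeff_mul_single_apply, mul_one, MonoidAlgebra.coeff_zero,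
    Finsupp.coe_zero, Pi.zero_apply] at h1
  rw [Finset.sum_eq_single q] at h1
  · rwa [mul_inv_cancel_right] at h1
  · intro q' _ hq'
    by_contra hne'
    have hm := (Om.proj_mem_iff ℤ_[p] T n _).1 ⟨_, rfl⟩ _ hne'
    have hm2 : ((q.out : G) : T.Q n) * (((q'.out : G) : T.Q n))⁻¹ ∈ T.N n := by
      rw [mul_assoc] at hm
      exact (Subgroup.mul_mem_cancel_left _ hw).1 hm
    obtain ⟨u, hu, huq⟩ := Subgroup.mem_map.1 hm2
    have h3 : ((u : G) : T.Q n) = ((q.out * (q'.out)⁻¹ : G) : T.Q n) := huq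
    have h4 : u⁻¹ * (q.out * (q'.out)⁻¹) ∈ T.U n := QuotientGroup.eq.1 h3
    have h5 : q.out * (q'.out)⁻¹ ∈ T.U 0 := by
      have := mul_mem hu (U_le n h4)
      rwa [mul_inv_cancel_left] at this
    apply hq'
    have h6 : ((q.out : G) : T.Q 0) = ((q'.out : G) : T.Q 0) := by
      have h7 : ((q.out * (q'.out)⁻¹ : G) : T.Q 0) = 1 := (QuotientGroup.eq_one_iff _).2 h5
      rw [QuotientGroup.mk_mul, QuotientGroup.mk_inv] at h7
      exact mul_inv_eq_one.1 h7
    rw [QuotientGroup.out_eq', QuotientGroup.out_eq'] at h6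
    exact h6.symm
  · intro h; exact absurd (Finset.mem_univ _) h

/-! ### counting -/

theorem card_Q (n : ℕ) : Nat.card (T.Q n) = (T.U 0).index * Nat.card (T.N n) := by
  rw [← Subgroup.index_mul_card (T.N n)]
  congr 1
  exact Subgroup.index_map_eq _ (QuotientGroup.mk'_surjective _)
    (by rw [QuotientGroup.ker_mk']; exact U_le n)

/-! ### the cokernel -/

section
variable {ι κ : Type} [Fintype ι] [Fintype κ] (B : Matrix ι κ (Lam ℤ_[p] T))

/-- the cokernel of the matrix -/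
abbrev M0 : Type := (κ → Lam ℤ_[p] T) ⧸ LinearMap.range B.vecMulLinear

/-- the cokernel at a finite level -/
abbrev Mn (n : ℕ) : Type := (κ → MonoidAlgebra ℤ_[p] (T.Q n)) ⧸
  LinearMap.range (B.map (Lam.proj ℤ_[p] T n)).vecMulLinear

/-- the projection of vectors -/
noncomputable def pv (κ : Type) (n : ℕ) :
    (κ → Lam ℤ_[p] T) →ₗ[ℤ_[p]] (κ → MonoidAlgebra ℤ_[p] (T.Q n)) :=
  LinearMap.pi fun k => (Lam.proj ℤ_[p] T n).toLinearMap ∘ₗ LinearMap.proj k

theorem pv_apply (n : ℕ) (x : κ → Lam ℤ_[p] T) (k : κ) :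
    pv κ n x k = Lam.proj ℤ_[p] T n (x k) := rfl

theorem pv_surj (n : ℕ) : Function.Surjective (pv (p := p) (T := T) κ n) := by
  intro y
  choose x hx using fun k => Lam.proj_surjective ℤ_[p] T n (y k)
  exact ⟨x, funext hx⟩

theorem pv_vecMul (n : ℕ) (y : ι → Lam ℤ_[p] T) :
    pv κ n (B.vecMulLinear y) = (B.map (Lam.proj ℤ_[p] T n)).vecMulLinear (pv ι n y) := by
  funext k
  rw [pv_apply, Matrix.vecMulLinear_apply, Matrix.vecMulLinear_apply, Matrix.vecMul,
    Matrix.vecMul, dotProduct, dotProduct, map_sum]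
  refine Finset.sum_congr rfl fun i _ => ?_
  rw [map_mul]; rfl

/-- the map to the finite level -/
noncomputable def qn (n : ℕ) : (κ → Lam ℤ_[p] T) →ₗ[ℤ_[p]] Mn B n :=
  ((LinearMap.range (B.map (Lam.proj ℤ_[p] T n)).vecMulLinear).mkQ.restrictScalars ℤ_[p]) ∘ₗ
    pv κ n

/-- the map to the quotient of the cokernel -/
noncomputable def rn (n : ℕ) : (κ → Lam ℤ_[p] T) →ₗ[ℤ_[p]]
    (M0 B ⧸ ((Om.I ℤ_[p] T n) • (⊤ : Submodule (Om ℤ_[p] T) (M0 B)))) :=
  (((Om.I ℤ_[p] T n) • (⊤ : Submodule (Om ℤ_[p] T) (M0 B))).mkQ.restrictScalars ℤ_[p]) ∘ₗ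
    ((LinearMap.range B.vecMulLinear).mkQ.restrictScalars ℤ_[p])

theorem qn_surj (n : ℕ) : Function.Surjective (qn B n) := by
  intro y
  obtain ⟨z, rfl⟩ := Submodule.Quotient.mk_surjective _ y
  obtain ⟨w, rfl⟩ := pv_surj n z
  exact ⟨w, rfl⟩

theorem rn_surj (n : ℕ) : Function.Surjective (rn B n) := by
  intro y
  obtain ⟨z, rfl⟩ := Submodule.Quotient.mk_surjective _ y
  obtain ⟨w, rfl⟩ := Submodule.Quotient.mk_surjective _ z
  exact ⟨w, rfl⟩

theorem qn_eq_zero (n : ℕ) (x : κ → Lam ℤ_[p] T) : qn B n x = 0 ↔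
    pv κ n x ∈ LinearMap.range (B.map (Lam.proj ℤ_[p] T n)).vecMulLinear :=
  Submodule.Quotient.mk_eq_zero _

theorem rn_eq_zero (n : ℕ) (x : κ → Lam ℤ_[p] T) : rn B n x = 0 ↔
    (Submodule.Quotient.mk x : M0 B) ∈
      ((Om.I ℤ_[p] T n) • (⊤ : Submodule (Om ℤ_[p] T) (M0 B))) :=
  Submodule.Quotient.mk_eq_zero _

theorem qn_range (n : ℕ) (y : ι → Lam ℤ_[p] T) : qn B n (B.vecMulLinear y) = 0 := by
  rw [qn_eq_zero, pv_vecMul]
  exact ⟨_, rfl⟩

theorem rn_le_qn (n : ℕ) (z : M0 B)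
    (hz : z ∈ ((Om.I ℤ_[p] T n) • (⊤ : Submodule (Om ℤ_[p] T) (M0 B)))) :
    ∀ x : κ → Lam ℤ_[p] T, (Submodule.Quotient.mk x : M0 B) = z → qn B n x = 0 := by
  -- the map does not depend on the representative
  have hrep : ∀ x x' : κ → Lam ℤ_[p] T, (Submodule.Quotient.mk x : M0 B) =
      Submodule.Quotient.mk x' → qn B n x = qn B n x' := by
    intro x x' h
    obtain ⟨y, hy⟩ := (Submodule.Quotient.eq _).1 h
    have := qn_range B n y
    rw [hy, map_sub, sub_eq_zero] at this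
    exact this
  refine Submodule.smul_induction_on hz ?_ ?_
  · intro a ha w _ x hx
    obtain ⟨y, rfl⟩ := Submodule.Quotient.mk_surjective _ w
    have h1 : (Submodule.Quotient.mk x : M0 B) =
        Submodule.Quotient.mk (Om.incl ℤ_[p] T a • y) := hx
    rw [hrep _ _ h1, qn_eq_zero]
    have h0 : pv κ n (Om.incl ℤ_[p] T a • y) = 0 := by
      funext k
      rw [pv_apply, Pi.smul_apply, smul_eq_mul, map_mul]
      have : Lam.proj ℤ_[p] T n (Om.incl ℤ_[p] T a) = 0 := ha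
      rw [this, zero_mul]; rfl
    rw [h0]
    exact zero_mem _
  · intro z1 z2 h1 h2 x hx
    obtain ⟨x1, rfl⟩ := Submodule.Quotient.mk_surjective _ z1
    have h3 := h2 (x - x1) (by rw [Submodule.Quotient.mk_sub, hx, add_sub_cancel_left])
    have h4 := h1 x1 rfl
    rw [map_sub, h4, sub_zero] at h3
    exact h3

theorem qn_le_rn (n : ℕ) (x : κ → Lam ℤ_[p] T) (hx : qn B n x = 0) : rn B n x = 0 := by
  classical
  obtain ⟨b, hb⟩ := Lam.exists_basis (k := ℤ_[p]) T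
  rw [qn_eq_zero] at hx
  obtain ⟨y, hy⟩ := hx
  obtain ⟨y', rfl⟩ := pv_surj n y
  rw [← pv_vecMul] at hy
  have h1 : (Submodule.Quotient.mk x : M0 B) = Submodule.Quotient.mk (x - B.vecMulLinear y') := by
    have h0 : (Submodule.Quotient.mk (B.vecMulLinear y') : M0 B) = 0 :=
      (Submodule.Quotient.mk_eq_zero (LinearMap.range B.vecMulLinear)).2 ⟨y', rfl⟩
    rw [Submodule.Quotient.mk_sub, h0, sub_zero]
  have h2 : ∀ k, Lam.proj ℤ_[p] T n ((x - B.vecMulLinear y') k) = 0 := by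
    intro k
    rw [← pv_apply, map_sub, hy, sub_self]; rfl
  generalize x - B.vecMulLinear y' = x' at h1 h2
  rw [rn_eq_zero, h1]
  have h3 : x' = ∑ k, ∑ q : T.Q 0, Om.incl ℤ_[p] T (b.repr (x' k) q) •
      (Pi.single k (b q) : κ → Lam ℤ_[p] T) := by
    conv_lhs => rw [← Finset.univ_sum_single x']
    refine Finset.sum_congr rfl fun k _ => ?_
    conv_lhs => rw [← b.sum_repr (x' k)]
    rw [← Finset.univ_sum_single (Pi.single k _)]
    funext j
    simp only [Finset.sum_apply, Pi.smul_apply]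
    by_cases hj : j = k
    · subst hj
      simp [Om.smul_def, Finset.sum_pi_single]
    · simp [hj, Pi.single_apply]
  rw [h3]
  have h4 : (Submodule.Quotient.mk (∑ k, ∑ q : T.Q 0, Om.incl ℤ_[p] T (b.repr (x' k) q) •
      (Pi.single k (b q) : κ → Lam ℤ_[p] T)) : M0 B) =
      ∑ k, ∑ q : T.Q 0, (b.repr (x' k) q) •
        (Submodule.Quotient.mk (Pi.single k (b q)) : M0 B) := by
    rw [← Submodule.mkQ_apply, map_sum]
    refine Finset.sum_congr rfl fun k _ => ?_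
    rw [map_sum]
    refine Finset.sum_congr rfl fun q _ => ?_
    rw [map_smul]; rfl
  rw [h4]
  refine sum_mem fun k _ => sum_mem fun q _ => ?_
  exact Submodule.smul_mem_smul (lam_ker b hb n _ (h2 k) q) trivial

theorem rk_M0 (n : ℕ) : rk p T n (M0 B) = Module.finrank ℤ_[p] (Mn B n) := by
  have h : LinearMap.ker (rn B n) = LinearMap.ker (qn B n) := by
    ext x
    rw [LinearMap.mem_ker, LinearMap.mem_ker]
    exact ⟨fun h => rn_le_qn B n _ ((rn_eq_zero B n x).1 h) x rfl, qn_le_rn B n x⟩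
  have e1 := (rn B n).quotKerEquivOfSurjective (rn_surj B n)
  have e2 := (qn B n).quotKerEquivOfSurjective (qn_surj B n)
  rw [rk, ← e1.finrank_eq, ← e2.finrank_eq, h]

end

end Pool.Agent.H371.SA.Jx

namespace Pool.Agent.H371.SA

open Filter Topology Jx

variable {G : Type} [Group G] (p : ℕ) [Fact p.Prime] (T : Tower G)

theorem exists_module (hR : Reg p T) {ι κ : Type} [Fintype ι] [Fintype κ]
    (B : Matrix ι κ (Lam ℤ_[p] T)) :
    ∃ (E : Type) (_ : AddCommGroup E) (_ : Module (Lam ℤ_[p] T) E) (s : ℕ)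
      (_ : Module.Basis (Fin s) (Om ℤ_[p] T) E) (z σ : ℤ), (σ = 1 ∨ σ = -1) ∧
      Tendsto (fun n => ((T.U 0).index : ℝ) * (Module.finrank ℤ_[p]
        ((κ → MonoidAlgebra ℤ_[p] (T.Q n)) ⧸
          LinearMap.range (B.map (Lam.proj ℤ_[p] T n)).vecMulLinear) : ℝ) / Nat.card (T.Q n)) atTop
        (𝓝 ((z : ℝ) * (T.U 0).index + σ * s)) := by
  classical
  obtain ⟨D, hD⟩ := hR.ffr
  obtain ⟨e⟩ := exists_equiv p T (Fintype.card κ)
  let e0 : (κ → Lam ℤ_[p] T) ≃ₗ[Lam ℤ_[p] T] (Fin (Fintype.card κ) → Lam ℤ_[p] T) :=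
    LinearEquiv.funCongrLeft (Lam ℤ_[p] T) (Lam ℤ_[p] T) (Fintype.equivFin κ).symm
  let g : (Fin (Fintype.card κ) → Lam ℤ_[p] T) →ₗ[Lam ℤ_[p] T] M0 B :=
    (LinearMap.range B.vecMulLinear).mkQ ∘ₗ e0.symm.toLinearMap
  have hg : Function.Surjective g := (Submodule.mkQ_surjective _).comp e0.symm.surjective
  obtain ⟨f, hf, -⟩ := ker_equiv g e
  obtain ⟨E, _, _, s, β, z, σ, hσ, hlim⟩ := concl_ffr hR (D + 1) (M0 B)
    ⟨_, f, hf hg, hD _ _⟩
  refine ⟨E, inferInstance, inferInstance, s, β, z, σ, hσ, ?_⟩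
  have hix : ix T = (T.U 0).index := rfl
  rw [← hix]
  refine hlim.congr fun n => ?_
  rw [rk_M0, card_Q, ← hix, Nat.cast_mul, mul_div_mul_left]
  exact_mod_cast ix_pos.ne'

end Pool.Agent.H371.SA
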