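import Pool.Agent.H371.SA.Defs

set_option autoImplicit false

namespace Pool.Agent.H371.SA

namespace Kx

open Matrix

/-! ### group elements and conjugation in the completed group algebra -/
section conj
variable {G : Type} [Group G] (k : Type) [CommRing k] (T : Tower G)

theorem proj_of (n : ℕ) (g : G) :
    Lam.proj k T n (Lam.of k T g) = MonoidAlgebra.single ((g : G) : T.Q n) (1 : k) := rfl

theorem om_ext {a b : Om k T} (h : Om.incl k T a = Om.incl k T b) : a = b :=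
  Subtype.ext h

theorem mem_N (n : ℕ) {g : G} (hg : g ∈ T.U 0) : ((g : G) : T.Q n) ∈ T.N n :=
  ⟨g, hg, rfl⟩

theorem N_normal (n : ℕ) : (T.N n).Normal :=
  Subgroup.Normal.map (T.nor 0) _ (QuotientGroup.mk'_surjective _)

theorem exists_of (g : G) (hg : g ∈ T.U 0) : ∃ a : Om k T, Om.incl k T a = Lam.of k T g := by
  classical
  refine ⟨⟨Lam.of k T g, ?_⟩, rfl⟩
  intro n q hq
  rw [proj_of, MonoidAlgebra.coeff_single, Finsupp.single_apply] at hq
  split_ifs at hq with h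
  · rw [← h]; exact mem_N T n hg
  · exact absurd rfl hq

theorem exists_conj (g : G) (a : Om k T) : ∃ a' : Om k T,
    Om.incl k T a' = Lam.of k T g * Om.incl k T a * Lam.of k T g⁻¹ := by
  classical
  refine ⟨⟨Lam.of k T g * Om.incl k T a * Lam.of k T g⁻¹, ?_⟩, rfl⟩
  intro n q hq
  rw [map_mul, map_mul, proj_of, proj_of, MonoidAlgebra.coeff_mul_single_apply,
    MonoidAlgebra.coeff_single_mul_apply, mul_one, one_mul] at hq
  have h := a.2 n _ hq
  have hn := N_normal T n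
  have h2 := hn.conj_mem _ h ((g : G) : T.Q n)
  have h3 : ((g : G) : T.Q n) * ((((g : G) : T.Q n))⁻¹ * (q * (((g⁻¹ : G) : T.Q n))⁻¹)) *
      (((g : G) : T.Q n))⁻¹ = q := by
    rw [QuotientGroup.mk_inv]; group
  rwa [h3] at h2

end conj


/-! ### the dependence of `tG` on the class -/
section tg
variable {G : Type} [Group G] {p : ℕ} [Fact p.Prime] {T : Tower G} {E : Type} [AddCommGroup E]
  [Module (Lam ℤ_[p] T) E] {s : ℕ} (b : Module.Basis (Fin s) (Om ℤ_[p] T) E)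

/-- the coordinates of `g b_j` -/
noncomputable def al (g : G) (j k : Fin s) : Om ℤ_[p] T := b.repr (Lam.of ℤ_[p] T g • b j) k

theorem al_one (j k : Fin s) : al b 1 j k = if k = j then 1 else 0 := by
  classical
  unfold al
  rw [map_one, one_smul, Module.Basis.repr_self, Finsupp.single_apply]
  by_cases h : j = k
  · rw [if_pos h, if_pos h.symm]
  · rw [if_neg h, if_neg (Ne.symm h)]

theorem al_mul_left (u g : G) (a : Om ℤ_[p] T) (ha : Om.incl ℤ_[p] T a = Lam.of ℤ_[p] T u)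
    (j k : Fin s) : al b (u * g) j k = a * al b g j k := by
  unfold al
  rw [map_mul, mul_smul, ← ha, ← Om.smul_def, map_smul]
  rfl

/-- conjugation -/
noncomputable def cj (g : G) (a : Om ℤ_[p] T) : Om ℤ_[p] T := (exists_conj ℤ_[p] T g a).choose

theorem cj_spec (g : G) (a : Om ℤ_[p] T) : Om.incl ℤ_[p] T (cj g a) =
    Lam.of ℤ_[p] T g * Om.incl ℤ_[p] T a * Lam.of ℤ_[p] T g⁻¹ :=
  (exists_conj ℤ_[p] T g a).choose_spec

theorem of_smul_smul (g : G) (a : Om ℤ_[p] T) (e : E) :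
    Lam.of ℤ_[p] T g • (a • e) = cj g a • (Lam.of ℤ_[p] T g • e) := by
  rw [Om.smul_def, Om.smul_def, cj_spec, mul_smul, mul_smul, ← mul_smul (Lam.of ℤ_[p] T g⁻¹),
    ← map_mul, inv_mul_cancel, map_one, one_smul]

theorem al_mul (y x : G) (j k : Fin s) :
    al b (y * x) j k = ∑ l, cj y (al b x j l) * al b y l k := by
  classical
  have h1 : Lam.of ℤ_[p] T x • b j = ∑ l, al b x j l • b l := (b.sum_repr _).symm
  have h2 : Lam.of ℤ_[p] T (y * x) • b j =
      ∑ l, cj y (al b x j l) • (Lam.of ℤ_[p] T y • b l) := by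
    rw [map_mul, mul_smul, h1, Finset.smul_sum]
    exact Finset.sum_congr rfl fun l _ => of_smul_smul y _ _
  unfold al at *
  rw [h2, map_sum, Finsupp.finsetSum_apply]
  refine Finset.sum_congr rfl fun l _ => ?_
  rw [map_smul]
  rfl

theorem om_proj_incl (n : ℕ) (a : Om ℤ_[p] T) :
    Om.proj ℤ_[p] T n a = Lam.proj ℤ_[p] T n (Om.incl ℤ_[p] T a) := rfl

/-- coefficients of `u a` -/
theorem coeff_proj_of_mul (n : ℕ) (u : G) (a c : Om ℤ_[p] T)
    (ha : Om.incl ℤ_[p] T a = Lam.of ℤ_[p] T u) (q : T.Q n) :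
    (Om.proj ℤ_[p] T n (a * c)).coeff q = (Om.proj ℤ_[p] T n c).coeff ((u : T.Q n)⁻¹ * q) := by
  rw [map_mul, om_proj_incl n a, ha, proj_of, MonoidAlgebra.coeff_single_mul_apply, one_mul]

theorem tG_mul_left (n : ℕ) (u g : G) (hu : u ∈ T.U n) (hu0 : u ∈ T.U 0) :
    tG b n (u * g) = tG b n g := by
  obtain ⟨a, ha⟩ := exists_of ℤ_[p] T u hu0
  unfold tG
  refine Finset.sum_congr rfl fun j _ => ?_
  have h := al_mul_left b u g a ha j j
  unfold al at h
  rw [h, coeff_proj_of_mul n u a _ ha]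
  have h1 : ((u : G) : T.Q n) = 1 := (QuotientGroup.eq_one_iff u).2 hu
  rw [h1, inv_one, one_mul]

theorem U_le (n : ℕ) : T.U n ≤ T.U 0 := by
  induction n with
  | zero => exact le_rfl
  | succ n ih => exact (T.anti n).trans ih

end tg

end Kx

section K
variable {G : Type} [Group G] {p : ℕ} [Fact p.Prime] {T : Tower G} {E : Type} [AddCommGroup E]
  [Module (Lam ℤ_[p] T) E] {s : ℕ} (b : Module.Basis (Fin s) (Om ℤ_[p] T) E)

theorem tG_eq_tQ (n : ℕ) (g : G) : tG b n g = tQ b n (g : T.Q n) := by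
  unfold tQ
  have h1 : ((((g : G) : T.Q n).out : G) : T.Q n) = (g : T.Q n) := QuotientGroup.out_eq' _
  have h2 : ((g : T.Q n).out)⁻¹ * g ∈ T.U n := QuotientGroup.eq.1 h1
  have h3 : g * ((g : T.Q n).out)⁻¹ ∈ T.U n := ((T.nor n).mem_comm_iff).1 h2
  have h4 := Kx.tG_mul_left b n _ ((g : T.Q n).out) h3 (Kx.U_le n h3)
  rw [inv_mul_cancel_right] at h4
  exact h4

theorem tQ_one (n : ℕ) : tQ b n 1 = s := by
  have h := tG_eq_tQ b n 1
  rw [QuotientGroup.mk_one] at h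
  rw [← h]
  unfold tG
  have h1 : ∀ j : Fin s, (Om.proj ℤ_[p] T n (b.repr (Lam.of ℤ_[p] T 1 • b j) j)).coeff 1 = 1 := by
    intro j
    have h2 := Kx.al_one b j j
    unfold Kx.al at h2
    rw [h2, if_pos rfl, map_one (Om.proj ℤ_[p] T n), MonoidAlgebra.coeff_one_one]
  rw [Finset.sum_congr rfl fun j _ => h1 j]
  simp

end K

namespace Kx

open Matrix

/-! ### limits -/
section lim
variable {p : ℕ} [Fact p.Prime]

/-- compatible sequences -/
noncomputable def Sq (p : ℕ) [Fact p.Prime] : Subring ((n : ℕ) → ZMod (p ^ n)) where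
  carrier := {x | ∀ m n (h : m ≤ n), ZMod.castHom (pow_dvd_pow p h) (ZMod (p ^ m)) (x n) = x m}
  mul_mem' := by
    intro a b ha hb m n h
    rw [Pi.mul_apply, map_mul, ha m n h, hb m n h]; rfl
  one_mem' := by intro m n h; rw [Pi.one_apply, map_one]; rfl
  add_mem' := by
    intro a b ha hb m n h
    rw [Pi.add_apply, map_add, ha m n h, hb m n h]; rfl
  zero_mem' := by intro m n h; rw [Pi.zero_apply, map_zero]; rfl
  neg_mem' := by
    intro a ha m n h
    rw [Pi.neg_apply, map_neg, ha m n h]; rfl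

theorem exists_lim (x : (n : ℕ) → ZMod (p ^ n))
    (hx : ∀ n, ZMod.castHom (pow_dvd_pow p (Nat.le_succ n)) (ZMod (p ^ n)) (x (n + 1)) = x n) :
    ∃ y : ℤ_[p], ∀ n, PadicInt.toZModPow n y = x n := by
  have hx' : ∀ m n (h : m ≤ n), ZMod.castHom (pow_dvd_pow p h) (ZMod (p ^ m)) (x n) = x m := by
    intro m n h
    induction n, h using Nat.le_induction with
    | base =>
      have : ZMod.castHom (pow_dvd_pow p (le_refl m)) (ZMod (p ^ m)) = RingHom.id _ :=
        RingHom.ext_zmod _ _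
      rw [this]; rfl
    | succ n h ih =>
      rw [← ih, ← hx n, ← RingHom.comp_apply]
      congr 1
      exact RingHom.ext_zmod _ _
  let f : ∀ n, Sq p →+* ZMod (p ^ n) := fun n =>
    (Pi.evalRingHom (fun n => ZMod (p ^ n)) n).comp (Sq p).subtype
  have hf : ∀ k1 k2 (hk : k1 ≤ k2), (ZMod.castHom (pow_dvd_pow p hk) (ZMod (p ^ k1))).comp (f k2) =
      f k1 := by
    intro k1 k2 hk
    ext a
    exact a.2 k1 k2 hk
  refine ⟨PadicInt.lift hf ⟨x, hx'⟩, fun n => ?_⟩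
  have := PadicInt.lift_spec hf n
  exact congrArg (fun F => F ⟨x, hx'⟩) this

end lim

/-! ### the extension of a representation -/
section ext
variable {G : Type} [Group G] {p : ℕ} [Fact p.Prime] {T : Tower G} {v : ℕ}
  (ρ : G →* Matrix (Fin v) (Fin v) ℤ_[p])
  (hρ : ∀ n, ∀ g ∈ T.U n, ∀ i j, (p : ℤ_[p]) ^ n ∣ (ρ g - 1) i j)

/-- reduction of matrices -/
noncomputable def rm (p : ℕ) [Fact p.Prime] (v n : ℕ) :
    Matrix (Fin v) (Fin v) ℤ_[p] →+* Matrix (Fin v) (Fin v) (ZMod (p ^ n)) :=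
  (PadicInt.toZModPow n : ℤ_[p] →+* ZMod (p ^ n)).mapMatrix

theorem rm_apply (n : ℕ) (X : Matrix (Fin v) (Fin v) ℤ_[p]) (i j : Fin v) :
    rm p v n X i j = PadicInt.toZModPow n (X i j) := rfl

theorem toZMod_eq_zero_iff (n : ℕ) (x : ℤ_[p]) :
    PadicInt.toZModPow n x = 0 ↔ (p : ℤ_[p]) ^ n ∣ x := by
  rw [← RingHom.mem_ker, PadicInt.ker_toZModPow, Ideal.mem_span_singleton]

theorem rm_ext {X Y : Matrix (Fin v) (Fin v) ℤ_[p]} (h : ∀ n, rm p v n X = rm p v n Y) :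
    X = Y := by
  ext i j
  rw [← PadicInt.ext_of_toZModPow.1 fun n => congrFun (congrFun (h n) i) j]

include hρ in
theorem rm_of_mem (n : ℕ) (g : G) (hg : g ∈ T.U n) : rm p v n (ρ g) = 1 := by
  have h : rm p v n (ρ g - 1) = 0 := by
    ext i j
    rw [rm_apply, (toZMod_eq_zero_iff n _).2 (hρ n g hg i j)]; rfl
  rw [map_sub, map_one, sub_eq_zero] at h
  exact h

/-- the representation modulo `p ^ n` -/
noncomputable def rq (n : ℕ) : T.Q n →* Matrix (Fin v) (Fin v) (ZMod (p ^ n)) :=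
  QuotientGroup.lift (T.U n)
    (((rm p v n : Matrix (Fin v) (Fin v) ℤ_[p] →+* Matrix (Fin v) (Fin v) (ZMod (p ^ n))) :
      Matrix (Fin v) (Fin v) ℤ_[p] →* Matrix (Fin v) (Fin v) (ZMod (p ^ n))).comp ρ)
    (fun g hg => MonoidHom.mem_ker.2 (rm_of_mem ρ hρ n g hg))

theorem rq_mk (n : ℕ) (g : G) : rq ρ hρ n (g : T.Q n) = rm p v n (ρ g) := rfl

/-- the ring homomorphism modulo `p ^ n` -/
noncomputable def rr (n : ℕ) :
    MonoidAlgebra ℤ_[p] (T.Q n) →+* Matrix (Fin v) (Fin v) (ZMod (p ^ n)) :=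
  MonoidAlgebra.liftNCRingHom ((Matrix.scalar (Fin v)).comp (PadicInt.toZModPow n)) (rq ρ hρ n)
    (fun _ _ => (Matrix.scalar_commute _ (fun _ => Commute.all _ _) _))

theorem rr_single (n : ℕ) (q : T.Q n) (c : ℤ_[p]) : rr ρ hρ n (MonoidAlgebra.single q c) =
    PadicInt.toZModPow n c • rq ρ hρ n q := by
  unfold rr
  rw [MonoidAlgebra.liftNCRingHom_single, Matrix.smul_eq_diagonal_mul]
  rfl

theorem rr_apply (n : ℕ) (y : MonoidAlgebra ℤ_[p] (T.Q n)) : rr ρ hρ n y =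
    ∑ q : T.Q n, PadicInt.toZModPow n (y.coeff q) • rq ρ hρ n q := by
  classical
  induction y using MonoidAlgebra.induction_linear with
  | zero => simp
  | add f g hf hg =>
    rw [map_add, hf, hg, ← Finset.sum_add_distrib]
    refine Finset.sum_congr rfl fun q _ => ?_
    rw [MonoidAlgebra.coeff_add, Finsupp.add_apply, map_add, add_smul]
  | single q c =>
    rw [rr_single, Finset.sum_eq_single q]
    · rw [MonoidAlgebra.coeff_single, Finsupp.single_eq_same]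
    · intro q' _ h
      rw [MonoidAlgebra.coeff_single, Finsupp.single_eq_of_ne h, map_zero, zero_smul]
    · intro h; exact absurd (Finset.mem_univ _) h

theorem rr_compat (n : ℕ) (y : MonoidAlgebra ℤ_[p] (T.Q (n + 1))) :
    (ZMod.castHom (pow_dvd_pow p (Nat.le_succ n)) (ZMod (p ^ n))).mapMatrix
      (rr ρ hρ (n + 1) y) =
    rr ρ hρ n (MonoidAlgebra.mapDomainAlgHom ℤ_[p] ℤ_[p] (T.tr n) y) := by
  have key : ∀ x : ℤ_[p], ZMod.castHom (pow_dvd_pow p (Nat.le_succ n)) (ZMod (p ^ n))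
      (PadicInt.toZModPow (n + 1) x) = PadicInt.toZModPow n x := fun x =>
    congrArg (fun F => F x) (PadicInt.zmod_cast_comp_toZModPow (p := p) n (n + 1) (Nat.le_succ n))
  induction y using MonoidAlgebra.induction_linear with
  | zero => simp
  | add f g hf hg => rw [map_add, map_add, hf, hg, map_add, map_add]
  | single q c =>
    have h1 : MonoidAlgebra.mapDomainAlgHom ℤ_[p] ℤ_[p] (T.tr n) (MonoidAlgebra.single q c) =
        MonoidAlgebra.single (T.tr n q) c := MonoidAlgebra.mapDomain_single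
    rw [h1, rr_single, rr_single]
    obtain ⟨g, rfl⟩ := QuotientGroup.mk_surjective q
    have h2 : T.tr n ((g : G) : T.Q (n + 1)) = ((g : G) : T.Q n) := rfl
    rw [h2, rq_mk, rq_mk]
    ext i j
    simp only [RingHom.mapMatrix_apply, Matrix.map_apply, Matrix.smul_apply, smul_eq_mul, map_mul,
      key, rm_apply]

theorem exists_rho (a : Lam ℤ_[p] T) : ∃ X : Matrix (Fin v) (Fin v) ℤ_[p],
    ∀ n, rm p v n X = rr ρ hρ n (Lam.proj ℤ_[p] T n a) := by
  have h : ∀ i j, ∃ y : ℤ_[p], ∀ n, PadicInt.toZModPow n y =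
      rr ρ hρ n (Lam.proj ℤ_[p] T n a) i j := by
    intro i j
    refine exists_lim _ fun n => ?_
    have h1 := rr_compat ρ hρ n (Lam.proj ℤ_[p] T (n + 1) a)
    have h2 : MonoidAlgebra.mapDomainAlgHom ℤ_[p] ℤ_[p] (T.tr n) (Lam.proj ℤ_[p] T (n + 1) a) =
      Lam.proj ℤ_[p] T n a := a.2 n
    rw [h2] at h1
    exact congrFun (congrFun h1 i) j
  choose X hX using h
  exact ⟨X, fun n => by ext i j; exact hX i j n⟩

/-- the extension of the representation -/
noncomputable def rh (a : Lam ℤ_[p] T) : Matrix (Fin v) (Fin v) ℤ_[p] :=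
  (exists_rho ρ hρ a).choose

theorem rh_spec (a : Lam ℤ_[p] T) (n : ℕ) :
    rm p v n (rh ρ hρ a) = rr ρ hρ n (Lam.proj ℤ_[p] T n a) := (exists_rho ρ hρ a).choose_spec n

theorem rh_mul (a c : Lam ℤ_[p] T) : rh ρ hρ (a * c) = rh ρ hρ a * rh ρ hρ c := by
  apply rm_ext
  intro n
  rw [map_mul, rh_spec, rh_spec, rh_spec, map_mul, map_mul]

theorem rh_sum {ι : Type} (S : Finset ι) (f : ι → Lam ℤ_[p] T) :
    rh ρ hρ (∑ i ∈ S, f i) = ∑ i ∈ S, rh ρ hρ (f i) := by
  apply rm_ext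
  intro n
  rw [rh_spec, map_sum, map_sum, map_sum]
  exact Finset.sum_congr rfl fun i _ => (rh_spec ρ hρ (f i) n).symm

theorem rh_of (g : G) : rh ρ hρ (Lam.of ℤ_[p] T g) = ρ g := by
  apply rm_ext
  intro n
  rw [rh_spec, proj_of, rr_single, map_one, one_smul, rq_mk]

end ext

/-! ### the homomorphism and its trace -/
section hom
variable {G : Type} [Group G] {p : ℕ} [Fact p.Prime] {T : Tower G} {E : Type} [AddCommGroup E]
  [Module (Lam ℤ_[p] T) E] {s : ℕ} (b : Module.Basis (Fin s) (Om ℤ_[p] T) E) {v : ℕ}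
  (ρ : G →* Matrix (Fin v) (Fin v) ℤ_[p])
  (hρ : ∀ n, ∀ g ∈ T.U n, ∀ i j, (p : ℤ_[p]) ^ n ∣ (ρ g - 1) i j)

theorem rh_zero : rh ρ hρ (0 : Lam ℤ_[p] T) = 0 := by
  have := rh_sum ρ hρ (∅ : Finset ℕ) (fun _ => 0)
  simpa using this

theorem rho_inv_mul (x : G) : ρ x * ρ x⁻¹ = 1 := by rw [← map_mul, mul_inv_cancel, map_one]
theorem rho_inv_mul' (x : G) : ρ x⁻¹ * ρ x = 1 := by rw [← map_mul, inv_mul_cancel, map_one]

theorem mm_of_mem (u : G) (hu : u ∈ T.U 0) (j k : Fin s) :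
    ρ u * rh ρ hρ (Om.incl ℤ_[p] T (al b u⁻¹ j k)) =
      (1 : Matrix (Fin s) (Fin s) (Matrix (Fin v) (Fin v) ℤ_[p])) j k := by
  obtain ⟨a, ha⟩ := exists_of ℤ_[p] T u⁻¹ (inv_mem hu)
  have h := al_mul_left b u⁻¹ 1 a ha j k
  rw [mul_one, al_one] at h
  rw [h, Matrix.one_apply]
  by_cases hjk : j = k
  · rw [if_pos hjk.symm, if_pos hjk, mul_one, ha, rh_of, rho_inv_mul]
  · rw [if_neg (Ne.symm hjk), if_neg hjk, mul_zero, map_zero, rh_zero, mul_zero]

/-- the action on the twisted coinvariants -/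
noncomputable def MM : G →* Matrix (Fin s) (Fin s) (Matrix (Fin v) (Fin v) ℤ_[p]) where
  toFun x := Matrix.of fun j k => ρ x * rh ρ hρ (Om.incl ℤ_[p] T (al b x⁻¹ j k))
  map_one' := by
    ext1 j k
    exact mm_of_mem b ρ hρ 1 (one_mem _) j k
  map_mul' x y := by
    ext1 j k
    rw [Matrix.mul_apply]
    simp only [Matrix.of_apply]
    rw [_root_.mul_inv_rev, al_mul, map_sum, rh_sum, Finset.mul_sum]
    refine Finset.sum_congr rfl fun l _ => ?_
    rw [map_mul ρ, map_mul (Om.incl ℤ_[p] T), rh_mul, cj_spec, rh_mul, rh_mul, rh_of, rh_of, inv_inv]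
    have h := rho_inv_mul ρ y
    calc ρ x * ρ y * (ρ y⁻¹ * rh ρ hρ (Om.incl ℤ_[p] T (al b x⁻¹ j l)) * ρ y *
          rh ρ hρ (Om.incl ℤ_[p] T (al b y⁻¹ l k)))
        = ρ x * (ρ y * ρ y⁻¹) * rh ρ hρ (Om.incl ℤ_[p] T (al b x⁻¹ j l)) *
          (ρ y * rh ρ hρ (Om.incl ℤ_[p] T (al b y⁻¹ l k))) := by noncomm_ring
      _ = _ := by rw [h, mul_one]

theorem MM_apply (x : G) (j k : Fin s) : MM b ρ hρ x j k =
    ρ x * rh ρ hρ (Om.incl ℤ_[p] T (al b x⁻¹ j k)) := rfl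

theorem MM_of_mem (u : G) (hu : u ∈ T.U 0) : MM b ρ hρ u = 1 := by
  ext1 j k
  exact mm_of_mem b ρ hρ u hu j k

/-- the representation of the finite group -/
noncomputable def MQ : T.Q 0 →* Matrix (Fin s × Fin v) (Fin s × Fin v) ℚ_[p] :=
  QuotientGroup.lift (T.U 0)
    ((((algebraMap ℤ_[p] ℚ_[p]).mapMatrix.comp
      (Matrix.compRingEquiv (Fin s) (Fin v) ℤ_[p] : _ →+* _) :
        Matrix (Fin s) (Fin s) (Matrix (Fin v) (Fin v) ℤ_[p]) →+*
          Matrix (Fin s × Fin v) (Fin s × Fin v) ℚ_[p]) :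
      Matrix (Fin s) (Fin s) (Matrix (Fin v) (Fin v) ℤ_[p]) →*
        Matrix (Fin s × Fin v) (Fin s × Fin v) ℚ_[p]).comp (MM b ρ hρ))
    (fun g hg => MonoidHom.mem_ker.2 (by
      rw [MonoidHom.comp_apply, MM_of_mem b ρ hρ g hg, map_one]))

theorem MQ_trace (x : G) : (MQ b ρ hρ (x : T.Q 0)).trace =
    algebraMap ℤ_[p] ℚ_[p] (∑ j, (MM b ρ hρ x j j).trace) := by
  have h : MQ b ρ hρ (x : T.Q 0) = (algebraMap ℤ_[p] ℚ_[p]).mapMatrix
    (Matrix.comp _ _ _ _ _ (MM b ρ hρ x)) := rfl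
  rw [h]
  unfold Matrix.trace
  rw [Fintype.sum_prod_type, map_sum]
  refine Finset.sum_congr rfl fun j _ => ?_
  rw [map_sum]
  rfl

theorem finite_trace {Γ ι K : Type} [Group Γ] [Fintype Γ] [Fintype ι] [DecidableEq ι] [Field K]
    [CharZero K] (Φ : Γ →* Matrix ι ι K) :
    ∃ H : ℕ, ∑ γ, (Φ γ).trace = (Nat.card Γ : K) * H := by
  classical
  have hc : (Nat.card Γ : K) ≠ 0 := by
    rw [Nat.card_eq_fintype_card]
    exact_mod_cast Fintype.card_ne_zero
  let e : Matrix ι ι K := ∑ γ, Φ γ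
  have he : ∀ γ, Φ γ * e = e := by
    intro γ
    simp only [e]
    rw [Finset.mul_sum]
    simp only [← map_mul]
    exact Fintype.sum_equiv (Equiv.mulLeft γ) _ _ (fun _ => rfl)
  have hee : e * e = (Nat.card Γ : K) • e := by
    conv_lhs => rw [show e * e = ∑ γ, Φ γ * e from Finset.sum_mul _ _ _]
    rw [Finset.sum_congr rfl fun γ _ => he γ]
    rw [Finset.sum_const, Finset.card_univ, Nat.card_eq_fintype_card, Nat.cast_smul_eq_nsmul]
  let f : Matrix ι ι K := (Nat.card Γ : K)⁻¹ • e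
  have hf : IsIdempotentElem (Matrix.toLin' f) := by
    unfold IsIdempotentElem
    have h1 : f * f = f := by
      simp only [f]
      rw [smul_mul_smul_comm, hee, smul_smul, mul_assoc, inv_mul_cancel₀ hc, mul_one]
    rw [Module.End.mul_eq_comp, ← Matrix.toLin'_mul, h1]
  have h2 := (LinearMap.IsIdempotentElem.isProj_range _ hf).trace
  refine ⟨Module.finrank K (LinearMap.range (Matrix.toLin' f)), ?_⟩
  rw [← h2, Matrix.trace_toLin'_eq]
  simp only [f]
  rw [Matrix.trace_smul, smul_eq_mul, mul_inv_cancel_left₀ hc]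
  simp only [e]
  rw [Matrix.trace_sum]

/-- the projection -/
def pr (T : Tower G) (n : ℕ) : T.Q n →* T.Q 0 :=
  QuotientGroup.map _ _ (MonoidHom.id G) (U_le (T := T) n)

theorem pr_mk (n : ℕ) (g : G) : pr T n (g : T.Q n) = (g : T.Q 0) := rfl

open scoped Classical in
theorem key (n : ℕ) (x : G) (q : T.Q n) :
    ∑ j, (Om.proj ℤ_[p] T n (al b x⁻¹ j j)).coeff ((x : T.Q n)⁻¹ * q) =
      if pr T n q = (x : T.Q 0) then tQ b n q⁻¹ else 0 := by
  obtain ⟨g, rfl⟩ := QuotientGroup.mk_surjective q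
  change ∑ j, (Om.proj ℤ_[p] T n (al b x⁻¹ j j)).coeff ((x : T.Q n)⁻¹ * (g : T.Q n)) =
      if pr T n (g : T.Q n) = (x : T.Q 0) then tQ b n (g : T.Q n)⁻¹ else 0
  rw [pr_mk]
  split_ifs with h
  · have hu : x⁻¹ * g ∈ T.U 0 := QuotientGroup.eq.1 h.symm
    have h1 : tQ b n (g : T.Q n)⁻¹ = tG b n ((x⁻¹ * g)⁻¹ * x⁻¹) := by
      rw [tG_eq_tQ]
      congr 1
      rw [← QuotientGroup.mk_inv]
      congr 1
      group
    rw [h1]
    unfold tG
    refine Finset.sum_congr rfl fun j _ => ?_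
    obtain ⟨a, ha⟩ := exists_of ℤ_[p] T (x⁻¹ * g)⁻¹ (inv_mem hu)
    have h2 := al_mul_left b (x⁻¹ * g)⁻¹ x⁻¹ a ha j j
    have h3 : b.repr (Lam.of ℤ_[p] T ((x⁻¹ * g)⁻¹ * x⁻¹) • b j) j = a * al b x⁻¹ j j := h2
    rw [h3, coeff_proj_of_mul n (x⁻¹ * g)⁻¹ a _ ha, mul_one]
    congr 1
    rw [← QuotientGroup.mk_inv, ← QuotientGroup.mk_inv, ← QuotientGroup.mk_mul]
    congr 1
    group
  · refine Finset.sum_eq_zero fun j _ => ?_
    by_contra hne
    obtain ⟨w, hw, hw2⟩ := (al b x⁻¹ j j).2 n _ hne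
    apply h
    have h4 : ((w : G) : T.Q n) = ((x⁻¹ * g : G) : T.Q n) := hw2
    have h5 : w⁻¹ * (x⁻¹ * g) ∈ T.U 0 := U_le n (QuotientGroup.eq.1 h4)
    have h6 : x⁻¹ * g ∈ T.U 0 := by
      have := mul_mem hw h5
      rwa [mul_inv_cancel_left] at this
    exact (QuotientGroup.eq.2 h6).symm

open scoped Classical in
theorem trace_MM (n : ℕ) (x : G) :
    PadicInt.toZModPow n (∑ j, (MM b ρ hρ x j j).trace) =
      ∑ q : T.Q n, PadicInt.toZModPow n (if pr T n q = (x : T.Q 0) then tQ b n q⁻¹ else 0) *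
        (rq ρ hρ n q).trace := by
  have h1 : ∀ X : Matrix (Fin v) (Fin v) ℤ_[p],
      PadicInt.toZModPow n X.trace = (rm p v n X).trace := by
    intro X
    unfold Matrix.trace
    rw [map_sum]
    rfl
  have h2 : ∀ j, (rm p v n (MM b ρ hρ x j j)).trace = ∑ q : T.Q n,
      PadicInt.toZModPow n ((Om.proj ℤ_[p] T n (al b x⁻¹ j j)).coeff ((x : T.Q n)⁻¹ * q)) *
        (rq ρ hρ n q).trace := by
    intro j
    rw [MM_apply, map_mul, rh_spec, ← om_proj_incl, rr_apply, ← rq_mk ρ hρ, Finset.mul_sum,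
      Matrix.trace_sum]
    refine Fintype.sum_equiv (Equiv.mulLeft ((x : G) : T.Q n)) _ _ fun u => ?_
    rw [Equiv.coe_mulLeft, inv_mul_cancel_left, map_mul, Matrix.mul_smul, Matrix.trace_smul,
      smul_eq_mul]
  rw [map_sum]
  simp only [h1, h2]
  rw [Finset.sum_comm]
  refine Finset.sum_congr rfl fun q _ => ?_
  rw [← key b n x q, map_sum, Finset.sum_mul]

end hom

end Kx

section K
variable {G : Type} [Group G] {p : ℕ} [Fact p.Prime] {T : Tower G} {E : Type} [AddCommGroup E]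
  [Module (Lam ℤ_[p] T) E] {s : ℕ} (b : Module.Basis (Fin s) (Om ℤ_[p] T) E)

theorem exists_H (v : ℕ) (ρ : G →* Matrix (Fin v) (Fin v) ℤ_[p])
    (hρ : ∀ n, ∀ g ∈ T.U n, ∀ i j, (p : ℤ_[p]) ^ n ∣ (ρ g - 1) i j) :
    ∃ H : ℤ, ∀ n : ℕ, (p : ℤ_[p]) ^ n ∣ ((T.U 0).index : ℤ_[p]) * H -
      ∑ q : T.Q n, tQ b n q⁻¹ * (ρ q.out).trace := by
  classical
  obtain ⟨H, hH⟩ := Kx.finite_trace (Kx.MQ b ρ hρ)
  refine ⟨H, fun n => ?_⟩
  have h1 : ((T.U 0).index : ℤ_[p]) * (H : ℤ_[p]) =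
      ∑ γ : T.Q 0, ∑ j, (Kx.MM b ρ hρ γ.out j j).trace := by
    have hinj : Function.Injective (algebraMap ℤ_[p] ℚ_[p]) := IsFractionRing.injective _ _
    apply hinj
    rw [map_sum, map_mul, map_natCast, map_natCast]
    have h2 : (T.U 0).index = Nat.card (T.Q 0) := rfl
    rw [h2, ← hH]
    refine Finset.sum_congr rfl fun γ _ => ?_
    rw [← Kx.MQ_trace]
    congr 2
    exact (QuotientGroup.out_eq' γ).symm
  rw [Int.cast_natCast, h1, ← Kx.toZMod_eq_zero_iff, map_sub, sub_eq_zero, map_sum, map_sum]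
  simp only [Kx.trace_MM b ρ hρ n]
  rw [Finset.sum_comm]
  refine Finset.sum_congr rfl fun q _ => ?_
  rw [← Finset.sum_mul, map_mul]
  congr 1
  · rw [Finset.sum_eq_single (Kx.pr T n q)]
    · rw [if_pos]
      exact (QuotientGroup.out_eq' _).symm
    · intro γ _ hγ
      rw [if_neg, map_zero]
      intro h
      apply hγ
      rw [h]
      exact (QuotientGroup.out_eq' _).symm
    · intro h; exact absurd (Finset.mem_univ _) h
  · have h3 : Kx.rq ρ hρ n q = Kx.rm p v n (ρ q.out) := by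
      rw [← Kx.rq_mk ρ hρ n q.out]
      congr 1
      exact (QuotientGroup.out_eq' q).symm
    rw [h3]
    unfold Matrix.trace
    rw [map_sum]
    rfl

end K

end Pool.Agent.H371.SA
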