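import Pool.Agent.H371.SA.Defs

set_option autoImplicit false

namespace Pool.Agent.H371.SA

namespace Lx

open Module

section field
variable {k V : Type} [Field k] [AddCommGroup V] [Module k V] [FiniteDimensional k V]

/-- a nilpotent operator with only one size of Jordan blocks -/
theorem exists_jordan (y : Module.End k V) (L : ℕ) (hyL : y ^ L = 0)
    (hker : ∀ x, y x = 0 → ∃ v, (y ^ (L - 1)) v = x) :
    ∃ (r : ℕ) (v : Fin r → V),
      LinearIndependent k (fun q : Fin r × Fin L => (y ^ (q.2 : ℕ)) (v q.1)) ∧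
      ⊤ ≤ Submodule.span k (Set.range (fun q : Fin r × Fin L => (y ^ (q.2 : ℕ)) (v q.1))) := by
  classical
  let r := finrank k (LinearMap.ker y)
  let u : Basis (Fin r) k (LinearMap.ker y) := Module.finBasis k (LinearMap.ker y)
  have hu : ∀ j, ∃ v, (y ^ (L - 1)) v = (u j : V) := fun j => hker _ (u j).2
  choose v hv using hu
  refine ⟨r, v, ?_, ?_⟩
  · rw [Fintype.linearIndependent_iff]
    intro c hc
    -- strong induction on the exponent
    have key : ∀ n : ℕ, ∀ (hn : n < L) (j : Fin r), c (j, ⟨n, hn⟩) = 0 := by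
      intro n
      induction n using Nat.strong_induction_on with
      | _ n ih =>
        intro hn
        have h1 := congrArg (y ^ (L - 1 - n)) hc
        rw [map_sum, map_zero, Fintype.sum_prod_type] at h1
        have h2 : ∀ j : Fin r, ∑ i : Fin L, (y ^ (L - 1 - n)) (c (j, i) • (y ^ (i : ℕ)) (v j)) =
            c (j, ⟨n, hn⟩) • (u j : V) := by
          intro j
          rw [Finset.sum_eq_single (⟨n, hn⟩ : Fin L)]
          · rw [map_smul, ← Module.End.mul_apply, ← pow_add]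
            have : L - 1 - n + n = L - 1 := by omega
            rw [this, hv]
          · intro i _ hi
            rw [map_smul, ← Module.End.mul_apply, ← pow_add]
            rcases lt_trichotomy (i : ℕ) n with h | h | h
            · rw [ih i h i.2 j, zero_smul]
            · exact absurd (Fin.ext h) hi
            · have : L - 1 - n + i = L + (i - n - 1) := by omega
              rw [this, pow_add, hyL, zero_mul, LinearMap.zero_apply, smul_zero]
          · intro h; exact absurd (Finset.mem_univ _) h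
        rw [Finset.sum_congr rfl (fun j _ => h2 j)] at h1
        have h3 : ∑ j, c (j, ⟨n, hn⟩) • u j = 0 := by
          apply Subtype.ext
          rw [Submodule.coe_sum]
          simpa using h1
        have h4 := Fintype.linearIndependent_iff.1 u.linearIndependent _ h3
        exact h4
    rintro ⟨j, i⟩
    exact key i i.2 j
  · -- spanning
    set S := Submodule.span k (Set.range (fun q : Fin r × Fin L => (y ^ (q.2 : ℕ)) (v q.1))) with hS
    have key : ∀ n : ℕ, n ≤ L → ∀ x, (y ^ n) x = 0 → x ∈ S := by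
      intro n
      induction n with
      | zero => intro _ x hx; rw [pow_zero, Module.End.one_apply] at hx; rw [hx]; exact zero_mem _
      | succ n ih =>
        intro hn x hx
        have h1 : (y ^ n) x ∈ LinearMap.ker y := by
          rw [LinearMap.mem_ker, ← Module.End.mul_apply, ← pow_succ']; exact hx
        obtain ⟨c, h2⟩ : ∃ c : Fin r → k, (y ^ n) x = ∑ j, c j • (u j : V) := by
          refine ⟨fun j => u.repr ⟨_, h1⟩ j, ?_⟩
          have := u.sum_repr ⟨_, h1⟩
          have h3 := congrArg (Subtype.val) this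
          rw [Submodule.coe_sum] at h3
          simpa using h3.symm
        have h4 : (y ^ n) (x - ∑ j, c j • (y ^ (L - 1 - n)) (v j)) = 0 := by
          rw [map_sub, map_sum, h2, sub_eq_zero]
          apply Finset.sum_congr rfl
          intro j _
          rw [map_smul, ← Module.End.mul_apply, ← pow_add]
          have : n + (L - 1 - n) = L - 1 := by omega
          rw [this, hv]
        have h5 := ih (by omega) _ h4
        have h6 : ∑ j, c j • (y ^ (L - 1 - n)) (v j) ∈ S := by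
          apply Submodule.sum_mem
          intro j _
          apply Submodule.smul_mem
          apply Submodule.subset_span
          exact ⟨(j, ⟨L - 1 - n, by omega⟩), rfl⟩
        have h7 := add_mem h5 h6
        rwa [sub_add_cancel] at h7
    intro x _
    exact key L le_rfl x (by rw [hyL]; rfl)

/-- the same with the powers of `1 + y` -/
theorem exists_shift (φ : Module.End k V) (L : ℕ) (hL : 0 < L) (hyL : (φ - 1) ^ L = 0)
    (hφ : φ ^ L = 1)
    (hker : ∀ x, (φ - 1) x = 0 → ∃ v, ((φ - 1) ^ (L - 1)) v = x) :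
    ∃ (r : ℕ) (v : Fin r → V),
      r * L = finrank k V ∧
      LinearIndependent k (fun q : Fin r × Fin L => (φ ^ (q.2 : ℕ)) (v q.1)) := by
  classical
  obtain ⟨r, v, hli, hsp⟩ := exists_jordan (φ - 1) L hyL hker
  have hcard : r * L = finrank k V := by
    have := Module.finrank_eq_card_basis (Basis.mk hli hsp)
    rw [this]; simp
  refine ⟨r, v, hcard, ?_⟩
  apply linearIndependent_of_top_le_span_of_card_eq_finrank
  · set S := Submodule.span k (Set.range (fun q : Fin r × Fin L => (φ ^ (q.2 : ℕ)) (v q.1))) with hS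
    have hstep : ∀ j : Fin r, ∀ n : ℕ, (φ ^ n) (v j) ∈ S := by
      intro j n
      have : φ ^ n = φ ^ (n % L) := by
        conv_lhs => rw [← Nat.div_add_mod n L, pow_add, pow_mul, hφ, one_pow, one_mul]
      rw [this]
      apply Submodule.subset_span
      exact ⟨(j, ⟨n % L, Nat.mod_lt _ hL⟩), rfl⟩
    have hinv : ∀ x ∈ S, φ x ∈ S := by
      intro x hx
      rw [hS] at hx
      induction hx using Submodule.span_induction with
      | mem x hx =>
        obtain ⟨⟨j, i⟩, rfl⟩ := hx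
        change φ ((φ ^ (i : ℕ)) (v j)) ∈ S
        rw [← Module.End.mul_apply, ← pow_succ']
        exact hstep j _
      | zero => rw [map_zero]; exact zero_mem _
      | add x y _ _ hx hy => rw [map_add]; exact add_mem hx hy
      | smul a x _ hx => rw [map_smul]; exact Submodule.smul_mem _ _ hx
    have hinv2 : ∀ (n : ℕ) (j : Fin r), ((φ - 1) ^ n) (v j) ∈ S := by
      intro n j
      induction n with
      | zero => simpa using hstep j 0
      | succ n ih =>
        rw [pow_succ', Module.End.mul_apply, LinearMap.sub_apply, Module.End.one_apply]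
        exact sub_mem (hinv _ ih) ih
    refine hsp.trans ?_
    rw [Submodule.span_le]
    rintro _ ⟨⟨j, i⟩, rfl⟩
    exact hinv2 _ j
  · rw [← hcard]; simp

/-- reduction to the element of order `p` -/
theorem ker_le (y : Module.End k V) (p Q : ℕ) (hp : 2 ≤ p) (hQ : 0 < Q)
    (hy : y ^ (Q * p) = 0)
    (hz : ∀ x, (y ^ Q) x = 0 → ∃ v, (y ^ (Q * (p - 1))) v = x) :
    ∀ x, y x = 0 → ∃ v, (y ^ (Q * p - 1)) v = x := by
  classical
  have hmono : ∀ (m : ℕ) x, 0 < m → y x = 0 → (y ^ m) x = 0 := by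
    intro m x hm hx
    obtain ⟨m, rfl⟩ : ∃ n, m = n + 1 := ⟨m - 1, by omega⟩
    rw [pow_succ, Module.End.mul_apply, hx, map_zero]
  have hQp : Q + Q * (p - 1) = Q * p := by
    obtain ⟨p', rfl⟩ : ∃ n, p = n + 1 := ⟨p - 1, by omega⟩
    rw [Nat.add_sub_cancel]; ring
  -- the kernel of `z^(p-1)` is the image of `z`
  have hle : LinearMap.range (y ^ Q) ≤ LinearMap.ker (y ^ (Q * (p - 1))) := by
    rintro _ ⟨x, rfl⟩
    rw [LinearMap.mem_ker, ← Module.End.mul_apply, ← pow_add, add_comm, hQp, hy]; rfl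
  have hle2 : LinearMap.range (y ^ (Q * (p - 1))) = LinearMap.ker (y ^ Q) := by
    apply le_antisymm
    · rintro _ ⟨x, rfl⟩
      rw [LinearMap.mem_ker, ← Module.End.mul_apply, ← pow_add, hQp, hy]; rfl
    · intro x hx
      exact hz x hx
  have heq : LinearMap.range (y ^ Q) = LinearMap.ker (y ^ (Q * (p - 1))) := by
    apply Submodule.eq_of_le_of_finrank_eq hle
    have h1 := LinearMap.finrank_range_add_finrank_ker (y ^ Q)
    have h2 := LinearMap.finrank_range_add_finrank_ker (y ^ (Q * (p - 1)))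
    rw [hle2] at h2
    omega
  intro x hx
  obtain ⟨x1, hx1⟩ := hz x (hmono Q x hQ hx)
  have h3 : y x1 ∈ LinearMap.ker (y ^ (Q * (p - 1))) := by
    rw [LinearMap.mem_ker, ← Module.End.mul_apply, ← pow_succ, pow_succ', Module.End.mul_apply,
      hx1, hx]
  rw [← heq] at h3
  obtain ⟨x2, hx2⟩ := h3
  have h4 : y (x1 - (y ^ (Q - 1)) x2) = 0 := by
    rw [map_sub, ← Module.End.mul_apply, ← pow_succ', Nat.sub_add_cancel hQ, hx2, sub_self]
  have h5 := hmono (Q * (p - 1)) _ (Nat.mul_pos hQ (by omega)) h4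
  refine ⟨x2, ?_⟩
  rw [map_sub, hx1, ← Module.End.mul_apply, ← pow_add, sub_eq_zero] at h5
  have : Q * p - 1 = Q * (p - 1) + (Q - 1) := by omega
  rw [this]; exact h5.symm

end field

/-! ### free permutation actions of order `p` -/
section perm

variable (p : ℕ) [hp : Fact p.Prime] {ι : Type} [Fintype ι] [DecidableEq ι]

omit [Fintype ι] in
/-- an invariant function is a norm -/
theorem exists_norm (σ : Equiv.Perm ι) (hσp : σ ^ p = 1) (hfix : ∀ i, σ i ≠ i)
    (f : ι → ZMod p) (hf : ∀ i, f (σ i) = f i) :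
    ∃ f' : ι → ZMod p, ∀ i, ∑ n ∈ Finset.range p, f' ((σ ^ n) i) = f i := by
  classical
  let S := Equiv.Perm.SameCycle.setoid σ
  let r : ι → ι := fun i => (Quotient.mk S i).out
  have hr : ∀ i, Equiv.Perm.SameCycle σ (r i) i := fun i =>
    Quotient.exact (Quotient.out_eq (Quotient.mk S i))
  have hr2 : ∀ (i : ι) (n : ℕ), r ((σ ^ n) i) = r i := by
    intro i n
    change (Quotient.mk S _).out = (Quotient.mk S _).out
    congr 1
    apply Quotient.sound
    exact ⟨-(n : ℤ), by simp⟩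
  have hfn : ∀ (n : ℕ) (i : ι), f ((σ ^ n) i) = f i := by
    intro n i
    induction n with
    | zero => rfl
    | succ n ih => rw [pow_succ', Equiv.Perm.mul_apply, hf, ih]
  refine ⟨fun i => if i = r i then f i else 0, ?_⟩
  intro i
  -- the unique exponent
  obtain ⟨m, hm⟩ := (hr i).symm
  have hpp : 0 < p := hp.out.pos
  have hex : ∃ n < p, (σ ^ n) i = r i := by
    refine ⟨(m % (p : ℤ)).toNat, ?_, ?_⟩
    · have := Int.emod_lt_of_pos m (by exact_mod_cast hpp : (0 : ℤ) < p)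
      have h0 := Int.emod_nonneg m (by exact_mod_cast hpp.ne' : (p : ℤ) ≠ 0)
      omega
    · have h0 := Int.emod_nonneg m (by exact_mod_cast hpp.ne' : (p : ℤ) ≠ 0)
      rw [← hm]
      have h1 : σ ^ m = σ ^ (m % (p : ℤ)) := by
        conv_lhs => rw [← Int.emod_add_mul_ediv m p, zpow_add, zpow_mul, zpow_natCast, hσp, one_zpow,
          mul_one]
      rw [h1, ← zpow_natCast, Int.toNat_of_nonneg h0]
  obtain ⟨n, hn, hni⟩ := hex
  have huniq : ∀ a ∈ Finset.range p, a ≠ n → (σ ^ a) i ≠ r i := by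
    intro a ha hane hai
    rw [Finset.mem_range] at ha
    -- σ^a i = σ^n i, so σ^(a-n) fixes i, coprime to p
    wlog hlt : a < n generalizing a n
    · exact this a ha hai n (Finset.mem_range.1 (Finset.mem_range.2 hn)) (Ne.symm hane) hni
        (by omega)
    have h1 : (σ ^ (n - a)) ((σ ^ a) i) = (σ ^ a) i := by
      rw [← Equiv.Perm.mul_apply, ← pow_add, Nat.sub_add_cancel hlt.le, hni, hai]
    have hcop : Nat.Coprime (n - a) p := by
      rw [Nat.coprime_comm]
      apply (Nat.Prime.coprime_iff_not_dvd hp.out).2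
      intro hd
      have := Nat.le_of_dvd (by omega) hd
      omega
    -- Bezout
    have h2 : σ ((σ ^ a) i) = (σ ^ a) i := by
      set x := (σ ^ a) i
      have hb := Nat.gcd_eq_gcd_ab (n - a) p
      rw [hcop] at hb
      have h3 : σ = (σ ^ (n - a)) ^ (Nat.gcdA (n - a) p) := by
        have h4 : σ ^ (1 : ℤ) = σ ^ (((n - a : ℕ) : ℤ) * Nat.gcdA (n - a) p + (p : ℤ) * Nat.gcdB (n - a) p) := by
          rw [← hb]; rfl
        rw [zpow_one, zpow_add, zpow_mul, zpow_mul, zpow_natCast, zpow_natCast, hσp, one_zpow,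
          mul_one] at h4
        exact h4
      rw [h3]
      have h5 : ∀ z : ℤ, ((σ ^ (n - a)) ^ z) x = x := by
        intro z
        exact Equiv.Perm.zpow_apply_eq_self_of_apply_eq_self h1 z
      exact h5 _
    exact hfix _ h2
  rw [Finset.sum_eq_single n]
  · simp only
    rw [if_pos (by rw [hr2, hni]), hfn]
  · intro a ha hane
    simp only
    rw [if_neg]
    intro h
    rw [hr2] at h
    exact huniq a ha hane h
  · intro h; exact absurd (Finset.mem_range.2 hn) h

end perm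

section matrix
open Matrix Polynomial

variable (p : ℕ) [hp : Fact p.Prime] {ι : Type} [Fintype ι] [DecidableEq ι]

/-- the characteristic `p` statement -/
theorem exists_shift_matrix (Φ : Matrix ι ι (ZMod p)) (N : ℕ) (hΦ : Φ ^ (p ^ (N + 1)) = 1)
    (σ : Equiv.Perm ι) (hσ : Φ ^ (p ^ N) = σ.permMatrix (ZMod p)) (hσp : σ ^ p = 1)
    (hfix : ∀ i, σ i ≠ i) :
    ∃ (r : ℕ) (v : Fin r → (ι → ZMod p)),
      r * p ^ (N + 1) = Fintype.card ι ∧
      LinearIndependent (ZMod p)
        (fun q : Fin r × Fin (p ^ (N + 1)) => (Φ ^ (q.2 : ℕ)) *ᵥ (v q.1)) := by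
  have hpp : 0 < p := hp.out.pos
  set φ : Module.End (ZMod p) (ι → ZMod p) := Matrix.toLin' Φ with hφ
  have hφn : ∀ n, φ ^ n = Matrix.toLin' (Φ ^ n) := fun n => (Matrix.toLin'_pow Φ n).symm
  have hφL : φ ^ (p ^ (N + 1)) = 1 := by rw [hφn, hΦ, Matrix.toLin'_one]; rfl
  have hpol1 : ∀ n, (φ - 1) ^ (p ^ n) = φ ^ (p ^ n) - 1 := by
    intro n
    have h1 : ((X : (ZMod p)[X]) - 1) ^ (p ^ n) = X ^ (p ^ n) - 1 := by
      rw [sub_pow_char_pow, one_pow]
    have h2 := congrArg (aeval φ) h1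
    simpa using h2
  have hyL : (φ - 1) ^ (p ^ (N + 1)) = 0 := by rw [hpol1, hφL, sub_self]
  have hpol2 : (φ - 1) ^ (p ^ N * (p - 1)) = ∑ n ∈ Finset.range p, (φ ^ (p ^ N)) ^ n := by
    have h1 : ((X : (ZMod p)[X]) - 1) ^ (p - 1) = ∑ n ∈ Finset.range p, X ^ n := by
      have hne : (X : (ZMod p)[X]) - 1 ≠ 0 := X_sub_C_ne_zero (1 : ZMod p)
      apply mul_left_cancel₀ hne
      rw [← pow_succ', Nat.sub_add_cancel hp.out.one_le, mul_comm, geom_sum_mul]
      have := sub_pow_char (R := (ZMod p)[X]) (p := p) X 1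
      rw [this, one_pow]
    have h2 := congrArg (aeval (φ ^ (p ^ N))) h1
    simp only [map_pow, map_sub, aeval_X, map_one, map_sum] at h2
    rw [← h2, ← hpol1, ← pow_mul]
  have hz : ∀ x, ((φ - 1) ^ (p ^ N)) x = 0 → ∃ v, ((φ - 1) ^ (p ^ N * (p - 1))) v = x := by
    intro x hx
    have hval : ∀ (m : ℕ) (w : ι → ZMod p), ((φ ^ (p ^ N)) ^ m) w = w ∘ ⇑(σ ^ m) := by
      intro m
      induction m with
      | zero => intro w; rfl
      | succ m ih =>
        intro w
        rw [pow_succ, Module.End.mul_apply, ih, hφn, hσ, Matrix.toLin'_apply,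
          Matrix.permMatrix_mulVec]
        funext i
        simp only [Function.comp_apply]
        rw [pow_succ', Equiv.Perm.mul_apply]
    have hinv : ∀ i, x (σ i) = x i := by
      intro i
      rw [hpol1, LinearMap.sub_apply, sub_eq_zero] at hx
      have h1 := hval 1 x
      rw [pow_one, pow_one] at h1
      have h2 := congrFun (h1.symm.trans hx) i
      simpa using h2
    obtain ⟨f', hf'⟩ := exists_norm p σ hσp hfix x hinv
    refine ⟨f', ?_⟩
    rw [hpol2]
    funext i
    rw [LinearMap.sum_apply, Finset.sum_apply, ← hf' i]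
    apply Finset.sum_congr rfl
    intro n _
    rw [hval]; rfl
  have hk := ker_le (φ - 1) p (p ^ N) hp.out.two_le (pow_pos hpp N)
    (by rw [← pow_succ]; exact hyL) hz
  rw [← pow_succ] at hk
  obtain ⟨r, v, h1, h2⟩ := exists_shift φ (p ^ (N + 1)) (pow_pos hpp _) hyL hφL hk
  refine ⟨r, v, ?_, ?_⟩
  · rw [h1]; simp
  · have h3 : (fun q : Fin r × Fin (p ^ (N + 1)) => (Φ ^ (q.2 : ℕ)) *ᵥ (v q.1)) =
        (fun q : Fin r × Fin (p ^ (N + 1)) => (φ ^ (q.2 : ℕ)) (v q.1)) := by
      funext q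
      rw [hφn, Matrix.toLin'_apply]
    rw [h3]; exact h2

omit [Fintype ι] in
theorem permMatrix_map {R S : Type} [CommRing R] [CommRing S] (f : R →+* S)
    (σ : Equiv.Perm ι) : (σ.permMatrix R).map f = σ.permMatrix S := by
  ext i j
  simp [Equiv.Perm.permMatrix, PEquiv.toMatrix_apply, apply_ite f]

/-- the trace of a matrix of `p`-power order whose power of order `p` permutes a basis freely -/
theorem trace_eq_zero (Φ : Matrix ι ι ℤ_[p]) (N : ℕ) (hΦ : Φ ^ (p ^ (N + 1)) = 1)
    (σ : Equiv.Perm ι) (hσ : Φ ^ (p ^ N) = σ.permMatrix ℤ_[p]) (hσp : σ ^ p = 1)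
    (hfix : ∀ i, σ i ≠ i) : Φ.trace = 0 := by
  have hpp : 0 < p := hp.out.pos
  set L := p ^ (N + 1) with hL
  have hL0 : 0 < L := pow_pos hpp _
  have hL1 : 1 < L := Nat.one_lt_pow (by omega) hp.out.one_lt
  let red : ℤ_[p] →+* ZMod p := PadicInt.toZMod
  set Φ' : Matrix ι ι (ZMod p) := Φ.map red with hΦ'
  have hpow : ∀ n, Φ' ^ n = (Φ ^ n).map red := by
    intro n
    rw [hΦ']
    exact (map_pow (red.mapMatrix) Φ n).symm
  obtain ⟨r, v, hcard, hli⟩ := exists_shift_matrix p Φ' N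
    (by rw [hpow, hΦ]; exact map_one (red.mapMatrix)) σ
    (by rw [hpow, hσ]; exact permMatrix_map red σ) hσp hfix
  -- lift the vectors
  have hsurj : Function.Surjective red := ZMod.ringHom_surjective red
  have hv : ∀ j, ∃ w : ι → ℤ_[p], (fun i => red (w i)) = v j := by
    intro j
    choose w hw using fun i => hsurj (v j i)
    exact ⟨w, funext hw⟩
  choose w hw using hv
  obtain ⟨e⟩ : Nonempty (ι ≃ Fin r × Fin L) := by
    apply Fintype.card_eq.1
    rw [← hcard, Fintype.card_prod, Fintype.card_fin, Fintype.card_fin]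
  -- the matrix of the new basis
  let F : Fin r × Fin L → (ι → ℤ_[p]) := fun q => (Φ ^ (q.2 : ℕ)) *ᵥ (w q.1)
  let Pm : Matrix ι ι ℤ_[p] := fun y x => F (e x) y
  have hred : ∀ q, (fun i => red (F q i)) = (Φ' ^ (q.2 : ℕ)) *ᵥ (v q.1) := by
    intro q
    rw [hpow, ← hw]
    funext i
    exact RingHom.map_mulVec red _ _ i
  have hPunit : IsUnit Pm := by
    rw [Matrix.isUnit_iff_isUnit_det]
    have h1 : IsUnit (Pm.map red) := by
      apply Matrix.linearIndependent_cols_iff_isUnit.1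
      have h2 : (Pm.map red).col = (fun q : Fin r × Fin L => (Φ' ^ (q.2 : ℕ)) *ᵥ (v q.1)) ∘ e := by
        funext x
        simp only [Function.comp_apply]
        rw [← hred]
        rfl
      rw [h2]
      exact hli.comp _ e.injective
    rw [Matrix.isUnit_iff_isUnit_det] at h1
    have h3 : (Pm.map red).det = red Pm.det := by
      rw [RingHom.map_det]; rfl
    rw [h3] at h1
    by_contra hcon
    have h4 : Pm.det ∈ IsLocalRing.maximalIdeal ℤ_[p] := hcon
    rw [← PadicInt.ker_toZMod, RingHom.mem_ker] at h4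
    rw [show red Pm.det = 0 from h4] at h1
    exact not_isUnit_zero h1
  -- the shift
  let sh : Fin r × Fin L → Fin r × Fin L := fun q => (q.1, ⟨((q.2 : ℕ) + 1) % L, Nat.mod_lt _ hL0⟩)
  have hsh : ∀ q, Φ *ᵥ (F q) = F (sh q) := by
    intro q
    change Φ *ᵥ ((Φ ^ (q.2 : ℕ)) *ᵥ (w q.1)) = (Φ ^ (((q.2 : ℕ) + 1) % L)) *ᵥ (w q.1)
    rw [Matrix.mulVec_mulVec, ← pow_succ']
    congr 1
    conv_lhs => rw [← Nat.div_add_mod ((q.2 : ℕ) + 1) L, pow_add, pow_mul, hΦ, one_pow, one_mul]
  have hshne : ∀ q, sh q ≠ q := by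
    intro q h
    have h1 : ((q.2 : ℕ) + 1) % L = q.2 := congrArg (fun x => ((x.2 : Fin L) : ℕ)) h
    rcases Nat.lt_or_ge ((q.2 : ℕ) + 1) L with h2 | h2
    · rw [Nat.mod_eq_of_lt h2] at h1; omega
    · have h3 : (q.2 : ℕ) + 1 = L := by have := q.2.2; omega
      rw [h3, Nat.mod_self] at h1
      omega
  let Pi : Matrix ι ι ℤ_[p] := fun y x => if y = e.symm (sh (e x)) then 1 else 0
  have hmul : Φ * Pm = Pm * Pi := by
    ext y x
    have h1 : (Φ * Pm) y x = F (sh (e x)) y := congrFun (hsh (e x)) y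
    have h2 : (Pm * Pi) y x = F (sh (e x)) y := by
      rw [Matrix.mul_apply, Finset.sum_eq_single (e.symm (sh (e x)))]
      · have h2 : Pi (e.symm (sh (e x))) x = 1 := if_pos rfl
        rw [h2, mul_one]
        change F (e (e.symm (sh (e x)))) y = _
        rw [Equiv.apply_symm_apply]
      · intro b _ hb
        have h2 : Pi b x = 0 := if_neg hb
        rw [h2, mul_zero]
      · intro h; exact absurd (Finset.mem_univ _) h
    rw [h1, h2]
  have htr : Pi.trace = 0 := by
    rw [Matrix.trace]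
    apply Finset.sum_eq_zero
    intro x _
    rw [Matrix.diag_apply]
    apply if_neg
    intro h
    apply hshne (e x)
    rw [← e.apply_symm_apply (sh (e x)), ← h]
  obtain ⟨P', hP'⟩ := hPunit.exists_right_inv
  have hP'' : P' * Pm = 1 := mul_eq_one_comm.1 hP'
  have h1 : Φ = Pm * Pi * P' := by
    rw [← hmul, Matrix.mul_assoc, hP', Matrix.mul_one]
  rw [h1, Matrix.trace_mul_cycle, hP'', Matrix.one_mul, htr]

end matrix

section module

open Matrix

variable {G : Type} [Group G]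

/-! conjugation -/

section conj
variable (k : Type) [CommRing k] (T : Tower G)

theorem proj_of (n : ℕ) (g : G) :
    Lam.proj k T n (Lam.of k T g) = MonoidAlgebra.single (g : T.Q n) (1 : k) := rfl

theorem Lam_ext {a b : Lam k T} (h : ∀ n, Lam.proj k T n a = Lam.proj k T n b) : a = b :=
  Subtype.ext (funext h)

theorem Om_ext_incl {a b : Om k T} (h : Om.incl k T a = Om.incl k T b) : a = b :=
  Subtype.ext h

theorem mem_N {n : ℕ} (q : T.Q n) (g : G) (hg : (g : T.Q n) = q) :
    q ∈ T.N n ↔ ((g : G) : T.Q n) ∈ T.N n := by rw [hg]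

theorem mk_mem_N {n : ℕ} (g : G) : ((g : G) : T.Q n) ∈ T.N n ↔ g ∈ T.U 0 := by
  have hle : T.U n ≤ T.U 0 := antitone_nat_of_succ_le T.anti (Nat.zero_le n)
  constructor
  · rintro ⟨u, hu, h⟩
    have h1 : u⁻¹ * g ∈ T.U n := QuotientGroup.eq.1 h
    have h2 := mul_mem hu (hle h1)
    rwa [mul_inv_cancel_left] at h2
  · intro h; exact ⟨g, h, rfl⟩

theorem N_conj {n : ℕ} (q x : T.Q n) (hx : x ∈ T.N n) : q * x * q⁻¹ ∈ T.N n := by
  obtain ⟨g, rfl⟩ := QuotientGroup.mk_surjective q
  obtain ⟨y, rfl⟩ := QuotientGroup.mk_surjective x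
  rw [mk_mem_N] at hx
  rw [← QuotientGroup.mk_mul, ← QuotientGroup.mk_inv, ← QuotientGroup.mk_mul, mk_mem_N]
  exact (T.nor 0).conj_mem y hx g

theorem conj_mem (g : G) (a : Om k T) : ∃ a' : Om k T,
    Lam.of k T g * Om.incl k T a = Om.incl k T a' * Lam.of k T g := by
  refine ⟨⟨Lam.of k T g * Om.incl k T a * Lam.of k T g⁻¹, ?_⟩, ?_⟩
  · intro n q hq
    rw [map_mul, map_mul, proj_of, proj_of, MonoidAlgebra.coeff_mul_single_apply,
      MonoidAlgebra.coeff_single_mul_apply, one_mul, mul_one] at hq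
    have h1 := a.2 n _ hq
    have h2 := N_conj T ((g : G) : T.Q n) _ h1
    have h3 : ((g : G) : T.Q n) * (((g : G) : T.Q n)⁻¹ * (q * (((g⁻¹ : G) : T.Q n))⁻¹)) *
        ((g : G) : T.Q n)⁻¹ = q := by
      rw [QuotientGroup.mk_inv]; group
    rwa [h3] at h2
  · change _ = (Lam.of k T g * Om.incl k T a * Lam.of k T g⁻¹) * Lam.of k T g
    rw [mul_assoc _ _ (Lam.of k T g), ← map_mul, inv_mul_cancel, map_one, mul_one]

theorem of_mem (g : G) (hg : g ∈ T.U 0) : ∃ a : Om k T, Om.incl k T a = Lam.of k T g := by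
  classical
  refine ⟨⟨Lam.of k T g, ?_⟩, rfl⟩
  intro n q hq
  rw [proj_of, MonoidAlgebra.coeff_single, Finsupp.single_apply] at hq
  have h : ((g : G) : T.Q n) = q := by
    by_contra h; rw [if_neg h] at hq; exact hq rfl
  rw [← h]
  exact (mk_mem_N T g).2 hg

end conj

variable {p : ℕ} [hp : Fact p.Prime] {T : Tower G} {E : Type} [AddCommGroup E]
  [Module (Lam ℤ_[p] T) E] {s : ℕ} (b : Module.Basis (Fin s) (Om ℤ_[p] T) E)

/-- the coefficients of the action of `g` -/
noncomputable def al (g : G) (k j : Fin s) : Om ℤ_[p] T := b.repr (Lam.of ℤ_[p] T g • b j) k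

theorem al_spec (g : G) (j : Fin s) : Lam.of ℤ_[p] T g • b j = ∑ k, Om.incl ℤ_[p] T (al b g k j) • b k := by
  exact (b.sum_repr _).symm

theorem al_unique (x : E) (a : Fin s → Om ℤ_[p] T) (h : x = ∑ k, Om.incl ℤ_[p] T (a k) • b k)
    (k : Fin s) : b.repr x k = a k := by
  have h1 : x = ∑ k, a k • b k := h
  rw [h1, b.repr_sum_self]

/-- the matrix `g⁻¹ α(g)` (transposed) -/
noncomputable def cc (g : G) : Matrix (Fin s) (Fin s) (Lam ℤ_[p] T) :=
  fun j k => Lam.of ℤ_[p] T g⁻¹ * Om.incl ℤ_[p] T (al b g k j)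

theorem incl_al (g : G) (k j : Fin s) :
    Om.incl ℤ_[p] T (al b g k j) = Lam.of ℤ_[p] T g * cc b g j k := by
  change _ = Lam.of ℤ_[p] T g * (Lam.of ℤ_[p] T g⁻¹ * Om.incl ℤ_[p] T (al b g k j))
  rw [← mul_assoc, ← map_mul, mul_inv_cancel, map_one, one_mul]

theorem cc_mul (g h : G) : cc b (g * h) = cc b h * cc b g := by
  ext j k
  rw [Matrix.mul_apply]
  choose a' ha' using fun l => conj_mem ℤ_[p] T g (al b h l j)
  have h1 : Lam.of ℤ_[p] T (g * h) • b j =
      ∑ k, Om.incl ℤ_[p] T (∑ l, a' l * al b g k l) • b k := by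
    rw [map_mul, mul_smul, al_spec b h j, Finset.smul_sum]
    have h2 : ∀ l, Lam.of ℤ_[p] T g • Om.incl ℤ_[p] T (al b h l j) • b l =
        ∑ k, Om.incl ℤ_[p] T (a' l * al b g k l) • b k := by
      intro l
      rw [← mul_smul, ha', mul_smul, al_spec b g l, Finset.smul_sum]
      apply Finset.sum_congr rfl
      intro k _
      rw [← mul_smul, map_mul]
    rw [Finset.sum_congr rfl (fun l _ => h2 l), Finset.sum_comm]
    apply Finset.sum_congr rfl
    intro k _
    rw [map_sum, Finset.sum_smul]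
  have h3 : al b (g * h) k j = ∑ l, a' l * al b g k l := al_unique b _ _ h1 k
  change Lam.of ℤ_[p] T (g * h)⁻¹ * Om.incl ℤ_[p] T (al b (g * h) k j) = _
  rw [h3, map_sum, Finset.mul_sum]
  apply Finset.sum_congr rfl
  intro l _
  rw [map_mul, incl_al b g k l, ← mul_assoc (Om.incl ℤ_[p] T (a' l)), ← ha' l]
  change _ = (Lam.of ℤ_[p] T h⁻¹ * Om.incl ℤ_[p] T (al b h l j)) * cc b g l k
  rw [_root_.mul_inv_rev, map_mul]
  have h4 : Lam.of ℤ_[p] T g⁻¹ * Lam.of ℤ_[p] T g = 1 := by
    rw [← map_mul, inv_mul_cancel, map_one]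
  calc Lam.of ℤ_[p] T h⁻¹ * Lam.of ℤ_[p] T g⁻¹ *
        (Lam.of ℤ_[p] T g * Om.incl ℤ_[p] T (al b h l j) * cc b g l k)
      = Lam.of ℤ_[p] T h⁻¹ * (Lam.of ℤ_[p] T g⁻¹ * Lam.of ℤ_[p] T g) *
        (Om.incl ℤ_[p] T (al b h l j) * cc b g l k) := by simp only [mul_assoc]
    _ = _ := by rw [h4, mul_one, mul_assoc]

theorem cc_of_mem (u : G) (hu : u ∈ T.U 0) : cc b u = 1 := by
  ext j k
  obtain ⟨a, ha⟩ := of_mem ℤ_[p] T u hu
  have h1 : Lam.of ℤ_[p] T u • b j =
      ∑ k, Om.incl ℤ_[p] T (if k = j then a else 0) • b k := by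
    rw [Finset.sum_eq_single j]
    · rw [if_pos rfl, ha]
    · intro k _ hk
      rw [if_neg hk, map_zero, zero_smul]
    · intro h; exact absurd (Finset.mem_univ _) h
  have h3 : al b u k j = if k = j then a else 0 := al_unique b _ _ h1 k
  change Lam.of ℤ_[p] T u⁻¹ * Om.incl ℤ_[p] T (al b u k j) = _
  rw [h3, Matrix.one_apply]
  by_cases h : j = k
  · rw [if_pos h.symm, if_pos h, ha, ← map_mul, inv_mul_cancel, map_one]
  · rw [if_neg (fun h' => h h'.symm), if_neg h, map_zero, mul_zero]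

/-- the projection of `cc` -/
noncomputable def dd (n : ℕ) (g : G) : Matrix (Fin s) (Fin s) (MonoidAlgebra ℤ_[p] (T.Q n)) :=
  (cc b g).map (Lam.proj ℤ_[p] T n)

theorem dd_mul (n : ℕ) (g h : G) : dd b n (g * h) = dd b n h * dd b n g := by
  rw [dd, cc_mul]
  ext j k
  simp only [dd, Matrix.map_apply, Matrix.mul_apply, map_sum, map_mul]

theorem dd_of_mem (n : ℕ) (u : G) (hu : u ∈ T.U 0) : dd b n u = 1 := by
  rw [dd, cc_of_mem b u hu]
  exact Matrix.map_one _ (map_zero _) (map_one _)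

theorem dd_supp (n : ℕ) (g : G) (j k : Fin s) (x : T.Q n)
    (hx : (dd b n g j k).coeff x ≠ 0) : (g : T.Q n) * x ∈ T.N n := by
  change (Lam.proj ℤ_[p] T n (Lam.of ℤ_[p] T g⁻¹ * Om.incl ℤ_[p] T (al b g k j))).coeff x ≠ 0 at hx
  rw [map_mul, proj_of, MonoidAlgebra.coeff_single_mul_apply, one_mul] at hx
  have h1 := (al b g k j).2 n _ hx
  rwa [QuotientGroup.mk_inv, inv_inv] at h1

theorem tG_eq (n : ℕ) (g : G) : tG b n g = ∑ j, (dd b n g j j).coeff ((g : T.Q n))⁻¹ := by
  apply Finset.sum_congr rfl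
  intro j _
  change (Lam.proj ℤ_[p] T n (Om.incl ℤ_[p] T (al b g j j))).coeff 1 = _
  rw [incl_al, map_mul, proj_of, MonoidAlgebra.coeff_single_mul_apply, one_mul, mul_one]
  rfl

theorem dd_congr (n : ℕ) (g h : G) (hgh : g⁻¹ * h ∈ T.U 0) : dd b n g = dd b n h := by
  have h1 : h = g * (g⁻¹ * h) := by group
  rw [h1, dd_mul, dd_of_mem b n _ hgh, Matrix.one_mul]

theorem tG_eq_tQ' (n : ℕ) (g : G) : tG b n g = tQ b n (g : T.Q n) := by
  rw [tQ, tG_eq, tG_eq]
  have h1 : ((Quotient.out (g : T.Q n) : G) : T.Q n) = g := QuotientGroup.out_eq' _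
  have hle : T.U n ≤ T.U 0 := antitone_nat_of_succ_le T.anti (Nat.zero_le n)
  have h2 : g⁻¹ * Quotient.out (g : T.Q n) ∈ T.U 0 := hle (QuotientGroup.eq.1 h1.symm)
  rw [h1, dd_congr b n g _ h2]

/-- the matrix of `g` on the coinvariants -/
noncomputable def mm (n : ℕ) (g : G) : Matrix (Fin s × T.N n) (Fin s × T.N n) ℤ_[p] :=
  fun x y => (dd b n g x.1 y.1).coeff ((x.2 : T.Q n)⁻¹ * ((g : G) : T.Q n)⁻¹ * (y.2 : T.Q n))

theorem coeff_mul_fin {H : Type} [Group H] [Fintype H] (x y : MonoidAlgebra ℤ_[p] H) (c : H) :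
    (x * y).coeff c = ∑ a : H, x.coeff a * y.coeff (a⁻¹ * c) := by
  rw [MonoidAlgebra.coeff_mul_apply_left, Finsupp.sum_fintype]
  intro i; rw [zero_mul]

theorem mm_mul (n : ℕ) (g h : G) : mm b n (g * h) = mm b n h * mm b n g := by
  classical
  ext ⟨j, w⟩ ⟨k, w'⟩
  rw [Matrix.mul_apply, Fintype.sum_prod_type]
  change (dd b n (g * h) j k).coeff _ = _
  rw [dd_mul, Matrix.mul_apply, MonoidAlgebra.coeff_sum, Finset.sum_apply']
  apply Finset.sum_congr rfl
  intro l _
  rw [coeff_mul_fin, ← Equiv.sum_comp (Equiv.mulLeft ((w : T.Q n)⁻¹ * ((h : G) : T.Q n)⁻¹))]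
  have hsupp : ∀ v : T.Q n, v ∉ Finset.univ.filter (fun v => v ∈ T.N n) →
      (dd b n h j l).coeff ((w : T.Q n)⁻¹ * ((h : G) : T.Q n)⁻¹ * v) = 0 := by
    intro v hv
    by_contra hcon
    apply hv
    rw [Finset.mem_filter]
    refine ⟨Finset.mem_univ _, ?_⟩
    have h1 := dd_supp b n h j l _ hcon
    have h2 : ((h : G) : T.Q n) * ((w : T.Q n)⁻¹ * ((h : G) : T.Q n)⁻¹ * v) =
      (((h : G) : T.Q n) * (w : T.Q n) * ((h : G) : T.Q n)⁻¹)⁻¹ * v := by group
    rw [h2] at h1
    have h3 := N_conj T ((h : G) : T.Q n) _ w.2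
    exact (Subgroup.mul_mem_cancel_left _ (inv_mem h3)).1 h1
  rw [← Finset.sum_subset (Finset.subset_univ (Finset.univ.filter (fun v => v ∈ T.N n)))
    (fun v _ hv => by
      simp only [Equiv.coe_mulLeft]
      rw [hsupp v hv, zero_mul])]
  rw [Finset.sum_subtype (Finset.univ.filter (fun v => v ∈ T.N n)) (p := fun v => v ∈ T.N n)
    (fun v => by simp)]
  apply Finset.sum_congr rfl
  intro v _
  simp only [Equiv.coe_mulLeft]
  change _ = (dd b n h j l).coeff ((w : T.Q n)⁻¹ * ((h : G) : T.Q n)⁻¹ * (v : T.Q n)) *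
    (dd b n g l k).coeff ((v : T.Q n)⁻¹ * ((g : G) : T.Q n)⁻¹ * (w' : T.Q n))
  congr 2
  rw [QuotientGroup.mk_mul]
  group

/-- elements of `U 0` act by permutations -/
theorem mm_of_mem (n : ℕ) [DecidableEq (T.N n)] (u : G) (hu : u ∈ T.U 0) (z : T.N n) (hz : (z : T.Q n) = u) :
    mm b n u = Equiv.Perm.permMatrix ℤ_[p] ((Equiv.refl (Fin s)).prodCongr (Equiv.mulLeft z)) := by
  ext ⟨j, w⟩ ⟨k, w'⟩
  change (dd b n u j k).coeff _ = PEquiv.toMatrix _ _ _
  rw [dd_of_mem b n u hu]
  rw [PEquiv.toMatrix_apply, Equiv.toPEquiv_apply]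
  simp only [Option.mem_def, Option.some.injEq, Equiv.prodCongr_apply, Prod.map_apply,
    Equiv.refl_apply, Prod.mk.injEq, Equiv.coe_mulLeft]
  rw [Matrix.one_apply]
  by_cases hjk : j = k
  · rw [if_pos hjk, MonoidAlgebra.one_def, MonoidAlgebra.coeff_single]
    have hiff : (1 : T.Q n) = (w : T.Q n)⁻¹ * (u : T.Q n)⁻¹ * (w' : T.Q n) ↔ z * w = w' := by
      rw [← hz]
      constructor
      · intro h
        apply Subtype.ext
        rw [Subgroup.coe_mul]
        rw [mul_assoc, eq_comm, inv_mul_eq_one, eq_inv_mul_iff_mul_eq] at h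
        exact h
      · intro h
        rw [← h, Subgroup.coe_mul]
        group
    by_cases h : z * w = w'
    · rw [if_pos ⟨hjk, h⟩, ← hiff.2 h, Finsupp.single_eq_same]
    · rw [if_neg (fun h' => h h'.2), Finsupp.single_eq_of_ne (fun h' => h (hiff.1 h'.symm))]
  · rw [if_neg hjk, if_neg (fun h => hjk h.1)]
    rfl

theorem trace_mm (n : ℕ) (g : G) :
    (mm b n g).trace = ∑ w : T.N n, tQ b n ((w : T.Q n)⁻¹ * g * w) := by
  rw [Matrix.trace, Fintype.sum_prod_type, Finset.sum_comm]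
  apply Finset.sum_congr rfl
  intro w _
  obtain ⟨u, hu, hw⟩ := w.2
  change (u : T.Q n) = w at hw
  rw [← hw, ← QuotientGroup.mk_inv, ← QuotientGroup.mk_mul, ← QuotientGroup.mk_mul, ← tG_eq_tQ',
    tG_eq]
  apply Finset.sum_congr rfl
  intro j _
  have h1 : dd b n (u⁻¹ * g * u) = dd b n g := by
    rw [dd_mul, dd_mul, dd_of_mem b n u hu, dd_of_mem b n _ (inv_mem hu), Matrix.one_mul,
      Matrix.mul_one]
  rw [h1]
  change (dd b n g j j).coeff ((w : T.Q n)⁻¹ * ((g : G) : T.Q n)⁻¹ * (w : T.Q n)) = _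
  rw [← hw]
  congr 1
  rw [QuotientGroup.mk_mul, QuotientGroup.mk_mul, QuotientGroup.mk_inv]
  group

end module

end Lx

section L
variable {G : Type} [Group G] {p : ℕ} [Fact p.Prime] {T : Tower G} {E : Type} [AddCommGroup E]
  [Module (Lam ℤ_[p] T) E] {s : ℕ} (b : Module.Basis (Fin s) (Om ℤ_[p] T) E)

open Lx in
theorem class_sum (n : ℕ) (hp : ∃ m, Nat.card (T.Q n) = p ^ m) (q : T.Q n)
    (hq : ∃ i : ℕ, q ^ i ≠ 1 ∧ q ^ i ∈ T.N n) :
    ∑ w : T.N n, tQ b n ((w : T.Q n)⁻¹ * q * w) = 0 := by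
  classical
  have hpp : p.Prime := Fact.out
  obtain ⟨m, hm⟩ := hp
  obtain ⟨i, hi1, hiN⟩ := hq
  obtain ⟨g, rfl⟩ := QuotientGroup.mk_surjective q
  set q : T.Q n := (g : T.Q n) with hqg
  rw [← trace_mm b n g]
  -- the order of q
  obtain ⟨a, ha, hoa⟩ : ∃ a ≤ m, orderOf q = p ^ a := by
    apply (Nat.dvd_prime_pow hpp).1
    rw [← hm]; exact orderOf_dvd_natCard q
  have ha0 : a ≠ 0 := by
    rintro rfl
    rw [pow_zero, orderOf_eq_one_iff] at hoa
    exact hi1 (by rw [hoa, one_pow])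
  obtain ⟨N, rfl⟩ : ∃ N, a = N + 1 := ⟨a - 1, by omega⟩
  have hqN : q ^ (p ^ (N + 1)) = 1 := by rw [← hoa]; exact pow_orderOf_eq_one q
  have hz1 : q ^ (p ^ N) ≠ 1 := by
    intro h
    have h1 := orderOf_dvd_of_pow_eq_one h
    rw [hoa] at h1
    have h2 := (Nat.pow_dvd_pow_iff_le_right hpp.one_lt).1 h1
    omega
  have hzN : q ^ (p ^ N) ∈ T.N n := by
    obtain ⟨c, hc, hgc⟩ : ∃ c ≤ N + 1, Nat.gcd i (p ^ (N + 1)) = p ^ c :=
      (Nat.dvd_prime_pow hpp).1 (Nat.gcd_dvd_right _ _)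
    have hcN : c ≤ N := by
      by_contra hcon
      have : c = N + 1 := by omega
      apply hi1
      apply orderOf_dvd_iff_pow_eq_one.1
      rw [hoa, ← this, ← hgc]
      exact Nat.gcd_dvd_left _ _
    have h1 : q ^ (p ^ c) ∈ T.N n := by
      have hb := Nat.gcd_eq_gcd_ab i (p ^ (N + 1))
      rw [hgc] at hb
      rw [← zpow_natCast, hb, zpow_add, zpow_mul, zpow_mul, zpow_natCast, zpow_natCast, hqN,
        one_zpow, mul_one]
      exact zpow_mem hiN _
    have h2 : p ^ N = p ^ c * p ^ (N - c) := by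
      rw [← pow_add]; congr 1; omega
    rw [h2, pow_mul]
    exact pow_mem h1 _
  -- powers of the matrix
  have hmm1 : ∀ u ∈ T.U n, mm b n u = 1 := by
    intro u hu
    have hle : T.U n ≤ T.U 0 := antitone_nat_of_succ_le T.anti (Nat.zero_le n)
    rw [mm_of_mem b n u (hle hu) 1 (by
      rw [Subgroup.coe_one]
      exact ((QuotientGroup.eq_one_iff u).2 hu).symm)]
    have : (Equiv.refl (Fin s)).prodCongr (Equiv.mulLeft (1 : T.N n)) = 1 := by
      ext x <;> simp
    rw [this]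
    exact Matrix.permMatrix_one
  have hpow : ∀ j : ℕ, (mm b n g) ^ j = mm b n (g ^ j) := by
    intro j
    induction j with
    | zero => rw [pow_zero, pow_zero, hmm1 1 (one_mem _)]
    | succ j ih => rw [pow_succ, ih, pow_succ', mm_mul]
  let z : T.N n := ⟨q ^ (p ^ N), hzN⟩
  apply trace_eq_zero p (mm b n g) N
    (σ := (Equiv.refl (Fin s)).prodCongr (Equiv.mulLeft z))
  · rw [hpow]
    apply hmm1
    rw [← QuotientGroup.eq_one_iff, QuotientGroup.mk_pow]
    exact hqN
  · rw [hpow]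
    apply mm_of_mem
    · rw [← mk_mem_N T (n := n), QuotientGroup.mk_pow]
      exact hzN
    · rw [QuotientGroup.mk_pow]
  · have h1 : ∀ j : ℕ, ((Equiv.refl (Fin s)).prodCongr (Equiv.mulLeft z) : Equiv.Perm _) ^ j =
        (Equiv.refl (Fin s)).prodCongr (Equiv.mulLeft (z ^ j)) := by
      intro j
      induction j with
      | zero => ext x <;> simp
      | succ j ih =>
        rw [pow_succ, ih]
        ext x <;> simp [pow_succ, mul_assoc]
    rw [h1]
    have h2 : z ^ p = 1 := by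
      apply Subtype.ext
      rw [Subgroup.coe_pow, Subgroup.coe_one]
      change (q ^ (p ^ N)) ^ p = 1
      rw [← pow_mul, ← pow_succ]; exact hqN
    rw [h2]
    ext x <;> simp
  · rintro ⟨j, w⟩ h
    have h1 : z * w = w := congrArg Prod.snd h
    have h2 : z = 1 := by simpa using h1
    exact hz1 (congrArg Subtype.val h2)

end L

end Pool.Agent.H371.SA
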