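import Pool.Agent.H371.SA.TK
import Pool.Agent.H371.SA.TL

set_option autoImplicit false

namespace Pool.Agent.H371.SA

section Mx
variable {G : Type} [Group G] {p : ℕ} [Fact p.Prime] {T : Tower G} {E : Type} [AddCommGroup E]
  [Module (Lam ℤ_[p] T) E] {s : ℕ} (b : Module.Basis (Fin s) (Om ℤ_[p] T) E)

/-- antitone -/
theorem Tower.anti_le (T : Tower G) {m n : ℕ} (h : m ≤ n) : T.U n ≤ T.U m := by
  induction n, h using Nat.le_induction with
  | base => exact le_rfl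
  | succ n _ ih => exact (T.anti n).trans ih

/-- the properties of functions used below -/
def UC (p : ℕ) [Fact p.Prime] (T : Tower G) (f : G → ℤ_[p]) : Prop :=
  (∀ n, ∀ g h : G, g⁻¹ * h ∈ T.U n → (p : ℤ_[p]) ^ n ∣ f g - f h) ∧
  (∀ g h : G, f (h⁻¹ * g * h) = f g)

theorem UC.zero : UC p T (0 : G → ℤ_[p]) := ⟨fun n g h _ => by simp, fun g h => rfl⟩

theorem UC.add {f g : G → ℤ_[p]} (hf : UC p T f) (hg : UC p T g) : UC p T (f + g) := by
  refine ⟨fun n x y h => ?_, fun x y => ?_⟩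
  · have := dvd_add (hf.1 n x y h) (hg.1 n x y h)
    simp only [Pi.add_apply]
    convert this using 1
    ring
  · rw [Pi.add_apply, hf.2, hg.2]; rfl

theorem UC.neg {f : G → ℤ_[p]} (hf : UC p T f) : UC p T (-f) := by
  refine ⟨fun n x y h => ?_, fun x y => ?_⟩
  · have := (dvd_neg (α := ℤ_[p])).2 (hf.1 n x y h)
    simp only [Pi.neg_apply]
    convert this using 1
    ring
  · rw [Pi.neg_apply, hf.2]; rfl

theorem UC.of_char (v : ℕ) (ρ : G →* Matrix (Fin v) (Fin v) ℤ_[p])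
    (hρ : ∀ n, ∀ g ∈ T.U n, ∀ i j, (p : ℤ_[p]) ^ n ∣ (ρ g - 1) i j) :
    UC p T (fun g => (ρ g).trace) := by
  refine ⟨fun n g h hgh => ?_, fun g h => ?_⟩
  · have h1 : ρ g - ρ h = - (ρ g * (ρ (g⁻¹ * h) - 1)) := by
      rw [mul_sub, ← map_mul, mul_one, mul_inv_cancel_left]; abel
    have h2 : (ρ g).trace - (ρ h).trace = -∑ i, (ρ g * (ρ (g⁻¹ * h) - 1)) i i := by
      rw [← Matrix.trace_sub, h1, Matrix.trace_neg]; rfl
    rw [h2]
    refine (dvd_neg (α := ℤ_[p])).2 (Finset.dvd_sum fun i _ => ?_)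
    rw [Matrix.mul_apply]
    exact Finset.dvd_sum fun j _ => Dvd.dvd.mul_left (hρ n _ hgh j i) _
  · change (ρ (h⁻¹ * g * h)).trace = (ρ g).trace
    rw [map_mul, map_mul, Matrix.trace_mul_comm, ← mul_assoc, ← map_mul, mul_inv_cancel, map_one,
      one_mul]

/-- the congruences -/
def Cong (b : Module.Basis (Fin s) (Om ℤ_[p] T) E) (f : G → ℤ_[p]) : Prop :=
  ∃ H : ℤ, ∀ n : ℕ, (p : ℤ_[p]) ^ n ∣ ((T.U 0).index : ℤ_[p]) * H -
      ∑ q : T.Q n, tQ b n q⁻¹ * f q.out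

theorem Cong.zero : Cong b (0 : G → ℤ_[p]) := ⟨0, fun n => by simp⟩

theorem Cong.add {f g : G → ℤ_[p]} (hf : Cong b f) (hg : Cong b g) : Cong b (f + g) := by
  obtain ⟨H, hH⟩ := hf
  obtain ⟨H', hH'⟩ := hg
  refine ⟨H + H', fun n => ?_⟩
  have := dvd_add (hH n) (hH' n)
  convert this using 1
  simp only [Pi.add_apply, mul_add, Finset.sum_add_distrib]
  push_cast
  ring

theorem Cong.neg {f : G → ℤ_[p]} (hf : Cong b f) : Cong b (-f) := by
  obtain ⟨H, hH⟩ := hf
  refine ⟨-H, fun n => ?_⟩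
  have := (dvd_neg (α := ℤ_[p])).2 (hH n)
  convert this using 1
  simp only [Pi.neg_apply, mul_neg, Finset.sum_neg_distrib]
  push_cast
  ring

/-- conjugation by the elements of `N n` -/
def cr (T : Tower G) (n : ℕ) : Setoid (T.Q n) where
  r q q' := ∃ w : T.N n, (w : T.Q n)⁻¹ * q * w = q'
  iseqv := by
    refine ⟨fun q => ⟨1, by simp⟩, ?_, ?_⟩
    · rintro q q' ⟨w, rfl⟩
      exact ⟨w⁻¹, by simp [mul_assoc]⟩
    · rintro q q' q'' ⟨w, rfl⟩ ⟨w', rfl⟩
      exact ⟨w * w', by simp [mul_assoc]⟩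

/-- representatives -/
noncomputable def rep (T : Tower G) (n : ℕ) (q : T.Q n) : T.Q n :=
  (Quotient.mk (cr T n) q).out

theorem rep_spec (n : ℕ) (q : T.Q n) : ∃ w : T.N n, (w : T.Q n)⁻¹ * q * w = rep T n q :=
  Setoid.symm' (cr T n) (Quotient.exact (s := cr T n) (Quotient.out_eq (s := cr T n) _))

theorem rep_conj (n : ℕ) (q : T.Q n) (w : T.N n) :
    rep T n ((w : T.Q n)⁻¹ * q * w) = rep T n q := by
  unfold rep
  congr 1
  apply Quotient.sound (s := cr T n)
  exact Setoid.symm' (cr T n) ⟨w, rfl⟩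

open Classical in
theorem sum_A (f : G → ℤ_[p]) (hf : UC p T f) (n : ℕ) (hp : ∃ m, Nat.card (T.Q n) = p ^ m) :
    (p : ℤ_[p]) ^ n ∣ ∑ q ∈ Finset.univ.filter (fun q : T.Q n => ∃ i : ℕ, q ^ i ≠ 1 ∧ q ^ i ∈ T.N n),
      tQ b n q⁻¹ * f q.out := by
  classical
  set A := Finset.univ.filter (fun q : T.Q n => ∃ i : ℕ, q ^ i ≠ 1 ∧ q ^ i ∈ T.N n) with hA
  have hN : (T.N n).Normal := by
    unfold Tower.N
    exact Subgroup.Normal.map (T.nor 0) _ (QuotientGroup.mk'_surjective _)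
  -- the conjugation invariant function
  have h1 : ∀ q : T.Q n, (p : ℤ_[p]) ^ n ∣ f q.out - f (rep T n q).out := by
    intro q
    obtain ⟨w, hw⟩ := rep_spec n q
    obtain ⟨w0, hw0⟩ := QuotientGroup.mk_surjective (w : T.Q n)
    have h2 := hf.1 n (w0⁻¹ * q.out * w0) (rep T n q).out (by
      rw [← QuotientGroup.eq]
      rw [QuotientGroup.out_eq', ← hw, QuotientGroup.mk_mul, QuotientGroup.mk_mul,
        QuotientGroup.mk_inv, hw0, QuotientGroup.out_eq'])
    rwa [hf.2] at h2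
  have h0 : ∑ q ∈ A, tQ b n q⁻¹ * f (rep T n q).out = 0 := by
    have h3 : (Fintype.card (T.N n) : ℤ_[p]) * ∑ q ∈ A, tQ b n q⁻¹ * f (rep T n q).out = 0 := by
      have h4 : ∀ w : T.N n, ∑ q ∈ A, tQ b n q⁻¹ * f (rep T n q).out =
          ∑ q ∈ A, tQ b n ((w : T.Q n)⁻¹ * q⁻¹ * w) * f (rep T n q).out := by
        intro w
        symm
        refine Finset.sum_bij (fun q _ => (w : T.Q n)⁻¹ * q * w) ?_ ?_ ?_ ?_
        · intro q hq
          rw [hA, Finset.mem_filter] at hq ⊢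
          obtain ⟨_, i, hi, hi'⟩ := hq
          have e : ((w : T.Q n)⁻¹ * q * w) ^ i = (w : T.Q n)⁻¹ * q ^ i * w := by
            have := conj_pow (i := i) (a := (w : T.Q n)⁻¹) (b := q)
            simpa using this
          refine ⟨Finset.mem_univ _, i, ?_, ?_⟩
          · rw [e]
            intro h
            apply hi
            have : q ^ i = (w : T.Q n) * ((w : T.Q n)⁻¹ * q ^ i * w) * (w : T.Q n)⁻¹ := by group
            rw [this, h]; group
          · rw [e]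
            have := hN.conj_mem _ hi' (w : T.Q n)⁻¹
            simpa using this
        · intro q _ q' _ h
          simpa using h
        · intro q hq
          refine ⟨(w : T.Q n) * q * (w : T.Q n)⁻¹, ?_, by group⟩
          rw [hA, Finset.mem_filter] at hq ⊢
          obtain ⟨_, i, hi, hi'⟩ := hq
          refine ⟨Finset.mem_univ _, i, ?_, ?_⟩
          · rw [conj_pow]
            intro h
            apply hi
            have : q ^ i = (w : T.Q n)⁻¹ * ((w : T.Q n) * q ^ i * (w : T.Q n)⁻¹) * w := by group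
            rw [this, h]; group
          · rw [conj_pow]
            exact hN.conj_mem _ hi' _
        · intro q _
          rw [rep_conj]
          congr 2
          group
      have h5 : (Fintype.card (T.N n) : ℤ_[p]) * ∑ q ∈ A, tQ b n q⁻¹ * f (rep T n q).out =
          ∑ w : T.N n, ∑ q ∈ A, tQ b n ((w : T.Q n)⁻¹ * q⁻¹ * w) * f (rep T n q).out := by
        rw [← Finset.sum_congr rfl (fun w _ => h4 w), Finset.sum_const, Finset.card_univ,
          nsmul_eq_mul]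
      rw [h5, Finset.sum_comm]
      refine Finset.sum_eq_zero fun q hq => ?_
      rw [← Finset.sum_mul, class_sum b n hp q⁻¹ ?_, zero_mul]
      rw [hA, Finset.mem_filter] at hq
      obtain ⟨_, i, hi, hi'⟩ := hq
      exact ⟨i, by rwa [inv_pow, ne_eq, inv_eq_one], by rw [inv_pow]; exact inv_mem hi'⟩
    rcases mul_eq_zero.1 h3 with h | h
    · exact absurd h (by
        have : 0 < Fintype.card (T.N n) := Fintype.card_pos
        exact_mod_cast this.ne')
    · exact h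
  have h6 : ∑ q ∈ A, tQ b n q⁻¹ * f q.out =
      ∑ q ∈ A, tQ b n q⁻¹ * (f q.out - f (rep T n q).out) +
        ∑ q ∈ A, tQ b n q⁻¹ * f (rep T n q).out := by
    rw [← Finset.sum_add_distrib]
    refine Finset.sum_congr rfl fun q _ => by ring
  rw [h6, h0, add_zero]
  exact Finset.dvd_sum fun q _ => Dvd.dvd.mul_left (h1 q) _

end Mx

section M
variable {G : Type} [Group G] {p : ℕ} [Fact p.Prime] {T : Tower G} {E : Type} [AddCommGroup E]
  [Module (Lam ℤ_[p] T) E] {s : ℕ}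

theorem trace_main (b : Module.Basis (Fin s) (Om ℤ_[p] T) E) (u : ℕ)
    (hu : (T.U 0).index = p ^ u) (hp : ∀ n, ∃ m, Nat.card (T.Q n) = p ^ m) (f : G → ℤ_[p])
    (hf : f ∈ VC p T) (c : ℤ) (hc : f 1 = c)
    (hT : ∃ n₀, ∀ g : G, g ∉ T.U 0 → g ^ (p ^ u) ∈ T.U n₀ → (p : ℤ_[p]) ^ u ∣ f g) :
    ((p : ℤ) ^ u) ∣ c * s := by
  classical
  have h1 : UC p T f ∧ Cong b f := by
    clear hc hT
    unfold VC at hf
    induction hf using AddSubgroup.closure_induction with
    | mem x hx =>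
      obtain ⟨v, ρ, hρ, rfl⟩ := hx
      exact ⟨UC.of_char v ρ hρ, exists_H b v ρ hρ⟩
    | zero => exact ⟨UC.zero, Cong.zero b⟩
    | add x y _ _ hx hy => exact ⟨hx.1.add hy.1, hx.2.add b hy.2⟩
    | neg x _ hx => exact ⟨hx.1.neg, hx.2.neg b⟩
  obtain ⟨hUC, H, hH⟩ := h1
  obtain ⟨n₀, hn₀⟩ := hT
  set n := max n₀ u with hn
  have hun : (p : ℤ_[p]) ^ u ∣ (p : ℤ_[p]) ^ n := pow_dvd_pow _ (le_max_right _ _)
  have h2 := hun.trans (hH n)
  set A := Finset.univ.filter (fun q : T.Q n => ∃ i : ℕ, q ^ i ≠ 1 ∧ q ^ i ∈ T.N n) with hA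
  have h1A : (1 : T.Q n) ∉ A := by
    rw [hA, Finset.mem_filter]
    rintro ⟨_, i, hi, _⟩
    exact hi (one_pow i)
  have h3 : ∑ q : T.Q n, tQ b n q⁻¹ * f q.out = tQ b n 1⁻¹ * f (1 : T.Q n).out +
      (∑ q ∈ A, tQ b n q⁻¹ * f q.out +
        ∑ q ∈ (Finset.univ.erase 1).filter (fun q => q ∉ A), tQ b n q⁻¹ * f q.out) := by
    rw [← Finset.add_sum_erase Finset.univ _ (Finset.mem_univ (1 : T.Q n))]
    congr 1
    rw [← Finset.sum_filter_add_sum_filter_not (Finset.univ.erase 1) (fun q => q ∈ A)]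
    congr 1
    refine Finset.sum_congr ?_ fun _ _ => rfl
    ext q
    rw [Finset.mem_filter, Finset.mem_erase]
    constructor
    · exact fun h => h.2
    · intro h
      refine ⟨⟨?_, Finset.mem_univ _⟩, h⟩
      rintro rfl
      exact h1A h
  have h4 : (p : ℤ_[p]) ^ u ∣ f (1 : T.Q n).out - f 1 := by
    refine hun.trans (hUC.1 n _ _ ?_)
    rw [← QuotientGroup.eq, QuotientGroup.out_eq']
    rfl
  have h5 : (p : ℤ_[p]) ^ u ∣ ∑ q ∈ A, tQ b n q⁻¹ * f q.out := hun.trans (sum_A b f hUC n (hp n))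
  have h6 : (p : ℤ_[p]) ^ u ∣
      ∑ q ∈ (Finset.univ.erase 1).filter (fun q => q ∉ A), tQ b n q⁻¹ * f q.out := by
    refine Finset.dvd_sum fun q hq => Dvd.dvd.mul_left ?_ _
    rw [Finset.mem_filter, Finset.mem_erase, hA, Finset.mem_filter] at hq
    obtain ⟨⟨hq1, _⟩, hq2⟩ := hq
    push Not at hq2
    have hq3 : ∀ i : ℕ, q ^ i ∈ T.N n → q ^ i = 1 := by
      intro i hi
      by_contra h
      exact hq2 (Finset.mem_univ _) i h hi
    have hmem : ∀ x : G, x ∈ T.U 0 → (x : T.Q n) ∈ T.N n := fun x hx => ⟨x, hx, rfl⟩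
    have hq0 : (q.out : T.Q n) = q := QuotientGroup.out_eq' q
    apply hn₀
    · intro h
      apply hq1
      have h7 := hmem _ h
      rw [hq0] at h7
      have h8 := hq3 1 (by rwa [pow_one])
      rwa [pow_one] at h8
    · have h7 : q.out ^ (p ^ u) ∈ T.U 0 := by
        rw [← hu]
        exact Subgroup.pow_index_mem (T.U 0) _
      have h8 := hmem _ h7
      have h9 : ((q.out ^ (p ^ u) : G) : T.Q n) = q ^ (p ^ u) := by
        rw [QuotientGroup.mk_pow, hq0]
      rw [h9] at h8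
      have h10 := hq3 _ h8
      rw [← h9, QuotientGroup.eq_one_iff] at h10
      exact T.anti_le (le_max_left _ _) h10
  have h7 : (p : ℤ_[p]) ^ u ∣ ((c * s : ℤ) : ℤ_[p]) := by
    rw [h3, inv_one, tQ_one, hu] at h2
    have e : ((c * s : ℤ) : ℤ_[p]) = (p : ℤ_[p]) ^ u * H -
        (((p ^ u : ℕ) : ℤ_[p]) * H - (s * f (1 : T.Q n).out +
      (∑ q ∈ A, tQ b n q⁻¹ * f q.out +
        ∑ q ∈ (Finset.univ.erase 1).filter (fun q => q ∉ A), tQ b n q⁻¹ * f q.out))) -
        (∑ q ∈ A, tQ b n q⁻¹ * f q.out) -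
        (∑ q ∈ (Finset.univ.erase 1).filter (fun q => q ∉ A), tQ b n q⁻¹ * f q.out) -
        s * (f (1 : T.Q n).out - f 1) := by
      rw [hc]
      push_cast
      ring
    rw [e]
    exact (((((dvd_mul_right _ _).sub h2).sub h5).sub h6).sub (Dvd.dvd.mul_left h4 _))
  have h8 : ‖((c * s : ℤ) : ℤ_[p])‖ ≤ (p : ℝ) ^ (-(u : ℤ)) := by
    rw [PadicInt.norm_le_pow_iff_mem_span_pow, Ideal.mem_span_singleton]
    exact h7
  exact (PadicInt.norm_int_le_pow_iff_dvd).1 h8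

end M

end Pool.Agent.H371.SA
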