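import Pool.Agent.H371.SA.Defs

set_option autoImplicit false

namespace Pool.Agent.H371.SA

namespace Nx

open Filter Topology

section basics
variable {p : ℕ} [hp : Fact p.Prime] {A : Type} [Ring A] [Algebra ℤ_[p] A]

omit hp in
theorem cast_comm (n : ℕ) (a : A) : a * (p : A) ^ n = (p : A) ^ n * a :=
  ((Nat.cast_commute p a).pow_left n).symm.eq

theorem cast_smul (n : ℕ) (a : A) : (p : A) ^ n * a = ((p : ℤ_[p]) ^ n) • a := by
  rw [Algebra.smul_def, map_pow, map_natCast]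

variable [Module.Free ℤ_[p] A]

theorem tf (n : ℕ) (a : A) (h : (p : A) ^ n * a = 0) : a = 0 := by
  rw [cast_smul] at h
  have hpn : ((p : ℤ_[p]) ^ n) ≠ 0 := pow_ne_zero _ (PadicInt.prime_p).ne_zero
  exact (smul_eq_zero_iff_right hpn).1 h

theorem sep (a : A) (h : ∀ n : ℕ, ∃ b : A, a = (p : A) ^ n * b) : a = 0 := by
  let b := Module.Free.chooseBasis ℤ_[p] A
  apply b.ext_elem
  intro i
  rw [map_zero, Finsupp.zero_apply]
  by_contra hne
  obtain ⟨c, hc⟩ := h ((b.repr a i).valuation + 1)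
  have h1 : b.repr a i = (p : ℤ_[p]) ^ ((b.repr a i).valuation + 1) * b.repr c i := by
    conv_lhs => rw [hc, cast_smul, map_smul, Finsupp.smul_apply, smul_eq_mul]
  have h2 : (p : ℤ_[p]) ^ ((b.repr a i).valuation + 1) ∣ b.repr a i := ⟨_, h1⟩
  have h3 := (PadicInt.mem_span_pow_iff_le_valuation _ hne _).1
    (Ideal.mem_span_singleton.2 h2)
  omega

/-- not divisible by `p` -/
def Nd (p : ℕ) (b : A) : Prop := ¬ ∃ c : A, b = (p : A) * c

theorem exists_nd (a : A) (ha : a ≠ 0) : ∃ (i : ℕ) (b : A), a = (p : A) ^ i * b ∧ Nd p b := by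
  classical
  have h : ∃ n : ℕ, ¬ ∃ b : A, a = (p : A) ^ n * b := by
    by_contra hcon
    push Not at hcon
    exact ha (sep (p := p) a hcon)
  have hn := Nat.find_spec h
  have hmin := fun m hm => Nat.find_min h (m := m) hm
  set n := Nat.find h
  have hn0 : n ≠ 0 := by
    intro h0
    apply hn
    rw [h0]
    exact ⟨a, by simp⟩
  obtain ⟨m, hm⟩ := Nat.exists_eq_succ_of_ne_zero hn0
  have := hmin m (by omega)
  rw [not_not] at this
  obtain ⟨b, hb⟩ := this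
  refine ⟨m, b, hb, ?_⟩
  rintro ⟨c, hc⟩
  apply hn
  refine ⟨c, ?_⟩
  rw [hm, hb, hc, Nat.succ_eq_add_one, pow_succ, mul_assoc]

end basics

section torsion
variable {A : Type} [Ring A]

theorem pow_one_add (x : A) (n : ℕ) : ∃ y : A,
    (1 + x) ^ n = 1 + (n : A) * x + ((n.choose 2 : ℕ) : A) * x ^ 2 + x ^ 3 * y := by
  induction n with
  | zero => exact ⟨0, by simp⟩
  | succ n ih =>
    obtain ⟨y, hy⟩ := ih
    refine ⟨((n.choose 2 : ℕ) : A) + y + y * x, ?_⟩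
    have hc : (n + 1).choose 2 = n + n.choose 2 := by
      rw [Nat.choose_succ_succ' n 1, Nat.choose_one_right]
    rw [pow_succ, hy, hc]
    push_cast
    have h1 : x ^ 3 * ((n.choose 2 : ℕ) : A) = ((n.choose 2 : ℕ) : A) * x ^ 3 :=
      (Nat.cast_commute (n.choose 2) (x ^ 3)).symm.eq
    rw [mul_add (x ^ 3), mul_add (x ^ 3), h1]
    noncomm_ring

end torsion

section main
variable {p : ℕ} [hp : Fact p.Prime] {A : Type} [Ring A] [Algebra ℤ_[p] A]
  [Module.Free ℤ_[p] A]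

/-- the elements `1 + p ^ j b`, `j ≥ k`, `b` not divisible by `p` -/
def Pk (p k : ℕ) (v : A) : Prop := ∃ (j : ℕ) (b : A), k ≤ j ∧ v = 1 + (p : A) ^ j * b ∧ Nd p b

omit hp [Algebra ℤ_[p] A] [Module.Free ℤ_[p] A] in
theorem mul_pow_aux (j n : ℕ) (b : A) : ((p : A) ^ j * b) ^ n = (p : A) ^ (j * n) * b ^ n := by
  rw [(Commute.pow_left (Nat.cast_commute p b) j).mul_pow, ← pow_mul]

theorem pk_pow_p (k : ℕ) (hk : 2 < p ^ k) (v : A) (h : Pk p k v) : Pk p k (v ^ p) := by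
  obtain ⟨j, b, hj, rfl, hb⟩ := h
  have hk1 : 1 ≤ k := by
    rcases Nat.eq_zero_or_pos k with h | h
    · subst h; simp at hk
    · exact h
  obtain ⟨y, hy⟩ := pow_one_add ((p : A) ^ j * b) p
  have h2 : ∃ c : A, ((p.choose 2 : ℕ) : A) * ((p : A) ^ j * b) ^ 2 = (p : A) ^ (j + 2) * c := by
    rw [mul_pow_aux]
    rcases hp.out.eq_two_or_odd' with h | h
    · have hk2 : 2 ≤ k := by
        subst h
        by_contra hcon
        have : k = 1 := by omega
        subst this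
        simp at hk
      refine ⟨(p : A) ^ (j * 2 - (j + 2)) * b ^ 2, ?_⟩
      rw [← mul_assoc ((p : A) ^ (j + 2)), ← pow_add,
        show j + 2 + (j * 2 - (j + 2)) = j * 2 by omega]
      subst h
      simp
    · obtain ⟨q, hq⟩ := h
      have h3 : p.choose 2 = p * q := by
        rw [Nat.choose_two_right]
        have : p * (p - 1) = (p * q) * 2 := by
          rw [show p - 1 = 2 * q by omega]; ring
        rw [this, Nat.mul_div_cancel _ (by norm_num)]
      refine ⟨(p : A) ^ (j * 2 + 1 - (j + 2)) * ((q : A) * b ^ 2), ?_⟩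
      rw [h3, ← mul_assoc ((p : A) ^ (j + 2)), ← pow_add,
        show j + 2 + (j * 2 + 1 - (j + 2)) = j * 2 + 1 by omega, Nat.cast_mul, pow_succ,
        mul_assoc (p : A) (q : A), ← mul_assoc (q : A), ← mul_assoc (p : A),
        ← mul_assoc (p : A) (q : A), ← mul_assoc _ (q : A)]
      congr 1
      have e1 : (q : A) * (p : A) ^ (j * 2) = (p : A) ^ (j * 2) * (q : A) :=
        (Nat.cast_commute q _).eq
      rw [mul_assoc, e1, ← mul_assoc, ← pow_succ']
  obtain ⟨c, hc⟩ := h2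
  have h3 : ∃ d : A, ((p : A) ^ j * b) ^ 3 * y = (p : A) ^ (j + 2) * d := by
    refine ⟨(p : A) ^ (j * 3 - (j + 2)) * (b ^ 3 * y), ?_⟩
    rw [mul_pow_aux, ← mul_assoc ((p : A) ^ (j + 2)), ← pow_add,
      show j + 2 + (j * 3 - (j + 2)) = j * 3 by omega, mul_assoc]
  obtain ⟨d, hd⟩ := h3
  refine ⟨j + 1, b + (p : A) * (c + d), by omega, ?_, ?_⟩
  · rw [hy, hc, hd, ← mul_assoc, ← pow_succ', mul_add, mul_add (p : A), mul_add ((p : A) ^ (j + 1)),
      ← mul_assoc, ← pow_succ, ← mul_assoc, ← pow_succ]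
    abel
  · rintro ⟨e, he⟩
    apply hb
    refine ⟨e - (c + d), ?_⟩
    rw [mul_sub, ← he]; abel

theorem pk_pow_coprime (k : ℕ) (hk : 2 < p ^ k) (v : A) (h : Pk p k v) (m : ℕ)
    (hm : ¬ p ∣ m) : Pk p k (v ^ m) := by
  obtain ⟨j, b, hj, rfl, hb⟩ := h
  have hk1 : 1 ≤ k := by
    rcases Nat.eq_zero_or_pos k with h | h
    · subst h; simp at hk
    · exact h
  obtain ⟨y, hy⟩ := pow_one_add ((p : A) ^ j * b) m
  obtain ⟨i, rfl⟩ : ∃ i, j = i + 1 := ⟨j - 1, by omega⟩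
  refine ⟨i + 1, (m : A) * b + (p : A) * ((p : A) ^ i * (((m.choose 2 : ℕ) : A) * b ^ 2 +
    (p : A) ^ (i + 1) * (b ^ 3 * y))), hj, ?_, ?_⟩
  · rw [hy, mul_pow_aux, mul_pow_aux]
    have e1 : (m : A) * ((p : A) ^ (i + 1) * b) = (p : A) ^ (i + 1) * ((m : A) * b) := by
      rw [← mul_assoc, ← mul_assoc, (Nat.cast_commute m _).eq]
    have e2 : ((m.choose 2 : ℕ) : A) * ((p : A) ^ ((i + 1) * 2) * b ^ 2) =
        (p : A) ^ (i + 1) * ((p : A) * ((p : A) ^ i * (((m.choose 2 : ℕ) : A) * b ^ 2))) := by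
      rw [← mul_assoc, (Nat.cast_commute (m.choose 2) _).eq, mul_assoc, ← mul_assoc (p : A),
        ← pow_succ', ← mul_assoc ((p : A) ^ (i + 1)) ((p : A) ^ (i + 1)), ← pow_add]
      congr 2; ring
    have e3 : (p : A) ^ ((i + 1) * 3) * b ^ 3 * y = (p : A) ^ (i + 1) * ((p : A) *
        ((p : A) ^ i * ((p : A) ^ (i + 1) * (b ^ 3 * y)))) := by
      rw [← mul_assoc (p : A) ((p : A) ^ i), ← pow_succ', ← mul_assoc ((p : A) ^ (i + 1))
        ((p : A) ^ (i + 1)) (_ * _), ← pow_add, ← mul_assoc ((p : A) ^ (i + 1 + (i + 1)))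
        ((p : A) ^ (i + 1)), ← pow_add, mul_assoc]
      congr 2; ring
    rw [e1, e2, e3]
    rw [mul_add ((p : A) ^ i), mul_add (p : A), mul_add ((p : A) ^ (i + 1)),
      mul_add ((p : A) ^ (i + 1))]
    abel
  · rintro ⟨e, he⟩
    apply hb
    have hcop : Nat.Coprime m p := ((hp.out.coprime_iff_not_dvd).2 hm).symm
    have hbez := Nat.gcd_eq_gcd_ab m p
    rw [hcop.gcd_eq_one] at hbez
    set s := Nat.gcdA m p
    set t := Nat.gcdB m p
    have h1 : (1 : A) = (m : A) * (s : A) + (p : A) * (t : A) := by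
      have := congrArg (Int.cast : ℤ → A) hbez
      push_cast at this
      exact this
    have h2 : (m : A) * b = (p : A) * (e - ((p : A) ^ i * (((m.choose 2 : ℕ) : A) * b ^ 2 +
      (p : A) ^ (i + 1) * (b ^ 3 * y)))) := by
      rw [mul_sub, ← he]; abel
    generalize (e - ((p : A) ^ i * (((m.choose 2 : ℕ) : A) * b ^ 2 +
      (p : A) ^ (i + 1) * (b ^ 3 * y)))) = E at h2
    refine ⟨(s : A) * E + (t : A) * b, ?_⟩
    have e4 : (p : A) * (s : A) = (s : A) * (p : A) := (Nat.cast_commute p _).eq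
    have e5 : (m : A) * (s : A) = (s : A) * (m : A) := (Nat.cast_commute m _).eq
    calc b = 1 * b := (one_mul b).symm
      _ = (s : A) * ((m : A) * b) + (p : A) * ((t : A) * b) := by
          rw [h1, add_mul, e5, mul_assoc, mul_assoc]
      _ = _ := by rw [h2, mul_add (p : A), ← mul_assoc, ← mul_assoc (p : A) (s : A), e4]

theorem pk_ne_one (k : ℕ) (v : A) (h : Pk p k v) : v ≠ 1 := by
  obtain ⟨j, b, _, rfl, hb⟩ := h
  intro h1
  have h2 : (p : A) ^ j * b = 0 := by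
    have := congrArg (fun x => x - 1) h1
    simpa using this
  have := tf (p := p) j b h2
  exact hb ⟨0, by rw [this, mul_zero]⟩

theorem pk_pow (k : ℕ) (hk : 2 < p ^ k) : ∀ m : ℕ, 0 < m → ∀ v : A, Pk p k v → Pk p k (v ^ m) := by
  intro m
  induction m using Nat.strong_induction_on with
  | _ m ih =>
  intro hm v hv
  by_cases hd : p ∣ m
  · obtain ⟨n, rfl⟩ := hd
    have hn : 0 < n := Nat.pos_of_mul_pos_left hm |> fun h => by
      rcases Nat.eq_zero_or_pos n with h | h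
      · subst h; simp at hm
      · exact h
    rw [pow_mul]
    exact ih n (by nlinarith [hp.out.two_le]) hn _ (pk_pow_p k hk v hv)
  · exact pk_pow_coprime k hk v hv m hd

end main

section ac
variable {p : ℕ} [hp : Fact p.Prime] {A : Type} [Ring A] {P : Subgroup Aˣ}

/-- the characters are uniformly continuous -/
theorem ac_cont {f : P → ℤ_[p]} (hf : f ∈ AC p P) (N : ℕ) (x y : P)
    (hxy : ∃ a : A, (((x⁻¹ * y : P) : Aˣ) : A) = 1 + (p : A) ^ N * a) :
    (p : ℤ_[p]) ^ N ∣ f y - f x := by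
  unfold AC at hf
  induction hf using AddSubgroup.closure_induction with
  | mem f hf =>
    obtain ⟨v, ρ, hρ, rfl⟩ := hf
    have h1 := hρ N _ hxy
    choose c hc using h1
    have h2 : ρ y = ρ x + (p : ℤ_[p]) ^ N • (ρ x * Matrix.of c) := by
      have h3 : ρ (x⁻¹ * y) = 1 + (p : ℤ_[p]) ^ N • Matrix.of c := by
        ext i j
        have := hc i j
        simp only [Matrix.sub_apply, Matrix.add_apply, Matrix.smul_apply, Matrix.of_apply,
          smul_eq_mul] at this ⊢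
        linear_combination this
      calc ρ y = ρ x * ρ (x⁻¹ * y) := by rw [← map_mul]; congr 1; group
        _ = _ := by rw [h3, mul_add, mul_one, Matrix.mul_smul]
    simp only [h2, Matrix.trace_add, Matrix.trace_smul, smul_eq_mul]
    exact ⟨(ρ x * Matrix.of c).trace, by ring⟩
  | zero => simp
  | add f g _ _ h1 h2 =>
    have : (f + g) y - (f + g) x = (f y - f x) + (g y - g x) := by
      simp only [Pi.add_apply]; ring
    rw [this]; exact dvd_add h1 h2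
  | neg f _ h1 =>
    have : (-f) y - (-f) x = -(f y - f x) := by simp only [Pi.neg_apply]; ring
    rw [this]; exact (dvd_neg).2 h1

/-- powers respect congruences -/
theorem pow_congr (j : ℕ) (x y a : A) (h : x = y + (p : A) ^ j * a) (n : ℕ) :
    ∃ b : A, x ^ n = y ^ n + (p : A) ^ j * b := by
  induction n with
  | zero => exact ⟨0, by simp⟩
  | succ n ih =>
    obtain ⟨b, hb⟩ := ih
    refine ⟨y ^ n * a + b * y + b * ((p : A) ^ j * a), ?_⟩
    rw [pow_succ, hb, h, pow_succ, add_mul, mul_add, mul_add ((p : A) ^ j * b), mul_add, mul_add,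
      ← mul_assoc (y ^ n), cast_comm j (y ^ n), mul_assoc, mul_assoc, mul_assoc, add_assoc,
      add_assoc]

end ac

section near
variable {p : ℕ} [hp : Fact p.Prime] {A : Type} [Ring A] [Algebra ℤ_[p] A]
  [Module.Free ℤ_[p] A] [Module.Finite ℤ_[p] A]

/-- compactness -/
theorem subseq (g : ℕ → A) : ∃ (l : A) (φ : ℕ → ℕ), StrictMono φ ∧
    ∀ j : ℕ, ∃ n₀ : ℕ, ∀ n, n₀ ≤ n → ∃ a : A, g (φ n) = l + (p : A) ^ j * a := by
  let b := Module.Free.chooseBasis ℤ_[p] A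
  let x : ℕ → (Module.Free.ChooseBasisIndex ℤ_[p] A → ℤ_[p]) := fun n => b.equivFun (g n)
  obtain ⟨y, _, φ, hφ, hy⟩ := (isCompact_univ (X := Module.Free.ChooseBasisIndex ℤ_[p] A →
    ℤ_[p])).tendsto_subseq (x := x) (fun n => Set.mem_univ _)
  refine ⟨b.equivFun.symm y, φ, hφ, ?_⟩
  intro j
  have hpos : (0 : ℝ) < (p : ℝ) ^ (-(j : ℤ)) := zpow_pos (by exact_mod_cast hp.out.pos) _
  obtain ⟨n₀, hn₀⟩ := Metric.tendsto_atTop.1 hy _ hpos
  refine ⟨n₀, fun n hn => ?_⟩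
  have h1 := hn₀ n hn
  have h2 : ∀ i, ∃ c : ℤ_[p], x (φ n) i = y i + (p : ℤ_[p]) ^ j * c := by
    intro i
    have h3 : ‖x (φ n) i - y i‖ ≤ (p : ℝ) ^ (-(j : ℤ)) := by
      rw [← dist_eq_norm]
      exact (dist_le_pi_dist _ _ i).trans h1.le
    rw [PadicInt.norm_le_pow_iff_mem_span_pow, Ideal.mem_span_singleton] at h3
    obtain ⟨c, hc⟩ := h3
    exact ⟨c, by linear_combination hc⟩
  choose c hc using h2
  refine ⟨b.equivFun.symm c, ?_⟩
  rw [cast_smul, ← map_smul, ← map_add]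
  apply b.equivFun.injective
  rw [LinearEquiv.apply_symm_apply]
  funext i
  exact hc i

end near

end Nx

open Nx in
theorem near_torsion (p : ℕ) [Fact p.Prime] (A : Type) [Ring A] [Algebra ℤ_[p] A]
    [Module.Free ℤ_[p] A] [Module.Finite ℤ_[p] A] (P : Subgroup Aˣ) (k : ℕ) (hk : 2 < p ^ k)
    (hP : ∀ u : Aˣ, (∃ a : A, (u : A) = 1 + (p : A) ^ k * a) → u ∈ P)
    (f : P → ℤ_[p]) (hf : f ∈ AC p P)
    (hf0 : ∀ t : P, t ≠ 1 → ∀ a : ℕ, t ^ (p ^ a) = 1 → f t = 0) (u N : ℕ) :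
    ∃ n₀ : ℕ, ∀ g : P, (¬ ∃ a : A, ((g : Aˣ) : A) = 1 + (p : A) ^ k * a) →
      (∃ a : A, (((g ^ (p ^ u) : P) : Aˣ) : A) = 1 + (p : A) ^ n₀ * a) →
        (p : ℤ_[p]) ^ N ∣ f g := by
  by_contra hcon
  push Not at hcon
  choose g hg1 hg2 hg3 using hcon
  obtain ⟨l, φ, hφ, hl⟩ := subseq (p := p) (fun n => ((g n : Aˣ) : A))
  -- the limit has finite order
  have hlt : l ^ (p ^ u) = 1 := by
    have : l ^ (p ^ u) - 1 = 0 := by
      apply sep (p := p)
      intro j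
      obtain ⟨n₀, hn₀⟩ := hl j
      obtain ⟨a, ha⟩ := hn₀ (max n₀ j) (le_max_left _ _)
      obtain ⟨b, hb⟩ := pow_congr j _ _ a ha (p ^ u)
      obtain ⟨c, hc⟩ := hg2 (φ (max n₀ j))
      have hj : j ≤ φ (max n₀ j) := (le_max_right n₀ j).trans (hφ.id_le _)
      have hc' : ((g (φ (max n₀ j)) : Aˣ) : A) ^ (p ^ u) = 1 + (p : A) ^ φ (max n₀ j) * c := by
        rw [← hc]; simp
      obtain ⟨i, hi⟩ := Nat.exists_eq_add_of_le hj
      refine ⟨(p : A) ^ i * c - b, ?_⟩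
      rw [mul_sub, ← mul_assoc, ← pow_add, ← hi]
      rw [hc'] at hb
      have : l ^ p ^ u - 1 = (1 + (p : A) ^ φ (max n₀ j) * c) - (p : A) ^ j * b - 1 := by
        rw [hb]; abel
      rw [this]; abel
    exact sub_eq_zero.1 this
  have hpu : p ^ u ≠ 0 := pow_ne_zero _ (Fact.out : p.Prime).ne_zero
  let L : Aˣ := Units.ofPowEqOne l (p ^ u) hlt hpu
  have hLl : (L : A) = l := rfl
  -- quotients
  have hq : ∀ j : ℕ, ∃ n₀ : ℕ, ∀ n, n₀ ≤ n →
      ∃ a : A, ((L⁻¹ * (g (φ n) : Aˣ) : Aˣ) : A) = 1 + (p : A) ^ j * a := by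
    intro j
    obtain ⟨n₀, hn₀⟩ := hl j
    refine ⟨n₀, fun n hn => ?_⟩
    obtain ⟨a, ha⟩ := hn₀ n hn
    refine ⟨((L⁻¹ : Aˣ) : A) * a, ?_⟩
    rw [Units.val_mul, ha, mul_add, ← mul_assoc, cast_comm, mul_assoc, ← hLl, Units.inv_mul]
  have hLP : L ∈ P := by
    obtain ⟨n₀, hn₀⟩ := hq k
    have h1 := hP _ (hn₀ n₀ le_rfl)
    have h2 := P.mul_mem (g (φ n₀)).2 (P.inv_mem h1)
    rw [mul_inv_rev, inv_inv, mul_inv_cancel_left] at h2
    exact h2
  have hne : (⟨L, hLP⟩ : P) ≠ 1 := by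
    intro h
    have h1 : L = 1 := congrArg Subtype.val h
    obtain ⟨n₀, hn₀⟩ := hq k
    obtain ⟨a, ha⟩ := hn₀ n₀ le_rfl
    apply hg1 (φ n₀)
    rw [h1, inv_one, one_mul] at ha
    exact ha
  have hf1 := hf0 ⟨L, hLP⟩ hne u (by
    apply Subtype.ext
    apply Units.ext
    change l ^ (p ^ u) = 1
    exact hlt)
  obtain ⟨n₀, hn₀⟩ := hq N
  have h2 := ac_cont hf N ⟨L, hLP⟩ (g (φ n₀)) (hn₀ n₀ le_rfl)
  rw [hf1, sub_zero] at h2
  exact hg3 _ h2

open Nx in
/-- congruence subgroups are torsion-free -/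
theorem torsion_free (p : ℕ) [Fact p.Prime] (A : Type) [Ring A] [Algebra ℤ_[p] A]
    [Module.Free ℤ_[p] A] [Module.Finite ℤ_[p] A]
    (k : ℕ) (hk : 2 < p ^ k) (u : A) (a : A) (hu : u = 1 + (p : A) ^ k * a)
    (m : ℕ) (hm : 0 < m) (h : u ^ m = 1) : u = 1 := by
  by_contra hne
  have ha : a ≠ 0 := by
    rintro rfl
    exact hne (by rw [hu, mul_zero, add_zero])
  obtain ⟨i, b, rfl, hb⟩ := exists_nd (p := p) a ha
  have hpk : Pk p k u := ⟨k + i, b, by omega, by rw [hu, pow_add, mul_assoc], hb⟩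
  exact pk_ne_one k _ (pk_pow k hk m hm u hpk) h

end Pool.Agent.H371.SA
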