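import Pool.Agent.H371.SA.Defs

/-! TASK Q: products, constants and pullbacks of continuous characters. -/

set_option autoImplicit false

namespace Pool.Agent.H371.SA

namespace Qx

variable (p : ℕ) [Fact p.Prime] {A : Type} [Ring A] (P : Subgroup Aˣ)

/-- the continuity condition -/
def Cont {v : ℕ} (ρ : P →* Matrix (Fin v) (Fin v) ℤ_[p]) : Prop :=
  ∀ n, ∀ g : P, (∃ a : A, ((g : Aˣ) : A) = 1 + (p : A) ^ n * a) →
      ∀ i j, (p : ℤ_[p]) ^ n ∣ (ρ g - 1) i j

theorem mem_of_cont {v : ℕ} (ρ : P →* Matrix (Fin v) (Fin v) ℤ_[p]) (h : Cont p P ρ) :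
    (fun g => (ρ g).trace) ∈ AC p P :=
  AddSubgroup.subset_closure ⟨v, ρ, h, rfl⟩

/-- the tensor product of two representations -/
noncomputable def tens {v w : ℕ} (ρ : P →* Matrix (Fin v) (Fin v) ℤ_[p])
    (σ : P →* Matrix (Fin w) (Fin w) ℤ_[p]) :
    P →* Matrix (Fin (v * w)) (Fin (v * w)) ℤ_[p] where
  toFun g := Matrix.reindex finProdFinEquiv finProdFinEquiv
    (Matrix.kroneckerMap (· * ·) (ρ g) (σ g))
  map_one' := by
    rw [map_one, map_one]
    rw [Matrix.one_kronecker_one]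
    simp
  map_mul' g h := by
    rw [map_mul, map_mul, Matrix.mul_kronecker_mul]
    simp only [Matrix.reindex_apply]
    rw [Matrix.submatrix_mul_equiv]

theorem trace_tens {v w : ℕ} (ρ : P →* Matrix (Fin v) (Fin v) ℤ_[p])
    (σ : P →* Matrix (Fin w) (Fin w) ℤ_[p]) (g : P) :
    (tens p P ρ σ g).trace = (ρ g).trace * (σ g).trace := by
  change (Matrix.reindex finProdFinEquiv finProdFinEquiv (Matrix.kroneckerMap (· * ·) (ρ g) (σ g))).trace = _
  rw [← Matrix.trace_kronecker]
  simp only [Matrix.trace, Matrix.diag, Matrix.reindex_apply, Matrix.submatrix_apply]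
  exact Equiv.sum_comp finProdFinEquiv.symm
    (fun x => (Matrix.kroneckerMap (· * ·) (ρ g) (σ g)) x x)

theorem cont_tens {v w : ℕ} (ρ : P →* Matrix (Fin v) (Fin v) ℤ_[p])
    (σ : P →* Matrix (Fin w) (Fin w) ℤ_[p]) (hρ : Cont p P ρ) (hσ : Cont p P σ) :
    Cont p P (tens p P ρ σ) := by
  intro n g hg i j
  have h1 := hρ n g hg (finProdFinEquiv.symm i).1 (finProdFinEquiv.symm j).1
  have h2 := hσ n g hg (finProdFinEquiv.symm i).2 (finProdFinEquiv.symm j).2
  have h3 : (tens p P ρ σ g - 1) i j =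
      (ρ g - 1) (finProdFinEquiv.symm i).1 (finProdFinEquiv.symm j).1 *
        (σ g) (finProdFinEquiv.symm i).2 (finProdFinEquiv.symm j).2 +
      (1 : Matrix (Fin v) (Fin v) ℤ_[p]) (finProdFinEquiv.symm i).1 (finProdFinEquiv.symm j).1 *
        (σ g - 1) (finProdFinEquiv.symm i).2 (finProdFinEquiv.symm j).2 := by
    have h4 : (1 : Matrix (Fin (v * w)) (Fin (v * w)) ℤ_[p]) i j =
        (1 : Matrix (Fin v) (Fin v) ℤ_[p]) (finProdFinEquiv.symm i).1 (finProdFinEquiv.symm j).1 *
        (1 : Matrix (Fin w) (Fin w) ℤ_[p]) (finProdFinEquiv.symm i).2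
          (finProdFinEquiv.symm j).2 := by
      simp only [Matrix.one_apply]
      by_cases hij : i = j
      · subst hij; simp
      · rw [if_neg hij]
        by_cases h5 : (finProdFinEquiv.symm i).1 = (finProdFinEquiv.symm j).1
        · by_cases h6 : (finProdFinEquiv.symm i).2 = (finProdFinEquiv.symm j).2
          · exact absurd (finProdFinEquiv.symm.injective (Prod.ext h5 h6)) hij
          · rw [if_neg h6, mul_zero]
        · rw [if_neg h5, zero_mul]
    have h5 : (tens p P ρ σ g) i j =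
        (ρ g) (finProdFinEquiv.symm i).1 (finProdFinEquiv.symm j).1 *
        (σ g) (finProdFinEquiv.symm i).2 (finProdFinEquiv.symm j).2 := rfl
    rw [Matrix.sub_apply, Matrix.sub_apply, Matrix.sub_apply, h4, h5]
    ring
  rw [h3]
  exact dvd_add (Dvd.dvd.mul_right h1 _) (Dvd.dvd.mul_left h2 _)

end Qx

section Q
variable (p : ℕ) [Fact p.Prime] {A : Type} [Ring A] (P : Subgroup Aˣ)

theorem AC.mul {f g : P → ℤ_[p]} (hf : f ∈ AC p P) (hg : g ∈ AC p P) : f * g ∈ AC p P := by
  unfold AC at hf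
  induction hf using AddSubgroup.closure_induction with
  | mem f hf =>
    obtain ⟨v, ρ, hρ, rfl⟩ := hf
    unfold AC at hg
    induction hg using AddSubgroup.closure_induction with
    | mem g hg =>
      obtain ⟨w, σ, hσ, rfl⟩ := hg
      have h := Qx.mem_of_cont p P (Qx.tens p P ρ σ) (Qx.cont_tens p P ρ σ hρ hσ)
      have h2 : (fun g => (Qx.tens p P ρ σ g).trace) =
          (fun g => (ρ g).trace) * (fun g => (σ g).trace) := by
        funext x
        exact Qx.trace_tens p P ρ σ x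
      rw [h2] at h
      exact h
    | zero => rw [mul_zero]; exact zero_mem _
    | add x y _ _ hx hy => rw [mul_add]; exact add_mem hx hy
    | neg x _ hx => rw [mul_neg]; exact neg_mem hx
  | zero => rw [zero_mul]; exact zero_mem _
  | add x y _ _ hx hy => rw [add_mul]; exact add_mem hx hy
  | neg x _ hx => rw [neg_mul]; exact neg_mem hx

theorem AC.const (z : ℤ) : (fun _ => (z : ℤ_[p])) ∈ AC p P := by
  have h : (fun _ : P => (1 : ℤ_[p])) ∈ AC p P := by
    have h1 := Qx.mem_of_cont p P (1 : P →* Matrix (Fin 1) (Fin 1) ℤ_[p]) (by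
      intro n g _ i j
      simp)
    have h2 : (fun g : P => ((1 : P →* Matrix (Fin 1) (Fin 1) ℤ_[p]) g).trace) =
        fun _ => (1 : ℤ_[p]) := by
      funext g
      simp
    rw [h2] at h1
    exact h1
  have h2 := zsmul_mem h z
  have h3 : z • (fun _ : P => (1 : ℤ_[p])) = fun _ => (z : ℤ_[p]) := by
    funext x
    simp
  rw [h3] at h2
  exact h2

theorem AC.comap {B : Type} [Ring B] (P' : Subgroup Bˣ) (π : A →+* B)
    (hπ : ∀ u ∈ P, Units.map (π : A →* B) u ∈ P') {f : P' → ℤ_[p]} (hf : f ∈ AC p P') :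
    (fun u : P => f ⟨Units.map (π : A →* B) u, hπ u u.2⟩) ∈ AC p P := by
  unfold AC at hf
  induction hf using AddSubgroup.closure_induction with
  | mem f hf =>
    obtain ⟨v, ρ, hρ, rfl⟩ := hf
    let θ : P →* P' := ((Units.map (π : A →* B)).comp P.subtype).codRestrict P'
      (fun u => hπ u u.2)
    have h := Qx.mem_of_cont p P (ρ.comp θ) (by
      intro n g hg i j
      obtain ⟨a, ha⟩ := hg
      refine hρ n (θ g) ⟨π a, ?_⟩ i j
      change π ((g : Aˣ) : A) = _
      rw [ha]
      simp)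
    exact h
  | zero => exact zero_mem _
  | add x y _ _ hx hy => exact add_mem hx hy
  | neg x _ hx => exact neg_mem hx

/-- matrix representations given by ring homomorphisms -/
theorem AC.of_ringHom (v : ℕ) (π : A →+* Matrix (Fin v) (Fin v) ℤ_[p]) :
    (fun u : P => (π ((u : Aˣ) : A)).trace) ∈ AC p P := by
  let θ : P →* Matrix (Fin v) (Fin v) ℤ_[p] :=
    ((π : A →* Matrix (Fin v) (Fin v) ℤ_[p]).comp (Units.coeHom A)).comp P.subtype
  refine Qx.mem_of_cont p P θ ?_
  intro n g hg i j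
  obtain ⟨a, ha⟩ := hg
  have h1 : θ g - 1 = (p : ℤ_[p]) ^ n • π a := by
    change π ((g : Aˣ) : A) - 1 = _
    rw [ha, map_add, map_one, map_mul, map_pow, map_natCast, add_sub_cancel_left]
    rw [Algebra.smul_def, map_pow, map_natCast]
  rw [h1, Matrix.smul_apply, smul_eq_mul]
  exact Dvd.intro _ rfl

end Q

end Pool.Agent.H371.SA
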