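import Pool.Agent.H371.SA.Defs
import Pool.Agent.H371.SA.TO
import Pool.Agent.H371.SA.TP
import Pool.Agent.H371.SA.TQ

/-! TASK R1: closure properties of the class `Good`: products, isomorphisms, `GL_m(ℤ)`. -/

set_option autoImplicit false

namespace Pool.Agent.H371.SA

namespace R1x

/-- the common multiples of a product split -/
theorem split {G H : Type} [Group G] [Group H] (d : ℕ) (hd0 : d ≠ 0)
    (hd : ∀ K : Subgroup (G × H), Finite K → Nat.card K ∣ d) :
    ∃ d₁ d₂ : ℕ, d₁ * d₂ = d ∧ (∀ K : Subgroup G, Finite K → Nat.card K ∣ d₁) ∧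
      (∀ K : Subgroup H, Finite K → Nat.card K ∣ d₂) := by
  classical
  have hprod : ∀ K : Subgroup G, Finite K → ∀ K' : Subgroup H, Finite K' →
      Nat.card K * Nat.card K' ∣ d := by
    intro K hK K' hK'
    have h1 := hd (K.prod K') (Finite.of_equiv _ (Subgroup.prodEquiv K K').symm.toEquiv)
    rwa [Nat.card_congr (Subgroup.prodEquiv K K').toEquiv, Nat.card_prod] at h1
  let S : Finset ℕ := d.divisors.filter (fun n => ∃ K : Subgroup G, Finite K ∧ Nat.card K = n)
  have hS : ∀ K : Subgroup G, Finite K → Nat.card K ∈ S := by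
    intro K hK
    rw [Finset.mem_filter, Nat.mem_divisors]
    refine ⟨⟨?_, hd0⟩, K, hK, rfl⟩
    exact (Dvd.intro _ rfl).trans (hprod K hK ⊥ inferInstance)
  have hL : ∀ K : Subgroup G, Finite K → Nat.card K ∣ S.lcm id :=
    fun K hK => Finset.dvd_lcm (f := id) (hS K hK)
  have hLH : ∀ K' : Subgroup H, Finite K' → S.lcm id * Nat.card K' ∣ d := by
    intro K' hK'
    have hK'd : Nat.card K' ∣ d :=
      (Dvd.intro_left _ rfl).trans (hprod ⊥ inferInstance K' hK')
    have hpos : 0 < Nat.card K' := Nat.pos_of_ne_zero fun h => hd0 (by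
      rw [h] at hK'd; exact Nat.eq_zero_of_zero_dvd hK'd)
    have h2 : S.lcm id ∣ d / Nat.card K' := by
      apply Finset.lcm_dvd
      intro n hn
      rw [Finset.mem_filter] at hn
      obtain ⟨_, K, hK, rfl⟩ := hn
      exact (Nat.dvd_div_iff_mul_dvd hK'd).2 (by rw [mul_comm]; exact hprod K hK K' hK')
    have := (Nat.dvd_div_iff_mul_dvd hK'd).1 h2
    rwa [mul_comm] at this
  have hLd : S.lcm id ∣ d := by
    have := hLH ⊥ inferInstance
    exact (Dvd.intro _ rfl).trans this
  refine ⟨S.lcm id, d / S.lcm id, Nat.mul_div_cancel' hLd, hL, ?_⟩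
  intro K' hK'
  exact (Nat.dvd_div_iff_mul_dvd hLd).2 (hLH K' hK')

end R1x

open R1x in
theorem Good.prod (p : ℕ) [Fact p.Prime] (G H : Type) [Group G] [Group H] (hG : Good p G)
    (hH : Good p H) : Good p (G × H) := by
  obtain ⟨A, iR, iA, iF, iM, P, k, φ, f, c, hk, hP, hφ, hf, hc, h0, hd⟩ := hG
  obtain ⟨A', iR', iA', iF', iM', P', k', φ', f', c', hk', hP', hφ', hf', hc', h0', hd'⟩ := hH
  have hp1 : 1 ≤ p := (Fact.out : p.Prime).pos
  let P'' : Subgroup (A × A')ˣ :=
    (P.comap (Units.map (RingHom.fst A A' : A × A' →* A))) ⊓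
      (P'.comap (Units.map (RingHom.snd A A' : A × A' →* A')))
  have hπ : ∀ u ∈ P'', Units.map (RingHom.fst A A' : A × A' →* A) u ∈ P := fun u hu => hu.1
  have hπ' : ∀ u ∈ P'', Units.map (RingHom.snd A A' : A × A' →* A') u ∈ P' := fun u hu => hu.2
  let Φ : G × H →* P'' :=
    { toFun := fun x => ⟨MulEquiv.prodUnits.symm ((φ x.1 : Aˣ), (φ' x.2 : A'ˣ)), by
        constructor
        · change Units.map (RingHom.fst A A' : A × A' →* A) _ ∈ P
          have : Units.map (RingHom.fst A A' : A × A' →* A)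
            (MulEquiv.prodUnits.symm ((φ x.1 : Aˣ), (φ' x.2 : A'ˣ))) = (φ x.1 : Aˣ) := by
            apply Units.ext; rfl
          rw [this]; exact (φ x.1).2
        · change Units.map (RingHom.snd A A' : A × A' →* A') _ ∈ P'
          have : Units.map (RingHom.snd A A' : A × A' →* A')
            (MulEquiv.prodUnits.symm ((φ x.1 : Aˣ), (φ' x.2 : A'ˣ))) = (φ' x.2 : A'ˣ) := by
            apply Units.ext; rfl
          rw [this]; exact (φ' x.2).2⟩
      map_one' := by
        apply Subtype.ext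
        apply Units.ext
        simp
      map_mul' := by
        intro x y
        apply Subtype.ext
        apply Units.ext
        simp
        rfl }
  refine ⟨A × A', inferInstance, inferInstance, inferInstance, inferInstance, P'', max k k', Φ,
    (fun u : P'' => f ⟨Units.map (RingHom.fst A A' : A × A' →* A) u, hπ u u.2⟩) *
    (fun u : P'' => f' ⟨Units.map (RingHom.snd A A' : A × A' →* A') u, hπ' u u.2⟩), c * c',
    ?_, ?_, ?_, ?_, ?_, ?_, ?_⟩
  · exact lt_of_lt_of_le hk (Nat.pow_le_pow_right hp1 (le_max_left _ _))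
  · rintro u ⟨a, ha⟩
    constructor
    · apply hP
      refine ⟨(p : A) ^ (max k k' - k) * a.1, ?_⟩
      have h1 := congrArg Prod.fst ha
      rw [← mul_assoc, ← pow_add, Nat.add_sub_cancel' (le_max_left k k')]
      simpa using h1
    · apply hP'
      refine ⟨(p : A') ^ (max k k' - k') * a.2, ?_⟩
      have h1 := congrArg Prod.snd ha
      rw [← mul_assoc, ← pow_add, Nat.add_sub_cancel' (le_max_right k k')]
      simpa using h1
  · intro x y hxy
    have h1 : MulEquiv.prodUnits.symm ((φ x.1 : Aˣ), (φ' x.2 : A'ˣ)) =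
        MulEquiv.prodUnits.symm ((φ y.1 : Aˣ), (φ' y.2 : A'ˣ)) := congrArg Subtype.val hxy
    have h2 := MulEquiv.prodUnits.symm.injective h1
    rw [Prod.mk.injEq] at h2
    exact Prod.ext (hφ (Subtype.ext h2.1)) (hφ' (Subtype.ext h2.2))
  · exact AC.mul p P'' (AC.comap p P'' P (RingHom.fst A A') hπ hf)
      (AC.comap p P'' P' (RingHom.snd A A') hπ' hf')
  · rw [Pi.mul_apply]
    have e1 : (⟨Units.map (RingHom.fst A A' : A × A' →* A) ((1 : P'') : (A × A')ˣ),
      hπ _ (1 : P'').2⟩ : P) = 1 := by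
      apply Subtype.ext; exact map_one _
    have e2 : (⟨Units.map (RingHom.snd A A' : A × A' →* A') ((1 : P'') : (A × A')ˣ),
      hπ' _ (1 : P'').2⟩ : P') = 1 := by
      apply Subtype.ext; exact map_one _
    rw [e1, e2, hc, hc', Nat.cast_mul]
  · intro t ht a hta
    rw [Pi.mul_apply]
    have h1 : (⟨Units.map (RingHom.fst A A' : A × A' →* A) (t : (A × A')ˣ), hπ _ t.2⟩ : P) ^
        (p ^ a) = 1 := by
      apply Subtype.ext
      have : ((t ^ (p ^ a) : P'') : (A × A')ˣ) = 1 := congrArg Subtype.val hta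
      have h3 := congrArg (Units.map (RingHom.fst A A' : A × A' →* A)) this
      rw [map_one, Subgroup.coe_pow, map_pow] at h3
      exact h3
    have h2 : (⟨Units.map (RingHom.snd A A' : A × A' →* A') (t : (A × A')ˣ), hπ' _ t.2⟩ : P') ^
        (p ^ a) = 1 := by
      apply Subtype.ext
      have : ((t ^ (p ^ a) : P'') : (A × A')ˣ) = 1 := congrArg Subtype.val hta
      have h3 := congrArg (Units.map (RingHom.snd A A' : A × A' →* A')) this
      rw [map_one, Subgroup.coe_pow, map_pow] at h3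
      exact h3
    by_cases ht1 : (⟨Units.map (RingHom.fst A A' : A × A' →* A) (t : (A × A')ˣ), hπ _ t.2⟩ : P) = 1
    · by_cases ht2 :
        (⟨Units.map (RingHom.snd A A' : A × A' →* A') (t : (A × A')ˣ), hπ' _ t.2⟩ : P') = 1
      · exfalso
        apply ht
        apply Subtype.ext
        apply Units.ext
        apply Prod.ext
        · exact congrArg (fun u : P => ((u : Aˣ) : A)) ht1
        · exact congrArg (fun u : P' => ((u : A'ˣ) : A')) ht2
      · rw [h0' _ ht2 a h2, mul_zero]
    · rw [h0 _ ht1 a h1, zero_mul]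
  · intro d hdd
    by_cases hd0 : d = 0
    · subst hd0
      exact ⟨1, fun h => (Fact.out : p.Prime).one_lt.ne' (Nat.dvd_one.1 h), by simp⟩
    · obtain ⟨d₁, d₂, rfl, hd1, hd2⟩ := split d hd0 hdd
      obtain ⟨q, hq, hqd⟩ := hd d₁ hd1
      obtain ⟨q', hq', hqd'⟩ := hd' d₂ hd2
      refine ⟨q * q', fun h => ?_, ?_⟩
      · rcases (Fact.out : p.Prime).dvd_mul.1 h with h | h
        · exact hq h
        · exact hq' h
      · rw [mul_mul_mul_comm]
        exact mul_dvd_mul hqd hqd'

theorem Good.iso (p : ℕ) [Fact p.Prime] (G H : Type) [Group G] [Group H] (e : G ≃* H)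
    (hG : Good p G) : Good p H := by
  obtain ⟨A, iR, iA, iF, iM, P, k, φ, f, c, hk, hP, hφ, hf, hc, h0, hd⟩ := hG
  refine ⟨A, iR, iA, iF, iM, P, k, φ.comp e.symm.toMonoidHom, f, c, hk, hP,
    hφ.comp e.symm.injective, hf, hc, h0, ?_⟩
  intro d hdd
  apply hd d
  intro K hK
  have e1 := K.equivMapOfInjective e.toMonoidHom e.injective
  have := hdd (K.map e.toMonoidHom) (Finite.of_equiv _ e1.toEquiv)
  rwa [Nat.card_congr e1.toEquiv]

namespace R1x

/-- the product character -/
theorem prod_mem (p : ℕ) [Fact p.Prime] {A : Type} [Ring A] (P : Subgroup Aˣ) (K : ℕ)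
    (g : ℕ → P → ℤ_[p]) (hg : ∀ j, g j ∈ AC p P) :
    (fun u => ∏ j ∈ Finset.range K, g j u) ∈ AC p P := by
  induction K with
  | zero =>
    have := AC.const p P 1
    simpa using this
  | succ K ih =>
    have := AC.mul p P ih (hg K)
    have e : (fun u => ∏ j ∈ Finset.range (K + 1), g j u) =
        (fun u => ∏ j ∈ Finset.range K, g j u) * g K := by
      funext u
      rw [Finset.prod_range_succ, Pi.mul_apply]
    rw [e]; exact this

end R1x

open R1x in
theorem Good.gl (p : ℕ) [Fact p.Prime] (m : ℕ) :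
    Good p (Matrix.GeneralLinearGroup (Fin m) ℤ) := by
  have hp2 : 2 ≤ p := (Fact.out : p.Prime).two_le
  let K := m / (p - 1)
  have hKm : K * (p - 1) ≤ m := Nat.div_mul_le_self _ _
  let A := Matrix (Fin m) (Fin m) ℤ_[p]
  let P : Subgroup Aˣ := ⊤
  let g : ℕ → P → ℤ_[p] := fun j u =>
    (((u : Aˣ) : A)).trace - (((m : ℤ) - p * (j + 1) : ℤ) : ℤ_[p])
  have hg : ∀ j, g j ∈ AC p P := by
    intro j
    exact (AC p P).sub_mem (AC.of_ringHom p P m (RingHom.id A)) (AC.const p P _)
  refine ⟨A, inferInstance, inferInstance, inferInstance, inferInstance, P, 2,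
    (Subgroup.topEquiv.symm.toMonoidHom).comp
      (Matrix.GeneralLinearGroup.map (Int.castRingHom ℤ_[p])),
    fun u => ∏ j ∈ Finset.range K, g j u, p ^ K * K.factorial, ?_, ?_, ?_, ?_, ?_, ?_, ?_⟩
  · nlinarith
  · intro u _; exact Subgroup.mem_top u
  · refine (Subgroup.topEquiv.symm.injective).comp ?_
    intro x y hxy
    apply Units.ext
    ext i j
    have h1 := congrArg (fun u : Matrix.GeneralLinearGroup (Fin m) ℤ_[p] =>
      (u : Matrix (Fin m) (Fin m) ℤ_[p]) i j) hxy
    simpa using h1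
  · exact prod_mem p P K g hg
  · have h1 : ∀ j ∈ Finset.range K, g j 1 = (p : ℤ_[p]) * ((j + 1 : ℕ) : ℤ_[p]) := by
      intro j _
      change ((1 : A)).trace - (((m : ℤ) - p * (j + 1) : ℤ) : ℤ_[p]) = _
      rw [Matrix.trace_one, Fintype.card_fin]
      push_cast
      ring
    change ∏ j ∈ Finset.range K, g j 1 = _
    rw [Finset.prod_congr rfl h1, Finset.prod_mul_distrib, Finset.prod_const, Finset.card_range,
      ← Nat.cast_prod, Finset.prod_range_add_one_eq_factorial]
    push_cast
    rfl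
  · intro t ht a hta
    have h1 : (((t : Aˣ) : A)) ^ (p ^ a) = 1 := by
      have := congrArg (fun u : P => ((u : Aˣ) : A)) hta
      simpa using this
    have h2 : (((t : Aˣ) : A)) ≠ 1 := by
      intro h
      apply ht
      apply Subtype.ext
      apply Units.ext
      exact h
    obtain ⟨k, hk1, hkm, htr⟩ := trace_torsion p m _ a h1 h2
    apply Finset.prod_eq_zero (i := k - 1)
    · rw [Finset.mem_range]
      have : k ≤ K := (Nat.le_div_iff_mul_le (by omega)).2 hkm
      omega
    · change (((t : Aˣ) : A)).trace - (((m : ℤ) - p * ((k - 1 : ℕ) + 1) : ℤ) : ℤ_[p]) = 0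
      rw [htr]
      have : ((k - 1 : ℕ) : ℤ) = k - 1 := by
        rw [Nat.cast_sub hk1]; simp
      rw [this]
      push_cast
      ring
  · intro d hdd
    obtain ⟨H, hH, hHc⟩ := exists_finite_subgroup p m K hp2 hKm
    refine ⟨1, fun h => (Fact.out : p.Prime).one_lt.ne' (Nat.dvd_one.1 h), ?_⟩
    rw [one_mul, ← hHc]
    exact hdd H hH

end Pool.Agent.H371.SA
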