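import Pool.Agent.H371.SA.Defs
import Pool.Agent.H371.SA.TN
import Pool.Agent.H371.SA.TQ
import Pool.Agent.H371.SA.TR1

/-!
TASK R2: free products with `ℤ` and with free groups.
-/

set_option autoImplicit false

namespace Pool.Agent.H371.SA.R2x

open Polynomial

/-- the `p`-adic integers are uncountable -/
theorem uncount (p : ℕ) [Fact p.Prime] : ¬ (Set.univ : Set ℤ_[p]).Countable := by
  intro h
  have h2 : (Metric.closedBall (0 : ℚ_[p]) 1).Countable := by
    have h3 := h.image (fun x : ℤ_[p] => (x : ℚ_[p]))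
    apply h3.mono
    intro y hy
    rw [mem_closedBall_zero_iff] at hy
    exact ⟨⟨y, hy⟩, Set.mem_univ _, rfl⟩
  have h4 := continuum_le_cardinal_of_isOpen ℚ_[p] (E := ℚ_[p])
    (IsUltrametricDist.isOpen_closedBall (0 : ℚ_[p]) one_ne_zero)
    ⟨0, Metric.mem_closedBall_self zero_le_one⟩
  have h5 := Cardinal.aleph0_lt_continuum.trans_le h4
  exact absurd h2.le_aleph0 (not_le.2 h5)

/-- avoid the roots of countably many polynomials -/
theorem exists_avoid (p : ℕ) [Fact p.Prime] {S : Type} [Countable S] (P : S → ℤ_[p][X])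
    (hP : ∀ s, P s ≠ 0) (c : ℤ_[p]) (hc : c ≠ 0) : ∃ t : ℤ_[p], ∀ s, (P s).eval (c * t) ≠ 0 := by
  classical
  by_contra hcon
  push Not at hcon
  apply uncount p
  have h1 : (⋃ s, {t : ℤ_[p] | (P s).eval (c * t) = 0}).Countable := by
    apply Set.countable_iUnion
    intro s
    have h2 : ({t : ℤ_[p] | (P s).eval t = 0}).Finite := by
      apply (Finset.finite_toSet (P s).roots.toFinset).subset
      intro t ht
      rw [Finset.mem_coe, Multiset.mem_toFinset, Polynomial.mem_roots (hP s)]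
      exact ht
    have h3 : {t : ℤ_[p] | (P s).eval (c * t) = 0} =
        (fun t => c * t) ⁻¹' {t : ℤ_[p] | (P s).eval t = 0} := rfl
    rw [h3]
    exact (h2.preimage ((mul_right_injective₀ hc).injOn)).countable
  apply h1.mono
  intro t _
  obtain ⟨s, hs⟩ := hcon t
  exact Set.mem_iUnion.2 ⟨s, hs⟩

/-- a vector which is not orthogonal to countably many given ones -/
theorem exists_vec (p : ℕ) [Fact p.Prime] {S ι : Type} [Countable S] [Fintype ι]
    (w : S → ι → ℤ_[p]) (hw : ∀ s, w s ≠ 0) : ∃ v : ι → ℤ_[p], ∀ s, ∑ i, w s i * v i ≠ 0 := by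
  classical
  let e : ι ≃ Fin (Fintype.card ι) := Fintype.equivFin ι
  let P : S → ℤ_[p][X] := fun s => ∑ i, C (w s i) * X ^ (e i : ℕ)
  have hP : ∀ s, P s ≠ 0 := by
    intro s h
    apply hw s
    funext i
    have h1 : (P s).coeff (e i : ℕ) = w s i := by
      simp only [P, Polynomial.finsetSum_coeff, Polynomial.coeff_C_mul, Polynomial.coeff_X_pow]
      rw [Finset.sum_eq_single i]
      · simp
      · intro j _ hj
        rw [if_neg, mul_zero]
        intro h2
        apply hj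
        exact (e.injective (Fin.ext h2)).symm
      · intro h; exact absurd (Finset.mem_univ _) h
    rw [← h1, h]; simp
  obtain ⟨t, ht⟩ := exists_avoid p P hP 1 one_ne_zero
  refine ⟨fun i => t ^ (e i : ℕ), fun s => ?_⟩
  have := ht s
  simp only [P, Polynomial.eval_finsetSum, Polynomial.eval_mul, Polynomial.eval_C,
    Polynomial.eval_pow, Polynomial.eval_X, one_mul] at this
  exact this

/-! ### normal forms in `G * ℤ` -/
section words
variable {G : Type} [Group G]

/-- reduced tails `T ^ n₁ g₁ T ^ n₂ g₂ ⋯` -/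
def Red : List (ℤ × G) → Prop
  | [] => True
  | [a] => a.1 ≠ 0
  | a :: b :: L => a.1 ≠ 0 ∧ a.2 ≠ 1 ∧ Red (b :: L)

theorem Red.tail {a : ℤ × G} {L : List (ℤ × G)} (h : Red (a :: L)) : Red L := by
  cases L with
  | nil => trivial
  | cons b L => exact h.2.2

theorem Red.head {a : ℤ × G} {L : List (ℤ × G)} (h : Red (a :: L)) : a.1 ≠ 0 := by
  cases L with
  | nil => exact h
  | cons b L => exact h.1

theorem Red.change {n m : ℤ} {g : G} {L : List (ℤ × G)} (h : Red ((n, g) :: L)) (hm : m ≠ 0) :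
    Red ((m, g) :: L) := by
  cases L with
  | nil => exact hm
  | cons b L => exact ⟨hm, h.2.1, h.2.2⟩

theorem Red.cons {n : ℤ} {g : G} {L : List (ℤ × G)} (hn : n ≠ 0) (hg : g ≠ 1) (h : Red L) :
    Red ((n, g) :: L) := by
  cases L with
  | nil => exact hn
  | cons b L => exact ⟨hn, hg, h⟩

/-- the element given by a word -/
def ev (g : G) (L : List (ℤ × G)) : Monoid.Coprod G (Multiplicative ℤ) :=
  Monoid.Coprod.inl g *
    (L.map fun a => Monoid.Coprod.inr (Multiplicative.ofAdd a.1) * Monoid.Coprod.inl a.2).prod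

theorem exists_word (x : Monoid.Coprod G (Multiplicative ℤ)) :
    ∃ (g : G) (L : List (ℤ × G)), Red L ∧ x = ev g L := by
  induction x using Monoid.Coprod.induction_on' with
  | one => exact ⟨1, [], trivial, by simp [ev]⟩
  | inl_mul m x ih =>
    obtain ⟨g, L, hL, rfl⟩ := ih
    exact ⟨m * g, L, hL, by simp [ev, mul_assoc]⟩
  | inr_mul n x ih =>
    obtain ⟨g, L, hL, rfl⟩ := ih
    obtain ⟨n, rfl⟩ := Multiplicative.ofAdd.surjective n
    by_cases hn : n = 0
    · subst hn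
      exact ⟨g, L, hL, by simp [ev]⟩
    by_cases hg : g = 1
    · subst hg
      cases L with
      | nil => exact ⟨1, [(n, 1)], hn, by simp [ev]⟩
      | cons a L =>
        obtain ⟨m, g⟩ := a
        by_cases hnm : n + m = 0
        · refine ⟨g, L, hL.tail, ?_⟩
          simp only [ev, List.map_cons, List.prod_cons, map_one, one_mul]
          rw [← mul_assoc, ← mul_assoc, ← map_mul, ← ofAdd_add, hnm]
          simp
        · refine ⟨1, (n + m, g) :: L, hL.change hnm, ?_⟩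
          simp only [ev, List.map_cons, List.prod_cons, map_one, one_mul]
          rw [← mul_assoc, ← mul_assoc, ← map_mul, ← ofAdd_add]
    · refine ⟨1, (n, g) :: L, Red.cons hn hg hL, ?_⟩
      simp [ev, mul_assoc]

end words

/-! ### the matrix computation -/
section matrix
variable {R n : Type} [CommRing R] [IsDomain R] [CharZero R] [Fintype n] [DecidableEq n]

/-- the value of a tail under `g ↦ Γ g`, `T ↦ 1 + τ v ψ` -/
def mv {G : Type} (Γ : G → Matrix n n R) (v ψ : n → R) (τ : R) :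
    List (ℤ × G) → Matrix n n R
  | [] => 1
  | a :: L => (1 + ((a.1 : R) * τ) • Matrix.vecMulVec v ψ) * Γ a.2 * mv Γ v ψ τ L

/-- `f` is a polynomial function of `τ` of degree at most `r` with coefficient `C` at `τ ^ r` -/
def PD (r : ℕ) (f : R → Matrix n n R) (C : Matrix n n R) : Prop :=
  ∀ a b, ∃ P : R[X], P.natDegree ≤ r ∧ P.coeff r = C a b ∧ ∀ τ, f τ a b = P.eval τ

omit [IsDomain R] [CharZero R] [DecidableEq n] in
theorem PD.step {r : ℕ} {f : R → Matrix n n R} {C : Matrix n n R} (h : PD r f C)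
    (M N : Matrix n n R) : PD (r + 1) (fun τ => (M + τ • N) * f τ) (N * C) := by
  intro a b
  choose P hP1 hP2 hP3 using h
  refine ⟨∑ c, (Polynomial.C (M a c) * P c b + X * (Polynomial.C (N a c) * P c b)), ?_, ?_, ?_⟩
  · apply Polynomial.natDegree_sum_le_of_forall_le
    intro c _
    apply (Polynomial.natDegree_add_le _ _).trans
    apply max_le
    · exact ((Polynomial.natDegree_C_mul_le _ _).trans (hP1 c b)).trans (Nat.le_succ r)
    · apply (Polynomial.natDegree_mul_le).trans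
      rw [add_comm r 1]
      exact add_le_add Polynomial.natDegree_X_le
        ((Polynomial.natDegree_C_mul_le _ _).trans (hP1 c b))
  · rw [Polynomial.finsetSum_coeff, Matrix.mul_apply]
    apply Finset.sum_congr rfl
    intro c _
    rw [Polynomial.coeff_add, Polynomial.coeff_C_mul, Polynomial.coeff_X_mul,
      Polynomial.coeff_C_mul, hP2, Polynomial.coeff_eq_zero_of_natDegree_lt
      (Nat.lt_succ_of_le (hP1 c b))]
    ring
  · intro τ
    change ((M + τ • N) * f τ) a b = _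
    rw [Matrix.mul_apply, Polynomial.eval_finsetSum]
    apply Finset.sum_congr rfl
    intro c _
    simp only [Matrix.add_apply, Matrix.smul_apply, smul_eq_mul, Polynomial.eval_add,
      Polynomial.eval_mul, Polynomial.eval_C, Polynomial.eval_X, ← hP3]
    ring

omit [IsDomain R] [CharZero R] [DecidableEq n] in
theorem PD.mul_left {r : ℕ} {f : R → Matrix n n R} {C : Matrix n n R} (h : PD r f C)
    (M : Matrix n n R) : PD r (fun τ => M * f τ) (M * C) := by
  intro a b
  choose P hP1 hP2 hP3 using h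
  refine ⟨∑ c, Polynomial.C (M a c) * P c b, ?_, ?_, ?_⟩
  · apply Polynomial.natDegree_sum_le_of_forall_le
    intro c _
    exact (Polynomial.natDegree_C_mul_le _ _).trans (hP1 c b)
  · rw [Polynomial.finsetSum_coeff, Matrix.mul_apply]
    apply Finset.sum_congr rfl
    intro c _
    rw [Polynomial.coeff_C_mul, hP2]
  · intro τ
    change (M * f τ) a b = _
    rw [Matrix.mul_apply, Polynomial.eval_finsetSum]
    apply Finset.sum_congr rfl
    intro c _
    simp only [Polynomial.eval_mul, Polynomial.eval_C, ← hP3]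

omit [IsDomain R] [CharZero R] [Fintype n] in
theorem PD.one : PD 0 (fun _ : R => (1 : Matrix n n R)) 1 := by
  intro a b
  refine ⟨Polynomial.C ((1 : Matrix n n R) a b), by simp, by simp, by simp⟩

theorem mv_PD {G : Type} [Group G] (Γ : G → Matrix n n R) (v ψ : n → R) (L : List (ℤ × G))
    (hL : Red L) (hne : L ≠ []) (hψ : ∀ g, Matrix.vecMul ψ (Γ g) ≠ 0)
    (hv : ∀ g : G, g ≠ 1 → ψ ⬝ᵥ (Matrix.mulVec (Γ g) v) ≠ 0) :
    ∃ (c : R) (χ : n → R), c ≠ 0 ∧ χ ≠ 0 ∧
      PD L.length (fun τ => mv Γ v ψ τ L) (c • Matrix.vecMulVec v χ) := by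
  induction L with
  | nil => exact absurd rfl hne
  | cons a L ih =>
    obtain ⟨m, g⟩ := a
    have hm : (m : R) ≠ 0 := by
      have := hL.head
      simpa using this
    have hfun : ∀ τ, mv Γ v ψ τ ((m, g) :: L) =
        (Γ g + τ • ((m : R) • (Matrix.vecMulVec v ψ * Γ g))) * mv Γ v ψ τ L := by
      intro τ
      rw [mv, add_mul, one_mul, Matrix.smul_mul, mul_comm (m : R) τ, mul_smul]
    simp only [hfun, List.length_cons]
    cases L with
    | nil =>
      refine ⟨m, Matrix.vecMul ψ (Γ g), hm, hψ g, ?_⟩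
      have h1 := (PD.one (R := R) (n := n)).step (Γ g) ((m : R) • (Matrix.vecMulVec v ψ * Γ g))
      rw [mul_one] at h1
      rw [← Matrix.vecMulVec_mul]
      exact h1
    | cons b L =>
      obtain ⟨c, χ, hc, hχ, hPD⟩ := ih hL.tail (by simp)
      have hg : g ≠ 1 := hL.2.1
      refine ⟨(m : R) * c * (ψ ⬝ᵥ (Matrix.mulVec (Γ g) v)), χ,
        mul_ne_zero (mul_ne_zero hm hc) (hv g hg), hχ, ?_⟩
      have h1 := hPD.step (Γ g) ((m : R) • (Matrix.vecMulVec v ψ * Γ g))
      convert h1 using 1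
      rw [Matrix.smul_mul, Matrix.mul_smul, Matrix.mul_vecMulVec, ← Matrix.mulVec_mulVec,
        Matrix.vecMulVec_mulVec]
      ext i j
      simp only [Matrix.smul_apply, Matrix.vecMulVec_apply, smul_eq_mul, Pi.smul_apply,
        op_smul_eq_smul]
      ring

end matrix

/-- choice of the parameter -/
theorem exists_tau (p : ℕ) [Fact p.Prime] {n : Type} [Fintype n] [DecidableEq n] {G : Type}
    [Group G] [Countable G] (Γ : G → Matrix n n ℤ_[p]) (v ψ : n → ℤ_[p])
    (hψ : ∀ g, Matrix.vecMul ψ (Γ g) ≠ 0) (hΓ : ∀ g, Matrix.mulVec (Γ g) v ≠ 0)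
    (hv : ∀ g : G, g ≠ 1 → ψ ⬝ᵥ (Matrix.mulVec (Γ g) v) ≠ 0) (c : ℤ_[p]) (hc : c ≠ 0) :
    ∃ t : ℤ_[p], ∀ (g : G) (L : List (ℤ × G)), Red L → L ≠ [] →
      Γ g * mv Γ v ψ (c * t) L ≠ 1 := by
  have key : ∀ s : {s : G × List (ℤ × G) // Red s.2 ∧ s.2 ≠ []}, ∃ P : ℤ_[p][X], P ≠ 0 ∧
      ∀ τ, Γ s.1.1 * mv Γ v ψ τ s.1.2 = 1 → P.eval τ = 0 := by
    rintro ⟨⟨g, L⟩, hL, hne⟩
    obtain ⟨c, χ, hc, hχ, hPD⟩ := mv_PD Γ v ψ L hL hne hψ hv
    have h1 := hPD.mul_left (Γ g)
    rw [Matrix.mul_smul, Matrix.mul_vecMulVec] at h1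
    obtain ⟨a, ha⟩ := Function.ne_iff.1 (hΓ g)
    obtain ⟨b, hb⟩ := Function.ne_iff.1 hχ
    obtain ⟨P, -, hP2, hP3⟩ := h1 a b
    refine ⟨P - Polynomial.C ((1 : Matrix n n ℤ_[p]) a b), ?_, ?_⟩
    · intro h0
      have h2 : (P - Polynomial.C ((1 : Matrix n n ℤ_[p]) a b)).coeff L.length = 0 := by
        rw [h0, Polynomial.coeff_zero]
      have h3 : 0 < L.length := List.length_pos_iff.2 hne
      rw [Polynomial.coeff_sub, hP2, Polynomial.coeff_C, if_neg h3.ne', sub_zero,
        Matrix.smul_apply, Matrix.vecMulVec_apply, smul_eq_mul] at h2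
      exact mul_ne_zero hc (mul_ne_zero ha hb) h2
    · intro τ hτ
      rw [Polynomial.eval_sub, Polynomial.eval_C, ← hP3]
      change (Γ g * mv Γ v ψ τ L) a b - _ = 0
      rw [hτ, sub_self]
  choose P hP0 hP using key
  obtain ⟨t, ht⟩ := exists_avoid p P hP0 c hc
  exact ⟨t, fun g L hL hne h => ht ⟨⟨g, L⟩, hL, hne⟩ (hP ⟨⟨g, L⟩, hL, hne⟩ _ h)⟩

end Pool.Agent.H371.SA.R2x

namespace Pool.Agent.H371.SA

namespace R2x

section construction
variable {p : ℕ} [Fact p.Prime] {A : Type} [Ring A] [Algebra ℤ_[p] A] [Module.Free ℤ_[p] A]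
  [Module.Finite ℤ_[p] A]

variable (p A) in
/-- the index type -/
abbrev J : Type := Module.Free.ChooseBasisIndex ℤ_[p] A ⊕ Fin 2

noncomputable instance : DecidableEq (Module.Free.ChooseBasisIndex ℤ_[p] A) := Classical.decEq _

/-- the left regular representation -/
noncomputable def lr : A →+* Matrix (Module.Free.ChooseBasisIndex ℤ_[p] A)
    (Module.Free.ChooseBasisIndex ℤ_[p] A) ℤ_[p] :=
  (Algebra.leftMulMatrix (Module.Free.chooseBasis ℤ_[p] A) : A →+* _)

theorem lr_injective : Function.Injective (lr (p := p) (A := A)) :=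
  Algebra.leftMulMatrix_injective _

/-- the left regular representation plus a trivial one -/
noncomputable def Ga : A →* Matrix (J p A) (J p A) ℤ_[p] where
  toFun x := Matrix.fromBlocks (lr x) 0 0 1
  map_one' := by rw [map_one, Matrix.fromBlocks_one]
  map_mul' x y := by
    rw [Matrix.fromBlocks_multiply, map_mul]; simp

variable (p) in
/-- the new group -/
noncomputable def PP (P : Subgroup Aˣ) : Subgroup (A × Matrix (J p A) (J p A) ℤ_[p])ˣ where
  carrier := {u | Units.map (MonoidHom.fst A (Matrix (J p A) (J p A) ℤ_[p])) u ∈ P ∧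
    ∃ b : Matrix (J p A) (J p A) ℤ_[p], (u : A × Matrix (J p A) (J p A) ℤ_[p]).2 =
      Ga (u : A × Matrix (J p A) (J p A) ℤ_[p]).1 + ((p : ℤ_[p]) ^ 2) • b}
  mul_mem' := by
    rintro u w ⟨hu1, b, hb⟩ ⟨hw1, c, hc⟩
    refine ⟨by rw [map_mul]; exact mul_mem hu1 hw1,
      Ga (u : A × Matrix (J p A) (J p A) ℤ_[p]).1 * c + b * Ga (w : A × Matrix (J p A) (J p A) ℤ_[p]).1
        + ((p : ℤ_[p]) ^ 2) • (b * c), ?_⟩
    rw [Units.val_mul, Prod.snd_mul, Prod.fst_mul, map_mul, hb, hc]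
    simp only [add_mul, mul_add, smul_add, Matrix.smul_mul, Matrix.mul_smul]
    abel
  one_mem' := by
    refine ⟨by rw [map_one]; exact one_mem P, 0, by simp⟩
  inv_mem' := by
    rintro u ⟨hu1, b, hb⟩
    refine ⟨by rw [map_inv]; exact inv_mem hu1,
      - ((u⁻¹ : (A × Matrix (J p A) (J p A) ℤ_[p])ˣ) : A × Matrix (J p A) (J p A) ℤ_[p]).2 * b *
        Ga ((u⁻¹ : (A × Matrix (J p A) (J p A) ℤ_[p])ˣ) : A × Matrix (J p A) (J p A) ℤ_[p]).1, ?_⟩
    set y := (u : A × Matrix (J p A) (J p A) ℤ_[p]).2 with hy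
    set y' := ((u⁻¹ : (A × Matrix (J p A) (J p A) ℤ_[p])ˣ) :
      A × Matrix (J p A) (J p A) ℤ_[p]).2 with hy'
    set x := (u : A × Matrix (J p A) (J p A) ℤ_[p]).1 with hx
    set x' := ((u⁻¹ : (A × Matrix (J p A) (J p A) ℤ_[p])ˣ) :
      A × Matrix (J p A) (J p A) ℤ_[p]).1 with hx'
    have h1 : y' * y = 1 := by
      rw [hy, hy', ← Prod.snd_mul, ← Units.val_mul, inv_mul_cancel]; rfl
    have h2 : x * x' = 1 := by
      rw [hx, hx', ← Prod.fst_mul, ← Units.val_mul, mul_inv_cancel]; rfl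
    have h3 : Ga (p := p) x * Ga x' = 1 := by rw [← map_mul, h2, map_one]
    have h4 : (p : ℤ_[p]) ^ 2 • (y' * b * Ga x') = Ga x' - y' := by
      have h5 : (p : ℤ_[p]) ^ 2 • b = y - Ga x := by rw [hb]; abel
      rw [← Matrix.smul_mul, ← Matrix.mul_smul, h5, mul_sub, sub_mul, h1, one_mul, mul_assoc, h3,
        mul_one]
    rw [neg_mul, neg_mul, smul_neg, h4]
    abel

theorem mem_PP {P : Subgroup Aˣ} {u : (A × Matrix (J p A) (J p A) ℤ_[p])ˣ} : u ∈ PP p P ↔
    Units.map (MonoidHom.fst A (Matrix (J p A) (J p A) ℤ_[p])) u ∈ P ∧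
    ∃ b : Matrix (J p A) (J p A) ℤ_[p], (u : A × Matrix (J p A) (J p A) ℤ_[p]).2 =
      Ga (u : A × Matrix (J p A) (J p A) ℤ_[p]).1 + ((p : ℤ_[p]) ^ 2) • b := Iff.rfl

/-- the homomorphism from `ℤ` -/
noncomputable def zh (N : Matrix (J p A) (J p A) ℤ_[p]) (hN : N * N = 0) (τ : ℤ_[p]) :
    Multiplicative ℤ →* (A × Matrix (J p A) (J p A) ℤ_[p])ˣ :=
  MonoidHom.toHomUnits
    { toFun := fun n => (1, 1 + (((Multiplicative.toAdd n : ℤ) : ℤ_[p]) * τ) • N)
      map_one' := by simp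
      map_mul' := by
        intro a b
        refine Prod.ext (by simp) ?_
        simp only [toAdd_mul, Int.cast_add, add_mul, add_smul, Prod.snd_mul, mul_add,
          Matrix.mul_smul, Matrix.smul_mul, hN, smul_zero, mul_one, one_mul]
        abel }

theorem zh_val (N : Matrix (J p A) (J p A) ℤ_[p]) (hN : N * N = 0) (τ : ℤ_[p]) (n : ℤ) :
    ((zh N hN τ (Multiplicative.ofAdd n) : (A × Matrix (J p A) (J p A) ℤ_[p])ˣ) :
      A × Matrix (J p A) (J p A) ℤ_[p]) = (1, 1 + ((n : ℤ_[p]) * τ) • N) := rfl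

/-- the homomorphism from `G` -/
noncomputable def gh : Aˣ →* (A × Matrix (J p A) (J p A) ℤ_[p])ˣ :=
  Units.map ((MonoidHom.id A).prod Ga)

theorem gh_val (u : Aˣ) : ((gh u : (A × Matrix (J p A) (J p A) ℤ_[p])ˣ) :
      A × Matrix (J p A) (J p A) ℤ_[p]) = ((u : A), Ga (u : A)) := rfl

theorem gh_mem {P : Subgroup Aˣ} (u : Aˣ) (hu : u ∈ P) : (gh (p := p) u) ∈ PP p P := by
  refine ⟨?_, 0, by rw [gh_val]; simp⟩
  convert hu
  apply Units.ext
  rfl

theorem zh_mem {P : Subgroup Aˣ} (N : Matrix (J p A) (J p A) ℤ_[p]) (hN : N * N = 0) (t : ℤ_[p])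
    (n : Multiplicative ℤ) : zh N hN ((p : ℤ_[p]) ^ 2 * t) n ∈ PP p P := by
  obtain ⟨n, rfl⟩ := Multiplicative.ofAdd.surjective n
  refine ⟨?_, ((n : ℤ_[p]) * t) • N, ?_⟩
  · convert one_mem P
    apply Units.ext
    rfl
  · rw [zh_val]
    simp only [map_one, smul_smul]
    congr 2
    ring

/-- vectors -/
theorem exists_vectors {G : Type} [Group G] [Countable G] (φ : G →* Aˣ)
    (hφ : Function.Injective φ) : ∃ v ψ : J p A → ℤ_[p], ψ ⬝ᵥ v = 0 ∧ 
      (∀ g, Matrix.vecMul ψ (Ga (φ g : A)) ≠ 0) ∧ (∀ g, Matrix.mulVec (Ga (φ g : A)) v ≠ 0) ∧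
      (∀ g : G, g ≠ 1 → ψ ⬝ᵥ (Matrix.mulVec (Ga (φ g : A)) v) ≠ 0) := by
  have h1 : ∀ g : {g : G // g ≠ 1}, lr (p := p) (φ g.1 : A) - 1 ≠ 0 := by
    rintro ⟨g, hg⟩ h
    apply hg
    apply hφ
    rw [map_one]
    apply Units.ext
    apply lr_injective (p := p)
    rw [sub_eq_zero] at h
    rw [h, Units.val_one, map_one]
  have h2 : ∀ g : {g : G // g ≠ 1}, ∃ i, (lr (p := p) (φ g.1 : A) - 1) i ≠ 0 := by
    intro g
    by_contra hcon
    push Not at hcon
    apply h1 g
    ext i j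
    rw [hcon i]; rfl
  choose i hi using h2
  obtain ⟨v0, hv0⟩ := exists_vec p (fun g : {g : G // g ≠ 1} =>
    (lr (p := p) (φ g.1 : A) - 1) (i g)) hi
  have h3 : ∀ g : {g : G // g ≠ 1}, Matrix.mulVec (lr (p := p) (φ g.1 : A) - 1) v0 ≠ 0 := by
    intro g h
    exact hv0 g (congrFun h (i g))
  obtain ⟨ψ0, hψ0⟩ := exists_vec p (fun g : {g : G // g ≠ 1} =>
    Matrix.mulVec (lr (p := p) (φ g.1 : A) - 1) v0) h3
  have hinv : ∀ g, Ga (p := p) (φ g : A) * Ga (φ g⁻¹ : A) = 1 := by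
    intro g
    rw [← map_mul, ← Units.val_mul, ← map_mul, mul_inv_cancel, map_one, Units.val_one, map_one]
  have hinv' : ∀ g, Ga (p := p) (φ g⁻¹ : A) * Ga (φ g : A) = 1 := by
    intro g
    rw [← map_mul, ← Units.val_mul, ← map_mul, inv_mul_cancel, map_one, Units.val_one, map_one]
  refine ⟨Sum.elim v0 ![1, 0], Sum.elim ψ0 ![-(ψ0 ⬝ᵥ v0), 1], ?_, ?_, ?_, ?_⟩
  · rw [sumElim_dotProduct_sumElim]
    simp
  · intro g h
    have h4 := congrArg (fun w => Matrix.vecMul w (Ga (p := p) (φ g⁻¹ : A))) h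
    simp only [Matrix.vecMul_vecMul, hinv, Matrix.vecMul_one, Matrix.zero_vecMul] at h4
    have h5 := congrFun h4 (Sum.inr 1)
    simp at h5
  · intro g h
    have h4 := congrArg (fun w => Matrix.mulVec (Ga (p := p) (φ g⁻¹ : A)) w) h
    simp only [Matrix.mulVec_mulVec, hinv', Matrix.one_mulVec, Matrix.mulVec_zero] at h4
    have h5 := congrFun h4 (Sum.inr 0)
    simp at h5
  · intro g hg
    change (Sum.elim ψ0 ![-(ψ0 ⬝ᵥ v0), 1]) ⬝ᵥ (Matrix.mulVec
      (Matrix.fromBlocks (lr (φ g : A)) 0 0 1) (Sum.elim v0 ![1, 0])) ≠ 0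
    rw [Matrix.fromBlocks_mulVec, sumElim_dotProduct_sumElim]
    have h4 := hψ0 ⟨g, hg⟩
    have h5 : ∑ i, Matrix.mulVec (lr (p := p) (φ g : A) - 1) v0 i * ψ0 i =
        ψ0 ⬝ᵥ (Matrix.mulVec (lr (p := p) (φ g : A)) v0) - ψ0 ⬝ᵥ v0 := by
      rw [Matrix.sub_mulVec, Matrix.one_mulVec, ← dotProduct_sub, dotProduct]
      exact Finset.sum_congr rfl fun i _ => mul_comm _ _
    simp only at h4
    rw [h5] at h4
    intro h6
    apply h4
    rw [← h6]
    simp
    ring

end construction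

end R2x

open R2x in
theorem Good.coprod_int (p : ℕ) [Fact p.Prime] (G : Type) [Group G] [Countable G]
    (hG : Good p G) : Good p (Monoid.Coprod G (Multiplicative ℤ)) := by
  obtain ⟨A, _, _, _, _, P, k, φ, f, c, hk, hP, hφ, hf, hf1, hf0, hdiv⟩ := hG
  have hφ' : Function.Injective (P.subtype.comp φ) := by
    rw [MonoidHom.coe_comp]
    exact P.subtype_injective.comp hφ
  obtain ⟨v, ψ, hψv, h1, h2, h3⟩ := exists_vectors (p := p) (P.subtype.comp φ) hφ'
  have hp0 : (p : ℤ_[p]) ≠ 0 := Nat.cast_ne_zero.2 (Fact.out : p.Prime).ne_zero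
  obtain ⟨t, ht⟩ := exists_tau p (fun g => Ga (p := p) ((P.subtype.comp φ g : Aˣ) : A)) v ψ h1 h2 h3
    ((p : ℤ_[p]) ^ 2) (pow_ne_zero 2 hp0)
  set τ := (p : ℤ_[p]) ^ 2 * t with hτ
  have hN : Matrix.vecMulVec v ψ * Matrix.vecMulVec v ψ = 0 := by
    rw [Matrix.vecMulVec_mul_vecMulVec, hψv, zero_smul, Matrix.vecMulVec_zero]
  let Φ1 : G →* PP p P := ((gh (p := p)).comp (P.subtype.comp φ)).codRestrict (PP p P)
    (fun g => gh_mem _ (φ g).2)
  let Φ2 : Multiplicative ℤ →* PP p P := (zh (Matrix.vecMulVec v ψ) hN τ).codRestrict (PP p P)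
    (fun n => zh_mem _ _ _ n)
  let Φ : Monoid.Coprod G (Multiplicative ℤ) →* PP p P := Monoid.Coprod.lift Φ1 Φ2
  have hev : ∀ (g : G) (L : List (ℤ × G)),
      (((Φ (ev g L) : PP p P) : (A × Matrix (J p A) (J p A) ℤ_[p])ˣ) :
        A × Matrix (J p A) (J p A) ℤ_[p]).2 =
      Ga ((P.subtype.comp φ g : Aˣ) : A) * mv (fun g => Ga (p := p)
        ((P.subtype.comp φ g : Aˣ) : A)) v ψ τ L := by
    intro g L
    rw [ev, map_mul]
    have h4 : Φ (Monoid.Coprod.inl g) = Φ1 g := Monoid.Coprod.lift_apply_inl _ _ _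
    rw [h4]
    have h5 : ∀ L : List (ℤ × G), (((Φ ((L.map fun a => Monoid.Coprod.inr
        (Multiplicative.ofAdd a.1) * Monoid.Coprod.inl a.2).prod) : PP p P) :
        (A × Matrix (J p A) (J p A) ℤ_[p])ˣ) : A × Matrix (J p A) (J p A) ℤ_[p]).2 =
        mv (fun g => Ga (p := p) ((P.subtype.comp φ g : Aˣ) : A)) v ψ τ L := by
      intro L
      induction L with
      | nil => simp [mv]
      | cons a L ih =>
        rw [List.map_cons, List.prod_cons, map_mul, Subgroup.coe_mul, Units.val_mul, Prod.snd_mul,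
          ih, mv, map_mul, Subgroup.coe_mul, Units.val_mul, Prod.snd_mul]
        have h6 : Φ (Monoid.Coprod.inl a.2) = Φ1 a.2 := Monoid.Coprod.lift_apply_inl _ _ _
        have h7 : Φ (Monoid.Coprod.inr (Multiplicative.ofAdd a.1)) =
          Φ2 (Multiplicative.ofAdd a.1) := Monoid.Coprod.lift_apply_inr _ _ _
        rw [h6, h7]
        rfl
    rw [Subgroup.coe_mul, Units.val_mul, Prod.snd_mul, h5]
    rfl
  have hinj : Function.Injective Φ := by
    rw [injective_iff_map_eq_one]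
    intro x hx
    obtain ⟨g, L, hL, rfl⟩ := exists_word x
    by_cases hne : L = []
    · subst hne
      have h4 : ev g [] = Monoid.Coprod.inl g := by simp [ev]
      rw [h4] at hx ⊢
      have h5 : Φ (Monoid.Coprod.inl g) = Φ1 g := Monoid.Coprod.lift_apply_inl _ _ _
      rw [h5] at hx
      have h6 : ((((Φ1 g : PP p P) : (A × Matrix (J p A) (J p A) ℤ_[p])ˣ) :
        A × Matrix (J p A) (J p A) ℤ_[p])).1 = 1 := by rw [hx]; rfl
      have h7 : P.subtype.comp φ g = 1 := Units.ext h6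
      rw [hφ' (h7.trans (map_one _).symm), map_one]
    · exfalso
      apply ht g L hL hne
      rw [← hev, hx]
      rfl
  have hp1 : 1 < p := (Fact.out : p.Prime).one_lt
  let K := max k 2
  have hK : 2 < p ^ K := lt_of_lt_of_le hk (Nat.pow_le_pow_right hp1.le (le_max_left _ _))
  have hpi : ∀ u ∈ PP p P, Units.map ((RingHom.fst A (Matrix (J p A) (J p A) ℤ_[p]) :
      A × Matrix (J p A) (J p A) ℤ_[p] →+* A) : A × Matrix (J p A) (J p A) ℤ_[p] →* A) u ∈ P := by
    intro u hu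
    exact hu.1
  refine ⟨A × Matrix (J p A) (J p A) ℤ_[p], inferInstance, inferInstance, inferInstance,
    inferInstance, PP p P, K, Φ,
    fun u => f ⟨Units.map ((RingHom.fst A (Matrix (J p A) (J p A) ℤ_[p]) :
      A × Matrix (J p A) (J p A) ℤ_[p] →+* A) : A × Matrix (J p A) (J p A) ℤ_[p] →* A) u,
      hpi u u.2⟩, c, hK, ?_, hinj,
    AC.comap p (PP p P) P (RingHom.fst A _) hpi hf, ?_, ?_, ?_⟩
  · rintro u ⟨a, ha⟩
    rw [← Nat.cast_pow] at ha
    have ha1 : (u : A × Matrix (J p A) (J p A) ℤ_[p]).1 = 1 + ((p ^ K : ℕ) : A) * a.1 := by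
      rw [ha, Prod.fst_add, Prod.fst_one, Prod.fst_mul, Prod.fst_natCast]
    have ha2 : (u : A × Matrix (J p A) (J p A) ℤ_[p]).2 = 1 + ((p ^ K : ℕ) : ℤ_[p]) • a.2 := by
      rw [ha, Prod.snd_add, Prod.snd_one, Prod.snd_mul, Prod.snd_natCast, ← nsmul_eq_mul,
        Nat.cast_smul_eq_nsmul]
    refine ⟨?_, ?_⟩
    · apply hP
      refine ⟨(p : A) ^ (K - k) * a.1, ?_⟩
      rw [← mul_assoc, ← pow_add, Nat.add_sub_cancel' (le_max_left k 2), ← Nat.cast_pow]
      exact ha1
    · refine ⟨(p : ℤ_[p]) ^ (K - 2) • (a.2 - Matrix.fromBlocks (lr a.1) 0 0 0), ?_⟩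
      have h8 : Ga (p := p) (A := A) (1 + ((p ^ K : ℕ) : A) * a.1) =
          1 + ((p ^ K : ℕ) : ℤ_[p]) • Matrix.fromBlocks (lr a.1) 0 0 0 := by
        change Matrix.fromBlocks (lr _) 0 0 1 = _
        rw [Matrix.fromBlocks_smul, ← Matrix.fromBlocks_one, Matrix.fromBlocks_add, map_add,
          map_one, map_mul, map_natCast, ← nsmul_eq_mul, Nat.cast_smul_eq_nsmul]
        simp
      rw [smul_smul, ← pow_add, Nat.add_sub_cancel' (le_max_right k 2), ha1, h8, ha2, smul_sub,
        ← Nat.cast_pow]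
      abel
  · change f ⟨Units.map _ ((1 : PP p P) : (A × Matrix (J p A) (J p A) ℤ_[p])ˣ), _⟩ = _
    rw [← hf1]
    congr 1
  · intro u hu a hua
    by_cases hx : (⟨Units.map ((RingHom.fst A (Matrix (J p A) (J p A) ℤ_[p]) :
      A × Matrix (J p A) (J p A) ℤ_[p] →+* A) : A × Matrix (J p A) (J p A) ℤ_[p] →* A) u,
      hpi u u.2⟩ : P) = 1
    · exfalso
      apply hu
      have h4 : ((u : (A × Matrix (J p A) (J p A) ℤ_[p])ˣ) :
          A × Matrix (J p A) (J p A) ℤ_[p]).1 = 1 := by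
        have := congrArg (fun w : P => ((w : Aˣ) : A)) hx
        exact this
      obtain ⟨b, hb⟩ := u.2.2
      rw [h4, map_one] at hb
      have h5 : ((u : (A × Matrix (J p A) (J p A) ℤ_[p])ˣ) :
          A × Matrix (J p A) (J p A) ℤ_[p]).2 = 1 := by
        refine torsion_free p (Matrix (J p A) (J p A) ℤ_[p]) 2 ?_ _ b ?_ (p ^ a)
          (pow_pos (by omega) a) ?_
        · nlinarith
        · rw [hb, ← Nat.cast_pow, ← Nat.cast_pow, ← nsmul_eq_mul, Nat.cast_smul_eq_nsmul]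
        · rw [← Prod.pow_snd, ← Units.val_pow_eq_pow_val, ← SubgroupClass.coe_pow, hua]
          rfl
      apply Subtype.ext
      apply Units.ext
      exact Prod.ext h4 h5
    · apply hf0 _ hx a
      apply Subtype.ext
      change (Units.map ((RingHom.fst A (Matrix (J p A) (J p A) ℤ_[p]) :
        A × Matrix (J p A) (J p A) ℤ_[p] →+* A) : A × Matrix (J p A) (J p A) ℤ_[p] →* A)
        (u : (A × Matrix (J p A) (J p A) ℤ_[p])ˣ)) ^ (p ^ a) = 1
      rw [← map_pow, ← SubgroupClass.coe_pow, hua]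
      exact map_one _
  · intro d hd
    apply hdiv
    intro H hH
    have h4 := hd (H.map Monoid.Coprod.inl)
      (Set.Finite.image (Monoid.Coprod.inl : G →* Monoid.Coprod G (Multiplicative ℤ)) hH)
    rw [Subgroup.card_map_of_injective Monoid.Coprod.inl_injective] at h4
    exact h4


namespace R2x

open Monoid.Coprod in
/-- splitting off one free generator -/
noncomputable def splitIso (G : Type) [Group G] (m : ℕ) :
    Monoid.Coprod (Monoid.Coprod G (FreeGroup (Fin m))) (Multiplicative ℤ) ≃*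
      Monoid.Coprod G (FreeGroup (Fin (m + 1))) :=
  MonoidHom.toMulEquiv
    (lift (lift inl (FreeGroup.lift fun i => inr (FreeGroup.of (Fin.castSucc i))))
      (zpowersHom _ (inr (FreeGroup.of (Fin.last m)))))
    (lift (inl.comp inl) (FreeGroup.lift (Fin.lastCases (inr (Multiplicative.ofAdd 1))
      fun i => inl (inr (FreeGroup.of i)))))
    (by
      apply Monoid.Coprod.hom_ext
      · apply Monoid.Coprod.hom_ext
        · ext g; simp
        · ext i; simp
      · ext; simp)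
    (by
      apply Monoid.Coprod.hom_ext
      · ext g; simp
      · ext i
        refine Fin.lastCases ?_ (fun i => ?_) i
        · simp
        · simp)

/-- the case of no generators -/
noncomputable def zeroIso (G : Type) [Group G] : G ≃* Monoid.Coprod G (FreeGroup (Fin 0)) :=
  MonoidHom.toMulEquiv Monoid.Coprod.inl (Monoid.Coprod.lift (MonoidHom.id G) 1)
    (by ext g; simp)
    (by
      apply Monoid.Coprod.hom_ext
      · ext g; simp
      · ext i; exact i.elim0)

instance coprod_countable (G H : Type) [Group G] [Group H] [Countable G] [Countable H] :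
    Countable (Monoid.Coprod G H) :=
  haveI : Countable (FreeMonoid (G ⊕ H)) := inferInstanceAs (Countable (List (G ⊕ H)))
  Monoid.Coprod.mk_surjective.countable

theorem freeGroup_countable (m : ℕ) : Countable (FreeGroup (Fin m)) := by
  have h : Function.Surjective (FreeGroup.mk : List (Fin m × Bool) → FreeGroup (Fin m)) :=
    Quot.mk_surjective
  exact h.countable

end R2x

theorem Good.coprod_free (p : ℕ) [Fact p.Prime] (G : Type) [Group G] [Countable G] (m : ℕ)
    (hG : Good p G) : Good p (Monoid.Coprod G (FreeGroup (Fin m))) := by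
  induction m with
  | zero => exact Good.iso p G _ (R2x.zeroIso G) hG
  | succ m ih =>
    have := R2x.freeGroup_countable m
    exact Good.iso p _ _ (R2x.splitIso G m) (Good.coprod_int p _ ih)

end Pool.Agent.H371.SA
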