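import Pool.Agent.H371.SA.TD
import Pool.Agent.H371.SA.TE
import Pool.Agent.H371.SA.TH
import Pool.Agent.H371.SA.TI
import Pool.Agent.H371.SA.TJ
import Pool.Agent.H371.SA.TM
import Pool.Agent.H371.SA.TN
import Pool.Agent.H371.SA.TQ
import Pool.Graph.R_seed8.TH107.AT.Bc

set_option autoImplicit false

namespace Pool.Agent.H371.SA

open Filter Topology
open Pool.Agent.H80R2.BC (L2 GMat vdim kerA Coef act)
open Pool.Agent.W656.VA

namespace Sx

/-- integer matrices -/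
theorem exists_int {κ ι X : Type} (A : κ → ι → (X →₀ ℂ)) (hA : ∀ k i x, A k i x ∈ (Int.castRingHom ℂ).range) :
    ∃ A₀ : κ → ι → (X →₀ ℤ), (fun k i => (A₀ k i).mapRange (Int.cast : ℤ → ℂ) Int.cast_zero) = A := by
  classical
  choose g hg using fun k i x => RingHom.mem_range.1 (hA k i x)
  refine ⟨fun k i => Finsupp.onFinset (A k i).support (g k i) ?_, ?_⟩
  · intro x hx
    rw [Finsupp.mem_support_iff]
    intro h0
    apply hx
    have h1 := hg k i x
    rw [h0] at h1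
    simpa using h1
  · funext k i
    ext x
    simpa using hg k i x

theorem padic_eq_zero (p : ℕ) [Fact p.Prime] (y : ℤ_[p]) (h : ∀ n : ℕ, (p : ℤ_[p]) ^ n ∣ y) : y = 0 := by
  have h1 : ∀ n : ℕ, ‖y‖ ≤ (p : ℝ) ^ (-(n : ℤ)) := fun n =>
    (PadicInt.norm_le_pow_iff_mem_span_pow y n).2 (Ideal.mem_span_singleton.2 (h n))
  have h2 : Tendsto (fun n : ℕ => (p : ℝ) ^ (-(n : ℤ))) atTop (𝓝 0) := by
    have hp : (1 : ℝ) < p := by exact_mod_cast (Fact.out : p.Prime).one_lt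
    have h3 := tendsto_pow_atTop_nhds_zero_of_lt_one (inv_nonneg.2 (by positivity : (0 : ℝ) ≤ p))
      (inv_lt_one_of_one_lt₀ hp)
    refine h3.congr fun n => ?_
    rw [zpow_neg, zpow_natCast, inv_pow]
  have h3 : ‖y‖ ≤ 0 := ge_of_tendsto' h2 h1
  exact norm_le_zero_iff.1 h3

theorem sep {G : Type} [Group G] {p : ℕ} [Fact p.Prime] {T : Tower G} {d : ℕ} (C : Coord p T d)
    (g : G) (hg : g ≠ 1) : ∀ᶠ n in atTop, g ∉ T.U n := by
  have hmono : ∀ m n, m ≤ n → T.U n ≤ T.U m := by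
    intro m n hmn
    induction n, hmn using Nat.le_induction with
    | base => exact le_rfl
    | succ n _ ih => exact (T.anti n).trans ih
  have h1 : ∃ n, g ∉ T.U n := by
    by_contra hcon
    push Not at hcon
    apply hg
    let w : T.U 0 := ⟨g, hcon 0⟩
    have h2 : C.x 1 = C.x w := by
      funext i
      have h3 : ∀ n, (p : ℤ_[p]) ^ n ∣ C.x 1 i - C.x w i := by
        intro n
        refine (C.cong n 1 w).1 ?_ i
        simpa [w] using hcon n
      exact sub_eq_zero.1 (padic_eq_zero p _ h3)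
    have h4 := C.x.injective h2
    have h5 := congrArg Subtype.val h4
    exact h5.symm
  obtain ⟨n₀, hn₀⟩ := h1
  filter_upwards [eventually_ge_atTop n₀] with n hn hgn
  exact hn₀ (hmono _ _ hn hgn)

theorem AC_le_VC {p : ℕ} [Fact p.Prime] {A : Type} [Ring A] {P : Subgroup Aˣ} {T : Tower P} {k : ℕ}
    (hT : ∀ (n : ℕ) (u : P), u ∈ T.U n ↔ ∃ a : A, ((u : Aˣ) : A) = 1 + (p : A) ^ (k + n) * a) :
    AC p P ≤ VC p T := by
  refine AddSubgroup.closure_mono ?_
  rintro χ ⟨v, ρ, h, rfl⟩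
  refine ⟨v, ρ, ?_, rfl⟩
  intro n g hg
  refine h n g ?_
  obtain ⟨a, ha⟩ := (hT n g).1 hg
  refine ⟨(p : A) ^ k * a, ?_⟩
  rw [ha, add_comm k n, pow_add, mul_assoc]

/-- the essential case: the image of `G` has `p`-power order modulo the congruence subgroup -/
theorem pro_p {p : ℕ} [Fact p.Prime] {G : Type} [Group G] {A : Type} [Ring A] [Algebra ℤ_[p] A]
    [Module.Free ℤ_[p] A] [Module.Finite ℤ_[p] A] (P : Subgroup Aˣ) (k : ℕ) (φ : G →* P)
    (f : P → ℤ_[p]) (c : ℕ) (hk : 2 < p ^ k)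
    (hP : ∀ u : Aˣ, (∃ a : A, (u : A) = 1 + (p : A) ^ k * a) → u ∈ P)
    (hφ : Function.Injective φ) (hf : f ∈ AC p P) (hf1 : f 1 = c)
    (hf0 : ∀ t : P, t ≠ 1 → ∀ a : ℕ, t ^ (p ^ a) = 1 → f t = 0)
    (hidx : ∀ (W : Subgroup P), (∀ u : P, u ∈ W ↔ ∃ a : A, ((u : Aˣ) : A) = 1 + (p : A) ^ k * a) →
      ∃ u, W.index = p ^ u)
    {ι κ : Type} [Fintype ι] [Fintype κ] (B : κ → ι → (G →₀ ℤ)) :
    ∃ z : ℤ, (c : ℝ) * vdim (kerA (fun k i => (B k i).mapRange (Int.cast : ℤ → ℂ) Int.cast_zero)) = z := by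
  classical
  obtain ⟨T, hT, d, ⟨C⟩⟩ := exists_tower p A P k hk hP
  obtain ⟨u, hu⟩ := hidx (T.U 0) (fun v => by simpa using hT 0 v)
  have hp : ∀ n, ∃ m, Nat.card (T.Q n) = p ^ m := by
    intro n
    refine ⟨n * d + u, ?_⟩
    have hle : T.U n ≤ T.U 0 := by
      induction n with
      | zero => exact le_rfl
      | succ n ih => exact (T.anti n).trans ih
    have h1 : (T.N n).index = (T.U 0).index := by
      refine Subgroup.index_map_eq _ (QuotientGroup.mk'_surjective _) ?_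
      rw [QuotientGroup.ker_mk']
      exact hle
    rw [← Subgroup.card_mul_index (T.N n), h1, hu, C.card_N, pow_add]
  obtain ⟨n₀, hn₀⟩ := near_torsion p A P k hk hP f hf hf0 u u
  let M : Matrix ι κ (Lam ℤ_[p] T) := fun i j =>
    (B j i).sum fun h z => (z : ℤ_[p]) • Lam.of ℤ_[p] T (φ h)⁻¹
  obtain ⟨E, _, _, s, b, z, σ, hσ, hlim⟩ := exists_module p T (reg_of_coord p T C) M
  have happ := approx (G := G) T.Q (fun n => (QuotientGroup.mk' (T.U n)).comp φ)
    (by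
      intro g hg
      have h1 : φ g ≠ 1 := fun h => hg (hφ (by rw [h, map_one]))
      filter_upwards [sep C (φ g) h1] with n hn h2
      exact hn ((QuotientGroup.eq_one_iff _).1 h2))
    B p (fun n => M.map (Lam.proj ℤ_[p] T n))
    (by
      intro n i j
      change Lam.proj ℤ_[p] T n ((B j i).sum fun h z => (z : ℤ_[p]) • Lam.of ℤ_[p] T (φ h)⁻¹) = _
      rw [Finsupp.sum, map_sum, Finsupp.sum]
      refine Finset.sum_congr rfl fun h _ => ?_
      rw [map_smul]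
      change (((B j i) h : ℤ) : ℤ_[p]) • MonoidAlgebra.single (((φ h)⁻¹ : P) : T.Q n) (1 : ℤ_[p]) = _
      rw [MonoidAlgebra.smul_single, smul_eq_mul, mul_one]
      rfl)
  have hlim2 := happ.const_mul ((T.U 0).index : ℝ)
  have hEq : ((T.U 0).index : ℝ) * ((Fintype.card κ : ℝ) - Fintype.card ι +
        vdim (kerA (fun k i => (B k i).mapRange (Int.cast : ℤ → ℂ) Int.cast_zero))) =
      (z : ℝ) * (T.U 0).index + σ * s := by
    refine tendsto_nhds_unique hlim2 (hlim.congr fun n => ?_)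
    rw [mul_div_assoc]
  have htr : ((p : ℤ) ^ u) ∣ (c : ℤ) * s := by
    refine trace_main b u hu hp f (AC_le_VC hT hf) (c : ℤ) (by rw [hf1]; simp) ⟨n₀, ?_⟩
    intro g hg hg2
    refine hn₀ g ?_ ?_
    · intro h
      apply hg
      rw [hT]
      simpa using h
    · obtain ⟨a, ha⟩ := (hT n₀ _).1 hg2
      refine ⟨(p : A) ^ k * a, ?_⟩
      rw [ha, add_comm k n₀, pow_add, mul_assoc]
  obtain ⟨e, he⟩ := htr
  have hpu : ((p : ℝ) ^ u) ≠ 0 := pow_ne_zero _ (by exact_mod_cast (Fact.out : p.Prime).ne_zero)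
  refine ⟨(c : ℤ) * ((Fintype.card ι : ℤ) - Fintype.card κ) + c * z + σ * e, ?_⟩
  rw [hu] at hEq
  push_cast at hEq ⊢
  have he' : (c : ℝ) * s = (p : ℝ) ^ u * e := by exact_mod_cast he
  apply mul_left_cancel₀ hpu
  linear_combination (c : ℝ) * hEq + (σ : ℝ) * he'

/-- the general case for one matrix -/
theorem aux {p : ℕ} [Fact p.Prime] {G : Type} [Group G] {A : Type} [Ring A] [Algebra ℤ_[p] A]
    [Module.Free ℤ_[p] A] [Module.Finite ℤ_[p] A] (P : Subgroup Aˣ) (k : ℕ) (φ : G →* P)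
    (f : P → ℤ_[p]) (c : ℕ) (hk : 2 < p ^ k)
    (hP : ∀ u : Aˣ, (∃ a : A, (u : A) = 1 + (p : A) ^ k * a) → u ∈ P)
    (hφ : Function.Injective φ) (hf : f ∈ AC p P) (hf1 : f 1 = c)
    (hf0 : ∀ t : P, t ≠ 1 → ∀ a : ℕ, t ^ (p ^ a) = 1 → f t = 0)
    {ι κ : Type} [Fintype ι] [Fintype κ] (B : GMat κ ι G) (hB : Coef (Int.castRingHom ℂ).range B) :
    ∃ q : ℕ, ¬ p ∣ q ∧ ∃ z : ℤ, (c : ℝ) * (q * vdim (kerA B)) = z := by
  classical
  obtain ⟨T, hT, -⟩ := exists_tower p A P k hk hP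
  -- the finite quotient and the Sylow subgroup
  let π : P →* (P ⧸ T.U 0) := QuotientGroup.mk' (T.U 0)
  have hπs : Function.Surjective π := QuotientGroup.mk'_surjective _
  let φ' : G →* (P ⧸ T.U 0) := π.comp φ
  let S : Sylow p φ'.range := default
  let S' : Subgroup (P ⧸ T.U 0) := (S : Subgroup φ'.range).map φ'.range.subtype
  have hS' : IsPGroup p S' := S.2.map _
  let G₁ : Subgroup G := S'.comap φ'
  have hidx : ¬ p ∣ G₁.index := by
    have h1 : G₁.index = (S : Subgroup φ'.range).index := by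
      have h2 : G₁.index = S'.relIndex φ'.range := Subgroup.index_comap _ _
      rw [h2, Subgroup.relIndex]
      congr 1
      exact Subgroup.comap_map_eq_self_of_injective φ'.range.subtype_injective _
    rw [h1]
    exact S.not_dvd_index
  have hfin : G₁.index ≠ 0 := fun h => hidx (h ▸ dvd_zero p)
  have : G₁.FiniteIndex := ⟨hfin⟩
  have : Fintype (G ⧸ G₁) := Fintype.ofFinite _
  let P₁ : Subgroup Aˣ := (S'.comap π).map P.subtype
  have hle : P₁ ≤ P := Subgroup.map_subtype_le _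
  have hmem : ∀ u : P, (u : Aˣ) ∈ P₁ ↔ π u ∈ S' := by
    intro u
    constructor
    · rintro ⟨w, hw, hwu⟩
      have h1 : w = u := Subtype.ext hwu
      rw [← h1]
      exact hw
    · intro h
      exact ⟨u, h, rfl⟩
  have hP₁ : ∀ u : Aˣ, (∃ a : A, (u : A) = 1 + (p : A) ^ k * a) → u ∈ P₁ := by
    intro u hu
    refine (hmem ⟨u, hP u hu⟩).2 ?_
    have h1 : (⟨u, hP u hu⟩ : P) ∈ T.U 0 := (hT 0 _).2 (by simpa using hu)
    have h2 : π ⟨u, hP u hu⟩ = 1 := (QuotientGroup.eq_one_iff _).2 h1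
    rw [h2]
    exact one_mem _
  let φ₁ : G₁ →* P₁ :=
    { toFun := fun g => ⟨(φ g : Aˣ), (hmem (φ g)).2 g.2⟩
      map_one' := by ext; simp
      map_mul' := by intro g h; ext; simp }
  have hφ₁ : Function.Injective φ₁ := by
    intro g h hgh
    have h1 : (φ g : Aˣ) = (φ h : Aˣ) := congrArg (fun x : P₁ => (x : Aˣ)) hgh
    exact Subtype.ext (hφ (Subtype.ext h1))
  let f₁ : P₁ → ℤ_[p] := fun u => f ⟨Units.map (RingHom.id A : A →* A) u, by
    have h1 : Units.map (RingHom.id A : A →* A) (u : Aˣ) = u := by ext; rfl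
    rw [h1]; exact hle u.2⟩
  have hf₁ : f₁ ∈ AC p P₁ := by
    exact AC.comap p P₁ P (RingHom.id A) _ hf
  have hf₁' : ∀ u : P₁, f₁ u = f ⟨u, hle u.2⟩ := by
    intro u
    rfl
  obtain ⟨B₀, hB₀⟩ := exists_int (Pool.Agent.TH107.AT.res G₁ B) (by
    intro k i x
    exact hB _ _ _)
  obtain ⟨z, hz⟩ := pro_p P₁ k φ₁ f₁ c hk hP₁ hφ₁ hf₁ (by rw [hf₁', ← hf1]; rfl)
    (by
      intro t ht a hta
      rw [hf₁']
      refine hf0 ⟨t, hle t.2⟩ ?_ a ?_
      · intro h
        apply ht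
        have h1 : (t : Aˣ) = 1 := congrArg (fun x : P => (x : Aˣ)) h
        exact Subtype.ext h1
      · have h1 : ((t ^ (p ^ a) : P₁) : Aˣ) = 1 := by rw [hta]; rfl
        apply Subtype.ext
        simpa using h1)
    (by
      intro W hW
      let π₁ : P₁ →* (P ⧸ T.U 0) := π.comp (Subgroup.inclusion hle)
      have h1 : W = π₁.ker := by
        ext u
        rw [hW, MonoidHom.mem_ker]
        change _ ↔ ((Subgroup.inclusion hle u : P) : P ⧸ T.U 0) = 1
        rw [QuotientGroup.eq_one_iff, hT]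
        simp
      have h2 : π₁.range = S' := by
        ext x
        constructor
        · rintro ⟨u, rfl⟩
          exact (hmem (Subgroup.inclusion hle u)).1 u.2
        · intro hx
          obtain ⟨u, rfl⟩ := hπs x
          exact ⟨⟨u, (hmem u).2 hx⟩, rfl⟩
      rw [h1, Subgroup.index_ker, h2]
      exact IsPGroup.iff_card.1 hS')
    B₀
  rw [hB₀, Pool.Agent.TH107.AT.vdim_res] at hz
  refine ⟨Fintype.card (G ⧸ G₁), ?_, z, hz⟩
  rw [← Nat.card_eq_fintype_card]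
  exact hidx

end Sx

theorem Good.local (p : ℕ) [Fact p.Prime] (G : Type) [Group G] (hG : Good p G) (d : ℕ)
    (hd : ∀ H : Subgroup G, Finite H → Nat.card H ∣ d) (v : ℝ)
    (hv : Val (Int.castRingHom ℂ).range G v) : ∃ q : ℕ, ¬ p ∣ q ∧ ∃ z : ℤ, (q : ℝ) * d * v = z := by
  obtain ⟨A, _, _, _, _, P, k, φ, f, c, hk, hP, hφ, hf, hf1, hf0, hdvd⟩ := hG
  obtain ⟨m, n, B, hB, rfl⟩ := hv
  obtain ⟨q, hq, z, hz⟩ := Sx.aux P k φ f c hk hP hφ hf hf1 hf0 B hB
  obtain ⟨q', hq', e, he⟩ := hdvd d hd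
  refine ⟨q' * q, ?_, e * z, ?_⟩
  · intro h
    rcases (Fact.out : p.Prime).dvd_mul.1 h with h | h
    · exact hq' h
    · exact hq h
  · have he' : (q' : ℝ) * d = c * e := by exact_mod_cast he
    push_cast
    linear_combination (q * vdim (kerA B)) * he' + (e : ℝ) * hz

end Pool.Agent.H371.SA
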