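import Pool.Agent.H371.SA.TS
import Pool.Agent.H371.SA.TR

set_option autoImplicit false

namespace Pool.Agent.H371.SA

open Filter Topology
open Pool.Agent.H80R2.BC (L2 GMat vdim kerA Coef act)
open Pool.Agent.W656.VA

namespace Tx

/-- local integrality at all primes gives integrality -/
theorem int_of_local (w : ℝ) (h : ∀ p : ℕ, p.Prime → ∃ q : ℕ, ¬ p ∣ q ∧ ∃ z : ℤ, (q : ℝ) * w = z) :
    ∃ z : ℤ, w = z := by
  let I : Ideal ℤ :=
    { carrier := {n | ∃ z : ℤ, (n : ℝ) * w = z}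
      add_mem' := by
        rintro a b ⟨x, hx⟩ ⟨y, hy⟩
        exact ⟨x + y, by push_cast; rw [add_mul, hx, hy]⟩
      zero_mem' := ⟨0, by simp⟩
      smul_mem' := by
        rintro c a ⟨x, hx⟩
        exact ⟨c * x, by simp only [smul_eq_mul]; push_cast; rw [mul_assoc, hx]⟩ }
  have hI : ∀ n, n ∈ I ↔ ∃ z : ℤ, (n : ℝ) * w = z := fun _ => Iff.rfl
  obtain ⟨g, hg⟩ := (IsPrincipalIdealRing.principal I).principal
  have hg1 : g.natAbs = 1 := by
    by_contra hne
    obtain ⟨p, hp, hpg⟩ := Nat.exists_prime_and_dvd hne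
    obtain ⟨q, hq, hz⟩ := h p hp
    have h1 : (q : ℤ) ∈ I := (hI _).2 (by exact_mod_cast hz)
    rw [hg, Ideal.submodule_span_eq, Ideal.mem_span_singleton] at h1
    apply hq
    have h2 : (p : ℤ) ∣ g := Int.natCast_dvd.2 hpg
    exact_mod_cast h2.trans h1
  have h2 : (1 : ℤ) ∈ I := by
    rw [hg, Ideal.submodule_span_eq, Ideal.mem_span_singleton]
    exact isUnit_iff_dvd_one.1 (Int.isUnit_iff_natAbs_eq.2 hg1)
  obtain ⟨z, hz⟩ := (hI 1).1 h2
  exact ⟨z, by simpa using hz⟩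

theorem exists_isLcm {G : Type} [Group G] (N : ℕ) (hN : N ≠ 0)
    (h : ∀ H : Subgroup G, Finite H → Nat.card H ∣ N) : ∃ d, IsLcm G d ∧ d ∣ N := by
  classical
  have hex : ∃ d : ℕ, d ≠ 0 ∧ ∀ H : Subgroup G, Finite H → Nat.card H ∣ d := ⟨N, hN, h⟩
  set d := Nat.find hex with hd
  obtain ⟨hd0, hd1⟩ := Nat.find_spec hex
  have h2 : ∀ e : ℕ, (∀ H : Subgroup G, Finite H → Nat.card H ∣ e) → d ∣ e := by
    intro e he
    have h3 : Nat.gcd d e ≠ 0 := fun h0 => hd0 (Nat.eq_zero_of_gcd_eq_zero_left h0)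
    have h4 := Nat.find_min' hex ⟨h3, fun H hH => Nat.dvd_gcd (hd1 H hH) (he H hH)⟩
    have h5 : Nat.gcd d e = d := le_antisymm (Nat.le_of_dvd (Nat.pos_of_ne_zero hd0)
      (Nat.gcd_dvd_left d e)) h4
    rw [← h5]
    exact Nat.gcd_dvd_right d e
  exact ⟨d, isLcm_of (Nat.pos_of_ne_zero hd0) hd1 h2, h2 N h⟩

end Tx

/-- the class of groups -/
def Cls (G : Type) [Group G] : Prop := Countable G ∧ ∀ (p : ℕ) [Fact p.Prime], Good p G

theorem Cls.prod {G H : Type} [Group G] [Group H] (hG : Cls G) (hH : Cls H) : Cls (G × H) := by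
  have := hG.1
  have := hH.1
  exact ⟨inferInstance, fun p _ => Good.prod p G H (hG.2 p) (hH.2 p)⟩

theorem Cls.free {G : Type} [Group G] (m : ℕ) (hG : Cls G) :
    Cls (Monoid.Coprod G (FreeGroup (Fin m))) := by
  have := hG.1
  refine ⟨?_, fun p _ => Good.coprod_free p G m (hG.2 p)⟩
  exact (Con.mk'_surjective (c := Monoid.coprodCon G (FreeGroup (Fin m)))).countable

theorem main (G : Type) [Group G] [Countable G] (hG : ∀ (p : ℕ) [Fact p.Prime], Good p G) (d : ℕ)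
    (hd : IsLcm G d) (v : ℝ) (hv : Val (⊤ : Subring ℂ) G v) : ∃ z : ℤ, (d : ℝ) * v = z := by
  refine base_change (fun G _ => Cls G) (fun G H _ _ hG hH => Cls.prod hG hH)
    (fun G _ m hG => Cls.free m hG) (Int.castRingHom ℂ).range ?_ ⊤ G ⟨inferInstance, hG⟩ d hd v hv
  intro G _ hG d hd v hv
  apply Tx.int_of_local
  intro p hp
  have : Fact p.Prime := ⟨hp⟩
  obtain ⟨q, hq, z, hz⟩ := Good.local p G (hG.2 p) d hd.2.1 v hv
  exact ⟨q, hq, z, by rw [← hz]; ring⟩

instance countable_gl (m : ℕ) : Countable (Matrix.GeneralLinearGroup (Fin m) ℤ) := by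
  have h1 : Countable (Matrix (Fin m) (Fin m) ℤ) :=
    inferInstanceAs (Countable (Fin m → Fin m → ℤ))
  exact Function.Injective.countable (f := fun u : Matrix.GeneralLinearGroup (Fin m) ℤ => (u : Matrix (Fin m) (Fin m) ℤ)) Units.val_injective

/-- in the form of the frozen statement -/
theorem main_frozen (G : Type) [Group G] [DecidableEq G] [Countable G] (hG : ∀ (p : ℕ) [Fact p.Prime], Good p G)
    (N : ℕ) (hN : ∀ H : Subgroup G, Finite H → Nat.card H ∣ N) (k n : ℕ)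
    (A : Matrix (Fin k) (Fin n) (G →₀ ℂ)) :
    ∃ z : ℤ, (N : ℝ) * ∑ j : Fin k,
      (1 - Metric.infDist
          (lp.single 2 (j, (1 : G)) (1 : ℂ) : lp (fun _ : Fin k × G => ℂ) 2)
          {x : lp (fun _ : Fin k × G => ℂ) 2 | ∀ i : Fin n, ∀ g : G,
              ∑ j' : Fin k, ∑ h ∈ (A j' i).support, x (j', g * h⁻¹) * A j' i h = 0} ^ 2)
      = (z : ℝ) := by
  rcases eq_or_ne N 0 with rfl | hN0
  · exact ⟨0, by simp⟩
  obtain ⟨d, hd, e, rfl⟩ := Tx.exists_isLcm N hN0 hN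
  let A' : GMat (Fin n) (Fin k) G := fun i j => (A j i).equivMapDomain (Equiv.inv G)
  obtain ⟨z, hz⟩ := main G hG d hd _ (val_of A' (R := ⊤) fun _ _ _ => Subring.mem_top _)
  refine ⟨e * z, ?_⟩
  push_cast
  rw [← hz]
  have hS : ({x : lp (fun _ : Fin k × G => ℂ) 2 | ∀ i : Fin n, ∀ g : G,
      ∑ j' : Fin k, ∑ h ∈ (A j' i).support, x (j', g * h⁻¹) * A j' i h = 0} :
      Set (lp (fun _ : Fin k × G => ℂ) 2)) = (kerA A' : Set (L2 (Fin k × G))) := by
    ext x
    change _ ↔ ∀ i g, act A' x i g = 0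
    refine forall_congr' fun i => forall_congr' fun g => ?_
    have : act A' x i g = ∑ j' : Fin k, ∑ h ∈ (A j' i).support, x (j', g * h⁻¹) * A j' i h := by
      unfold act
      refine Finset.sum_congr rfl fun j _ => ?_
      change ((A j i).equivMapDomain (Equiv.inv G)).sum _ = _
      rw [Finsupp.sum_equivMapDomain, Finsupp.sum]
      refine Finset.sum_congr rfl fun h _ => ?_
      rw [mul_comm]
      rfl
    rw [this]
  have hv : vdim (kerA A') = ∑ j : Fin k,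
      (1 - Metric.infDist
          (lp.single 2 (j, (1 : G)) (1 : ℂ) : lp (fun _ : Fin k × G => ℂ) 2)
          {x : lp (fun _ : Fin k × G => ℂ) 2 | ∀ i : Fin n, ∀ g : G,
              ∑ j' : Fin k, ∑ h ∈ (A j' i).support, x (j', g * h⁻¹) * A j' i h = 0} ^ 2) := by
    unfold vdim
    rw [hS]
    refine Finset.sum_congr rfl fun j _ => ?_
    have e : Pool.Agent.H80R2.BC.dl G j =
        (lp.single 2 (j, (1 : G)) (1 : ℂ) : lp (fun _ : Fin k × G => ℂ) 2) := by
      unfold Pool.Agent.H80R2.BC.dl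
      congr 1
      exact Subsingleton.elim _ _
    rw [e]
  rw [← hv]
  ring

end Pool.Agent.H371.SA
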